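import Pool.Agent.Lib.MP_bbe012_lc.PG.A3
import Pool.Agent.Lib.MP_bbe012_lc.PG.BSer

/-!
# Uniform expansions of real analytic functions on compact sets
-/

namespace Pool.Agent.Lib.MP_bbe012_lc.PH

open MeasureTheory Set PG

private theorem ha1_regroup {β γ : Type} {c : β → ℝ} {a : ℝ} (h : HasSum c a) (g : β → γ)
    (D : γ → Finset β) (hD : ∀ y x, g x = y ↔ x ∈ D y) : HasSum (fun y => ∑ x ∈ D y, c x) a := by
  have h1 : HasSum (c ∘ (Equiv.sigmaFiberEquiv g)) a := (Equiv.hasSum_iff _).mpr h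
  refine h1.sigma fun y => ?_
  have h2 : HasSum (c ∘ ((↑) : {x // x ∈ D y} → β)) (∑ b ∈ D y, c b) := Finset.hasSum (D y) c
  have h3 := (Equiv.hasSum_iff (Equiv.subtypeEquivRight (fun x => hD y x))).mpr h2
  exact h3

private noncomputable def ha1D (s : ℕ) (n : ℕ) : Finset (Fin s → ℕ) :=
  ((finite_dg_lt (ι := Fin s) (n + 1)).toFinset).filter (fun b => dg b = n)

private theorem ha1D_mem {s n : ℕ} {b : Fin s → ℕ} : dg b = n ↔ b ∈ ha1D s n := by
  unfold ha1D
  rw [Finset.mem_filter, Set.Finite.mem_toFinset]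
  constructor
  · intro h
    exact ⟨by show dg b < n + 1; omega, h⟩
  · intro h
    exact h.2

private theorem ha1D_card (s n : ℕ) : ((ha1D s n).card : ℝ) ≤ 2 ^ s * 2 ^ n := by
  have h1 := hasSum_pow_dg (ι := Fin s) (y := 1 / 2) (by norm_num) (by norm_num)
  have h2 : ∑ b ∈ ha1D s n, (1 / 2 : ℝ) ^ dg b ≤ ((1 - 1 / 2 : ℝ))⁻¹ ^ Fintype.card (Fin s) :=
    sum_le_hasSum _ (fun b _ => by positivity) h1
  have h3 : ∑ b ∈ ha1D s n, (1 / 2 : ℝ) ^ dg b = (ha1D s n).card * (1 / 2) ^ n := by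
    rw [← nsmul_eq_mul, ← Finset.sum_const]
    exact Finset.sum_congr rfl fun b hb => by rw [ha1D_mem.mpr hb]
  rw [h3, Fintype.card_fin] at h2
  have h4 : ((1 - 1 / 2 : ℝ))⁻¹ = 2 := by norm_num
  rw [h4] at h2
  have h5 : ((ha1D s n).card : ℝ) = (ha1D s n).card * (1 / 2) ^ n * 2 ^ n := by
    rw [mul_assoc, ← mul_pow]
    norm_num
  rw [h5]
  exact mul_le_mul_of_nonneg_right h2 (by positivity)

/-- the number of letters `i` in the word `w` -/
private def ha1cnt {s n : ℕ} (w : Fin n → Fin s) (i : Fin s) : ℕ :=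
  (Finset.univ.filter fun j => w j = i).card

private theorem ha1cnt_dg {s n : ℕ} (w : Fin n → Fin s) : dg (ha1cnt w) = n := by
  unfold dg ha1cnt
  have h := Finset.card_eq_sum_card_fiberwise (s := (Finset.univ : Finset (Fin n)))
    (t := (Finset.univ : Finset (Fin s))) (f := w) (fun j _ => Finset.mem_coe.mpr (Finset.mem_univ _))
  rw [← h, Finset.card_univ, Fintype.card_fin]

private theorem ha1cnt_mon {s n : ℕ} (w : Fin n → Fin s) (v : Fin s → ℝ) :
    mon v (ha1cnt w) = ∏ j, v (w j) := by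
  unfold mon ha1cnt
  rw [← Finset.prod_fiberwise (s := Finset.univ) (g := w) (f := fun j => v (w j))]
  refine Finset.prod_congr rfl fun i _ => ?_
  rw [Finset.prod_congr rfl (g := fun _ => v i) (fun j hj => by rw [(Finset.mem_filter.mp hj).2]),
    Finset.prod_const]

/-- coefficients -/
private noncomputable def ha1nu {s : ℕ} (p : FormalMultilinearSeries ℝ (Fin s → ℝ) ℝ) (n : ℕ)
    (b : Fin s → ℕ) : ℝ :=
  ∑ w : Fin n → Fin s, if ha1cnt w = b then p n (fun j => Pi.single (w j) (1 : ℝ)) else 0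

private theorem ha1nu_sum {s : ℕ} (p : FormalMultilinearSeries ℝ (Fin s → ℝ) ℝ) (n : ℕ)
    (v : Fin s → ℝ) :
    ∑ b ∈ ha1D s n, ha1nu p n b * mon v b = p n (fun _ => v) := by
  classical
  have hv : v = ∑ i, v i • (Pi.single i (1 : ℝ) : Fin s → ℝ) := by
    funext j
    rw [Finset.sum_apply, Finset.sum_eq_single j]
    · simp
    · intro i _ hi
      simp [Pi.single_eq_of_ne hi.symm]
    · intro hj
      exact absurd (Finset.mem_univ j) hj
  have h1 : p n (fun _ => v) = ∑ w : Fin n → Fin s, (∏ j, v (w j)) *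
      p n (fun j => Pi.single (w j) (1 : ℝ)) := by
    conv_lhs => rw [hv]
    rw [ContinuousMultilinearMap.map_sum]
    refine Finset.sum_congr rfl fun w _ => ?_
    rw [ContinuousMultilinearMap.map_smul_univ, smul_eq_mul]
  rw [h1]
  unfold ha1nu
  simp only [Finset.sum_mul]
  rw [Finset.sum_comm]
  refine Finset.sum_congr rfl fun w _ => ?_
  rw [Finset.sum_eq_single (ha1cnt w)]
  · rw [if_pos rfl, ha1cnt_mon, mul_comm]
  · intro b _ hb
    rw [if_neg (fun h => hb h.symm), zero_mul]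
  · intro hb
    exact absurd (ha1D_mem.mp (ha1cnt_dg w)) hb

private theorem ha1nu_bound {s : ℕ} (p : FormalMultilinearSeries ℝ (Fin s → ℝ) ℝ) (n : ℕ)
    (b : Fin s → ℕ) : |ha1nu p n b| ≤ (s : ℝ) ^ n * ‖p n‖ := by
  classical
  unfold ha1nu
  refine (Finset.abs_sum_le_sum_abs _ _).trans ?_
  have h1 : ∀ w : Fin n → Fin s,
      |if ha1cnt w = b then p n (fun j => Pi.single (w j) (1 : ℝ)) else 0| ≤ ‖p n‖ := by
    intro w
    split_ifs
    · have h2 := (p n).le_opNorm (fun j => (Pi.single (w j) (1 : ℝ) : Fin s → ℝ))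
      rw [← Real.norm_eq_abs]
      refine h2.trans ?_
      have h3 : ∏ j, ‖(Pi.single (w j) (1 : ℝ) : Fin s → ℝ)‖ ≤ 1 := by
        refine Finset.prod_le_one (fun _ _ => norm_nonneg _) fun j _ => ?_
        rw [pi_norm_le_iff_of_nonneg zero_le_one]
        intro i
        by_cases hi : i = w j
        · rw [hi, Pi.single_eq_same, norm_one]
        · rw [Pi.single_eq_of_ne hi, norm_zero]
          exact zero_le_one
      calc ‖p n‖ * ∏ j, ‖(Pi.single (w j) (1 : ℝ) : Fin s → ℝ)‖ ≤ ‖p n‖ * 1 :=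
            mul_le_mul_of_nonneg_left h3 (norm_nonneg _)
        _ = ‖p n‖ := mul_one _
    · rw [abs_zero]
      exact norm_nonneg _
  refine (Finset.sum_le_sum fun w _ => h1 w).trans ?_
  rw [Finset.sum_const, Finset.card_univ, Fintype.card_fun, Fintype.card_fin, Fintype.card_fin,
    nsmul_eq_mul]
  push_cast
  exact le_rfl

/-- A power series expansion in the sense of Mathlib gives an expansion in monomials.

Proof. Let `p` be the power series of `f` on the ball of radius `ρ` (sup norm) around `θ₀`, `‖p n‖ ≤ C a ^ n` for some `a > 0` (`FormalMultilinearSeries.norm_le_div_pow_of_pos_of_lt_radius`-like: choose `0 < r₁ < radius`). For `v = ∑ i, v i • e_i`: `p n (v, ..., v) = ∑ w : Fin n → Fin s, (∏ j, v (w j)) * p n (e ∘ w)`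
(`ContinuousMultilinearMap.map_sum`, `map_smul_univ`). Let `ν b = ∑ w : Fin (dg b) → Fin s with (∀ i, card {j | w j = i} = b i), p (dg b) (e ∘ w)`: `|ν b| ≤ s ^ dg b * C a ^ dg b`. For `|v i| < r`, `r` small (`s² a r < 1/2` or so) everything is absolutely summable and regrouping (`HasSum.sigma`, or `Summable` over the sigma type of all words `w`)
gives `HasSum (fun b => ν b * mon v b) (f (θ₀ + v))`. -/
theorem exists_Exp {s : ℕ} {f : (Fin s → ℝ) → ℝ} {θ₀ : Fin s → ℝ} (hf : AnalyticAt ℝ f θ₀) :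
    ∃ (r B : ℝ) (ν : (Fin s → ℕ) → ℝ), 0 < r ∧ 0 ≤ B ∧ Exp r B θ₀ f ν := by
  obtain ⟨p, ρ, hp⟩ := hf
  obtain ⟨r₁, hr₁0, hr₁⟩ := ENNReal.lt_iff_exists_nnreal_btwn.mp hp.r_pos
  have hr₁pos : (0 : ℝ) < r₁ := by
    have : (0 : NNReal) < r₁ := by exact_mod_cast hr₁0
    exact_mod_cast this
  obtain ⟨C, hC, hb⟩ := p.norm_mul_pow_le_of_lt_radius (hr₁.trans_le hp.r_le)
  let r : ℝ := r₁ / (2 * (s + 1))
  have hr : 0 < r := by positivity
  have hs1 : (0 : ℝ) < s + 1 := by positivity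
  have hνb : ∀ b, |ha1nu p (dg b) b| ≤ C * (((s : ℝ) / r₁)) ^ dg b := by
    intro b
    refine (ha1nu_bound p (dg b) b).trans ?_
    have h1 : ‖p (dg b)‖ ≤ C / (r₁ : ℝ) ^ dg b := by
      rw [le_div_iff₀ (pow_pos hr₁pos _)]
      exact hb _
    calc (s : ℝ) ^ dg b * ‖p (dg b)‖ ≤ (s : ℝ) ^ dg b * (C / (r₁ : ℝ) ^ dg b) :=
          mul_le_mul_of_nonneg_left h1 (by positivity)
      _ = C * (((s : ℝ) / r₁)) ^ dg b := by rw [div_pow]; ring
  refine ⟨r, C, fun b => ha1nu p (dg b) b, hr, hC.le, ⟨fun b => ?_, fun v hv => ?_⟩⟩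
  · refine (hνb b).trans (mul_le_mul_of_nonneg_left ?_ hC.le)
    refine pow_le_pow_left₀ (by positivity) ?_ _
    show (s : ℝ) / r₁ ≤ ((r₁ : ℝ) / (2 * (s + 1)))⁻¹
    rw [inv_div, div_le_div_iff_of_pos_right hr₁pos]
    linarith
  · -- summability
    have hsum : Summable (fun b : Fin s → ℕ => ha1nu p (dg b) b * mon v b) := by
      have h1 := (hasSum_pow_dg (ι := Fin s) (y := 1 / 2) (by norm_num) (by norm_num)).summable.mul_left C
      refine Summable.of_norm_bounded h1 fun b => ?_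
      rw [Real.norm_eq_abs, abs_mul]
      have h2 : |mon v b| ≤ r ^ dg b := abs_mon_le (fun i => (hv i).le) b
      calc |ha1nu p (dg b) b| * |mon v b| ≤ (C * (((s : ℝ) / r₁)) ^ dg b) * r ^ dg b :=
            mul_le_mul (hνb b) h2 (abs_nonneg _) (by positivity)
        _ = C * (((s : ℝ) / r₁) * r) ^ dg b := by rw [mul_pow]; ring
        _ ≤ C * (1 / 2) ^ dg b := by
            refine mul_le_mul_of_nonneg_left (pow_le_pow_left₀ (by positivity) ?_ _) hC.le
            show (s : ℝ) / r₁ * (r₁ / (2 * (s + 1))) ≤ 1 / 2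
            rw [div_mul_div_comm, div_le_div_iff₀ (by positivity) (by norm_num)]
            nlinarith
    have h3 := ha1_regroup hsum.hasSum (fun b => dg b) (ha1D s) (fun _ _ => ha1D_mem)
    have h4 : (fun n => ∑ b ∈ ha1D s n, ha1nu p (dg b) b * mon v b) = fun n => p n (fun _ => v) := by
      funext n
      rw [← ha1nu_sum p n v]
      exact Finset.sum_congr rfl fun b hb => by rw [ha1D_mem.mpr hb]
    rw [h4] at h3
    have h5 : v ∈ Metric.eball (0 : Fin s → ℝ) ρ := by
      rw [Metric.mem_eball, edist_zero_right]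
      refine lt_of_le_of_lt ?_ hr₁
      rw [← ofReal_norm, ENNReal.ofReal_le_iff_le_toReal ENNReal.coe_ne_top, ENNReal.coe_toReal,
        pi_norm_le_iff_of_nonneg hr₁pos.le]
      intro i
      rw [Real.norm_eq_abs]
      refine (hv i).le.trans ?_
      show (r₁ : ℝ) / (2 * (s + 1)) ≤ r₁
      exact div_le_self hr₁pos.le (by nlinarith [Nat.cast_nonneg (α := ℝ) s])
    have h6 := hp.hasSum h5
    have h7 := h6.unique h3
    rw [h7]
    exact hsum.hasSum

/-- a word with prescribed numbers of letters -/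
private def ha1w {s : ℕ} (b : Fin s → ℕ) : Fin (dg b) → Fin s :=
  fun j => (finSigmaFinEquiv.symm j).1

private theorem ha1w_mon {s : ℕ} (b : Fin s → ℕ) (v : Fin s → ℝ) :
    ∏ j, v (ha1w b j) = mon v b := by
  unfold mon ha1w
  have h1 := Equiv.prod_comp (finSigmaFinEquiv (n := b)).symm (fun x => v x.1)
  refine h1.trans ?_
  rw [Fintype.prod_sigma]
  refine Finset.prod_congr rfl fun i _ => ?_
  show ∏ _y : Fin (b i), v i = v i ^ b i
  rw [Finset.prod_const, Finset.card_univ, Fintype.card_fin]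

private noncomputable def ha1M {s : ℕ} (n : ℕ) (b : Fin s → ℕ) :
    ContinuousMultilinearMap ℝ (fun _ : Fin n => (Fin s → ℝ)) ℝ :=
  if h : dg b = n then
    (ContinuousMultilinearMap.mkPiAlgebraFin ℝ n ℝ).compContinuousLinearMap
      (fun j => ContinuousLinearMap.proj (R := ℝ) (φ := fun _ : Fin s => ℝ) (ha1w b (Fin.cast h.symm j)))
  else 0

private theorem ha1M_apply {s : ℕ} (n : ℕ) (b : Fin s → ℕ) (h : dg b = n) (v : Fin s → ℝ) :
    ha1M n b (fun _ => v) = mon v b := by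
  subst h
  unfold ha1M
  rw [dif_pos rfl, ContinuousMultilinearMap.compContinuousLinearMap_apply,
    ContinuousMultilinearMap.mkPiAlgebraFin_apply, List.prod_ofFn, ← ha1w_mon]
  rfl

private theorem ha1M_norm {s : ℕ} (n : ℕ) (b : Fin s → ℕ) : ‖ha1M n b‖ ≤ 1 := by
  unfold ha1M
  split_ifs with h
  · refine (ContinuousMultilinearMap.norm_compContinuousLinearMap_le _ _).trans ?_
    rw [ContinuousMultilinearMap.norm_mkPiAlgebraFin, one_mul]
    refine Finset.prod_le_one (fun _ _ => norm_nonneg _) fun j _ => ?_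
    refine ContinuousLinearMap.opNorm_le_bound _ zero_le_one fun x => ?_
    rw [one_mul]
    exact norm_le_pi_norm x _
  · rw [norm_zero]
    exact zero_le_one

/-- Conversely an expansion in monomials gives analyticity. Proof. For `b` with `dg b = n` choose a word `w_b : Fin n → Fin s` with `b i` letters `i`, and let `M_b (v_1, ..., v_n) = ∏ j, v_j (w_b j)` (`ContinuousMultilinearMap.mkPiAlgebra ℝ (Fin n) ℝ` composed with the projections
`ContinuousLinearMap.proj (w_b j)`), of norm at most `1`; `p n = ∑ b with dg b = n, ν b • M_b` (a finite set, `finite_dg_lt`), `‖p n‖ ≤ (number of b) B r⁻¹ ^ n`, and the number of `b` of degree `n` is at most `(n + 1) ^ s`; so the radius of convergence is at least `r / 2`. `HasFPowerSeriesOnBall`: regroup the sum by the degree. -/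
theorem Exp.analyticAt {s : ℕ} {r B : ℝ} {θ₀ : Fin s → ℝ} {f : (Fin s → ℝ) → ℝ} {ν : (Fin s → ℕ) → ℝ}
    (h : Exp r B θ₀ f ν) (hr : 0 < r) (hB : 0 ≤ B) : AnalyticAt ℝ f θ₀ := by
  let p : FormalMultilinearSeries ℝ (Fin s → ℝ) ℝ := fun n => ∑ b ∈ ha1D s n, ν b • ha1M n b
  let r' : NNReal := ⟨r / 2, by positivity⟩
  have hr' : (r' : ℝ) = r / 2 := rfl
  refine ⟨p, (r' : ENNReal), ⟨?_, ?_, ?_⟩⟩
  · refine p.le_radius_of_bound (2 ^ s * B) fun n => ?_
    have h1 : ‖p n‖ ≤ 2 ^ s * 2 ^ n * (B * r⁻¹ ^ n) := by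
      refine (norm_sum_le _ _).trans ?_
      have h2 : ∀ b ∈ ha1D s n, ‖ν b • ha1M n b‖ ≤ B * r⁻¹ ^ n := by
        intro b hb
        rw [norm_smul, Real.norm_eq_abs]
        have h3 := h.bound b
        rw [ha1D_mem.mpr hb] at h3
        calc |ν b| * ‖ha1M n b‖ ≤ (B * r⁻¹ ^ n) * 1 :=
              mul_le_mul h3 (ha1M_norm n b) (norm_nonneg _) (by positivity)
          _ = B * r⁻¹ ^ n := mul_one _
      refine (Finset.sum_le_sum h2).trans ?_
      rw [Finset.sum_const, nsmul_eq_mul]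
      exact mul_le_mul_of_nonneg_right (ha1D_card s n) (by positivity)
    rw [hr']
    calc ‖p n‖ * (r / 2) ^ n ≤ 2 ^ s * 2 ^ n * (B * r⁻¹ ^ n) * (r / 2) ^ n :=
          mul_le_mul_of_nonneg_right h1 (by positivity)
      _ = 2 ^ s * B * (2 * r⁻¹ * (r / 2)) ^ n := by rw [mul_pow, mul_pow]; ring
      _ = 2 ^ s * B := by
          have : 2 * r⁻¹ * (r / 2) = 1 := by field_simp
          rw [this, one_pow, mul_one]
  · have : (0 : NNReal) < r' := by
      show (0 : ℝ) < r / 2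
      positivity
    exact_mod_cast this
  · intro y hy
    rw [Metric.mem_eball, edist_zero_right, ← ofReal_norm,
      ENNReal.ofReal_lt_iff_lt_toReal (norm_nonneg _) ENNReal.coe_ne_top, ENNReal.coe_toReal] at hy
    have hyi : ∀ i, |y i| < r := by
      intro i
      have h1 := norm_le_pi_norm y i
      rw [Real.norm_eq_abs] at h1
      rw [hr'] at hy
      linarith
    have h2 := ha1_regroup (h.sum y hyi) (fun b => dg b) (ha1D s) (fun _ _ => ha1D_mem)
    have h3 : (fun n => p n (fun _ => y)) = fun n => ∑ b ∈ ha1D s n, ν b * mon y b := by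
      funext n
      show (∑ b ∈ ha1D s n, ν b • ha1M n b) (fun _ => y) = _
      rw [_root_.sum_apply]
      refine Finset.sum_congr rfl fun b hb => ?_
      rw [_root_.smul_apply, ha1M_apply n b (ha1D_mem.mpr hb), smul_eq_mul]
    rw [h3]
    exact h2

/-- product of binomial coefficients -/
private noncomputable def ha1ch {s : ℕ} (b c : Fin s → ℕ) : ℝ := ∏ i, ((b i).choose (c i) : ℝ)

private theorem ha1ch_nonneg {s : ℕ} (b c : Fin s → ℕ) : 0 ≤ ha1ch b c :=
  Finset.prod_nonneg fun _ _ => Nat.cast_nonneg _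

private theorem ha1ch_le {s : ℕ} (b c : Fin s → ℕ) : ha1ch b c ≤ 2 ^ dg b := by
  unfold ha1ch dg
  rw [← Finset.prod_pow_eq_pow_sum]
  refine Finset.prod_le_prod (fun _ _ => Nat.cast_nonneg _) fun i _ => ?_
  exact_mod_cast Nat.choose_le_two_pow (b i) (c i)

/-- the terms of the double series -/
private noncomputable def ha1G {s : ℕ} (ν : (Fin s → ℕ) → ℝ) (k : Fin s → ℝ) (c b : Fin s → ℕ) : ℝ :=
  ν (b + c) * ha1ch (b + c) c * mon k b

private theorem ha1G_bound {s : ℕ} {r B : ℝ} {ν : (Fin s → ℕ) → ℝ}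
    (hν : ∀ b, |ν b| ≤ B * r⁻¹ ^ dg b) (hr : 0 < r) (hB : 0 ≤ B) {k : Fin s → ℝ}
    (hk : ∀ i, |k i| ≤ r / 4) (c b : Fin s → ℕ) :
    |ha1G ν k c b| ≤ B * (2 / r) ^ dg c * (1 / 2) ^ dg b := by
  unfold ha1G
  rw [abs_mul, abs_mul, abs_of_nonneg (ha1ch_nonneg _ _)]
  have h1 := hν (b + c)
  have h2 := ha1ch_le (b + c) c
  have h3 := abs_mon_le hk b
  calc |ν (b + c)| * ha1ch (b + c) c * |mon k b|
      ≤ (B * r⁻¹ ^ dg (b + c)) * 2 ^ dg (b + c) * (r / 4) ^ dg b := by
        refine mul_le_mul (mul_le_mul h1 h2 (ha1ch_nonneg _ _) (by positivity)) h3 (abs_nonneg _)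
          (by positivity)
    _ = B * (2 / r) ^ dg c * (r⁻¹ * 2 * (r / 4)) ^ dg b := by
        rw [dg_add, pow_add, pow_add, div_eq_mul_inv 2 r, mul_pow 2 r⁻¹, mul_pow (r⁻¹ * 2),
          mul_pow r⁻¹ 2]
        ring
    _ = B * (2 / r) ^ dg c * (1 / 2) ^ dg b := by
        have : r⁻¹ * 2 * (r / 4) = 1 / 2 := by field_simp; norm_num
        rw [this]

private theorem ha1_binom {s : ℕ} (k h : Fin s → ℝ) (b : Fin s → ℕ) :
    ∑ c ∈ Fintype.piFinset (fun i => Finset.range (b i + 1)),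
      ha1ch b c * mon k (b - c) * mon h c = mon (k + h) b := by
  classical
  unfold mon ha1ch
  have h1 : ∀ i, (k + h) i ^ b i = ∑ c ∈ Finset.range (b i + 1),
      ((b i).choose c : ℝ) * k i ^ (b i - c) * h i ^ c := by
    intro i
    rw [Pi.add_apply, add_comm, add_pow]
    refine Finset.sum_congr rfl fun c _ => ?_
    ring
  rw [Finset.prod_congr rfl (fun i _ => h1 i), Finset.prod_univ_sum]
  refine Finset.sum_congr rfl fun c _ => ?_
  rw [← Finset.prod_mul_distrib, ← Finset.prod_mul_distrib]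
  rfl

/-- the pairs `(c, b')` with `b' + c = b` -/
private noncomputable def ha1P {s : ℕ} (b : Fin s → ℕ) : Finset ((Fin s → ℕ) × (Fin s → ℕ)) :=
  (Fintype.piFinset (fun i => Finset.range (b i + 1))).map
    ⟨fun c => (c, b - c), fun _ _ h => (Prod.ext_iff.mp h).1⟩

private theorem ha1P_mem {s : ℕ} (b : Fin s → ℕ) (x : (Fin s → ℕ) × (Fin s → ℕ)) :
    x.2 + x.1 = b ↔ x ∈ ha1P b := by
  unfold ha1P
  rw [Finset.mem_map]
  constructor
  · rintro rfl
    refine ⟨x.1, ?_, ?_⟩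
    · rw [Fintype.mem_piFinset]
      intro i
      rw [Finset.mem_range, Pi.add_apply]
      omega
    · show (x.1, x.2 + x.1 - x.1) = x
      rw [add_tsub_cancel_right]
  · rintro ⟨c, hc, rfl⟩
    rw [Fintype.mem_piFinset] at hc
    funext i
    show b i - c i + c i = b i
    have := hc i
    rw [Finset.mem_range] at this
    omega

/-- Re-expansion of an expansion at nearby points: explicit Taylor coefficients.

Proof. For `|k i| ≤ r / 4` put `ν' c = ∑ b, ν (b + c) * (∏ i, (b i + c i).choose (c i)) * mon k b` (absolutely summable: `|ν (b + c)| ≤ B r⁻¹ ^ (dg b + dg c)`, the product of the binomial coefficients is at most `2 ^ (dg b + dg c)`, so the sum of the absolute values is at most `B (2 / r) ^ dg c ∑ b, (1 / 2) ^ dg b = 2 ^ s B (2 / r) ^ dg c`).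
`mon (k + v) b = ∑ c ≤ b, (∏ i, (b i).choose (c i)) mon k (b - c) mon v c` (binomial formula), absolutely summable for `|v i| < r / 4`, so `f (θ₀ + k + v) = ∑ c, ν' c mon v c`. -/
theorem Exp.shift {s : ℕ} {r B : ℝ} {θ₀ : Fin s → ℝ} {f : (Fin s → ℝ) → ℝ} {ν : (Fin s → ℕ) → ℝ}
    (h : Exp r B θ₀ f ν) (hr : 0 < r) (hB : 0 ≤ B) :
    ∃ m : (Fin s → ℝ) → (Fin s → ℕ) → ℝ,
      LA {θ : Fin s → ℝ | ∀ i, |θ i - θ₀ i| ≤ r / 4} (r / 4) (2 ^ s * B) f m := by
  classical
  have hhalf : HasSum (fun b : Fin s → ℕ => (1 / 2 : ℝ) ^ dg b) (2 ^ s) := by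
    have h1 := hasSum_pow_dg (ι := Fin s) (y := 1 / 2) (by norm_num) (by norm_num)
    have h4 : ((1 - 1 / 2 : ℝ))⁻¹ = 2 := by norm_num
    rw [h4, Fintype.card_fin] at h1
    exact h1
  refine ⟨fun θ c => ∑' b, ha1G ν (θ - θ₀) c b, ⟨fun c => ?_, fun θ hθ => ⟨fun c => ?_, fun k hk => ?_⟩⟩⟩
  · refine continuousOn_tsum (u := fun b => B * (2 / r) ^ dg c * (1 / 2) ^ dg b) (fun b => ?_)
      (hhalf.summable.mul_left _) (fun b θ hθ => ?_)
    · refine Continuous.continuousOn ?_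
      unfold ha1G mon
      refine continuous_const.mul (continuous_finsetProd _ fun i _ => ?_)
      exact (((continuous_apply i).sub continuous_const)).pow _
    · rw [Real.norm_eq_abs]
      exact ha1G_bound h.bound hr hB (k := θ - θ₀) hθ c b
  · have h1 := hhalf.mul_left (B * (2 / r) ^ dg c)
    have h2 : ‖∑' b, ha1G ν (θ - θ₀) c b‖ ≤ B * (2 / r) ^ dg c * 2 ^ s := by
      refine tsum_of_norm_bounded h1 fun b => ?_
      rw [Real.norm_eq_abs]
      exact ha1G_bound h.bound hr hB (k := θ - θ₀) hθ c b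
    rw [Real.norm_eq_abs] at h2
    refine h2.trans ?_
    have h3 : (2 / r) ^ dg c ≤ (r / 4)⁻¹ ^ dg c := by
      refine pow_le_pow_left₀ (by positivity) ?_ _
      rw [inv_div, div_le_div_iff_of_pos_right hr]
      norm_num
    calc B * (2 / r) ^ dg c * 2 ^ s ≤ B * (r / 4)⁻¹ ^ dg c * 2 ^ s :=
          mul_le_mul_of_nonneg_right (mul_le_mul_of_nonneg_left h3 hB) (by positivity)
      _ = 2 ^ s * B * (r / 4)⁻¹ ^ dg c := by ring
  · -- the double series
    let F : (Fin s → ℕ) × (Fin s → ℕ) → ℝ := fun x => ha1G ν (θ - θ₀) x.1 x.2 * mon k x.1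
    have hq : ∀ c : Fin s → ℕ, (2 / r) ^ dg c * |mon k c| ≤ (1 / 2) ^ dg c := by
      intro c
      have h1 : |mon k c| ≤ (r / 4) ^ dg c := abs_mon_le (fun i => (hk i).le) c
      calc (2 / r) ^ dg c * |mon k c| ≤ (2 / r) ^ dg c * (r / 4) ^ dg c :=
            mul_le_mul_of_nonneg_left h1 (by positivity)
        _ = (1 / 2) ^ dg c := by
            rw [← mul_pow]
            have : 2 / r * (r / 4) = 1 / 2 := by field_simp; norm_num
            rw [this]
    have hFs : Summable F := by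
      have h1 : Summable (fun x : (Fin s → ℕ) × (Fin s → ℕ) =>
          ((1 / 2 : ℝ) ^ dg x.1) * ((1 / 2 : ℝ) ^ dg x.2)) :=
        Summable.mul_of_nonneg (f := fun b : Fin s → ℕ => (1 / 2 : ℝ) ^ dg b)
          (g := fun b : Fin s → ℕ => (1 / 2 : ℝ) ^ dg b) hhalf.summable hhalf.summable
          (fun _ => by positivity) (fun _ => by positivity)
      refine Summable.of_norm_bounded (h1.mul_left B) fun x => ?_
      rw [Real.norm_eq_abs]
      show |ha1G ν (θ - θ₀) x.1 x.2 * mon k x.1| ≤ _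
      rw [abs_mul]
      have h2 := ha1G_bound h.bound hr hB (k := θ - θ₀) hθ x.1 x.2
      calc |ha1G ν (θ - θ₀) x.1 x.2| * |mon k x.1|
          ≤ (B * (2 / r) ^ dg x.1 * (1 / 2) ^ dg x.2) * |mon k x.1| :=
            mul_le_mul_of_nonneg_right h2 (abs_nonneg _)
        _ = B * (((2 / r) ^ dg x.1 * |mon k x.1|) * (1 / 2) ^ dg x.2) := by ring
        _ ≤ B * ((1 / 2) ^ dg x.1 * (1 / 2) ^ dg x.2) :=
            mul_le_mul_of_nonneg_left (mul_le_mul_of_nonneg_right (hq x.1) (by positivity)) hB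
    have hS := hFs.hasSum
    -- grouping by the first variable
    have h1 : HasSum (fun c => (∑' b, ha1G ν (θ - θ₀) c b) * mon k c) (∑' x, F x) := by
      refine HasSum.prod_fiberwise (f := F) (g := fun c => (∑' b, ha1G ν (θ - θ₀) c b) * mon k c)
        hS (fun c => ?_)
      have h2 : Summable (fun b => ha1G ν (θ - θ₀) c b) := by
        refine Summable.of_norm_bounded (hhalf.summable.mul_left (B * (2 / r) ^ dg c)) fun b => ?_
        rw [Real.norm_eq_abs]
        exact ha1G_bound h.bound hr hB (k := θ - θ₀) hθ c b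
      exact h2.hasSum.mul_right (mon k c)
    -- grouping by the sum
    have h3 := ha1_regroup hS (fun x => x.2 + x.1) ha1P (fun b x => ha1P_mem b x)
    have h4 : (fun b => ∑ x ∈ ha1P b, F x) = fun b => ν b * mon ((θ - θ₀) + k) b := by
      funext b
      rw [← ha1_binom, Finset.mul_sum]
      unfold ha1P
      rw [Finset.sum_map]
      refine Finset.sum_congr rfl fun c hc => ?_
      show ν (b - c + c) * ha1ch (b - c + c) c * mon (θ - θ₀) (b - c) * mon k c = _
      have h5 : b - c + c = b := by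
        rw [Fintype.mem_piFinset] at hc
        funext i
        show b i - c i + c i = b i
        have := hc i
        rw [Finset.mem_range] at this
        omega
      rw [h5]
      ring
    rw [h4] at h3
    have h6 : ∀ i, |((θ - θ₀) + k) i| < r := by
      intro i
      have h7 : |(θ - θ₀) i| ≤ r / 4 := hθ i
      have h8 := hk i
      have h9 : |(θ - θ₀) i + k i| ≤ |(θ - θ₀) i| + |k i| := abs_add_le _ _
      rw [Pi.add_apply]
      linarith
    have h7 := h.sum _ h6
    have h8 : θ₀ + ((θ - θ₀) + k) = θ + k := by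
      rw [← add_assoc, add_sub_cancel]
    rw [h8] at h7
    rw [h7.unique h3]
    exact h1

private theorem ha1_uniq {s : ℕ} {r B r' B' : ℝ} {θ : Fin s → ℝ} {f : (Fin s → ℝ) → ℝ}
    {ν ν' : (Fin s → ℕ) → ℝ} (h : Exp r B θ f ν) (h' : Exp r' B' θ f ν') (hr : 0 < r) (hr' : 0 < r')
    (hB : 0 ≤ B) (hB' : 0 ≤ B') (b : Fin s → ℕ) : ν b = ν' b := by
  have h1 : Exp (min r r') (max B B') θ f ν :=
    (h.mono_radius (lt_min hr hr') (min_le_left _ _) hB).mono (lt_min hr hr') (le_max_left _ _)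
  have h2 : Exp (min r r') (max B B') θ f ν' :=
    (h'.mono_radius (lt_min hr hr') (min_le_right _ _) hB').mono (lt_min hr hr') (le_max_right _ _)
  have hlin := Exp.linear (J := Bool) (N := fun _ => f) (ν := fun j => if j then ν else ν')
    (r := min r r') (B := max B B') (θ₀ := θ) (fun j => by
      cases j
      · exact h2
      · exact h1) (fun j => if j then 1 else -1)
  have hz := hlin.unique (lt_min hr hr') (mul_nonneg (Finset.sum_nonneg fun _ _ => abs_nonneg _)
    (le_max_of_le_left hB)) (Filter.Eventually.of_forall fun θ' => by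
      rw [Fintype.sum_bool]
      simp) b
  rw [Fintype.sum_bool] at hz
  simp at hz
  linarith

/-- Uniform expansions on a compact set.

Proof. For every point of `S` take `r, B` from `exists_Exp` and the neighbourhood `{θ | |θ i - θ₀ i| ≤ r / 4}` from `Exp.shift`; finitely many interiors cover `S`; take the smallest `r` and the largest `B` (`Exp.mono`, `Exp.mono_radius`; if `S` is empty it is trivial). The coefficient functions of the different neighbourhoods agree where both are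
defined (uniqueness of the expansion: `Exp.unique` for the difference, BSer.lean; `Exp.linear`), so define `m θ` by `if h : ∃ ν, Exp r B θ f ν then choose else 0`; it agrees with each of the local coefficient functions on its neighbourhood, so it is continuous at every point of `S` (`ContinuousOn` on finitely many closed sets, or locally: each point of `S` is in the interior
of one of the neighbourhoods). -/
theorem exists_LA {s : ℕ} {S : Set (Fin s → ℝ)} (hS : IsCompact S) {f : (Fin s → ℝ) → ℝ}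
    (hf : AnalyticOnNhd ℝ f S) :
    ∃ (r B : ℝ) (m : (Fin s → ℝ) → (Fin s → ℕ) → ℝ), 0 < r ∧ 0 ≤ B ∧ LA S r B f m := by
  classical
  have hnb : ∀ (θ₁ : Fin s → ℝ) (ρ : ℝ), 0 < ρ → {θ : Fin s → ℝ | ∀ i, |θ i - θ₁ i| ≤ ρ} ∈ nhds θ₁ := by
    intro θ₁ ρ hρ
    have h1 : Metric.closedBall θ₁ ρ ⊆ {θ : Fin s → ℝ | ∀ i, |θ i - θ₁ i| ≤ ρ} := by
      intro θ hθ i
      have h2 := (dist_pi_le_iff hρ.le).mp (Metric.mem_closedBall.mp hθ) i
      rw [Real.dist_eq] at h2
      exact h2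
    exact Filter.mem_of_superset (Metric.closedBall_mem_nhds θ₁ hρ) h1
  have hloc : ∀ θ₁ ∈ S, ∃ (r B : ℝ) (m : (Fin s → ℝ) → (Fin s → ℕ) → ℝ), 0 < r ∧ 0 ≤ B ∧
      LA {θ : Fin s → ℝ | ∀ i, |θ i - θ₁ i| ≤ r} r B f m := by
    intro θ₁ hθ₁
    obtain ⟨r, B, ν, hr, hB, he⟩ := exists_Exp (hf θ₁ hθ₁)
    obtain ⟨m, hm⟩ := Exp.shift he hr hB
    exact ⟨r / 4, 2 ^ s * B, m, by positivity, by positivity, hm⟩
  obtain ⟨r, B, hr, hB, huni⟩ : ∃ r B : ℝ, 0 < r ∧ 0 ≤ B ∧ ∀ θ ∈ S, ∃ ν, Exp r B θ f ν := by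
    refine hS.induction_on (p := fun T => ∃ r B : ℝ, 0 < r ∧ 0 ≤ B ∧ ∀ θ ∈ T, ∃ ν, Exp r B θ f ν)
      ?_ ?_ ?_ ?_
    · exact ⟨1, 0, one_pos, le_rfl, fun θ hθ => absurd hθ (Set.notMem_empty θ)⟩
    · rintro T T' hTT' ⟨r, B, hr, hB, hu⟩
      exact ⟨r, B, hr, hB, fun θ hθ => hu θ (hTT' hθ)⟩
    · rintro T T' ⟨r, B, hr, hB, hu⟩ ⟨r', B', hr', hB', hu'⟩
      refine ⟨min r r', max B B', lt_min hr hr', le_max_of_le_left hB, ?_⟩
      rintro θ (hθ | hθ)
      · obtain ⟨ν, hν⟩ := hu θ hθ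
        exact ⟨ν, (hν.mono_radius (lt_min hr hr') (min_le_left _ _) hB).mono (lt_min hr hr')
          (le_max_left _ _)⟩
      · obtain ⟨ν, hν⟩ := hu' θ hθ
        exact ⟨ν, (hν.mono_radius (lt_min hr hr') (min_le_right _ _) hB').mono (lt_min hr hr')
          (le_max_right _ _)⟩
    · intro θ₁ hθ₁
      obtain ⟨r, B, m, hr, hB, hm⟩ := hloc θ₁ hθ₁
      exact ⟨_, mem_nhdsWithin_of_mem_nhds (hnb θ₁ r hr), r, B, hr, hB,
        fun θ hθ => ⟨m θ, hm.exp θ hθ⟩⟩
  let m : (Fin s → ℝ) → (Fin s → ℕ) → ℝ :=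
    fun θ => if h : ∃ ν, Exp r B θ f ν then Classical.choose h else 0
  have hm : ∀ θ ∈ S, Exp r B θ f (m θ) := by
    intro θ hθ
    have h := huni θ hθ
    have h1 : m θ = Classical.choose h := dif_pos h
    rw [h1]
    exact Classical.choose_spec h
  refine ⟨r, B, m, hr, hB, ⟨fun b => ?_, hm⟩⟩
  intro θ₁ hθ₁
  obtain ⟨r₁, B₁, m₁, hr₁, hB₁, hm₁⟩ := hloc θ₁ hθ₁
  have hV := hnb θ₁ r₁ hr₁
  have h1 : ContinuousAt (fun θ => m₁ θ b) θ₁ := (hm₁.cont b).continuousAt hV
  have h2 : (fun θ => m θ b) =ᶠ[nhdsWithin θ₁ S] (fun θ => m₁ θ b) := by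
    filter_upwards [mem_nhdsWithin_of_mem_nhds hV, self_mem_nhdsWithin] with θ hθ hθS
    exact ha1_uniq (hm θ hθS) (hm₁.exp θ hθ) hr hr₁ hB hB₁ b
  exact (h1.continuousWithinAt (s := S)).congr_of_eventuallyEq h2
    (ha1_uniq (hm θ₁ hθ₁) (hm₁.exp θ₁ (mem_of_mem_nhds hV)) hr hr₁ hB hB₁ b)

end Pool.Agent.Lib.MP_bbe012_lc.PH
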