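import Pool.Agent.Lib.MP_bbe012_lc.PH.HA1

/-!
# Analyticity of parametric integrals
-/

namespace Pool.Agent.Lib.MP_bbe012_lc.PH

open MeasureTheory Set PG

private theorem ha2_mon {s N : ℕ} (v : Fin s → ℝ) (w : Fin N → ℝ)
    (p : (Fin s → ℕ) × (Fin N → ℕ)) :
    mon (Fin.append v w) (Fin.appendEquiv s N p) = mon v p.1 * mon w p.2 := by
  unfold mon
  rw [Fin.prod_univ_add]
  simp [Fin.appendEquiv]

private theorem ha2_dg {s N : ℕ} (p : (Fin s → ℕ) × (Fin N → ℕ)) :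
    dg (Fin.appendEquiv s N p) = dg p.1 + dg p.2 := by
  unfold dg
  rw [Fin.sum_univ_add]
  simp [Fin.appendEquiv]

private theorem ha2_mon_cont {N : ℕ} (u₀ : Fin N → ℝ) (d : Fin N → ℕ) :
    Continuous fun u : Fin N → ℝ => mon (u - u₀) d := by
  unfold mon
  exact continuous_finsetProd _ fun i _ =>
    (((continuous_apply i).comp (continuous_id.sub continuous_const)).pow _)

private theorem ha2_q {s : ℕ} {r : ℝ} (hr : 0 < r) (v : Fin s → ℝ) (hv : ∀ i, |v i| < r) :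
    ∃ q : ℝ, 0 ≤ q ∧ q < 1 ∧ ∀ i, |v i| ≤ q * r := by
  by_cases hs : Nonempty (Fin s)
  · obtain ⟨i₀, hi₀⟩ := Finite.exists_max (fun i => |v i|)
    refine ⟨|v i₀| / r, by positivity, ?_, fun i => ?_⟩
    · rw [div_lt_one hr]
      exact hv i₀
    · rw [div_mul_cancel₀ _ hr.ne']
      exact hi₀ i
  · exact ⟨0, le_rfl, one_pos, fun i => absurd ⟨i⟩ hs⟩

private theorem ha2_summ {s N : ℕ} {q C : ℝ} (hq0 : 0 ≤ q) (hq1 : q < 1) :
    Summable fun p : (Fin s → ℕ) × (Fin N → ℕ) => C * (q ^ dg p.1 * (1 / 2) ^ dg p.2) := by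
  have h1 : Summable fun c : Fin s → ℕ => q ^ dg c :=
    (hasSum_pow_dg (ι := Fin s) hq0 hq1).summable
  have h2 : Summable fun d : Fin N → ℕ => (1 / 2 : ℝ) ^ dg d :=
    (hasSum_pow_dg (ι := Fin N) (y := 1 / 2) (by norm_num) (by norm_num)).summable
  have h3 := Summable.mul_of_nonneg h1 h2 (fun c => pow_nonneg hq0 _) (fun d => by positivity)
  have h4 := h3.mul_left C
  exact h4

private theorem ha2_gen {s N : ℕ} {r B V : ℝ} (hr : 0 < r) (hB : 0 ≤ B) (hV0 : 0 ≤ V)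
    {κ : (Fin s → ℕ) × (Fin N → ℕ) → ℝ}
    (hκ : ∀ p, |κ p| ≤ B * (r⁻¹ ^ dg p.1 * r⁻¹ ^ dg p.2))
    {A : Set (Fin N → ℝ)} (hA : MeasurableSet A) (hAfin : volume A < ⊤)
    (hV : V = volume.real A) {mo : (Fin N → ℕ) → (Fin N → ℝ) → ℝ}
    (hmc : ∀ d, Continuous (mo d)) (hmo : ∀ d, ∀ u ∈ A, |mo d u| ≤ (r / 2) ^ dg d)
    {I : (Fin N → ℕ) → ℝ} (hI : ∀ d, I d = ∫ u in A, mo d u) {v : Fin s → ℝ} {q : ℝ}
    (hq0 : 0 ≤ q) (hq1 : q < 1) (hq : ∀ i, |v i| ≤ q * r) {f : (Fin N → ℝ) → ℝ}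
    (hf : ∀ u ∈ A, HasSum (fun p => κ p * (mon v p.1 * mo p.2 u)) (f u)) :
    HasSum (fun p => κ p * (mon v p.1 * I p.2)) (∫ u in A, f u) := by
  have hmv : ∀ c, |mon v c| ≤ (q * r) ^ dg c := fun c => abs_mon_le hq c
  have hhalf : ∀ k : ℕ, r⁻¹ ^ k * (r / 2) ^ k = (1 / 2) ^ k := by
    intro k
    rw [← mul_pow]
    congr 1
    field_simp
  have hqq : ∀ k : ℕ, r⁻¹ ^ k * (q * r) ^ k = q ^ k := by
    intro k
    rw [← mul_pow]
    congr 1
    field_simp
  have hFb : ∀ (p : (Fin s → ℕ) × (Fin N → ℕ)), ∀ u ∈ A,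
      ‖κ p * (mon v p.1 * mo p.2 u)‖ ≤ B * (q ^ dg p.1 * (1 / 2) ^ dg p.2) := by
    intro p u hu
    rw [Real.norm_eq_abs, abs_mul, abs_mul]
    calc |κ p| * (|mon v p.1| * |mo p.2 u|) ≤
        (B * (r⁻¹ ^ dg p.1 * r⁻¹ ^ dg p.2)) * ((q * r) ^ dg p.1 * (r / 2) ^ dg p.2) :=
          mul_le_mul (hκ p) (mul_le_mul (hmv p.1) (hmo p.2 u hu) (abs_nonneg _)
            (by positivity)) (mul_nonneg (abs_nonneg _) (abs_nonneg _)) (by positivity)
      _ = B * ((r⁻¹ ^ dg p.1 * (q * r) ^ dg p.1) * (r⁻¹ ^ dg p.2 * (r / 2) ^ dg p.2)) := by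
          ring
      _ = B * (q ^ dg p.1 * (1 / 2) ^ dg p.2) := by rw [hhalf, hqq]
  have hFint : ∀ p : (Fin s → ℕ) × (Fin N → ℕ), Integrable
      (fun u => κ p * (mon v p.1 * mo p.2 u)) (volume.restrict A) := by
    intro p
    have hfm : IsFiniteMeasure (volume.restrict A) :=
      ⟨by rw [Measure.restrict_apply_univ]; exact hAfin⟩
    refine Integrable.of_bound ?_ (B * (q ^ dg p.1 * (1 / 2) ^ dg p.2)) ?_
    · exact (continuous_const.mul (continuous_const.mul (hmc p.2))).aestronglyMeasurable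
    · exact (ae_restrict_mem hA).mono fun u hu => hFb p u hu
  have hFn : ∀ p : (Fin s → ℕ) × (Fin N → ℕ),
      ∫ u in A, ‖κ p * (mon v p.1 * mo p.2 u)‖ ≤
        B * V * (q ^ dg p.1 * (1 / 2) ^ dg p.2) := by
    intro p
    have h1 := norm_setIntegral_le_of_norm_le_const (μ := volume) hAfin
      (f := fun u => ‖κ p * (mon v p.1 * mo p.2 u)‖)
      (C := B * (q ^ dg p.1 * (1 / 2) ^ dg p.2))
      (fun u hu => by rw [norm_norm]; exact hFb p u hu)
    rw [Real.norm_of_nonneg (integral_nonneg fun _ => norm_nonneg _), ← hV] at h1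
    refine h1.trans (le_of_eq ?_)
    ring
  have hFs : Summable fun p : (Fin s → ℕ) × (Fin N → ℕ) =>
      ∫ u in A, ‖κ p * (mon v p.1 * mo p.2 u)‖ :=
    Summable.of_nonneg_of_le (fun p => integral_nonneg fun _ => norm_nonneg _) hFn
      (ha2_summ hq0 hq1)
  have h2 := hasSum_integral_of_summable_integral_norm hFint hFs
  have h3 : ∫ u in A, ∑' p : (Fin s → ℕ) × (Fin N → ℕ), κ p * (mon v p.1 * mo p.2 u) =
      ∫ u in A, f u :=
    setIntegral_congr_fun hA fun u hu => (hf u hu).tsum_eq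
  rw [h3] at h2
  have h8 : (fun p : (Fin s → ℕ) × (Fin N → ℕ) => ∫ u in A, κ p * (mon v p.1 * mo p.2 u)) =
      fun p => κ p * (mon v p.1 * I p.2) := by
    funext p
    rw [integral_const_mul, integral_const_mul, hI]
  rw [h8] at h2
  exact h2

private theorem ha2_exp {s N : ℕ} {θ₀ : Fin s → ℝ} {h : (Fin s → ℝ) × (Fin N → ℝ) → ℝ}
    {u₀ : Fin N → ℝ} {r B : ℝ} {ν : (Fin (s + N) → ℕ) → ℝ} (hr : 0 < r) (hB : 0 ≤ B)
    (hE : Exp r B (Fin.append θ₀ u₀)
      (fun w => h (fun i => w (Fin.castAdd N i), fun j => w (Fin.natAdd s j))) ν)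
    {A : Set (Fin N → ℝ)} (hA : MeasurableSet A) (hAfin : volume A < ⊤)
    (hAr : ∀ u ∈ A, ∀ i, |u i - u₀ i| ≤ r / 2) :
    AnalyticAt ℝ (fun θ => ∫ u in A, h (θ, u)) θ₀ := by
  obtain ⟨V, hV⟩ : ∃ V : ℝ, V = volume.real A := ⟨_, rfl⟩
  have hV0 : 0 ≤ V := by
    rw [hV]
    exact measureReal_nonneg
  obtain ⟨mo, hmo⟩ : ∃ mo : (Fin N → ℕ) → (Fin N → ℝ) → ℝ, ∀ d u, mo d u = mon (u - u₀) d :=
    ⟨_, fun _ _ => rfl⟩
  obtain ⟨I, hI⟩ : ∃ I : (Fin N → ℕ) → ℝ, ∀ d, I d = ∫ u in A, mo d u :=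
    ⟨_, fun _ => rfl⟩
  obtain ⟨κ, hκ⟩ : ∃ κ : (Fin s → ℕ) × (Fin N → ℕ) → ℝ, ∀ p, κ p =
      ν (Fin.appendEquiv s N p) := ⟨_, fun _ => rfl⟩
  have hmc : ∀ d, Continuous (mo d) := by
    intro d
    have h1 : mo d = fun u => mon (u - u₀) d := funext fun u => hmo d u
    rw [h1]
    exact ha2_mon_cont u₀ d
  have hmon : ∀ d : Fin N → ℕ, ∀ u ∈ A, |mo d u| ≤ (r / 2) ^ dg d := by
    intro d u hu
    rw [hmo]
    exact abs_mon_le (fun i => hAr u hu i) d
  have hIb : ∀ d, |I d| ≤ (r / 2) ^ dg d * V := by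
    intro d
    have h1 := norm_setIntegral_le_of_norm_le_const (μ := volume) hAfin
      (f := mo d) (C := (r / 2) ^ dg d) (hmon d)
    rw [Real.norm_eq_abs, ← hI, ← hV] at h1
    exact h1
  have hκb : ∀ p : (Fin s → ℕ) × (Fin N → ℕ),
      |κ p| ≤ B * (r⁻¹ ^ dg p.1 * r⁻¹ ^ dg p.2) := by
    intro p
    have h1 := hE.bound (Fin.appendEquiv s N p)
    rw [ha2_dg, pow_add, ← hκ] at h1
    exact h1
  have hhalf : ∀ k : ℕ, r⁻¹ ^ k * (r / 2) ^ k = (1 / 2) ^ k := by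
    intro k
    rw [← mul_pow]
    congr 1
    field_simp
  have hgeo := hasSum_pow_dg (ι := Fin N) (y := 1 / 2) (by norm_num) (by norm_num)
  have hνI : ∀ c d, |κ (c, d) * I d| ≤ B * V * r⁻¹ ^ dg c * (1 / 2) ^ dg d := by
    intro c d
    rw [abs_mul]
    calc |κ (c, d)| * |I d| ≤
        (B * (r⁻¹ ^ dg c * r⁻¹ ^ dg d)) * ((r / 2) ^ dg d * V) :=
          mul_le_mul (hκb (c, d)) (hIb d) (abs_nonneg _) (by positivity)
      _ = B * V * r⁻¹ ^ dg c * (r⁻¹ ^ dg d * (r / 2) ^ dg d) := by ring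
      _ = B * V * r⁻¹ ^ dg c * (1 / 2) ^ dg d := by rw [hhalf]
  have hsum : ∀ c, Summable fun d => κ (c, d) * I d := by
    intro c
    refine Summable.of_norm_bounded (hgeo.summable.mul_left (B * V * r⁻¹ ^ dg c)) fun d => ?_
    rw [Real.norm_eq_abs]
    exact hνI c d
  have hExp : Exp r (B * V * ((1 : ℝ) - 1 / 2)⁻¹ ^ Fintype.card (Fin N)) θ₀
      (fun θ => ∫ u in A, h (θ, u)) (fun c => ∑' d, κ (c, d) * I d) := by
    refine ⟨fun c => ?_, fun v hv => ?_⟩
    · have h1 := tsum_of_norm_bounded (hgeo.mul_left (B * V * r⁻¹ ^ dg c))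
        (f := fun d => κ (c, d) * I d) fun d => by
          rw [Real.norm_eq_abs]
          exact hνI c d
      rw [Real.norm_eq_abs] at h1
      refine h1.trans (le_of_eq ?_)
      ring
    · obtain ⟨q, hq0, hq1, hq⟩ := ha2_q hr v hv
      have h2 := ha2_gen hr hB hV0 hκb hA hAfin hV hmc hmon hI hq0 hq1 hq
        (f := fun u => h (θ₀ + v, u)) (by
          intro u hu
          have h4 := hE.sum (Fin.append v (u - u₀)) (by
            intro i
            refine Fin.addCases (fun i => ?_) (fun j => ?_) i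
            · rw [Fin.append_left]
              exact hv i
            · rw [Fin.append_right]
              have := hAr u hu j
              rw [Pi.sub_apply]
              linarith)
          have h5 : (fun i => (Fin.append θ₀ u₀ + Fin.append v (u - u₀)) (Fin.castAdd N i)) =
              θ₀ + v := by
            funext i
            rw [Pi.add_apply, Pi.add_apply, Fin.append_left, Fin.append_left]
          have h6 : (fun j => (Fin.append θ₀ u₀ + Fin.append v (u - u₀)) (Fin.natAdd s j)) =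
              u := by
            funext j
            rw [Pi.add_apply, Fin.append_right, Fin.append_right, Pi.sub_apply]
            ring
          rw [h5, h6, ← (Fin.appendEquiv s N).hasSum_iff] at h4
          have h7 : ((fun b => ν b * mon (Fin.append v (u - u₀)) b) ∘ (Fin.appendEquiv s N)) =
              fun p : (Fin s → ℕ) × (Fin N → ℕ) => κ p * (mon v p.1 * mo p.2 u) := by
            funext p
            rw [Function.comp_apply, ha2_mon, hκ, hmo]
          rw [h7] at h4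
          exact h4)
      refine h2.prod_fiberwise fun c => ?_
      have h9 := (hsum c).hasSum.mul_right (mon v c)
      have h10 : (fun d => κ (c, d) * I d * mon v c) =
          fun d => κ (c, d) * (mon v c * I d) := by
        funext d
        ring
      rw [h10] at h9
      exact h9
  exact Exp.analyticAt hExp hr (by positivity)

private theorem ha2_local {s N : ℕ} {θ₀ : Fin s → ℝ} {h : (Fin s → ℝ) × (Fin N → ℝ) → ℝ}
    {u₀ : Fin N → ℝ} (hh : AnalyticAt ℝ h (θ₀, u₀)) :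
    ∃ ρ : ℝ, 0 < ρ ∧ ∀ A : Set (Fin N → ℝ), MeasurableSet A →
      (∀ u ∈ A, ∀ i, |u i - u₀ i| < ρ) →
        (∀ᶠ θ in nhds θ₀, IntegrableOn (fun u => h (θ, u)) A) ∧
          AnalyticAt ℝ (fun θ => ∫ u in A, h (θ, u)) θ₀ := by
  have hL : AnalyticAt ℝ (fun w : Fin (s + N) → ℝ =>
      (((fun i => w (Fin.castAdd N i)), (fun j => w (Fin.natAdd s j))) :
        (Fin s → ℝ) × (Fin N → ℝ))) (Fin.append θ₀ u₀) :=
    ((ContinuousLinearMap.pi fun i : Fin s =>
        ContinuousLinearMap.proj (R := ℝ) (φ := fun _ : Fin (s + N) => ℝ) (Fin.castAdd N i)).prod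
      (ContinuousLinearMap.pi fun j : Fin N =>
        ContinuousLinearMap.proj (R := ℝ) (φ := fun _ : Fin (s + N) => ℝ)
          (Fin.natAdd s j))).analyticAt _
  have hH : AnalyticAt ℝ (fun w : Fin (s + N) → ℝ =>
      h (fun i => w (Fin.castAdd N i), fun j => w (Fin.natAdd s j))) (Fin.append θ₀ u₀) := by
    refine AnalyticAt.comp' (g := h) ?_ hL
    have e1 : (((fun i => Fin.append θ₀ u₀ (Fin.castAdd N i)),
        (fun j => Fin.append θ₀ u₀ (Fin.natAdd s j))) : (Fin s → ℝ) × (Fin N → ℝ)) =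
        (θ₀, u₀) := by
      refine Prod.ext ?_ ?_
      · funext i
        exact Fin.append_left θ₀ u₀ i
      · funext j
        exact Fin.append_right θ₀ u₀ j
    rw [e1]
    exact hh
  obtain ⟨r, B, ν, hr, hB, hE⟩ := exists_Exp hH
  have hcont : ∀ᶠ p in nhds (θ₀, u₀), ContinuousAt h p ∧ |h p| < |h (θ₀, u₀)| + 1 :=
    (hh.eventually_analyticAt.mono fun p hp => hp.continuousAt).and
      (Filter.Tendsto.eventually_lt_const (lt_add_one _) hh.continuousAt.abs)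
  obtain ⟨ρ₀, hρ₀, hball⟩ := Metric.eventually_nhds_iff.1 hcont
  refine ⟨min (r / 2) ρ₀, lt_min (by linarith) hρ₀, fun A hA hAr => ?_⟩
  have hAsub : A ⊆ Metric.closedBall u₀ ρ₀ := by
    intro u hu
    rw [Metric.mem_closedBall, dist_pi_le_iff hρ₀.le]
    intro i
    rw [Real.dist_eq]
    exact ((hAr u hu i).trans_le (min_le_right _ _)).le
  have hAfin : volume A < ⊤ :=
    (measure_mono hAsub).trans_lt (Metric.isBounded_closedBall.measure_lt_top)
  refine ⟨?_, ha2_exp hr hB hE hA hAfin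
    fun u hu i => ((hAr u hu i).trans_le (min_le_left _ _)).le⟩
  filter_upwards [Metric.ball_mem_nhds θ₀ hρ₀] with θ hθ
  have hθu : ∀ u ∈ A, dist (θ, u) (θ₀, u₀) < ρ₀ := by
    intro u hu
    rw [Prod.dist_eq]
    refine max_lt hθ ?_
    rw [dist_pi_lt_iff hρ₀]
    intro i
    rw [Real.dist_eq]
    exact (hAr u hu i).trans_le (min_le_right _ _)
  have hco : ContinuousOn (fun u => h (θ, u)) A := by
    intro u hu
    have h1 : ContinuousAt h (θ, u) := (hball (hθu u hu)).1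
    have h2 : ContinuousAt (fun u : Fin N → ℝ => ((θ, u) : (Fin s → ℝ) × (Fin N → ℝ))) u :=
      (Continuous.prodMk_right θ).continuousAt
    exact (ContinuousAt.comp' (g := h) h1 h2).continuousWithinAt
  have hfm : IsFiniteMeasure (volume.restrict A) :=
    ⟨by rw [Measure.restrict_apply_univ]; exact hAfin⟩
  refine Integrable.of_bound (hco.aestronglyMeasurable hA) (|h (θ₀, u₀)| + 1) ?_
  exact (ae_restrict_mem hA).mono fun u hu => (hball (hθu u hu)).2.le

/-- The integral over the cube of a jointly analytic function is an analytic function of the parameter.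

Proof. (1) Local statement: for `u₀` in the cube let `h` have an expansion in monomials of `(θ, u)` at `(θ₀, u₀)` (`exists_Exp` for functions on `Fin (s + N) → ℝ`, transported by the linear isomorphism `(Fin s → ℝ) × (Fin N → ℝ) ≃ (Fin (s + N) → ℝ)`, `Fin.append`): coefficients `ν (b, c)`, `|ν (b, c)| ≤ B r⁻¹ ^ (dg b + dg c)`. For `|u i - u₀ i| ≤ r / 2` put
`m u b = ∑ c, ν (b, c) mon (u - u₀) c`: continuous in `u`, `|m u b| ≤ 2 ^ N B r⁻¹ ^ dg b`, and `h (θ₀ + v, u) = ∑ b, m u b mon v b` for `|v i| < r` (absolute summability). (2) By compactness there are `r > 0`, `B` such that for every `u` in the cube `h (θ₀ + v, u) = ∑ b, m u b mon v b` for `|v i| < r`, with `|m u b| ≤ B r⁻¹ ^ dg b` and `u ↦ m u b` continuous on the cube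
(the local coefficient functions agree where both are defined, by the uniqueness `Exp.unique`; so define `m u b` by choice). (3) Integrate term by term (`hasSum_integral_of_summable_integral_norm`, as in the proof of `OkX.int`, PG/BInt.lean): `Exp r B θ₀ (fun θ => ∫ u, h (θ, u)) (fun b => ∫ u, m u b)`; `Exp.analyticAt`. -/
theorem analyticAt_integral {s N : ℕ} {θ₀ : Fin s → ℝ} {h : (Fin s → ℝ) × (Fin N → ℝ) → ℝ}
    (hh : ∀ u ∈ Icc (0 : Fin N → ℝ) 1, AnalyticAt ℝ h (θ₀, u)) :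
    AnalyticAt ℝ (fun θ => ∫ u in Icc (0 : Fin N → ℝ) 1, h (θ, u)) θ₀ := by
  have key := (isCompact_Icc (a := (0 : Fin N → ℝ)) (b := 1)).induction_on
    (p := fun T : Set (Fin N → ℝ) => ∃ T' : Set (Fin N → ℝ), MeasurableSet T' ∧ T ⊆ T' ∧
      ∀ A : Set (Fin N → ℝ), MeasurableSet A → A ⊆ T' →
        (∀ᶠ θ in nhds θ₀, IntegrableOn (fun u => h (θ, u)) A) ∧
          AnalyticAt ℝ (fun θ => ∫ u in A, h (θ, u)) θ₀) ?_ ?_ ?_ ?_
  · obtain ⟨T', -, hT', h1⟩ := key
    exact (h1 _ measurableSet_Icc hT').2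
  · refine ⟨∅, MeasurableSet.empty, subset_rfl, fun A _ hA => ?_⟩
    rw [subset_empty_iff] at hA
    subst hA
    simp only [Measure.restrict_empty, integral_zero_measure]
    exact ⟨Filter.Eventually.of_forall fun θ => integrableOn_empty, analyticAt_const⟩
  · rintro T U hTU ⟨T', h1, h2, h3⟩
    exact ⟨T', h1, hTU.trans h2, h3⟩
  · rintro T U ⟨T', h1, h2, h3⟩ ⟨U', k1, k2, k3⟩
    refine ⟨T' ∪ U', h1.union k1, union_subset_union h2 k2, fun A hA hAT => ?_⟩
    obtain ⟨i1, a1⟩ := h3 (A ∩ T') (hA.inter h1) inter_subset_right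
    obtain ⟨i2, a2⟩ := k3 (A \ T') (hA.diff h1) (fun u hu => (hAT hu.1).resolve_left hu.2)
    have hi : ∀ᶠ θ in nhds θ₀, IntegrableOn (fun u => h (θ, u)) A := by
      filter_upwards [i1, i2] with θ e1 e2
      have e3 := e1.union e2
      rwa [inter_union_diff] at e3
    refine ⟨hi, (a1.add a2).congr ?_⟩
    filter_upwards [hi] with θ e1
    exact integral_inter_add_sdiff h1 e1
  · intro u₀ hu₀
    obtain ⟨ρ, hρ, hloc⟩ := ha2_local (hh u₀ hu₀)
    refine ⟨Metric.ball u₀ ρ, mem_nhdsWithin_of_mem_nhds (Metric.ball_mem_nhds u₀ hρ),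
      Metric.ball u₀ ρ, measurableSet_ball, subset_rfl, fun A hA hAb => hloc A hA ?_⟩
    intro u hu i
    have h1 : dist u u₀ < ρ := hAb hu
    have h2 := (dist_pi_lt_iff hρ).1 h1 i
    rwa [Real.dist_eq] at h2

/-- One parameter. Proof: `analyticAt_integral` for `s = 1`, composed with the linear maps `t ↦ (fun _ => t)` and `θ ↦ θ 0`. -/
theorem analyticAt_integral_one {N : ℕ} {t₀ : ℝ} {h : ℝ × (Fin N → ℝ) → ℝ}
    (hh : ∀ u ∈ Icc (0 : Fin N → ℝ) 1, AnalyticAt ℝ h (t₀, u)) :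
    AnalyticAt ℝ (fun t => ∫ u in Icc (0 : Fin N → ℝ) 1, h (t, u)) t₀ := by
  have h1 : AnalyticAt ℝ (fun θ : Fin 1 → ℝ => ∫ u in Icc (0 : Fin N → ℝ) 1, h (θ 0, u))
      (fun _ => t₀) := by
    refine analyticAt_integral (h := fun p : (Fin 1 → ℝ) × (Fin N → ℝ) => h (p.1 0, p.2)) ?_
    intro u hu
    have h2 : AnalyticAt ℝ (fun p : (Fin 1 → ℝ) × (Fin N → ℝ) => ((p.1 0, p.2) : ℝ × (Fin N → ℝ)))
        (fun _ => t₀, u) :=
      (((ContinuousLinearMap.proj (R := ℝ) (φ := fun _ : Fin 1 => ℝ) 0).comp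
        (ContinuousLinearMap.fst ℝ (Fin 1 → ℝ) (Fin N → ℝ))).prod
          (ContinuousLinearMap.snd ℝ (Fin 1 → ℝ) (Fin N → ℝ))).analyticAt _
    exact AnalyticAt.comp' (g := h) (hh u hu) h2
  have h3 : AnalyticAt ℝ (fun t : ℝ => (fun _ => t : Fin 1 → ℝ)) t₀ :=
    (ContinuousLinearMap.pi (R := ℝ) (φ := fun _ : Fin 1 => ℝ)
      fun _ => ContinuousLinearMap.id ℝ ℝ).analyticAt _
  exact AnalyticAt.comp' (g := fun θ : Fin 1 → ℝ => ∫ u in Icc (0 : Fin N → ℝ) 1, h (θ 0, u)) h1 h3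

end Pool.Agent.Lib.MP_bbe012_lc.PH
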