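import Mathlib

/-!
# Global inversion
-/

namespace Pool.Agent.Lib.MP_bbe012_lc.PH

open Set

private theorem ha3_equiv {E : Type} [NormedAddCommGroup E] [NormedSpace ℝ E] {m : ℕ}
    (F : E → (Fin m → ℝ) → (Fin m → ℝ)) {y₁ : E} {x₁ : Fin m → ℝ}
    (hF : AnalyticAt ℝ (fun p : E × (Fin m → ℝ) => F p.1 p.2) (y₁, x₁))
    (L : (Fin m → ℝ) ≃L[ℝ] (Fin m → ℝ))
    (hL : HasFDerivAt (F y₁) (L : (Fin m → ℝ) →L[ℝ] (Fin m → ℝ)) x₁) :
    ∃ i : (E × (Fin m → ℝ)) ≃L[ℝ] (E × (Fin m → ℝ)),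
      HasFDerivAt (fun p : E × (Fin m → ℝ) => (p.1, F p.1 p.2))
        (i : (E × (Fin m → ℝ)) →L[ℝ] (E × (Fin m → ℝ))) (y₁, x₁) := by
  have hd := hF.differentiableAt.hasFDerivAt
  obtain ⟨D, hD⟩ : ∃ D : (E × (Fin m → ℝ)) →L[ℝ] (Fin m → ℝ),
      D = fderiv ℝ (fun p : E × (Fin m → ℝ) => F p.1 p.2) (y₁, x₁) := ⟨_, rfl⟩
  rw [← hD] at hd
  have hDL : D.comp (ContinuousLinearMap.inr ℝ E (Fin m → ℝ)) =
      (L : (Fin m → ℝ) →L[ℝ] (Fin m → ℝ)) := by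
    have h1 : HasFDerivAt (fun x : Fin m → ℝ => ((y₁, x) : E × (Fin m → ℝ)))
        (ContinuousLinearMap.inr ℝ E (Fin m → ℝ)) x₁ := hasFDerivAt_prodMk_right y₁ x₁
    have h2 : HasFDerivAt (F y₁) (D.comp (ContinuousLinearMap.inr ℝ E (Fin m → ℝ))) x₁ :=
      HasFDerivAt.comp x₁ hd h1
    exact h2.unique hL
  have hDL' : ∀ (v : E) (w : Fin m → ℝ), D (v, w) = D (v, 0) + L w := by
    intro v w
    have h1 : ((v, w) : E × (Fin m → ℝ)) = (v, 0) + (0, w) := by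
      rw [Prod.mk_add_mk, add_zero, zero_add]
    have h2 : L w = D (0, w) := by
      have h3 := congrArg (fun T : (Fin m → ℝ) →L[ℝ] (Fin m → ℝ) => T w) hDL
      exact h3.symm
    rw [h1, map_add, h2]
  refine ⟨ContinuousLinearEquiv.equivOfInverse
    ((ContinuousLinearMap.fst ℝ E (Fin m → ℝ)).prod D)
    ((ContinuousLinearMap.fst ℝ E (Fin m → ℝ)).prod
      ((L.symm : (Fin m → ℝ) →L[ℝ] (Fin m → ℝ)).comp
        ((ContinuousLinearMap.snd ℝ E (Fin m → ℝ)) -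
          (D.comp (ContinuousLinearMap.inl ℝ E (Fin m → ℝ))).comp
            (ContinuousLinearMap.fst ℝ E (Fin m → ℝ))))) ?_ ?_, ?_⟩
  · rintro ⟨v, w⟩
    refine Prod.ext rfl ?_
    change L.symm (D (v, w) - D (v, 0)) = w
    rw [hDL', add_sub_cancel_left, ContinuousLinearEquiv.symm_apply_apply]
  · rintro ⟨v, w⟩
    refine Prod.ext rfl ?_
    change D (v, L.symm (w - D (v, 0))) = w
    rw [hDL', ContinuousLinearEquiv.apply_symm_apply]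
    abel
  · exact hasFDerivAt_fst.prodMk hd

/-- The implicit function theorem, for real analytic maps.

Proof. `Φ (y, x) = (y, F y x)` is analytic at `(y₁, x₁)` with invertible derivative `(v, w) ↦ (v, ∂_y F v + L w)` (build the `ContinuousLinearEquiv`: `(v, w) ↦ (v, L.symm (w - ∂_y F v))` is the inverse). Strict derivative (`AnalyticAt.hasStrictFDerivAt`), inverse function theorem (`HasStrictFDerivAt.toOpenPartialHomeomorph`), and the local inverse is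
analytic (`OpenPartialHomeomorph.analyticAt_symm'` or similar in Mathlib/Analysis/Analytic/Inverse.lean). `g y = (Φ⁻¹ (y, 0)).2`. -/
theorem local_solution {E : Type} [NormedAddCommGroup E] [NormedSpace ℝ E] [CompleteSpace E] {m : ℕ}
    (F : E → (Fin m → ℝ) → (Fin m → ℝ)) {y₁ : E} {x₁ : Fin m → ℝ}
    (hF : AnalyticAt ℝ (fun p : E × (Fin m → ℝ) => F p.1 p.2) (y₁, x₁)) (h0 : F y₁ x₁ = 0)
    (L : (Fin m → ℝ) ≃L[ℝ] (Fin m → ℝ)) (hL : HasFDerivAt (F y₁) (L : (Fin m → ℝ) →L[ℝ] (Fin m → ℝ)) x₁) :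
    ∃ (g : E → (Fin m → ℝ)) (U : Set E) (W : Set (Fin m → ℝ)), U ∈ nhds y₁ ∧ W ∈ nhds x₁ ∧ AnalyticAt ℝ g y₁ ∧
      g y₁ = x₁ ∧ (∀ y ∈ U, g y ∈ W ∧ F y (g y) = 0) ∧ ∀ y ∈ U, ∀ x ∈ W, F y x = 0 → x = g y := by
  obtain ⟨Φ, hΦ⟩ : ∃ Φ : E × (Fin m → ℝ) → E × (Fin m → ℝ), Φ = fun p => (p.1, F p.1 p.2) :=
    ⟨_, rfl⟩
  have hΦa : AnalyticAt ℝ Φ (y₁, x₁) := by
    rw [hΦ]
    exact analyticAt_fst.prod hF
  have hΦ1 : Φ (y₁, x₁) = (y₁, 0) := by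
    rw [hΦ]
    exact Prod.ext rfl h0
  obtain ⟨i, hi⟩ := ha3_equiv F hF L hL
  rw [← hΦ] at hi
  obtain ⟨p, hp⟩ := hΦa
  have hpi : p 1 = (continuousMultilinearCurryFin1 ℝ (E × (Fin m → ℝ))
      (E × (Fin m → ℝ))).symm (i : (E × (Fin m → ℝ)) →L[ℝ] (E × (Fin m → ℝ))) := by
    have h1 := hp.hasStrictFDerivAt.hasFDerivAt.unique hi
    rw [← h1, LinearIsometryEquiv.symm_apply_apply]
  have hfd : HasStrictFDerivAt Φ (i : (E × (Fin m → ℝ)) →L[ℝ] (E × (Fin m → ℝ))) (y₁, x₁) := by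
    have h1 := hp.hasStrictFDerivAt
    rwa [hpi, LinearIsometryEquiv.apply_symm_apply] at h1
  obtain ⟨R, hR⟩ : ∃ R : OpenPartialHomeomorph (E × (Fin m → ℝ)) (E × (Fin m → ℝ)),
      R = hfd.toOpenPartialHomeomorph Φ := ⟨_, rfl⟩
  have hRc : ∀ q, R q = Φ q := by
    intro q
    rw [hR]
    rfl
  have hRs : (y₁, x₁) ∈ R.source := by
    rw [hR]
    exact hfd.mem_toOpenPartialHomeomorph_source
  have hsym : AnalyticAt ℝ R.symm (y₁, 0) := by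
    have hpR : HasFPowerSeriesAt R p (y₁, x₁) := hp.congr (Filter.Eventually.of_forall fun q =>
      (hRc q).symm)
    have h1 := (R.hasFPowerSeriesAt_symm hRs hpR hpi).analyticAt
    rw [hRc, hΦ1] at h1
    exact h1
  have hsym1 : R.symm (y₁, 0) = (y₁, x₁) := by
    have h1 := R.left_inv hRs
    rwa [hRc, hΦ1] at h1
  have hpair : AnalyticAt ℝ (fun y : E => ((y, 0) : E × (Fin m → ℝ))) y₁ :=
    analyticAt_id.prod analyticAt_const
  obtain ⟨g, hg⟩ : ∃ g : E → (Fin m → ℝ), g = fun y => (R.symm (y, 0)).2 := ⟨_, rfl⟩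
  have hga : AnalyticAt ℝ g y₁ := by
    rw [hg]
    exact AnalyticAt.comp' (g := Prod.snd) analyticAt_snd (AnalyticAt.comp' (g := R.symm) hsym hpair)
  have hg1 : g y₁ = x₁ := by
    rw [hg]
    change (R.symm (y₁, 0)).2 = x₁
    rw [hsym1]
  obtain ⟨U₁, hU₁, W, hW, hUW⟩ := mem_nhds_prod_iff.1 (R.open_source.mem_nhds hRs)
  have htar : ∀ᶠ y in nhds y₁, ((y, 0) : E × (Fin m → ℝ)) ∈ R.target := by
    have h1 : ((y₁, 0) : E × (Fin m → ℝ)) ∈ R.target := by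
      have h2 := R.map_source hRs
      rwa [hRc, hΦ1] at h2
    exact hpair.continuousAt.eventually (R.open_target.mem_nhds h1)
  have hgW : ∀ᶠ y in nhds y₁, g y ∈ W := by
    refine hga.continuousAt.eventually ?_
    rw [hg1]
    exact hW
  refine ⟨g, {y | y ∈ U₁ ∧ ((y, 0) : E × (Fin m → ℝ)) ∈ R.target ∧ g y ∈ W}, W, ?_, hW, hga,
    hg1, ?_, ?_⟩
  · filter_upwards [hU₁, htar, hgW] with y h1 h2 h3
    exact ⟨h1, h2, h3⟩
  · rintro y ⟨h1, h2, h3⟩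
    refine ⟨h3, ?_⟩
    have h4 := R.right_inv h2
    rw [hRc, hΦ] at h4
    have h5 : (R.symm (y, 0)).1 = y := congrArg Prod.fst h4
    have h6 : F (R.symm (y, 0)).1 (R.symm (y, 0)).2 = 0 := congrArg Prod.snd h4
    rw [h5] at h6
    rw [hg]
    exact h6
  · rintro y ⟨h1, h2, h3⟩ x hx hF0
    have h4 : (y, x) ∈ R.source := hUW ⟨h1, hx⟩
    have h5 := R.left_inv h4
    have h6 : R (y, x) = (y, 0) := by
      rw [hRc, hΦ]
      exact Prod.ext rfl hF0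
    rw [h6] at h5
    rw [hg]
    change x = (R.symm (y, 0)).2
    rw [h5]

private theorem ha3_sub {E : Type} [TopologicalSpace E] {Bs : Set E} {p : E → Prop} {y₁ : E}
    (hy₁ : y₁ ∈ Bs) (h : ∀ᶠ y in nhds y₁, p y) :
    ∀ᶠ y : Bs in nhds ⟨y₁, hy₁⟩, p (y : E) :=
  (continuous_subtype_val.tendsto (⟨y₁, hy₁⟩ : Bs)).eventually h

private theorem ha3_proj {E : Type} [NormedAddCommGroup E] {m : ℕ}
    {T : Set (E × (Fin m → ℝ))} (hT : IsClosed T) {K : Set (Fin m → ℝ)} (hK : IsCompact K)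
    (hTK : ∀ p ∈ T, p.2 ∈ K) : IsClosed (Prod.fst '' T) := by
  have hcs : CompactSpace K := isCompact_iff_compactSpace.1 hK
  have hc : Continuous fun p : E × K => ((p.1, (p.2 : Fin m → ℝ)) : E × (Fin m → ℝ)) :=
    continuous_fst.prodMk (continuous_subtype_val.comp continuous_snd)
  have h1 : Prod.fst '' T = Prod.fst '' ((fun p : E × K =>
      ((p.1, (p.2 : Fin m → ℝ)) : E × (Fin m → ℝ))) ⁻¹' T) := by
    ext y
    constructor
    · rintro ⟨⟨y, x⟩, hp, rfl⟩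
      exact ⟨(y, ⟨x, hTK _ hp⟩), hp, rfl⟩
    · rintro ⟨⟨y, x⟩, hp, rfl⟩
      exact ⟨(y, (x : Fin m → ℝ)), hp, rfl⟩
  rw [h1]
  exact isClosedMap_fst_of_compactSpace _ (hT.preimage hc)

private theorem ha3_sol {E : Type} [NormedAddCommGroup E] [NormedSpace ℝ E] [CompleteSpace E]
    {m : ℕ} (F : E → (Fin m → ℝ) → (Fin m → ℝ))
    (hF : ∀ y x, AnalyticAt ℝ (fun p : E × (Fin m → ℝ) => F p.1 p.2) (y, x))
    (N : Set (E × (Fin m → ℝ))) (Bs : Set E)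
    (hint : ∀ y ∈ Bs, ∀ x, (y, x) ∈ N → F y x = 0 → (y, x) ∈ interior N ∧
      ∃ L : (Fin m → ℝ) ≃L[ℝ] (Fin m → ℝ),
        HasFDerivAt (F y) (L : (Fin m → ℝ) →L[ℝ] (Fin m → ℝ)) x)
    (y₁ : E) (hy₁ : y₁ ∈ Bs) (x₁ : Fin m → ℝ) (h1 : (y₁, x₁) ∈ N) (h2 : F y₁ x₁ = 0) :
    ∃ g : E → (Fin m → ℝ), AnalyticAt ℝ g y₁ ∧ g y₁ = x₁ ∧
      ∀ᶠ y in nhds y₁, (y, g y) ∈ N ∧ F y (g y) = 0 := by
  obtain ⟨hi, L, hL⟩ := hint y₁ hy₁ x₁ h1 h2
  obtain ⟨g, U, W, hU, hW, hg, hg1, hUs, -⟩ := local_solution F (hF y₁ x₁) h2 L hL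
  refine ⟨g, hg, hg1, ?_⟩
  have h3 : ContinuousAt (fun y => ((y, g y) : E × (Fin m → ℝ))) y₁ :=
    continuousAt_id.prodMk hg.continuousAt
  have h4 : ∀ᶠ y in nhds y₁, ((y, g y) : E × (Fin m → ℝ)) ∈ interior N := by
    refine h3.eventually (isOpen_interior.mem_nhds ?_)
    change (y₁, g y₁) ∈ interior N
    rw [hg1]
    exact hi
  filter_upwards [h4, hU] with y e1 e2
  exact ⟨interior_subset e1, (hUs y e2).2⟩

private theorem ha3_near {E : Type} [NormedAddCommGroup E] [NormedSpace ℝ E] [CompleteSpace E]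
    {m : ℕ} (F : E → (Fin m → ℝ) → (Fin m → ℝ))
    (hF : ∀ y x, AnalyticAt ℝ (fun p : E × (Fin m → ℝ) => F p.1 p.2) (y, x))
    (N : Set (E × (Fin m → ℝ)))
    (hZ : IsClosed {p : E × (Fin m → ℝ) | p ∈ N ∧ F p.1 p.2 = 0})
    (K : Set (Fin m → ℝ)) (hK : IsCompact K) (hNK : ∀ p ∈ N, p.2 ∈ K) (Bs : Set E)
    (hint : ∀ y ∈ Bs, ∀ x, (y, x) ∈ N → F y x = 0 → (y, x) ∈ interior N ∧
      ∃ L : (Fin m → ℝ) ≃L[ℝ] (Fin m → ℝ),
        HasFDerivAt (F y) (L : (Fin m → ℝ) →L[ℝ] (Fin m → ℝ)) x)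
    (y₁ : E) (hy₁ : y₁ ∈ Bs) (x₁ : Fin m → ℝ) (h1 : (y₁, x₁) ∈ N) (h2 : F y₁ x₁ = 0)
    (hu : ∀ x, (y₁, x) ∈ N → F y₁ x = 0 → x = x₁) :
    ∃ g : E → (Fin m → ℝ), AnalyticAt ℝ g y₁ ∧ g y₁ = x₁ ∧
      ∀ᶠ y in nhds y₁, (y, g y) ∈ N ∧ F y (g y) = 0 ∧
        ∀ x, (y, x) ∈ N → F y x = 0 → x = g y := by
  obtain ⟨hi, L, hL⟩ := hint y₁ hy₁ x₁ h1 h2
  obtain ⟨g, U, W, hU, hW, hg, hg1, hUs, huW⟩ := local_solution F (hF y₁ x₁) h2 L hL
  refine ⟨g, hg, hg1, ?_⟩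
  have h3 : ContinuousAt (fun y => ((y, g y) : E × (Fin m → ℝ))) y₁ :=
    continuousAt_id.prodMk hg.continuousAt
  have h4 : ∀ᶠ y in nhds y₁, ((y, g y) : E × (Fin m → ℝ)) ∈ interior N := by
    refine h3.eventually (isOpen_interior.mem_nhds ?_)
    change (y₁, g y₁) ∈ interior N
    rw [hg1]
    exact hi
  -- all solutions are in `W`
  have hT : IsClosed {p : E × (Fin m → ℝ) | (p ∈ N ∧ F p.1 p.2 = 0) ∧ p.2 ∉ interior W} :=
    hZ.inter ((isOpen_interior.preimage continuous_snd).isClosed_compl)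
  have h5 := ha3_proj hT hK fun p hp => hNK p hp.1.1
  have h6 : y₁ ∉ Prod.fst ''
      {p : E × (Fin m → ℝ) | (p ∈ N ∧ F p.1 p.2 = 0) ∧ p.2 ∉ interior W} := by
    rintro ⟨⟨y, x⟩, ⟨⟨e1, e2⟩, e3⟩, rfl⟩
    apply e3
    change x ∈ interior W
    rw [hu x e1 e2]
    exact mem_interior_iff_mem_nhds.2 hW
  have h7 : ∀ᶠ y in nhds y₁, y ∉ Prod.fst ''
      {p : E × (Fin m → ℝ) | (p ∈ N ∧ F p.1 p.2 = 0) ∧ p.2 ∉ interior W} :=
    h5.isOpen_compl.mem_nhds h6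
  filter_upwards [h4, hU, h7] with y e1 e2 e3
  refine ⟨interior_subset e1, (hUs y e2).2, fun x k1 k2 => huW y e2 x ?_ k2⟩
  by_contra hx
  exact e3 ⟨(y, x), ⟨⟨k1, k2⟩, fun hxi => hx (interior_subset hxi)⟩, rfl⟩

/-- Global solution over a preconnected set of parameters.

Proof. `Z y = {x | (y, x) ∈ N ∧ F y x = 0}`, contained in the compact set `K`. Let `G₁ = {y ∈ Bs | Z y ≠ ∅}` and `G₂ = {y ∈ Bs | Z y has at least two elements}`. Both are relatively open in `Bs`: if `x₁ ∈ Z y₁`, then `(y₁, x₁) ∈ interior N`, and `local_solution` gives `g` with `(y, g y) ∈ N` for `y` near `y₁` (continuity of `g` at `y₁`); two different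
elements of `Z y₁` give two local solutions with disjoint values. Both are relatively closed in `Bs`: let `y_k → y ∈ Bs` with `x_k ∈ Z y_k` (use filters/`MapClusterPt`, or: `{(y, x) | ...}` is closed and the projection along the compact `K` is closed, `isClosedMap_snd_of_compactSpace`-like; for general `E` sequences are enough, `E` is a metric space): a cluster point `x` of
the `x_k` is in `Z y`. If also `x'_k ∈ Z y_k`, `x'_k ≠ x_k` with the same limit `x`, this contradicts the uniqueness part of `local_solution` at `(y, x)` (`x_k, x'_k ∈ W` and `y_k ∈ U` for large `k`). As `Bs` is preconnected, `y₀ ∈ G₁`, `y₀ ∉ G₂`: `G₁ = Bs`, `G₂ = ∅` (`IsPreconnected` and clopen subsets: `isPreconnected_iff_subset_of_disjoint`,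
`IsPreconnected.subset_of_closure_inter_subset`, ...). So every `Z y`, `y ∈ Bs`, has exactly one element. Let `X y` be an element of `Z y` if there is one (choice), `0` otherwise. For `y₁ ∈ Bs` and `y` near `y₁` (in `E`, not only in `Bs`) every element of `Z y` is near `X y₁` (otherwise a cluster point would be another element of `Z y₁`), so it is in `W` and equal
to `g y`, and `g y ∈ Z y`: so `X y = g y` near `y₁`, and `X` is analytic at `y₁`. -/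
theorem exists_global {E : Type} [NormedAddCommGroup E] [NormedSpace ℝ E] [CompleteSpace E] {m : ℕ}
    (F : E → (Fin m → ℝ) → (Fin m → ℝ)) (hF : ∀ y x, AnalyticAt ℝ (fun p : E × (Fin m → ℝ) => F p.1 p.2) (y, x))
    (N : Set (E × (Fin m → ℝ))) (hN : IsClosed N) (K : Set (Fin m → ℝ)) (hK : IsCompact K)
    (hNK : ∀ p ∈ N, p.2 ∈ K) (Bs : Set E) (hB : IsPreconnected Bs)
    (hint : ∀ y ∈ Bs, ∀ x, (y, x) ∈ N → F y x = 0 → (y, x) ∈ interior N ∧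
      ∃ L : (Fin m → ℝ) ≃L[ℝ] (Fin m → ℝ), HasFDerivAt (F y) (L : (Fin m → ℝ) →L[ℝ] (Fin m → ℝ)) x)
    (y₀ : E) (hy₀ : y₀ ∈ Bs) (h0 : ∃! x, (y₀, x) ∈ N ∧ F y₀ x = 0) :
    ∃ X : E → (Fin m → ℝ), ∀ y ∈ Bs, AnalyticAt ℝ X y ∧ (y, X y) ∈ N ∧ F y (X y) = 0 ∧
      ∀ x, (y, x) ∈ N → F y x = 0 → x = X y := by
  classical
  have hFc : Continuous fun p : E × (Fin m → ℝ) => F p.1 p.2 :=
    continuous_iff_continuousAt.2 fun p => (hF p.1 p.2).continuousAt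
  have hZ : IsClosed {p : E × (Fin m → ℝ) | p ∈ N ∧ F p.1 p.2 = 0} :=
    hN.inter (isClosed_singleton.preimage hFc)
  have hnear := ha3_near F hF N hZ K hK hNK Bs hint
  -- the set of the parameters with exactly one solution
  have hps : PreconnectedSpace Bs := Subtype.preconnectedSpace hB
  have hopen : IsOpen {y : Bs | ∃! x, ((y : E), x) ∈ N ∧ F (y : E) x = 0} := by
    rw [isOpen_iff_mem_nhds]
    rintro ⟨y₁, hy₁⟩ ⟨x₁, ⟨h1, h2⟩, h3⟩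
    obtain ⟨g, -, -, hg⟩ := hnear y₁ hy₁ x₁ h1 h2 fun x e1 e2 => h3 x ⟨e1, e2⟩
    have h4 : ∀ᶠ y : Bs in nhds ⟨y₁, hy₁⟩, ((y : E), g (y : E)) ∈ N ∧ F (y : E) (g (y : E)) = 0 ∧
        ∀ x, ((y : E), x) ∈ N → F (y : E) x = 0 → x = g (y : E) :=
      ha3_sub hy₁ hg
    filter_upwards [h4] with y hy
    exact ⟨g (y : E), ⟨hy.1, hy.2.1⟩, fun x hx => hy.2.2 x hx.1 hx.2⟩
  have hclosed : IsClosed {y : Bs | ∃! x, ((y : E), x) ∈ N ∧ F (y : E) x = 0} := by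
    rw [← isOpen_compl_iff, isOpen_iff_mem_nhds]
    rintro ⟨y₁, hy₁⟩ hnot
    by_cases hex : ∃ x, (y₁, x) ∈ N ∧ F y₁ x = 0
    · -- at least two solutions
      obtain ⟨x₁, h1, h2⟩ := hex
      obtain ⟨x₂, h3, h4, hne⟩ : ∃ x₂, (y₁, x₂) ∈ N ∧ F y₁ x₂ = 0 ∧ x₂ ≠ x₁ := by
        by_contra hcon
        push Not at hcon
        exact hnot ⟨x₁, ⟨h1, h2⟩, fun x hx => hcon x hx.1 hx.2⟩
      obtain ⟨g₁, a1, b1, c1⟩ := ha3_sol F hF N Bs hint y₁ hy₁ x₁ h1 h2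
      obtain ⟨g₂, a2, b2, c2⟩ := ha3_sol F hF N Bs hint y₁ hy₁ x₂ h3 h4
      have h5 : ∀ᶠ y in nhds y₁, g₂ y - g₁ y ≠ 0 := by
        refine (a2.continuousAt.sub a1.continuousAt).eventually_ne ?_
        change g₂ y₁ - g₁ y₁ ≠ 0
        rw [b1, b2]
        exact sub_ne_zero.2 hne
      have h6 : ∀ᶠ y : Bs in nhds ⟨y₁, hy₁⟩, (((y : E), g₁ (y : E)) ∈ N ∧
          F (y : E) (g₁ (y : E)) = 0) ∧ (((y : E), g₂ (y : E)) ∈ N ∧
          F (y : E) (g₂ (y : E)) = 0) ∧ g₂ (y : E) - g₁ (y : E) ≠ 0 :=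
        ha3_sub hy₁ (c1.and (c2.and h5))
      filter_upwards [h6] with y hy
      rintro ⟨x, -, hx⟩
      apply hy.2.2
      rw [hx _ hy.1, hx _ hy.2.1, sub_self]
    · -- no solution
      have h1 := ha3_proj hZ hK fun p hp => hNK p hp.1
      have h2 : y₁ ∉ Prod.fst '' {p : E × (Fin m → ℝ) | p ∈ N ∧ F p.1 p.2 = 0} := by
        rintro ⟨⟨y, x⟩, hp, rfl⟩
        exact hex ⟨x, hp⟩
      have h3 : ∀ᶠ y : Bs in nhds ⟨y₁, hy₁⟩,
          (y : E) ∉ Prod.fst '' {p : E × (Fin m → ℝ) | p ∈ N ∧ F p.1 p.2 = 0} :=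
        ha3_sub hy₁ (h1.isOpen_compl.mem_nhds h2)
      filter_upwards [h3] with y hy
      rintro ⟨x, hx, -⟩
      exact hy ⟨((y : E), x), hx, rfl⟩
  have hall : ∀ y ∈ Bs, ∃! x, (y, x) ∈ N ∧ F y x = 0 := by
    intro y hy
    have h1 : ({y : Bs | ∃! x, ((y : E), x) ∈ N ∧ F (y : E) x = 0} : Set Bs) = univ := by
      rcases isClopen_iff.1 ⟨hclosed, hopen⟩ with h | h
      · exfalso
        have h2 : (⟨y₀, hy₀⟩ : Bs) ∈ {y : Bs | ∃! x, ((y : E), x) ∈ N ∧ F (y : E) x = 0} := h0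
        rw [h] at h2
        exact h2
      · exact h
    have h2 : (⟨y, hy⟩ : Bs) ∈ {y : Bs | ∃! x, ((y : E), x) ∈ N ∧ F (y : E) x = 0} := by
      rw [h1]
      exact mem_univ _
    exact h2
  obtain ⟨X, hX⟩ : ∃ X : E → (Fin m → ℝ), ∀ y, (∃ x, (y, x) ∈ N ∧ F y x = 0) →
      (y, X y) ∈ N ∧ F y (X y) = 0 := by
    refine ⟨fun y => if h : ∃ x, (y, x) ∈ N ∧ F y x = 0 then h.choose else 0, fun y h => ?_⟩
    beta_reduce
    rw [dif_pos h]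
    exact h.choose_spec
  refine ⟨X, fun y hy => ?_⟩
  obtain ⟨x₁, hx₁, huniq⟩ := hall y hy
  obtain ⟨hX1, hX2⟩ := hX y ⟨x₁, hx₁⟩
  have hu : ∀ x, (y, x) ∈ N → F y x = 0 → x = X y := by
    intro x e1 e2
    rw [huniq x ⟨e1, e2⟩, huniq (X y) ⟨hX1, hX2⟩]
  obtain ⟨g, hga, -, hg⟩ := hnear y hy (X y) hX1 hX2 hu
  refine ⟨hga.congr ?_, hX1, hX2, hu⟩
  filter_upwards [hg] with z hz
  obtain ⟨e1, e2⟩ := hX z ⟨g z, hz.1, hz.2.1⟩
  exact (hz.2.2 (X z) e1 e2).symm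

end Pool.Agent.Lib.MP_bbe012_lc.PH
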