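import Pool.Agent.Lib.MP_bbe012_lc.PG.BDefs

/-!
# Polynomial paths with rational coefficients
-/

namespace Pool.Agent.Lib.MP_bbe012_lc.PH

open Set PG

/-- A real polynomial is uniformly near, on `[0,1]`, to a polynomial with rational coefficients. -/
private theorem exists_rat_near (p : Polynomial ℝ) : ∀ η : ℝ, 0 < η →
    ∃ q : Polynomial ℚ, ∀ t ∈ Icc (0 : ℝ) 1, |Polynomial.aeval t q - p.eval t| < η := by
  induction p using Polynomial.induction_on' with
  | add p₁ p₂ h₁ h₂ =>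
    intro η hη
    obtain ⟨q₁, hq₁⟩ := h₁ (η / 2) (by linarith)
    obtain ⟨q₂, hq₂⟩ := h₂ (η / 2) (by linarith)
    refine ⟨q₁ + q₂, fun t ht => ?_⟩
    have e : Polynomial.aeval t (q₁ + q₂) - (p₁ + p₂).eval t =
        (Polynomial.aeval t q₁ - p₁.eval t) + (Polynomial.aeval t q₂ - p₂.eval t) := by
      rw [map_add, Polynomial.eval_add]; ring
    rw [e]
    calc |(Polynomial.aeval t q₁ - p₁.eval t) + (Polynomial.aeval t q₂ - p₂.eval t)|
        ≤ |Polynomial.aeval t q₁ - p₁.eval t| + |Polynomial.aeval t q₂ - p₂.eval t| := abs_add_le _ _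
      _ < η / 2 + η / 2 := add_lt_add (hq₁ t ht) (hq₂ t ht)
      _ = η := by ring
  | monomial n a =>
    intro η hη
    obtain ⟨r, hr₁, hr₂⟩ := exists_rat_btwn (show a - η / 2 < a + η / 2 by linarith)
    refine ⟨Polynomial.monomial n r, fun t ht => ?_⟩
    rw [Polynomial.aeval_monomial, Polynomial.eval_monomial]
    have e : (algebraMap ℚ ℝ) r * t ^ n - a * t ^ n = ((r : ℝ) - a) * t ^ n := by
      rw [eq_ratCast]; ring
    rw [e, abs_mul]
    have h1 : |t ^ n| ≤ 1 := by
      rw [abs_of_nonneg (pow_nonneg ht.1 n)]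
      exact pow_le_one₀ ht.1 ht.2
    have h2 : |(r : ℝ) - a| ≤ η / 2 := by
      rw [abs_le]; constructor <;> linarith
    calc |(r : ℝ) - a| * |t ^ n| ≤ |(r : ℝ) - a| * 1 :=
          mul_le_mul_of_nonneg_left h1 (abs_nonneg _)
      _ ≤ η / 2 := by rw [mul_one]; exact h2
      _ < η := by linarith

/-- A continuous real function on `[0,1]` with rational end values is uniformly near to a polynomial with rational
coefficients with the same end values. -/
private theorem exists_rat_path (f : ℝ → ℝ) (hf : ContinuousOn f (Icc 0 1)) (a b : ℚ) (ha : f 0 = a) (hb : f 1 = b)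
    (δ : ℝ) (hδ : 0 < δ) :
    ∃ q : Polynomial ℚ, q.eval 0 = a ∧ q.eval 1 = b ∧
      ∀ t ∈ Icc (0 : ℝ) 1, |Polynomial.aeval t q - f t| < δ := by
  obtain ⟨p, hp⟩ := exists_polynomial_near_of_continuousOn 0 1 f hf (δ / 8) (by linarith)
  obtain ⟨q, hq⟩ := exists_rat_near p (δ / 8) (by linarith)
  have hqf : ∀ t ∈ Icc (0 : ℝ) 1, |Polynomial.aeval t q - f t| < δ / 4 := by
    intro t ht
    have e : Polynomial.aeval t q - f t = (Polynomial.aeval t q - p.eval t) + (p.eval t - f t) := by ring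
    rw [e]
    calc |(Polynomial.aeval t q - p.eval t) + (p.eval t - f t)|
        ≤ |Polynomial.aeval t q - p.eval t| + |p.eval t - f t| := abs_add_le _ _
      _ < δ / 8 + δ / 8 := add_lt_add (hq t ht) (hp t ht)
      _ = δ / 4 := by ring
  have h0 : (Polynomial.aeval (0 : ℝ) q) = ((q.eval 0 : ℚ) : ℝ) := by
    have := Polynomial.aeval_algebraMap_apply ℝ (0 : ℚ) q
    rw [map_zero] at this
    rw [this, Polynomial.coe_aeval_eq_eval, eq_ratCast]
  have h1 : (Polynomial.aeval (1 : ℝ) q) = ((q.eval 1 : ℚ) : ℝ) := by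
    have := Polynomial.aeval_algebraMap_apply ℝ (1 : ℚ) q
    rw [map_one] at this
    rw [this, Polynomial.coe_aeval_eq_eval, eq_ratCast]
  have b0 : |(a : ℝ) - ((q.eval 0 : ℚ) : ℝ)| < δ / 4 := by
    have := hqf 0 ⟨le_refl _, zero_le_one⟩
    rw [h0, ha, abs_sub_comm] at this
    exact this
  have b1 : |(b : ℝ) - ((q.eval 1 : ℚ) : ℝ)| < δ / 4 := by
    have := hqf 1 ⟨zero_le_one, le_refl _⟩
    rw [h1, hb, abs_sub_comm] at this
    exact this
  refine ⟨q + Polynomial.C (a - q.eval 0) * (1 - Polynomial.X) + Polynomial.C (b - q.eval 1) * Polynomial.X, ?_, ?_, ?_⟩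
  · simp
  · simp
  · intro t ht
    have e : Polynomial.aeval t (q + Polynomial.C (a - q.eval 0) * (1 - Polynomial.X)
        + Polynomial.C (b - q.eval 1) * Polynomial.X) - f t =
        (Polynomial.aeval t q - f t) + (((a : ℝ) - ((q.eval 0 : ℚ) : ℝ)) * (1 - t)
          + ((b : ℝ) - ((q.eval 1 : ℚ) : ℝ)) * t) := by
      simp only [map_add, map_mul, map_sub, Polynomial.aeval_C, Polynomial.aeval_X, map_one, eq_ratCast]
      ring
    rw [e]
    have c0 : |((a : ℝ) - ((q.eval 0 : ℚ) : ℝ)) * (1 - t)| ≤ δ / 4 := by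
      rw [abs_mul, abs_of_nonneg (show (0 : ℝ) ≤ 1 - t by linarith [ht.2])]
      calc |(a : ℝ) - ((q.eval 0 : ℚ) : ℝ)| * (1 - t) ≤ |(a : ℝ) - ((q.eval 0 : ℚ) : ℝ)| * 1 :=
            mul_le_mul_of_nonneg_left (by linarith [ht.1]) (abs_nonneg _)
        _ ≤ δ / 4 := by rw [mul_one]; exact b0.le
    have c1 : |((b : ℝ) - ((q.eval 1 : ℚ) : ℝ)) * t| ≤ δ / 4 := by
      rw [abs_mul, abs_of_nonneg ht.1]
      calc |(b : ℝ) - ((q.eval 1 : ℚ) : ℝ)| * t ≤ |(b : ℝ) - ((q.eval 1 : ℚ) : ℝ)| * 1 :=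
            mul_le_mul_of_nonneg_left ht.2 (abs_nonneg _)
        _ ≤ δ / 4 := by rw [mul_one]; exact b1.le
    calc |(Polynomial.aeval t q - f t) + (((a : ℝ) - ((q.eval 0 : ℚ) : ℝ)) * (1 - t)
          + ((b : ℝ) - ((q.eval 1 : ℚ) : ℝ)) * t)|
        ≤ |Polynomial.aeval t q - f t| + |((a : ℝ) - ((q.eval 0 : ℚ) : ℝ)) * (1 - t)
          + ((b : ℝ) - ((q.eval 1 : ℚ) : ℝ)) * t| := abs_add_le _ _
      _ ≤ |Polynomial.aeval t q - f t| + (|((a : ℝ) - ((q.eval 0 : ℚ) : ℝ)) * (1 - t)|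
          + |((b : ℝ) - ((q.eval 1 : ℚ) : ℝ)) * t|) := by
          have := abs_add_le (((a : ℝ) - ((q.eval 0 : ℚ) : ℝ)) * (1 - t)) (((b : ℝ) - ((q.eval 1 : ℚ) : ℝ)) * t)
          linarith
      _ < δ := by
          have := hqf t ht
          linarith

/-- Two rational points of a connected open set are connected by a polynomial path with rational coefficients.

Proof. `Ω` is path connected (`IsOpen.isConnected_iff_isPathConnected`; it is not empty), let `c : [0,1] → Ω` be a continuous path from `cst e` to `cst θ`. Its image is compact, so there is `ε > 0` such that all points at distance `≤ ε` (sup norm) of the image are in `Ω` (`IsCompact.exists_cthickening_subset_open` or similar). For each coordinate there is a polynomial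
`p_i` with real coefficients with `|c i t - p_i t| ≤ ε / 8` on `[0,1]` (`exists_polynomial_near_continuousMap` / `exists_polynomial_near_of_continuousOn`), and one with rational coefficients with error `≤ ε / 4` (change the coefficients slightly). Then `γ_i = p_i + (e_i - p_i(0)) (1 - t) + (θ_i - p_i(1)) t` has rational coefficients, the right end points, and error
at most `ε / 4 + ε / 4 + ε / 4 ≤ ε`. -/
theorem exists_path {s : ℕ} {Ω : Set (Fin s → ℝ)} (ho : IsOpen Ω) (hc : IsPreconnected Ω) {e θ : Fin s → ℚ}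
    (he : cst e ∈ Ω) (hθ : cst θ ∈ Ω) :
    ∃ γ : Fin s → Polynomial ℚ, (∀ i, (γ i).eval 0 = e i ∧ (γ i).eval 1 = θ i) ∧
      ∀ t ∈ Icc (0 : ℝ) 1, (fun i => Polynomial.aeval t (γ i)) ∈ Ω := by
  have hpc : IsPathConnected Ω := ho.isConnected_iff_isPathConnected.mp ⟨⟨_, he⟩, hc⟩
  obtain ⟨c, hcΩ⟩ := hpc.joinedIn _ he _ hθ
  have hcont : Continuous c.extend := c.continuous_extend
  have hsub : c.extend '' (Icc 0 1) ⊆ Ω := by
    rintro _ ⟨t, ht, rfl⟩
    rw [Path.extend_apply c ht]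
    exact hcΩ _
  have hK : IsCompact (c.extend '' (Icc 0 1)) := isCompact_Icc.image hcont
  obtain ⟨δ, hδ, hthick⟩ := hK.exists_thickening_subset_open ho hsub
  have key : ∀ i : Fin s, ∃ q : Polynomial ℚ, q.eval 0 = e i ∧ q.eval 1 = θ i ∧
      ∀ t ∈ Icc (0 : ℝ) 1, |Polynomial.aeval t q - c.extend t i| < δ := by
    intro i
    refine exists_rat_path (fun t => c.extend t i) ((continuous_apply i).comp hcont).continuousOn (e i) (θ i) ?_ ?_ δ hδ
    · show c.extend 0 i = _
      rw [Path.extend_zero]; rfl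
    · show c.extend 1 i = _
      rw [Path.extend_one]; rfl
  choose γ hγ0 hγ1 hγ using key
  refine ⟨γ, fun i => ⟨hγ0 i, hγ1 i⟩, fun t ht => hthick ?_⟩
  rw [Metric.mem_thickening_iff]
  refine ⟨c.extend t, ⟨t, ht, rfl⟩, ?_⟩
  rw [dist_pi_lt_iff hδ]
  intro i
  rw [Real.dist_eq]
  exact hγ i t ht

end Pool.Agent.Lib.MP_bbe012_lc.PH
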