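import Pool.Agent.Lib.MP_bbe012_lc.PH.HA1
import Pool.Agent.Lib.MP_bbe012_lc.PG.BMain

/-!
# Generic relations between analytic functions with rational Taylor coefficients at a rational point
-/

namespace Pool.Agent.Lib.MP_bbe012_lc.PH

open MvPolynomial MeasureTheory Set PG

private theorem ha5_coeff {s : ℕ} (F : MvPowerSeries (Fin s) ℝ) (m : Fin s →₀ ℕ) :
    MvPowerSeries.coeff m F = cf F (fun i => m i) := by
  unfold cf
  congr 2
  ext i
  rfl

private theorem ha5_shift {s : ℕ} {K : Type} [CommRing K] (a b : Fin s → K) (hab : ∀ j, b j = - a j)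
    (q : MvPolynomial (Fin s) K) :
    aeval (fun j => X j + C (a j) : Fin s → MvPolynomial (Fin s) K)
      (aeval (fun j => X j + C (b j) : Fin s → MvPolynomial (Fin s) K) q) = q := by
  rw [comp_aeval_apply]
  have h1 : (fun i => aeval (fun j => X j + C (a j) : Fin s → MvPolynomial (Fin s) K)
      (X i + C (b i) : MvPolynomial (Fin s) K)) = fun i => X i := by
    funext i
    rw [map_add, aeval_X, aeval_C, hab, MvPolynomial.algebraMap_eq, map_neg]
    ring
  rw [h1]
  exact aeval_X_left_apply q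

private theorem ha5_coe_sub {s : ℕ} (a b : MvPolynomial (Fin s) ℝ) :
    ((a - b : MvPolynomial (Fin s) ℝ) : MvPowerSeries (Fin s) ℝ) =
      (a : MvPowerSeries (Fin s) ℝ) - (b : MvPowerSeries (Fin s) ℝ) :=
  map_sub (MvPolynomial.coeToMvPowerSeries.ringHom (R := ℝ) (σ := Fin s)) a b

private theorem ha5_coe_map {s : ℕ} (q : MvPolynomial (Fin s) ℚ) :
    ((MvPolynomial.map (algebraMap ℚ ℝ) q : MvPolynomial (Fin s) ℝ) : MvPowerSeries (Fin s) ℝ) =
      MvPowerSeries.map (algebraMap ℚ ℝ) (q : MvPowerSeries (Fin s) ℚ) := by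
  ext m
  rw [MvPolynomial.coeff_coe, MvPolynomial.coeff_map, MvPowerSeries.coeff_map,
    MvPolynomial.coeff_coe]

private theorem ha5_map_shift {s : ℕ} (a : Fin s → ℚ) (q : MvPolynomial (Fin s) ℚ) :
    aeval (fun j => X j + C ((a j : ℚ) : ℝ) : Fin s → MvPolynomial (Fin s) ℝ)
      (MvPolynomial.map (algebraMap ℚ ℝ) q) =
      MvPolynomial.map (algebraMap ℚ ℝ)
        (aeval (fun j => X j + C (a j) : Fin s → MvPolynomial (Fin s) ℚ) q) := by
  induction q using MvPolynomial.induction_on with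
  | C c =>
    rw [MvPolynomial.map_C, aeval_C, aeval_C, MvPolynomial.algebraMap_eq, MvPolynomial.algebraMap_eq,
      MvPolynomial.map_C]
  | add p q hp hq => rw [map_add, map_add, map_add, map_add, hp, hq]
  | mul_X p i hp =>
    rw [map_mul, map_mul, map_mul, map_mul, hp, MvPolynomial.map_X, aeval_X, aeval_X, map_add,
      MvPolynomial.map_X, MvPolynomial.map_C]
    rfl

private theorem ha5_eval_map {s : ℕ} (θ : Fin s → ℝ) (q : MvPolynomial (Fin s) ℚ) :
    eval θ (MvPolynomial.map (algebraMap ℚ ℝ) q) = aeval θ q := by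
  rw [aeval_def, eval₂_eq_eval_map]

private theorem ha5_zero {s : ℕ} {P : Type} [Fintype P] {Ω : Set (Fin s → ℝ)}
    (hc : IsPreconnected Ω) (V : P → (Fin s → ℝ) → ℝ) (hV : ∀ p, AnalyticOnNhd ℝ (V p) Ω)
    (c : P → MvPolynomial (Fin s) ℝ) {θ₀ : Fin s → ℝ} (hθ₀ : θ₀ ∈ Ω)
    (h : ∀ᶠ θ in nhds θ₀, ∑ p, eval θ (c p) * V p θ = 0) :
    ∀ θ ∈ Ω, ∑ p, eval θ (c p) * V p θ = 0 := by
  have h1 : AnalyticOnNhd ℝ (fun θ : Fin s → ℝ => ∑ p, eval θ (c p) * V p θ) Ω := by
    intro θ hθ
    refine Finset.analyticAt_fun_sum _ fun p _ => ?_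
    refine AnalyticAt.mul ?_ (hV p θ hθ)
    have h2 : AnalyticOnNhd ℝ (fun x : Fin s → ℝ => aeval x (c p)) Set.univ :=
      AnalyticOnNhd.aeval_mvPolynomial (f := fun x : Fin s → ℝ => x)
        (fun i x _ => (ContinuousLinearMap.proj (R := ℝ) (φ := fun _ : Fin s => ℝ) i).analyticAt x)
        (c p)
    have h3 := h2 θ (Set.mem_univ _)
    have h4 : (fun x : Fin s → ℝ => aeval x (c p)) = fun x => eval x (c p) := by
      funext x
      rw [MvPolynomial.aeval_eq_eval]
    rw [h4] at h3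
    exact h3
  intro θ hθ
  exact h1.eqOn_zero_of_preconnected_of_eventuallyEq_zero hc hθ₀ h hθ

/-- Generic relations, and independence of a subfamily.

Proof. As that of `exists_rel` (PG/BMain.lean). `F p : MvPowerSeries (Fin s) ℚ` with the coefficients `ν_p`; `exists_basis` (PG/BAlg.lean) gives `ρ, π, q₁, r₁`; `q = aeval (fun j => X j - C (e j)) q₁`, `r` likewise. The relation holds near `cst e` by `near_iff_series` (PG/BMain.lean); both sides are analytic on the preconnected set `Ω`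
(polynomial functions are analytic: `AnalyticOnNhd.aeval_mvPolynomial` or induction), so it holds on `Ω` (`AnalyticOnNhd.eqOn_zero_of_preconnected_of_eventuallyEq_zero`, which holds in normed spaces). `VHyp`: `la` from `exists_LA`; `indep`: if `∑ i, eval θ' (P i) * V (π i) θ' = 0` near `θ ∈ S ⊆ Ω`, then it is zero on `Ω`, so near `cst e` (`Ω` is open), and
`near_iff_series`, `indep_real` give `P = 0`. -/
theorem abs_rel {s : ℕ} {P : Type} [Fintype P] [DecidableEq P] {Ω : Set (Fin s → ℝ)} (ho : IsOpen Ω)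
    (hc : IsPreconnected Ω) (V : P → (Fin s → ℝ) → ℝ) (hV : ∀ p, AnalyticOnNhd ℝ (V p) Ω) {e : Fin s → ℚ}
    (he : cst e ∈ Ω)
    (hr : ∀ p, ∃ (r B : ℝ) (ν : (Fin s → ℕ) → ℚ), 0 < r ∧ 0 ≤ B ∧ Exp r B (cst e) (V p) (fun b => (ν b : ℝ))) :
    ∃ (ρ : ℕ) (π : Fin ρ → P) (q : MvPolynomial (Fin s) ℚ) (r : P → Fin ρ → MvPolynomial (Fin s) ℚ), q ≠ 0 ∧
      (∀ p, ∀ θ ∈ Ω, aeval θ q * V p θ = ∑ i, aeval θ (r p i) * V (π i) θ) ∧
      ∀ S : Set (Fin s → ℝ), IsCompact S → S ⊆ Ω → VHyp S (fun i => V (π i)) := by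
  classical
  choose r B ν hr hB hE using hr
  let F : P → MvPowerSeries (Fin s) ℚ := fun p b => ν p (fun i => b i)
  have hcf : ∀ p, cf (MvPowerSeries.map (algebraMap ℚ ℝ) (F p)) = fun b => (ν p b : ℝ) := by
    intro p
    funext b
    rfl
  have hE' : ∀ p : P, ∃ r B : ℝ, 0 < r ∧ 0 ≤ B ∧
      Exp r B (cst e) (V p) (cf (MvPowerSeries.map (algebraMap ℚ ℝ) (F p))) := by
    intro p
    refine ⟨r p, B p, hr p, hB p, ?_⟩
    rw [hcf]
    exact hE p
  obtain ⟨ρ, π, q₁, r₁, hq₁, hrel, hind⟩ := exists_basis F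
  have hsh : ∀ q : MvPolynomial (Fin s) ℚ,
      aeval (fun j => X j + C (e j) : Fin s → MvPolynomial (Fin s) ℚ)
        (aeval (fun j => X j + C (-e j) : Fin s → MvPolynomial (Fin s) ℚ) q) = q := fun q =>
    ha5_shift e (fun j => -e j) (fun _ => rfl) q
  refine ⟨ρ, π, aeval (fun j => X j + C (-e j) : Fin s → MvPolynomial (Fin s) ℚ) q₁,
    fun p i => aeval (fun j => X j + C (-e j) : Fin s → MvPolynomial (Fin s) ℚ) (r₁ p i), ?_, ?_, ?_⟩
  · intro h0
    apply hq₁
    rw [← hsh q₁, h0, map_zero]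
  · intro p θ hθ
    obtain ⟨Q, hQ⟩ : ∃ Q, Q = aeval (fun j => X j + C (-e j) : Fin s → MvPolynomial (Fin s) ℚ) q₁ :=
      ⟨_, rfl⟩
    obtain ⟨R, hR⟩ : ∃ R : Fin ρ → MvPolynomial (Fin s) ℚ, R = fun i =>
        aeval (fun j => X j + C (-e j) : Fin s → MvPolynomial (Fin s) ℚ) (r₁ p i) := ⟨_, rfl⟩
    let c : P → MvPolynomial (Fin s) ℝ := fun p' =>
      (if p' = p then MvPolynomial.map (algebraMap ℚ ℝ) Q else 0) -
        ∑ i, (if π i = p' then MvPolynomial.map (algebraMap ℚ ℝ) (R i) else 0)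
    have hsum : ∀ θ' : Fin s → ℝ, ∑ p', eval θ' (c p') * V p' θ' =
        aeval θ' Q * V p θ' - ∑ i, aeval θ' (R i) * V (π i) θ' := by
      intro θ'
      have h1 : ∀ p', eval θ' (c p') * V p' θ' =
          (if p' = p then aeval θ' Q * V p' θ' else 0) -
            ∑ i, (if π i = p' then aeval θ' (R i) * V p' θ' else 0) := by
        intro p'
        simp only [c]
        rw [map_sub, sub_mul, map_sum, Finset.sum_mul]
        congr 1
        · split_ifs
          · rw [ha5_eval_map]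
          · rw [map_zero, zero_mul]
        · refine Finset.sum_congr rfl fun i _ => ?_
          split_ifs
          · rw [ha5_eval_map]
          · rw [map_zero, zero_mul]
      rw [Finset.sum_congr rfl fun p' _ => h1 p', Finset.sum_sub_distrib, Finset.sum_ite_eq',
        if_pos (Finset.mem_univ _), Finset.sum_comm]
      congr 1
      refine Finset.sum_congr rfl fun i _ => ?_
      rw [Finset.sum_ite_eq, if_pos (Finset.mem_univ _)]
    have hser : ∑ p', ((aeval (fun j => X j + C (cst e j)) (c p') : MvPolynomial (Fin s) ℝ) :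
        MvPowerSeries (Fin s) ℝ) * MvPowerSeries.map (algebraMap ℚ ℝ) (F p') = 0 := by
      have hmq : ∀ q : MvPolynomial (Fin s) ℚ,
          ((aeval (fun j => X j + C (cst e j)) (MvPolynomial.map (algebraMap ℚ ℝ)
            (aeval (fun j => X j + C (-e j) : Fin s → MvPolynomial (Fin s) ℚ) q)) :
              MvPolynomial (Fin s) ℝ) : MvPowerSeries (Fin s) ℝ) =
            MvPowerSeries.map (algebraMap ℚ ℝ) (q : MvPowerSeries (Fin s) ℚ) := by
        intro q
        have h2 := ha5_map_shift e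
          (aeval (fun j => X j + C (-e j) : Fin s → MvPolynomial (Fin s) ℚ) q)
        rw [hsh] at h2
        rw [← ha5_coe_map]
        exact congrArg _ h2
      have h1 : ∀ p', ((aeval (fun j => X j + C (cst e j)) (c p') : MvPolynomial (Fin s) ℝ) :
          MvPowerSeries (Fin s) ℝ) * MvPowerSeries.map (algebraMap ℚ ℝ) (F p') =
          (if p' = p then MvPowerSeries.map (algebraMap ℚ ℝ) (q₁ : MvPowerSeries (Fin s) ℚ) *
            MvPowerSeries.map (algebraMap ℚ ℝ) (F p') else 0) -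
            ∑ i, (if π i = p' then MvPowerSeries.map (algebraMap ℚ ℝ)
              (r₁ p i : MvPowerSeries (Fin s) ℚ) * MvPowerSeries.map (algebraMap ℚ ℝ) (F p') else 0) := by
        intro p'
        simp only [c]
        rw [map_sub, map_sum, ha5_coe_sub, sub_mul]
        congr 1
        · split_ifs
          · rw [hQ, hmq]
          · rw [map_zero, MvPolynomial.coe_zero, zero_mul]
        · have h3 : ((∑ i, aeval (fun j => X j + C (cst e j)) (if π i = p' then
              MvPolynomial.map (algebraMap ℚ ℝ) (R i) else 0) : MvPolynomial (Fin s) ℝ) :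
                MvPowerSeries (Fin s) ℝ) =
              ∑ i, ((aeval (fun j => X j + C (cst e j)) (if π i = p' then
              MvPolynomial.map (algebraMap ℚ ℝ) (R i) else 0) : MvPolynomial (Fin s) ℝ) :
                MvPowerSeries (Fin s) ℝ) :=
            map_sum (MvPolynomial.coeToMvPowerSeries.ringHom (R := ℝ) (σ := Fin s)) _ _
          rw [h3, Finset.sum_mul]
          refine Finset.sum_congr rfl fun i _ => ?_
          split_ifs
          · rw [hR, hmq]
          · rw [map_zero, MvPolynomial.coe_zero, zero_mul]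
      rw [Finset.sum_congr rfl fun p' _ => h1 p', Finset.sum_sub_distrib, Finset.sum_ite_eq',
        if_pos (Finset.mem_univ _), Finset.sum_comm]
      have h4 : ∀ i, ∑ p', (if π i = p' then MvPowerSeries.map (algebraMap ℚ ℝ)
          (r₁ p i : MvPowerSeries (Fin s) ℚ) * MvPowerSeries.map (algebraMap ℚ ℝ) (F p') else 0) =
          MvPowerSeries.map (algebraMap ℚ ℝ) ((r₁ p i : MvPowerSeries (Fin s) ℚ) * F (π i)) := by
        intro i
        rw [Finset.sum_ite_eq, if_pos (Finset.mem_univ _), map_mul]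
      rw [Finset.sum_congr rfl fun i _ => h4 i, ← map_mul, ← map_sum, ← map_sub, hrel p, sub_self,
        map_zero]
    have hnear := (near_iff_series V (fun p => MvPowerSeries.map (algebraMap ℚ ℝ) (F p))
      hE' c).2 hser
    have h5 := ha5_zero hc V hV c he hnear θ hθ
    rw [hsum, hQ, hR] at h5
    exact sub_eq_zero.1 h5
  · intro S hS hSR
    refine ⟨hS, fun i => exists_LA hS ((hV (π i)).mono hSR), ?_⟩
    intro θ hθ Q hQ
    have h2 := ha5_zero hc (fun i => V (π i)) (fun i => hV (π i)) Q (hSR hθ) hQ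
    have h3 : ∀ᶠ θ' in nhds (cst e), ∑ i, eval θ' (Q i) * V (π i) θ' = 0 := by
      filter_upwards [ho.mem_nhds he] with θ' hθ'
      exact h2 θ' hθ'
    have h4 := (near_iff_series (fun i => V (π i))
      (fun i => MvPowerSeries.map (algebraMap ℚ ℝ) (F (π i))) (fun i => hE' (π i)) Q).1 h3
    have h5 := indep_real (fun i => F (π i)) hind _ h4
    intro i
    have h6 := ha5_shift (fun j => -cst e j) (cst e) (fun j => (neg_neg _).symm) (Q i)
    rw [← h6, h5 i, map_zero]

private theorem ha5_tail {c : ℕ → ℝ} {M ρ : ℝ} (hρ : 0 < ρ) (hc : ∀ k, |c k| * ρ ^ k ≤ M) {t : ℝ}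
    (h0 : 0 < t) (h1 : 2 * t ≤ ρ) (n : ℕ) :
    |(∑' k, c k * t ^ k) - ∑ k ∈ Finset.range n, c k * t ^ k| ≤ 2 * M * (t / ρ) ^ n := by
  have hM : 0 ≤ M := le_trans (mul_nonneg (abs_nonneg _) (pow_nonneg hρ.le 0)) (hc 0)
  have hq0 : 0 ≤ t / ρ := by positivity
  have hq1 : t / ρ ≤ 1 / 2 := by
    rw [div_le_iff₀ hρ]
    linarith
  have hb : ∀ k, |c k * t ^ k| ≤ M * (t / ρ) ^ k := by
    intro k
    rw [abs_mul, abs_of_pos (pow_pos h0 k), div_pow, ← mul_div_assoc, le_div_iff₀ (pow_pos hρ k)]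
    calc |c k| * t ^ k * ρ ^ k = (|c k| * ρ ^ k) * t ^ k := by ring
      _ ≤ M * t ^ k := mul_le_mul_of_nonneg_right (hc k) (pow_nonneg h0.le k)
  have hg : HasSum (fun k : ℕ => M * (t / ρ) ^ k) (M * (1 - t / ρ)⁻¹) :=
    (hasSum_geometric_of_lt_one hq0 (by linarith)).mul_left M
  have hs : Summable fun k => c k * t ^ k :=
    Summable.of_norm_bounded hg.summable fun k => by
      rw [Real.norm_eq_abs]
      exact hb k
  have h2 := hs.sum_add_tsum_nat_add n
  have h3 : (∑' k, c k * t ^ k) - ∑ k ∈ Finset.range n, c k * t ^ k =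
      ∑' k, c (k + n) * t ^ (k + n) := by
    rw [← h2]
    ring
  rw [h3]
  have hg' : HasSum (fun k : ℕ => M * (t / ρ) ^ n * (t / ρ) ^ k) (M * (t / ρ) ^ n * (1 - t / ρ)⁻¹) :=
    (hasSum_geometric_of_lt_one hq0 (by linarith)).mul_left _
  have h4 : ‖∑' k, c (k + n) * t ^ (k + n)‖ ≤ M * (t / ρ) ^ n * (1 - t / ρ)⁻¹ := by
    refine tsum_of_norm_bounded hg' fun k => ?_
    rw [Real.norm_eq_abs]
    refine (hb (k + n)).trans (le_of_eq ?_)
    rw [pow_add]
    ring
  rw [Real.norm_eq_abs] at h4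
  refine h4.trans ?_
  have h5 : (1 - t / ρ)⁻¹ ≤ 2 := by
    rw [inv_le_comm₀ (by linarith) (by norm_num)]
    linarith
  calc M * (t / ρ) ^ n * (1 - t / ρ)⁻¹ ≤ M * (t / ρ) ^ n * 2 :=
        mul_le_mul_of_nonneg_left h5 (by positivity)
    _ = 2 * M * (t / ρ) ^ n := by ring

private theorem ha5_rat {x : ℝ} (h : ∀ l : Module.Dual ℚ ℝ, l 1 = 0 → l x = 0) : ∃ q : ℚ, (q : ℝ) = x := by
  by_contra hx
  have h1 : x ∉ Submodule.span ℚ ({1} : Set ℝ) := by
    intro h2
    obtain ⟨q, hq⟩ := Submodule.mem_span_singleton.1 h2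
    apply hx
    refine ⟨q, ?_⟩
    rw [← hq, Rat.smul_def, mul_one]
  obtain ⟨l, hl, hl'⟩ := Submodule.exists_dual_map_eq_bot_of_notMem h1 inferInstance
  apply hl
  apply h
  have h2 : l 1 ∈ (Submodule.span ℚ ({1} : Set ℝ)).map l :=
    Submodule.mem_map_of_mem (Submodule.mem_span_singleton_self 1)
  rw [hl'] at h2
  exact (Submodule.mem_bot ℚ).1 h2

private theorem ha5_poly {s : ℕ} {r B : ℝ} {e : Fin s → ℚ} {f : (Fin s → ℝ) → ℝ} {ν : (Fin s → ℕ) → ℝ}
    (h : Exp r B (cst e) f ν) (hr : 0 < r) (hB : 0 ≤ B) (w : Fin s → ℚ) (hw : ∀ i, |(w i : ℝ)| ≤ 1)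
    (c : PowerSeries ℚ) (M ρ : ℝ) (hρ : 0 < ρ)
    (hc : ∀ k, |((PowerSeries.coeff k c : ℚ) : ℝ)| * ρ ^ k ≤ M)
    (hf : ∀ t : ℚ, 0 < t → (t : ℝ) < ρ → f (cst fun i => e i + t * w i) = PP.ev t c) (n : ℕ)
    (F : Finset (Fin s → ℕ)) (hF : ∀ b, b ∈ F ↔ dg b = n) :
    ∑ b ∈ F, ν b * mon (fun i => (w i : ℝ)) b = (PowerSeries.coeff n c : ℚ) := by
  classical
  induction n using Nat.strong_induction_on generalizing F with
  | _ n ih =>
    let G : ℕ → Finset (Fin s → ℕ) := fun k => (finite_dg_lt (ι := Fin s) (n + 1)).toFinset.filter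
      fun b => dg b = k
    have hG : ∀ k, k ≤ n → ∀ b, b ∈ G k ↔ dg b = k := by
      intro k hk b
      rw [Finset.mem_filter, Set.Finite.mem_toFinset]
      constructor
      · exact fun h => h.2
      · intro h
        refine ⟨?_, h⟩
        change dg b < n + 1
        omega
    have hFG : F = G n := by
      ext b
      rw [hF, hG n le_rfl]
    let a : ℕ → ℝ := fun k => ∑ b ∈ G k, ν b * mon (fun i => (w i : ℝ)) b
    have ha : ∀ k, k < n → a k = (PowerSeries.coeff k c : ℚ) := by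
      intro k hk
      exact ih k hk (G k) (hG k hk.le)
    have hM : 0 ≤ M := le_trans (mul_nonneg (abs_nonneg _) (pow_nonneg hρ.le 0)) (hc 0)
    obtain ⟨K, hK, hK'⟩ : ∃ K : ℝ, 0 ≤ K ∧ K = B * 2 ^ Fintype.card (Fin s) * (2 / r) ^ (n + 1) +
        2 * M * (1 / ρ) ^ (n + 1) := ⟨_, by positivity, rfl⟩
    have key : ∀ t : ℚ, 0 < t → 4 * (t : ℝ) ≤ r → 2 * (t : ℝ) ≤ ρ →
        |a n - (PowerSeries.coeff n c : ℚ)| ≤ K * t := by
      intro t ht h1 h2
      have ht' : (0 : ℝ) < t := by exact_mod_cast ht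
      have h3 := h.approx hr hB ht' h1 hw (n + 1) (finite_dg_lt (ι := Fin s) (n + 1)).toFinset
        fun b hb => by
          rw [Set.Finite.mem_toFinset]
          exact hb
      have h4 := ha5_tail hρ hc ht' h2 (n + 1)
      have h5 := hf t ht (by linarith)
      unfold PP.ev at h5
      rw [← h5] at h4
      have h6 : (cst fun i => e i + t * w i) = cst e + fun i => (t : ℝ) * (w i : ℝ) := by
        funext i
        change ((e i + t * w i : ℚ) : ℝ) = (e i : ℝ) + (t : ℝ) * (w i : ℝ)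
        push_cast
        ring
      rw [h6] at h4
      have h7 : ∑ b ∈ (finite_dg_lt (ι := Fin s) (n + 1)).toFinset,
          ν b * (t : ℝ) ^ dg b * mon (fun i => (w i : ℝ)) b =
          ∑ k ∈ Finset.range (n + 1), a k * (t : ℝ) ^ k := by
        rw [← Finset.sum_fiberwise_of_maps_to (g := dg) (t := Finset.range (n + 1))
          (s := (finite_dg_lt (ι := Fin s) (n + 1)).toFinset)]
        · refine Finset.sum_congr rfl fun k _ => ?_
          change _ = (∑ b ∈ G k, ν b * mon (fun i => (w i : ℝ)) b) * (t : ℝ) ^ k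
          rw [Finset.sum_mul]
          refine Finset.sum_congr rfl fun b hb => ?_
          rw [(Finset.mem_filter.1 hb).2]
          ring
        · intro b hb
          rw [Set.Finite.mem_toFinset] at hb
          exact Finset.mem_range.2 hb
      rw [h7] at h3
      have h8 : (∑ k ∈ Finset.range (n + 1), a k * (t : ℝ) ^ k) -
          ∑ k ∈ Finset.range (n + 1), ((PowerSeries.coeff k c : ℚ) : ℝ) * (t : ℝ) ^ k =
          (t : ℝ) ^ n * (a n - (PowerSeries.coeff n c : ℚ)) := by
        rw [Finset.sum_range_succ, Finset.sum_range_succ,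
          Finset.sum_congr rfl fun k hk => by rw [ha k (Finset.mem_range.1 hk)]]
        ring
      have h9 : |(t : ℝ) ^ n * (a n - (PowerSeries.coeff n c : ℚ))| ≤
          B * 2 ^ Fintype.card (Fin s) * (2 * t / r) ^ (n + 1) + 2 * M * (t / ρ) ^ (n + 1) := by
        rw [← h8]
        obtain ⟨y, hy⟩ : ∃ y, y = f (cst e + fun i => (t : ℝ) * (w i : ℝ)) := ⟨_, rfl⟩
        rw [← hy] at h3 h4
        rw [abs_le] at h3 h4 ⊢
        constructor <;> linarith [h3.1, h3.2, h4.1, h4.2]
      have h10 : B * 2 ^ Fintype.card (Fin s) * (2 * t / r) ^ (n + 1) + 2 * M * (t / ρ) ^ (n + 1) =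
          (t : ℝ) ^ n * (K * t) := by
        have e1 : 2 * (t : ℝ) / r = 2 / r * t := by ring
        have e2 : (t : ℝ) / ρ = 1 / ρ * t := by ring
        rw [e1, e2, mul_pow, mul_pow, hK', pow_succ (t : ℝ) n]
        ring
      rw [h10, abs_mul, abs_of_pos (pow_pos ht' n)] at h9
      exact le_of_mul_le_mul_left h9 (pow_pos ht' n)
    have hfin : |a n - (PowerSeries.coeff n c : ℚ)| ≤ 0 := by
      refine le_of_forall_pos_le_add fun ε hε => ?_
      obtain ⟨t, ht0, ht1⟩ := exists_rat_btwn (show (0 : ℝ) <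
        min (min (r / 4) (ρ / 2)) (ε / (K + 1)) from by positivity)
      have h1 : (t : ℝ) < r / 4 := ht1.trans_le ((min_le_left _ _).trans (min_le_left _ _))
      have h2 : (t : ℝ) < ρ / 2 := ht1.trans_le ((min_le_left _ _).trans (min_le_right _ _))
      have h3 : (t : ℝ) < ε / (K + 1) := ht1.trans_le (min_le_right _ _)
      refine (key t (by exact_mod_cast ht0) (by linarith) (by linarith)).trans ?_
      rw [lt_div_iff₀ (by linarith)] at h3
      nlinarith
    rw [hFG]
    have h1 := abs_nonpos_iff.1 hfin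
    exact sub_eq_zero.1 h1

/-- The Taylor coefficients are rational if the expansions on all rational lines are.

Proof. `exists_Exp` gives `r, B, ν` for `f` at `cst e`. Fix `w ∈ ℚ^s` and choose a natural number `N ≥ 1` such that `w / N` is in the neighbourhood of `h`, and `|w i / N| < r`; let `c` be the power series of `h` for `w / N`. For small real `t` the function `t ↦ f (cst e + t (w / N))` has the expansion `∑ k, t ^ k c_k` with `c_k = ∑ b with dg b = k, ν b mon (w / N) b` (as in the proof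
of `Exp.unique`), and for small rational `t > 0` it is `∑ k, coeff k c t ^ k` (with `|coeff k c| ρ ^ k ≤ M`); two convergent power series which agree at a sequence of points `→ 0` are equal, so `c_k = coeff k c` is rational, and `∑ b with dg b = k, ν b mon w b = N ^ k c_k` is rational for all `w ∈ ℚ^s`. A homogeneous polynomial (a polynomial) with real coefficients which takes
rational values at all rational points has rational coefficients: take the values on a grid and interpolate; or apply a `ℚ`-linear map `λ : ℝ → ℝ` with `λ 1 = 0` (`λ(x) = x - ι(proj x)` ...): the polynomial with the coefficients `λ (ν b)` vanishes at all rational points, so `λ (ν b) = 0` for all `ℚ`-linear `λ : ℝ → ℚ` with `λ 1 = 0`, and this implies `ν b ∈ ℚ` (linear algebra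
over `ℚ`). -/
theorem rational_exp {s : ℕ} {e : Fin s → ℚ} {f : (Fin s → ℝ) → ℝ} (hf : AnalyticAt ℝ f (cst e)) {δ : ℝ} (hδ : 0 < δ)
    (h : ∀ w : Fin s → ℚ, (∀ i, |(w i : ℝ)| ≤ δ) → ∃ (c : PowerSeries ℚ) (M ρ : ℝ), 0 < ρ ∧
      (∀ k, |((PowerSeries.coeff k c : ℚ) : ℝ)| * ρ ^ k ≤ M) ∧
      ∀ t : ℚ, 0 < t → (t : ℝ) < ρ → f (cst fun i => e i + t * w i) = PP.ev t c) :
    ∃ (r B : ℝ) (ν : (Fin s → ℕ) → ℚ), 0 < r ∧ 0 ≤ B ∧ Exp r B (cst e) f (fun b => (ν b : ℝ)) := by
  classical
  obtain ⟨r, B, ν, hr, hB, hE⟩ := exists_Exp hf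
  have hrat : ∀ b, ∃ q : ℚ, (q : ℝ) = ν b := by
    intro b₀
    refine ha5_rat fun l hl => ?_
    let F : Finset (Fin s → ℕ) := (finite_dg_lt (ι := Fin s) (dg b₀ + 1)).toFinset.filter
      fun b => dg b = dg b₀
    have hF : ∀ b, b ∈ F ↔ dg b = dg b₀ := by
      intro b
      rw [Finset.mem_filter, Set.Finite.mem_toFinset]
      constructor
      · exact fun h => h.2
      · intro h
        refine ⟨?_, h⟩
        change dg b < dg b₀ + 1
        omega
    have hlq : ∀ q : ℚ, l (q : ℝ) = 0 := by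
      intro q
      have h1 : (q : ℝ) = q • (1 : ℝ) := by
        rw [Rat.smul_def, mul_one]
      rw [h1, map_smul, hl, smul_zero]
    have hS : ∀ w : Fin s → ℚ, (∀ i, |(w i : ℝ)| ≤ min δ 1) → ∑ b ∈ F, l (ν b) * ∏ i, w i ^ b i = 0 := by
      intro w hw
      obtain ⟨c, M, ρ, hρ, hc, hfc⟩ := h w fun i => (hw i).trans (min_le_left _ _)
      have h1 := ha5_poly hE hr hB w (fun i => (hw i).trans (min_le_right _ _)) c M ρ hρ hc hfc
        (dg b₀) F hF
      have h2 := congrArg l h1
      rw [hlq, map_sum] at h2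
      rw [← h2]
      refine Finset.sum_congr rfl fun b _ => ?_
      have h3 : ν b * mon (fun i => (w i : ℝ)) b = (∏ i, w i ^ b i) • ν b := by
        unfold mon
        rw [Rat.smul_def]
        push_cast
        ring
      rw [h3, map_smul, smul_eq_mul, mul_comm]
    let P : MvPolynomial (Fin s) ℚ :=
      ∑ b ∈ F, monomial (Finsupp.equivFunOnFinite.symm b) (l (ν b))
    have hδ' : 0 < min δ 1 := lt_min hδ one_pos
    have hinf : {q : ℚ | |(q : ℝ)| ≤ min δ 1}.Infinite := by
      obtain ⟨q₀, hq₀, hq₀'⟩ := exists_rat_btwn hδ'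
      have h0 : (0 : ℚ) < q₀ := by exact_mod_cast hq₀
      refine (Set.Icc_infinite h0).mono fun q hq => ?_
      change |(q : ℝ)| ≤ min δ 1
      have h1 : (0 : ℝ) ≤ q := by exact_mod_cast hq.1
      have h2 : (q : ℝ) ≤ q₀ := by exact_mod_cast hq.2
      rw [abs_of_nonneg h1]
      linarith
    have hP : P = 0 := by
      refine funext_set (fun _ => {q : ℚ | |(q : ℝ)| ≤ min δ 1}) (fun _ => hinf) ?_
      intro u hu
      have hu' : ∀ i, |(u i : ℝ)| ≤ min δ 1 := fun i => hu i (Set.mem_univ i)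
      rw [map_zero, ← hS u hu']
      change eval u (∑ b ∈ F, monomial (Finsupp.equivFunOnFinite.symm b) (l (ν b))) = _
      rw [map_sum]
      refine Finset.sum_congr rfl fun b _ => ?_
      rw [eval_monomial, Finsupp.prod_fintype _ _ (fun i => pow_zero _)]
      rfl
    have h1 : P.coeff (Finsupp.equivFunOnFinite.symm b₀) = l (ν b₀) := by
      change (∑ b' ∈ F, monomial (Finsupp.equivFunOnFinite.symm b') (l (ν b'))).coeff _ = _
      rw [coeff_sum, Finset.sum_eq_single b₀]
      · rw [coeff_monomial, if_pos rfl]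
      · intro b' _ hb'
        rw [coeff_monomial, if_neg]
        intro h2
        exact hb' (Finsupp.equivFunOnFinite.symm.injective h2)
      · intro h2
        exact absurd ((hF b₀).2 rfl) h2
    rw [← h1, hP, coeff_zero]
  choose ν' hν' using hrat
  refine ⟨r, B, ν', hr, hB, ?_⟩
  have h1 : (fun b => (ν' b : ℝ)) = ν := funext hν'
  rw [h1]
  exact hE

end Pool.Agent.Lib.MP_bbe012_lc.PH
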