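import Pool.Agent.Lib.MP_bbe012_lc.PH.HA2
import Pool.Agent.Lib.MP_bbe012_lc.PH.HA3

/-!
# Families of curved cubes: global coordinates, change of variables, analyticity of the integrals

A family of domains `K(y) = {x ∈ [-b, b]^m : 0 ≤ a_l(y, x) ≤ d_l(y, x)}`, `y ∈ E`; the functions `u_l = a_l / d_l` map `K(y)` to the unit cube. `E` is
`ℝ` (the parameter `t` of a path) or `Fin s → ℝ`.
-/

namespace Pool.Agent.Lib.MP_bbe012_lc.PH

open MeasureTheory Set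

variable {E : Type} [NormedAddCommGroup E] [NormedSpace ℝ E] {m : ℕ}

/-- A family of curved cubes. -/
structure GD (E : Type) (m : ℕ) where
  a : Fin m → E × (Fin m → ℝ) → ℝ
  d : Fin m → E × (Fin m → ℝ) → ℝ

namespace GD

/-- The domain at `y`. -/
def K (g : GD E m) (b : ℝ) (y : E) : Set (Fin m → ℝ) :=
  {x | ∀ l, |x l| ≤ b ∧ 0 ≤ g.a l (y, x) ∧ g.a l (y, x) ≤ g.d l (y, x)}

/-- The matrix of the `d_i ∂_j a_i - a_i ∂_j d_i`. -/
noncomputable def M (g : GD E m) (p : E × (Fin m → ℝ)) : Matrix (Fin m) (Fin m) ℝ :=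
  Matrix.of fun i j => g.d i p * fderiv ℝ (g.a i) p (0, Pi.single j 1) - g.a i p * fderiv ℝ (g.d i) p (0, Pi.single j 1)

/-- Nondegeneracy over the set `Bs`, with the standard cube at `y₀`. -/
structure Nd (g : GD E m) (b : ℝ) (Bs : Set E) (y₀ : E) : Prop where
  ana : ∀ l p, AnalyticAt ℝ (g.a l) p ∧ AnalyticAt ℝ (g.d l) p
  pre : IsPreconnected Bs
  mem : y₀ ∈ Bs
  b1 : 1 < b
  base : ∀ l x, g.a l (y₀, x) = x l ∧ g.d l (y₀, x) = 1
  nond : ∀ y ∈ Bs, ∀ x ∈ g.K b y, (∀ l, |x l| < b ∧ g.d l (y, x) ≠ 0) ∧ (g.M (y, x)).det ≠ 0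

/-- The inverse of the coordinates: `X(y, u)` is the only point of `K(y)` with the coordinates `u`. -/
structure IsX (g : GD E m) (b : ℝ) (Bs : Set E) (X : E × (Fin m → ℝ) → (Fin m → ℝ)) : Prop where
  ana : ∀ y ∈ Bs, ∀ u ∈ Icc (0 : Fin m → ℝ) 1, AnalyticAt ℝ X (y, u)
  box : ∀ y ∈ Bs, ∀ u ∈ Icc (0 : Fin m → ℝ) 1, ∀ l, |X (y, u) l| ≤ b
  eq : ∀ y ∈ Bs, ∀ u ∈ Icc (0 : Fin m → ℝ) 1, ∀ l, g.a l (y, X (y, u)) = u l * g.d l (y, X (y, u))
  pos : ∀ y ∈ Bs, ∀ u ∈ Icc (0 : Fin m → ℝ) 1, ∀ l, 0 < g.d l (y, X (y, u))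
  uniq : ∀ y ∈ Bs, ∀ u ∈ Icc (0 : Fin m → ℝ) 1, ∀ x : Fin m → ℝ, (∀ l, |x l| ≤ b ∧ g.a l (y, x) = u l * g.d l (y, x) ∧
    0 ≤ g.d l (y, x)) → x = X (y, u)

private theorem hb0_base {g : GD E m} {b : ℝ} {Bs : Set E} {y₀ : E} (h : g.Nd b Bs y₀) {X : E × (Fin m → ℝ) → (Fin m → ℝ)}
    (hX : g.IsX b Bs X) {u : Fin m → ℝ} (hu : u ∈ Icc (0 : Fin m → ℝ) 1) : X (y₀, u) = u := by
  refine (hX.uniq y₀ h.mem u hu u fun l => ⟨?_, ?_, ?_⟩).symm
  · have h0 := hu.1 l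
    have h1 := hu.2 l
    have hb := h.b1
    simp only [Pi.zero_apply, Pi.one_apply] at h0 h1
    rw [abs_of_nonneg h0]
    linarith
  · rw [(h.base l u).1, (h.base l u).2, mul_one]
  · rw [(h.base l u).2]
    exact zero_le_one

private theorem hb0_mem {g : GD E m} {b : ℝ} {y : E} {u x : Fin m → ℝ} (hu : u ∈ Icc (0 : Fin m → ℝ) 1)
    (hx : ∀ l, |x l| ≤ b) (hd : ∀ l, 0 ≤ g.d l (y, x)) (he : ∀ l, g.a l (y, x) = u l * g.d l (y, x)) : x ∈ g.K b y := by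
  intro l
  have h0 := hu.1 l
  have h1 := hu.2 l
  simp only [Pi.zero_apply, Pi.one_apply] at h0 h1
  refine ⟨hx l, ?_, ?_⟩
  · rw [he l]
    exact mul_nonneg h0 (hd l)
  · rw [he l]
    exact mul_le_of_le_one_left (hd l) h1

private theorem hb0_equiv {g : GD E m} {y : E} {u x : Fin m → ℝ}
    (ha : ∀ l, AnalyticAt ℝ (g.a l) (y, x) ∧ AnalyticAt ℝ (g.d l) (y, x))
    (he : ∀ l, g.a l (y, x) = u l * g.d l (y, x)) (hdet : (g.M (y, x)).det ≠ 0) :
    ∃ L : (Fin m → ℝ) ≃L[ℝ] (Fin m → ℝ),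
      HasFDerivAt (fun x : Fin m → ℝ => fun l => g.a l (y, x) - u l * g.d l (y, x))
        (L : (Fin m → ℝ) →L[ℝ] (Fin m → ℝ)) x := by
  obtain ⟨L0, hL0⟩ : ∃ L0 : (Fin m → ℝ) →L[ℝ] (Fin m → ℝ), L0 = ContinuousLinearMap.pi fun i =>
      (fderiv ℝ (g.a i) (y, x)).comp (ContinuousLinearMap.inr ℝ E (Fin m → ℝ)) -
        u i • (fderiv ℝ (g.d i) (y, x)).comp (ContinuousLinearMap.inr ℝ E (Fin m → ℝ)) := ⟨_, rfl⟩
  have hder : HasFDerivAt (fun x : Fin m → ℝ => fun l => g.a l (y, x) - u l * g.d l (y, x)) L0 x := by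
    rw [hL0, hasFDerivAt_pi]
    intro i
    have h1 : HasFDerivAt (fun x : Fin m → ℝ => g.a i (y, x))
        ((fderiv ℝ (g.a i) (y, x)).comp (ContinuousLinearMap.inr ℝ E (Fin m → ℝ))) x :=
      (ha i).1.differentiableAt.hasFDerivAt.comp x (hasFDerivAt_prodMk_right y x)
    have h2 : HasFDerivAt (fun x : Fin m → ℝ => g.d i (y, x))
        ((fderiv ℝ (g.d i) (y, x)).comp (ContinuousLinearMap.inr ℝ E (Fin m → ℝ))) x :=
      (ha i).2.differentiableAt.hasFDerivAt.comp x (hasFDerivAt_prodMk_right y x)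
    exact h1.sub (h2.const_mul (u i))
  have hmat : g.M (y, x) = Matrix.diagonal (fun i => g.d i (y, x)) *
      LinearMap.toMatrix' (L0 : (Fin m → ℝ) →ₗ[ℝ] (Fin m → ℝ)) := by
    ext i j
    rw [Matrix.diagonal_mul, LinearMap.toMatrix'_apply]
    have h3 : (L0 : (Fin m → ℝ) →ₗ[ℝ] (Fin m → ℝ)) (Pi.single j 1) i =
        fderiv ℝ (g.a i) (y, x) (0, Pi.single j 1) - u i * fderiv ℝ (g.d i) (y, x) (0, Pi.single j 1) := by
      rw [hL0]
      rfl
    rw [h3]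
    unfold M
    rw [Matrix.of_apply, he i]
    ring
  have hdetL : L0.det ≠ 0 := by
    intro h0
    apply hdet
    rw [hmat, Matrix.det_mul, LinearMap.det_toMatrix']
    have h4 : LinearMap.det (L0 : (Fin m → ℝ) →ₗ[ℝ] (Fin m → ℝ)) = 0 := h0
    rw [h4, mul_zero]
  refine ⟨L0.toContinuousLinearEquivOfDetNeZero hdetL, ?_⟩
  rw [ContinuousLinearMap.coe_toContinuousLinearEquivOfDetNeZero]
  exact hder

/-- Global coordinates.

Proof. `exists_global` (HA3.lean) for the normed space `E × (Fin m → ℝ)`, `F (y, u) x = fun l => a l (y, x) - u l * d l (y, x)` (jointly analytic: compositions with the linear map `((y, u), x) ↦ (y, x)`, products, `AnalyticAt` in a finite product: `analyticAt_pi_iff`-like), `N = {((y, u), x) | ∀ l, |x l| ≤ b ∧ 0 ≤ d l (y, x)}` (closed, as `d l` is continuous),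
`K = {x | ∀ l, |x l| ≤ b}` compact, `Bs' = Bs ×ˢ Icc 0 1` (`IsPreconnected.prod`, the cube is convex). `hint`: if `((y, u), x) ∈ N` and `F = 0`, then `a l = u l * d l ∈ [0, d l]`, so `x ∈ K(y)`; by `nond` `|x l| < b` and `d l > 0`, so `((y, u), x)` is in the interior of `N` (the set `{|x l| < b, 0 < d l}` is open). The derivative of `F (y, u)` in `x` is
the linear map with the matrix `∂_j a_i - u_i ∂_j d_i` (`fderiv` of `a i` at `(y, x)` composed with `v ↦ (0, v)`), and `d_i` times the `i`-th row is the row `i` of `M (y, x)`, because `a i = u i * d i`; so its determinant is not `0` and it is a `ContinuousLinearEquiv` (`Matrix.toLin'`, `LinearEquiv.ofIsUnitDet`/`LinearMap.equivOfDetNeZero`, `.toContinuousLinearEquiv`).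
Base point `(y₀, u₀)` with `u₀ = 0` (or any `u₀` in the cube): `a = x`, `d = 1`: the only solution is `x = u₀`, `|u₀ l| ≤ 1 < b`. The resulting function of `((y, u))` is `X`. `pos`: `d l ≥ 0` from `N`, and `≠ 0` by `nond`. -/
theorem Nd.exists_X [CompleteSpace E] {g : GD E m} {b : ℝ} {Bs : Set E} {y₀ : E} (h : g.Nd b Bs y₀) :
    ∃ X, g.IsX b Bs X := by
  have hca : ∀ l, Continuous (g.a l) := fun l =>
    continuous_iff_continuousAt.mpr fun p => (h.ana l p).1.continuousAt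
  have hcd : ∀ l, Continuous (g.d l) := fun l =>
    continuous_iff_continuousAt.mpr fun p => (h.ana l p).2.continuousAt
  have hlin : Continuous fun p : (E × (Fin m → ℝ)) × (Fin m → ℝ) => ((p.1.1, p.2) : E × (Fin m → ℝ)) := by
    fun_prop
  have hab : ∀ l, Continuous fun p : (E × (Fin m → ℝ)) × (Fin m → ℝ) => |p.2 l| := by
    intro l
    fun_prop
  have hX := exists_global (E := E × (Fin m → ℝ)) (fun q x l => g.a l (q.1, x) - q.2 l * g.d l (q.1, x))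
    (by
      intro q x
      rw [analyticAt_pi_iff]
      intro l
      have h1 : AnalyticAt ℝ (fun p : (E × (Fin m → ℝ)) × (Fin m → ℝ) => ((p.1.1, p.2) : E × (Fin m → ℝ))) (q, x) :=
        (analyticAt_fst.comp analyticAt_fst).prod analyticAt_snd
      have h2 : AnalyticAt ℝ (fun p : (E × (Fin m → ℝ)) × (Fin m → ℝ) => g.a l (p.1.1, p.2)) (q, x) :=
        AnalyticAt.fun_comp (h.ana l _).1 h1
      have h3 : AnalyticAt ℝ (fun p : (E × (Fin m → ℝ)) × (Fin m → ℝ) => g.d l (p.1.1, p.2)) (q, x) :=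
        AnalyticAt.fun_comp (h.ana l _).2 h1
      have h4 : AnalyticAt ℝ (fun p : (E × (Fin m → ℝ)) × (Fin m → ℝ) => p.1.2 l) (q, x) :=
        AnalyticAt.fun_comp ((ContinuousLinearMap.proj l : (Fin m → ℝ) →L[ℝ] ℝ).analyticAt _)
          (analyticAt_snd.comp analyticAt_fst)
      exact h2.sub (h4.mul h3))
    {p | ∀ l, |p.2 l| ≤ b ∧ 0 ≤ g.d l (p.1.1, p.2)}
    (by
      rw [ofPred_forall]
      exact isClosed_iInter fun l => (isClosed_le (hab l) continuous_const).inter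
        (isClosed_le continuous_const ((hcd l).comp hlin)))
    (Icc (fun _ => -b) (fun _ => b)) isCompact_Icc
    (fun p hp => ⟨fun l => (abs_le.mp (hp l).1).1, fun l => (abs_le.mp (hp l).1).2⟩)
    (Bs ×ˢ Icc (0 : Fin m → ℝ) 1) (h.pre.prod (convex_Icc 0 1).isPreconnected)
    (by
      rintro ⟨y, u⟩ ⟨hy, hu⟩ x hN hF
      have he : ∀ l, g.a l (y, x) = u l * g.d l (y, x) := fun l => sub_eq_zero.mp (congrFun hF l)
      have hK : x ∈ g.K b y := hb0_mem hu (fun l => (hN l).1) (fun l => (hN l).2) he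
      have hn := h.nond y hy x hK
      refine ⟨?_, hb0_equiv (fun l => h.ana l _) he hn.2⟩
      rw [mem_interior]
      refine ⟨{p | ∀ l, |p.2 l| < b ∧ 0 < g.d l (p.1.1, p.2)}, fun p hp l => ⟨(hp l).1.le, (hp l).2.le⟩, ?_, ?_⟩
      · rw [ofPred_forall]
        exact isOpen_iInter_of_finite fun l => (isOpen_lt (hab l) continuous_const).inter
          (isOpen_lt continuous_const ((hcd l).comp hlin))
      · intro l
        exact ⟨(hn.1 l).1, lt_of_le_of_ne (hN l).2 (hn.1 l).2.symm⟩)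
    (y₀, 0) ⟨h.mem, ⟨le_refl _, fun _ => zero_le_one⟩⟩
    (by
      refine ⟨0, ⟨fun l => ⟨?_, ?_⟩, ?_⟩, ?_⟩
      · show |(0 : ℝ)| ≤ b
        rw [abs_zero]
        linarith [h.b1]
      · show 0 ≤ g.d l (y₀, 0)
        rw [(h.base l 0).2]
        exact zero_le_one
      · funext l
        show g.a l (y₀, 0) - (0 : ℝ) * g.d l (y₀, 0) = 0
        rw [(h.base l 0).1, zero_mul, sub_zero]
        rfl
      · rintro x ⟨_, hx⟩
        funext l
        have h1 : g.a l (y₀, x) - (0 : ℝ) * g.d l (y₀, x) = 0 := congrFun hx l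
        rw [(h.base l x).1, zero_mul, sub_zero] at h1
        exact h1)
  obtain ⟨X, hX⟩ := hX
  have heq : ∀ y ∈ Bs, ∀ u ∈ Icc (0 : Fin m → ℝ) 1, ∀ l, g.a l (y, X (y, u)) = u l * g.d l (y, X (y, u)) := by
    intro y hy u hu l
    exact sub_eq_zero.mp (congrFun (hX (y, u) ⟨hy, hu⟩).2.2.1 l)
  refine ⟨X, ⟨fun y hy u hu => (hX (y, u) ⟨hy, hu⟩).1, fun y hy u hu l => ((hX (y, u) ⟨hy, hu⟩).2.1 l).1, heq, ?_, ?_⟩⟩
  · intro y hy u hu l
    have hN := (hX (y, u) ⟨hy, hu⟩).2.1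
    have hK : X (y, u) ∈ g.K b y := hb0_mem hu (fun l => (hN l).1) (fun l => (hN l).2) (heq y hy u hu)
    exact lt_of_le_of_ne (hN l).2 ((h.nond y hy _ hK).1 l).2.symm
  · intro y hy u hu x hx
    refine (hX (y, u) ⟨hy, hu⟩).2.2.2 x (fun l => ⟨(hx l).1, (hx l).2.2⟩) ?_
    funext l
    exact sub_eq_zero.mpr (hx l).2.1

/-- The points of `K(y)` are the `X(y, u)`, `u` in the cube. Proof: `u l = a l / d l`, `d l > 0` on `K(y)` (`0 ≤ a l ≤ d l`, `d l ≠ 0` by `nond`). -/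
theorem IsX.mem_iff {g : GD E m} {b : ℝ} {Bs : Set E} {y₀ : E} (h : g.Nd b Bs y₀) {X : E × (Fin m → ℝ) → (Fin m → ℝ)}
    (hX : g.IsX b Bs X) {y : E} (hy : y ∈ Bs) (x : Fin m → ℝ) :
    x ∈ g.K b y ↔ ∃ u ∈ Icc (0 : Fin m → ℝ) 1, x = X (y, u) := by
  constructor
  · intro hx
    have hn := h.nond y hy x hx
    have hd : ∀ l, 0 < g.d l (y, x) := fun l =>
      lt_of_le_of_ne ((hx l).2.1.trans (hx l).2.2) (hn.1 l).2.symm
    refine ⟨fun l => g.a l (y, x) / g.d l (y, x), ⟨fun l => ?_, fun l => ?_⟩, ?_⟩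
    · exact div_nonneg (hx l).2.1 (hd l).le
    · exact (div_le_one (hd l)).mpr (hx l).2.2
    · refine hX.uniq y hy _ ⟨fun l => ?_, fun l => ?_⟩ x fun l => ⟨(hx l).1, ?_, (hd l).le⟩
      · exact div_nonneg (hx l).2.1 (hd l).le
      · exact (div_le_one (hd l)).mpr (hx l).2.2
      · exact (div_mul_cancel₀ _ (hd l).ne').symm
  · rintro ⟨u, hu, rfl⟩
    exact hb0_mem hu (hX.box y hy u hu) (fun l => (hX.pos y hy u hu l).le) (hX.eq y hy u hu)

/-- Positivity. Proof: the function `(y, u) ↦ f (y, X (y, u))` is continuous on the preconnected set `Bs ×ˢ Icc 0 1` (`IsX.ana`), it has no zeros there (`X (y, u) ∈ K(y)`), and it is positive at `(y₀, u)`, where `X (y₀, u) = u` (`uniq`, `base`); intermediate values (`IsPreconnected.intermediate_value`, or `IsPreconnected.image` and order-connectedness). `mem_iff`. -/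
theorem IsX.pos_of_ne {g : GD E m} {b : ℝ} {Bs : Set E} {y₀ : E} (h : g.Nd b Bs y₀) {X : E × (Fin m → ℝ) → (Fin m → ℝ)}
    (hX : g.IsX b Bs X) {f : E × (Fin m → ℝ) → ℝ} (hf : Continuous f) (hf0 : ∀ y ∈ Bs, ∀ x ∈ g.K b y, f (y, x) ≠ 0)
    (hf1 : ∀ x ∈ Icc (0 : Fin m → ℝ) 1, 0 < f (y₀, x)) : ∀ y ∈ Bs, ∀ x ∈ g.K b y, 0 < f (y, x) := by
  intro y hy x hx
  by_contra hneg
  have hneg' : f (y, x) < 0 := lt_of_le_of_ne (not_lt.mp hneg) (hf0 y hy x hx)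
  obtain ⟨u, hu, rfl⟩ := (IsX.mem_iff h hX hy x).mp hx
  have hcont : ContinuousOn (fun q : E × (Fin m → ℝ) => f (q.1, X q)) (Bs ×ˢ Icc (0 : Fin m → ℝ) 1) := by
    rintro ⟨y', u'⟩ ⟨hy', hu'⟩
    have h1 : ContinuousAt X (y', u') := (hX.ana y' hy' u' hu').continuousAt
    exact (hf.continuousAt.comp (continuousAt_fst.prodMk h1)).continuousWithinAt
  have hpre : IsPreconnected (Bs ×ˢ Icc (0 : Fin m → ℝ) 1) := h.pre.prod (convex_Icc 0 1).isPreconnected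
  have h0 : (0 : Fin m → ℝ) ∈ Icc (0 : Fin m → ℝ) 1 := ⟨le_refl _, fun _ => zero_le_one⟩
  have ha : ((y, u) : E × (Fin m → ℝ)) ∈ Bs ×ˢ Icc (0 : Fin m → ℝ) 1 := ⟨hy, hu⟩
  have hb : ((y₀, 0) : E × (Fin m → ℝ)) ∈ Bs ×ˢ Icc (0 : Fin m → ℝ) 1 := ⟨h.mem, h0⟩
  have hiv := hpre.intermediate_value ha hb hcont
  have hpos : 0 < f (y₀, X (y₀, 0)) := by
    rw [hb0_base h hX h0]
    exact hf1 0 h0
  obtain ⟨⟨y', u'⟩, ⟨hy', hu'⟩, h2⟩ := hiv ⟨hneg'.le, hpos.le⟩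
  exact hf0 y' hy' (X (y', u')) ((IsX.mem_iff h hX hy' _).mpr ⟨u', hu', rfl⟩) h2

/-- `X (y₀, u) = u`. Proof: `uniq`, `base`, `b1`. -/
theorem IsX.base {g : GD E m} {b : ℝ} {Bs : Set E} {y₀ : E} (h : g.Nd b Bs y₀) {X : E × (Fin m → ℝ) → (Fin m → ℝ)}
    (hX : g.IsX b Bs X) {u : Fin m → ℝ} (hu : u ∈ Icc (0 : Fin m → ℝ) 1) : X (y₀, u) = u := by
  exact hb0_base h hX hu

end GD

end Pool.Agent.Lib.MP_bbe012_lc.PH
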