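import Pool.Agent.Lib.MP_bbe012_lc.PH.HB0

/-!
# Families of curved cubes: the Jacobian determinant and the change of variables
-/

namespace Pool.Agent.Lib.MP_bbe012_lc.PH

open MeasureTheory Set

variable {E : Type} [NormedAddCommGroup E] [NormedSpace ℝ E] {m : ℕ}

namespace GD

private theorem hb0b_hasF {G : E × (Fin m → ℝ) → ℝ} {y : E} {x : Fin m → ℝ}
    (h : AnalyticAt ℝ G (y, x)) :
    ∃ L : (Fin m → ℝ) →L[ℝ] ℝ, (∀ v, L v = ∑ j, fderiv ℝ G (y, x) (0, Pi.single j 1) * v j) ∧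
      HasFDerivAt (fun x' => G (y, x')) L x := by
  refine ⟨(fderiv ℝ G (y, x)).comp (ContinuousLinearMap.inr ℝ E (Fin m → ℝ)), fun v => ?_, ?_⟩
  · have h1 := LinearMap.pi_apply_eq_sum_univ
      ((fderiv ℝ G (y, x)).comp (ContinuousLinearMap.inr ℝ E (Fin m → ℝ))).toLinearMap v
    refine h1.trans (Finset.sum_congr rfl fun j _ => ?_)
    have h2 : (fun i : Fin m => if j = i then (1 : ℝ) else 0) = Pi.single j 1 := by
      funext i
      rw [Pi.single_apply]
      by_cases h : j = i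
      · rw [if_pos h, if_pos h.symm]
      · rw [if_neg h, if_neg fun h' => h h'.symm]
    rw [h2, smul_eq_mul, mul_comm]
    rfl
  · exact h.differentiableAt.hasFDerivAt.comp x (hasFDerivAt_prodMk_right y x)

private theorem hb0b_pd {G : E × (Fin m → ℝ) → ℝ} {y : E} {x : Fin m → ℝ}
    (h : AnalyticAt ℝ G (y, x)) {L : (Fin m → ℝ) →L[ℝ] ℝ}
    (hL : HasFDerivAt (fun x' => G (y, x')) L x) (j : Fin m) :
    fderiv ℝ G (y, x) (0, Pi.single j 1) = L (Pi.single j 1) := by
  have h1 : HasFDerivAt (fun x' => G (y, x'))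
      ((fderiv ℝ G (y, x)).comp (ContinuousLinearMap.inr ℝ E (Fin m → ℝ))) x :=
    h.differentiableAt.hasFDerivAt.comp x (hasFDerivAt_prodMk_right y x)
  rw [← h1.unique hL]
  rfl

private theorem hb0b_cont {g : GD E m} {b : ℝ} {Bs : Set E} {y₀ : E} (h : g.Nd b Bs y₀) :
    Continuous fun p => (g.M p).det := by
  refine Continuous.matrix_det ?_
  refine continuous_matrix fun i j => ?_
  have h1 : ∀ l, Continuous (g.a l) := fun l =>
    continuous_iff_continuousAt.2 fun p => (h.ana l p).1.continuousAt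
  have h2 : ∀ l, Continuous (g.d l) := fun l =>
    continuous_iff_continuousAt.2 fun p => (h.ana l p).2.continuousAt
  have h3 : ∀ l, Continuous (fderiv ℝ (g.a l)) := fun l =>
    continuous_iff_continuousAt.2 fun p => (h.ana l p).1.fderiv.continuousAt
  have h4 : ∀ l, Continuous (fderiv ℝ (g.d l)) := fun l =>
    continuous_iff_continuousAt.2 fun p => (h.ana l p).2.fderiv.continuousAt
  exact ((h2 i).mul ((h3 i).clm_apply continuous_const)).sub
    ((h1 i).mul ((h4 i).clm_apply continuous_const))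

private theorem hb0b_base {g : GD E m} {b : ℝ} {Bs : Set E} {y₀ : E} (h : g.Nd b Bs y₀)
    (x : Fin m → ℝ) : g.M (y₀, x) = 1 := by
  ext1 i j
  have h1 : HasFDerivAt (fun x' => g.a i (y₀, x'))
      (ContinuousLinearMap.proj i : (Fin m → ℝ) →L[ℝ] ℝ) x := by
    have h2 : (fun x' => g.a i (y₀, x')) = fun x' : Fin m → ℝ => x' i :=
      funext fun x' => (h.base i x').1
    rw [h2]
    exact hasFDerivAt_apply i x
  have h3 : HasFDerivAt (fun x' => g.d i (y₀, x')) (0 : (Fin m → ℝ) →L[ℝ] ℝ) x := by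
    have h2 : (fun x' => g.d i (y₀, x')) = fun _ : Fin m → ℝ => (1 : ℝ) :=
      funext fun x' => (h.base i x').2
    rw [h2]
    exact hasFDerivAt_const _ _
  unfold M
  rw [Matrix.of_apply, hb0b_pd (h.ana i _).1 h1 j, hb0b_pd (h.ana i _).2 h3 j, (h.base i x).1,
    (h.base i x).2, Matrix.one_apply]
  show 1 * (Pi.single j (1 : ℝ) : Fin m → ℝ) i - x i * 0 = _
  rw [Pi.single_apply]
  ring

/-- the matrix of the derivatives of the coordinates -/
private noncomputable def hb0bJ (g : GD E m) (p : E × (Fin m → ℝ)) :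
    Matrix (Fin m) (Fin m) ℝ :=
  Matrix.of fun i j => (g.d i p ^ 2)⁻¹ * g.M p i j

private theorem hb0b_det (g : GD E m) (p : E × (Fin m → ℝ)) :
    (hb0bJ g p).det = (g.M p).det / ∏ l, g.d l p ^ 2 := by
  unfold hb0bJ
  rw [Matrix.det_mul_column (fun i => (g.d i p ^ 2)⁻¹) (g.M p), Finset.prod_inv_distrib,
    mul_comm, ← div_eq_mul_inv]

private theorem hb0b_der {g : GD E m} {b : ℝ} {Bs : Set E} {y₀ : E} (h : g.Nd b Bs y₀)
    (y : E) (x : Fin m → ℝ) (hd : ∀ l, g.d l (y, x) ≠ 0) :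
    HasFDerivAt (fun (x' : Fin m → ℝ) (l : Fin m) => g.a l (y, x') / g.d l (y, x'))
      (LinearMap.toContinuousLinearMap (Matrix.toLin' (hb0bJ g (y, x)))) x := by
  rw [hasFDerivAt_pi']
  intro l
  obtain ⟨L₁, h1, h1'⟩ := hb0b_hasF (h.ana l (y, x)).1
  obtain ⟨L₂, h2, h2'⟩ := hb0b_hasF (h.ana l (y, x)).2
  have h3 := (hasDerivAt_inv (hd l)).comp_hasFDerivAt x h2'
  have h4 := h1'.mul h3
  have h5 : (fun x' : Fin m → ℝ => g.a l (y, x') / g.d l (y, x')) =
      fun x' : Fin m → ℝ => g.a l (y, x') * (Inv.inv ∘ fun x' => g.d l (y, x')) x' := by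
    funext x'
    exact div_eq_mul_inv _ _
  rw [h5]
  refine h4.congr_fderiv ?_
  refine ContinuousLinearMap.ext fun v => ?_
  show g.a l (y, x) * (-(g.d l (y, x) ^ 2)⁻¹ * L₂ v) + (g.d l (y, x))⁻¹ * L₁ v =
    (hb0bJ g (y, x)).mulVec v l
  rw [h1, h2]
  show _ = ∑ j, hb0bJ g (y, x) l j * v j
  rw [Finset.mul_sum, Finset.mul_sum, Finset.mul_sum, ← Finset.sum_add_distrib]
  refine Finset.sum_congr rfl fun j _ => ?_
  have hb := hd l
  unfold hb0bJ M
  rw [Matrix.of_apply, Matrix.of_apply]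
  field_simp
  ring

private theorem hb0b_closed {g : GD E m} {b : ℝ} {Bs : Set E} {y₀ : E} (h : g.Nd b Bs y₀)
    (y : E) : IsClosed (g.K b y) := by
  have h0 : g.K b y = ⋂ l, ({x | |x l| ≤ b} ∩
      ({x | 0 ≤ g.a l (y, x)} ∩ {x | g.a l (y, x) ≤ g.d l (y, x)})) := by
    ext x
    rw [mem_iInter]
    exact Iff.rfl
  rw [h0]
  refine isClosed_iInter fun l => ?_
  have h1 : Continuous fun x : Fin m → ℝ => g.a l (y, x) :=
    (continuous_iff_continuousAt.2 fun p => (h.ana l p).1.continuousAt).comp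
      (Continuous.prodMk_right y)
  have h2 : Continuous fun x : Fin m → ℝ => g.d l (y, x) :=
    (continuous_iff_continuousAt.2 fun p => (h.ana l p).2.continuousAt).comp
      (Continuous.prodMk_right y)
  exact (isClosed_le (continuous_apply l).abs continuous_const).inter
    ((isClosed_le continuous_const h1).inter (isClosed_le h1 h2))

/-- The Jacobian determinant is positive. Proof: `pos_of_ne` for `f = det M` (continuous: `a`, `d` are analytic, so are their derivatives, `AnalyticAt.fderiv`, evaluated at a vector; determinants are continuous `Continuous.matrix_det`); at `y₀` the matrix is the identity: `d = 1`, `a i (y₀, x) = x i`, and the derivatives in the directions `(0, e_j)` of `a i`, `d i` at `(y₀, x)` are those of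
`x ↦ a i (y₀, x) = x i` and `x ↦ d i (y₀, x) = 1` (chain rule for `v ↦ (y₀, v)`). -/
theorem IsX.det_pos {g : GD E m} {b : ℝ} {Bs : Set E} {y₀ : E} (h : g.Nd b Bs y₀) {X : E × (Fin m → ℝ) → (Fin m → ℝ)}
    (hX : g.IsX b Bs X) : ∀ y ∈ Bs, ∀ x ∈ g.K b y, 0 < (g.M (y, x)).det := by
  refine hX.pos_of_ne h (f := fun p => (g.M p).det) (hb0b_cont h)
    (fun y hy x hx => (h.nond y hy x hx).2) fun x _ => ?_
  show 0 < (g.M (y₀, x)).det
  rw [hb0b_base h x, Matrix.det_one]
  exact one_pos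

/-- **Change of variables.**

Proof. As `integral_sig` (PT/RealB.lean). `ψ x l = a l (y, x) / d l (y, x)` is differentiable at the points of `K(y)` (`d l ≠ 0`), with the derivative given by the matrix `M i j / d_i ^ 2` at `(y, x)`, of determinant `det M / ∏ d_i ^ 2 > 0` (`det_pos`); it is injective on `K(y)` and `ψ '' K(y) = Icc 0 1` (`mem_iff`, `eq`, `pos`, `uniq`); `K(y)` is closed, hence measurable.
`integral_image_eq_integral_abs_det_fderiv_smul` for `G u = f (X (y, u)) * ((∏ l, d l ^ 2) / det M) (y, X (y, u))`: `∫ u in Icc 0 1, G u = ∫ x in K(y), |det ψ'| * G (ψ x)`, and `X (y, ψ x) = x`. -/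
theorem IsX.integral_eq {g : GD E m} {b : ℝ} {Bs : Set E} {y₀ : E} (h : g.Nd b Bs y₀) {X : E × (Fin m → ℝ) → (Fin m → ℝ)}
    (hX : g.IsX b Bs X) {y : E} (hy : y ∈ Bs) (f : (Fin m → ℝ) → ℝ) :
    ∫ x in g.K b y, f x = ∫ u in Icc (0 : Fin m → ℝ) 1, f (X (y, u)) *
      ((∏ l, g.d l (y, X (y, u)) ^ 2) / (g.M (y, X (y, u))).det) := by
  classical
  have hd : ∀ {x : Fin m → ℝ}, x ∈ g.K b y → ∀ l, 0 < g.d l (y, x) := fun {x} hx l => by
    have h1 := hx l
    exact lt_of_le_of_ne (h1.2.1.trans h1.2.2) (Ne.symm ((h.nond y hy x hx).1 l).2)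
  obtain ⟨ψ, hψ⟩ : ∃ ψ : (Fin m → ℝ) → (Fin m → ℝ), ψ = fun x l =>
      g.a l (y, x) / g.d l (y, x) := ⟨_, rfl⟩
  have hψφ : ∀ u ∈ Icc (0 : Fin m → ℝ) 1, ψ (X (y, u)) = u := by
    intro u hu
    rw [hψ]
    funext l
    show g.a l (y, X (y, u)) / g.d l (y, X (y, u)) = u l
    rw [hX.eq y hy u hu l, mul_div_cancel_right₀]
    exact (hX.pos y hy u hu l).ne'
  have hφψ : ∀ x ∈ g.K b y, ψ x ∈ Icc (0 : Fin m → ℝ) 1 ∧ x = X (y, ψ x) := by
    intro x hx
    obtain ⟨u, hu, rfl⟩ := (hX.mem_iff h hy x).1 hx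
    rw [hψφ u hu]
    exact ⟨hu, rfl⟩
  have himg : ψ '' g.K b y = Icc (0 : Fin m → ℝ) 1 := by
    ext u
    constructor
    · rintro ⟨x, hx, rfl⟩
      exact (hφψ x hx).1
    · intro hu
      exact ⟨_, (hX.mem_iff h hy _).2 ⟨u, hu, rfl⟩, hψφ u hu⟩
  have hinj : InjOn ψ (g.K b y) := by
    intro x hx x' hx' hxy
    rw [(hφψ x hx).2, (hφψ x' hx').2, hxy]
  have hder : ∀ x ∈ g.K b y, HasFDerivWithinAt ψ (LinearMap.toContinuousLinearMap
      (Matrix.toLin' (hb0bJ g (y, x)))) (g.K b y) x := by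
    intro x hx
    rw [hψ]
    exact (hb0b_der h y x fun l => (hd hx l).ne').hasFDerivWithinAt
  have hmeas : MeasurableSet (g.K b y) := (hb0b_closed h y).measurableSet
  have main := integral_image_eq_integral_abs_det_fderiv_smul (μ := volume) hmeas hder hinj
    (fun u => f (X (y, u)) *
      ((∏ l, g.d l (y, X (y, u)) ^ 2) / (g.M (y, X (y, u))).det))
  rw [himg] at main
  rw [main]
  refine setIntegral_congr_fun hmeas fun x hx => ?_
  obtain ⟨h1, h2⟩ := hφψ x hx
  beta_reduce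
  rw [← h2, smul_eq_mul, ContinuousLinearMap.det, LinearMap.coe_toContinuousLinearMap,
    LinearMap.det_toLin']
  have hpos := hX.det_pos h y hy x hx
  have hBp : 0 < ∏ l, g.d l (y, x) ^ 2 :=
    Finset.prod_pos fun l _ => pow_pos (hd hx l) 2
  rw [hb0b_det, abs_of_pos (div_pos hpos hBp)]
  field_simp

end GD

end Pool.Agent.Lib.MP_bbe012_lc.PH
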