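import Pool.Agent.Lib.MP_bbe012_lc.PH.HDefs
import Pool.Agent.Lib.MP_bbe012_lc.PH.HB0b

/-!
# The families of domains: positivity, analyticity of the integrals, padding of variables
-/

namespace Pool.Agent.Lib.MP_bbe012_lc.PH

open MvPolynomial MeasureTheory Set PP PG

/-- The family of curved cubes given by `F`. -/
noncomputable def Typ.gd {s m : ℕ} (F : Typ s m) : GD (Fin s → ℝ) m where
  a l p := vl (F.A l) p.1 p.2
  d l p := vl (F.B l) p.1 p.2

/-- The coordinates are analytic. -/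
private theorem analyticAt_var {s m : ℕ} (i : Fin s ⊕ Fin m) (p : (Fin s → ℝ) × (Fin m → ℝ)) :
    AnalyticAt ℝ (fun p : (Fin s → ℝ) × (Fin m → ℝ) => Sum.elim p.1 p.2 i) p := by
  cases i with
  | inl i =>
    exact ((ContinuousLinearMap.proj (R := ℝ) (φ := fun _ : Fin s => ℝ) i).comp
      (ContinuousLinearMap.fst ℝ (Fin s → ℝ) (Fin m → ℝ))).analyticAt p
  | inr j =>
    exact ((ContinuousLinearMap.proj (R := ℝ) (φ := fun _ : Fin m => ℝ) j).comp
      (ContinuousLinearMap.snd ℝ (Fin s → ℝ) (Fin m → ℝ))).analyticAt p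

private theorem fderiv_var {s m : ℕ} (i : Fin s ⊕ Fin m) (p : (Fin s → ℝ) × (Fin m → ℝ)) (j : Fin m) :
    fderiv ℝ (fun p : (Fin s → ℝ) × (Fin m → ℝ) => Sum.elim p.1 p.2 i) p (0, Pi.single j 1) =
      aeval (Sum.elim p.1 p.2) (pderiv (Sum.inr j) (X i : Pz s m)) := by
  cases i with
  | inl i =>
    have h1 := ((ContinuousLinearMap.proj (R := ℝ) (φ := fun _ : Fin s => ℝ) i).comp
      (ContinuousLinearMap.fst ℝ (Fin s → ℝ) (Fin m → ℝ))).fderiv (x := p)
    have h2 : fderiv ℝ (fun p : (Fin s → ℝ) × (Fin m → ℝ) => Sum.elim p.1 p.2 (Sum.inl i)) p =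
        (ContinuousLinearMap.proj (R := ℝ) (φ := fun _ : Fin s => ℝ) i).comp
          (ContinuousLinearMap.fst ℝ (Fin s → ℝ) (Fin m → ℝ)) := h1
    rw [h2, pderiv_X_of_ne (by simp), map_zero]
    rfl
  | inr l =>
    have h1 := ((ContinuousLinearMap.proj (R := ℝ) (φ := fun _ : Fin m => ℝ) l).comp
      (ContinuousLinearMap.snd ℝ (Fin s → ℝ) (Fin m → ℝ))).fderiv (x := p)
    have h2 : fderiv ℝ (fun p : (Fin s → ℝ) × (Fin m → ℝ) => Sum.elim p.1 p.2 (Sum.inr l)) p =
        (ContinuousLinearMap.proj (R := ℝ) (φ := fun _ : Fin m => ℝ) l).comp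
          (ContinuousLinearMap.snd ℝ (Fin s → ℝ) (Fin m → ℝ)) := h1
    rw [h2]
    change (Pi.single j (1 : ℝ) : Fin m → ℝ) l = _
    by_cases hjl : l = j
    · subst hjl
      rw [Pi.single_eq_same, pderiv_X_self, map_one]
    · rw [Pi.single_eq_of_ne hjl, pderiv_X_of_ne (fun hh => hjl (Sum.inr_injective hh)), map_zero]

private theorem vl_spz' {s m : ℕ} (D : Pz s m) (θ : Fin s → ℚ) (x : Fin m → ℝ) :
    vl D (cst θ) x = aeval x (spz D θ) := by
  unfold vl spz
  induction D using MvPolynomial.induction_on with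
  | C a =>
    rw [aeval_C, aeval_C]
    exact (aeval_C x a).symm
  | add P Q hP hQ => rw [map_add, map_add, map_add, hP, hQ]
  | mul_X P i hP =>
    rw [map_mul, map_mul, map_mul, hP, aeval_X, aeval_X]
    congr 1
    cases i with
    | inl i =>
      change ((θ i : ℚ) : ℝ) = aeval x (C (θ i))
      rw [aeval_C]
      rfl
    | inr j =>
      change x j = aeval x (X j)
      rw [aeval_X]

private theorem spz_pderiv {s m : ℕ} (D : Pz s m) (e : Fin s → ℚ) (j : Fin m) :
    spz (pderiv (Sum.inr j) D) e = pderiv j (spz D e) := by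
  unfold spz
  induction D using MvPolynomial.induction_on with
  | C a =>
    rw [pderiv_C, map_zero, aeval_C]
    exact (pderiv_C (i := j) (a := a)).symm
  | add P Q hP hQ => rw [map_add, map_add, map_add, map_add, hP, hQ]
  | mul_X P i hP =>
    rw [pderiv_mul, map_add, map_mul, map_mul, map_mul, hP, aeval_X, pderiv_mul]
    congr 2
    cases i with
    | inl i =>
      rw [pderiv_X_of_ne (by simp), map_zero]
      exact (pderiv_C (i := j) (a := e i)).symm
    | inr l =>
      change _ = pderiv j (X l)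
      by_cases hjl : l = j
      · subst hjl
        rw [pderiv_X_self, pderiv_X_self, map_one]
      · rw [pderiv_X_of_ne hjl, pderiv_X_of_ne (fun hh => hjl (Sum.inr_injective hh)), map_zero]

private theorem spz_rename {s m n : ℕ} (ι : Fin m → Fin n) (D : Pz s m) (e : Fin s → ℚ) :
    spz (rename (Sum.map id ι) D) e = rename ι (spz D e) := by
  unfold spz
  rw [aeval_rename]
  induction D using MvPolynomial.induction_on with
  | C a =>
    rw [aeval_C, aeval_C]
    exact (rename_C ι a).symm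
  | add P Q hP hQ => rw [map_add, map_add, map_add, hP, hQ]
  | mul_X P i hP =>
    rw [map_mul, map_mul, map_mul, hP, aeval_X, aeval_X]
    congr 1
    cases i with
    | inl i => exact (rename_C ι (e i)).symm
    | inr l => exact (rename_X ι l).symm

private theorem vl_rename {s m n : ℕ} (ι : Fin m → Fin n) (D : Pz s m) (θ : Fin s → ℝ) (x : Fin n → ℝ) :
    vl (rename (Sum.map id ι) D) θ x = vl D θ fun i => x (ι i) := by
  unfold vl
  rw [aeval_rename]
  have h1 : (Sum.elim θ x ∘ Sum.map id ι : Fin s ⊕ Fin m → ℝ) = Sum.elim θ fun i => x (ι i) := by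
    funext i
    cases i with
    | inl i => rfl
    | inr j => rfl
  rw [h1]

private theorem vl_jd {s m : ℕ} (F : Typ s m) (θ : Fin s → ℝ) (x : Fin m → ℝ) : vl F.jd θ x =
    (Matrix.of fun i j : Fin m => vl (F.B i) θ x * vl (pderiv (Sum.inr j) (F.A i)) θ x -
      vl (F.A i) θ x * vl (pderiv (Sum.inr j) (F.B i)) θ x).det := by
  unfold Typ.jd vl
  rw [AlgHom.map_det]
  congr 1
  ext i j
  rw [AlgHom.mapMatrix_apply, Matrix.map_apply, Matrix.of_apply, Matrix.of_apply, map_sub, map_mul, map_mul]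

/-- Polynomial functions are analytic. Proof: induction on `D`; the coordinates are continuous linear maps. -/
theorem analyticAt_vl {s m : ℕ} (D : Pz s m) (p : (Fin s → ℝ) × (Fin m → ℝ)) :
    AnalyticAt ℝ (fun p : (Fin s → ℝ) × (Fin m → ℝ) => vl D p.1 p.2) p := by
  unfold vl
  induction D using MvPolynomial.induction_on with
  | C a =>
    simp only [aeval_C]
    exact analyticAt_const
  | add P Q hP hQ =>
    simp only [map_add]
    exact hP.add hQ
  | mul_X P i hP =>
    simp only [map_mul, aeval_X]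
    exact hP.mul (analyticAt_var i p)

/-- Partial derivatives. Proof: induction on `D` (`MvPolynomial.induction_on`): constants, sums, products with a variable (`pderiv_mul`, `pderiv_X`). -/
theorem fderiv_vl {s m : ℕ} (D : Pz s m) (p : (Fin s → ℝ) × (Fin m → ℝ)) (j : Fin m) :
    fderiv ℝ (fun p : (Fin s → ℝ) × (Fin m → ℝ) => vl D p.1 p.2) p (0, Pi.single j 1) =
      vl (pderiv (Sum.inr j) D) p.1 p.2 := by
  induction D using MvPolynomial.induction_on with
  | C a =>
    have h1 : (fun p : (Fin s → ℝ) × (Fin m → ℝ) => vl (C a : Pz s m) p.1 p.2) = fun _ => algebraMap ℚ ℝ a := by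
      funext p
      exact aeval_C _ a
    rw [h1, fderiv_const_apply, pderiv_C]
    exact (map_zero (aeval (Sum.elim p.1 p.2) : Pz s m →ₐ[ℚ] ℝ)).symm
  | add P Q hP hQ =>
    have h1 : (fun p : (Fin s → ℝ) × (Fin m → ℝ) => vl (P + Q) p.1 p.2) =
        fun p => vl P p.1 p.2 + vl Q p.1 p.2 := by
      funext p
      exact map_add (aeval (Sum.elim p.1 p.2) : Pz s m →ₐ[ℚ] ℝ) P Q
    rw [h1, fderiv_fun_add (analyticAt_vl P p).differentiableAt (analyticAt_vl Q p).differentiableAt,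
      add_apply, hP, hQ, map_add]
    exact (map_add (aeval (Sum.elim p.1 p.2) : Pz s m →ₐ[ℚ] ℝ) _ _).symm
  | mul_X P i hP =>
    have h1 : (fun p : (Fin s → ℝ) × (Fin m → ℝ) => vl (P * X i) p.1 p.2) =
        fun p => vl P p.1 p.2 * Sum.elim p.1 p.2 i := by
      funext p
      unfold vl
      rw [map_mul, aeval_X]
    rw [h1, fderiv_fun_mul (analyticAt_vl P p).differentiableAt (analyticAt_var i p).differentiableAt,
      add_apply, ContinuousLinearMap.smul_apply, ContinuousLinearMap.smul_apply, hP,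
      fderiv_var, pderiv_mul]
    unfold vl
    rw [map_add, map_mul, map_mul, aeval_X, smul_eq_mul, smul_eq_mul]
    ring

/-- Proof: `fderiv_vl`, `AlgHom.map_det` (`vl` is an algebra homomorphism in `D`). -/
theorem Typ.gd_det {s m : ℕ} (F : Typ s m) (p : (Fin s → ℝ) × (Fin m → ℝ)) :
    (F.gd.M p).det = vl F.jd p.1 p.2 := by
  unfold Typ.jd vl
  rw [AlgHom.map_det]
  congr 1
  ext i j
  rw [AlgHom.mapMatrix_apply, Matrix.map_apply, Matrix.of_apply, map_sub, map_mul, map_mul]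
  change vl (F.B i) p.1 p.2 * fderiv ℝ (fun p : (Fin s → ℝ) × (Fin m → ℝ) => vl (F.A i) p.1 p.2) p (0, Pi.single j 1) -
    vl (F.A i) p.1 p.2 * fderiv ℝ (fun p : (Fin s → ℝ) × (Fin m → ℝ) => vl (F.B i) p.1 p.2) p (0, Pi.single j 1) = _
  rw [fderiv_vl, fderiv_vl]
  rfl

/-- Proof: clear from the definitions; `base`: `vl D (cst e) x = aeval x (spz D e)` (algebra homomorphisms). -/
theorem Typ.gd_nd {s m : ℕ} {F : Typ s m} {b : ℕ} (hb : 2 ≤ b) {e : Fin s → ℚ} (he : F.Base e) {Ω : Set (Fin s → ℝ)}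
    (hc : IsPreconnected Ω) (heΩ : cst e ∈ Ω) (hΩ : Ω ⊆ F.Nond b) : F.gd.Nd b Ω (cst e) := by
  have h1 : (1 : ℝ) < b := by
    have h2 : ((2 : ℕ) : ℝ) ≤ b := Nat.cast_le.2 hb
    push_cast at h2
    linarith
  refine
    { ana := fun l p => ⟨analyticAt_vl (F.A l) p, analyticAt_vl (F.B l) p⟩
      pre := hc
      mem := heΩ
      b1 := h1
      base := fun l x => ?_
      nond := fun y hy x hx => ?_ }
  · constructor
    · change vl (F.A l) (cst e) x = x l
      rw [vl_spz', (he.1 l).1, aeval_X]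
    · change vl (F.B l) (cst e) x = 1
      rw [vl_spz', (he.1 l).2, map_one]
  · have h2 := hΩ hy x hx
    refine ⟨h2.1, ?_⟩
    rw [Typ.gd_det]
    exact h2.2.1

/-- Positivity. Proof: `Nd.exists_X`, `IsX.pos_of_ne` (for `D`), `IsX.mem_iff` and `IsX.pos` (for `B`), `IsX.det_pos` with `gd_det`; `F.gd.K b θ = F.dom b θ` by definition. -/
theorem Typ.dom_pos {s m : ℕ} {F : Typ s m} {b : ℕ} (hb : 2 ≤ b) {e : Fin s → ℚ} (he : F.Base e) {Ω : Set (Fin s → ℝ)}
    (hc : IsPreconnected Ω) (heΩ : cst e ∈ Ω) (hΩ : Ω ⊆ F.Nond b) {θ : Fin s → ℝ} (hθ : θ ∈ Ω) {x : Fin m → ℝ}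
    (hx : x ∈ F.dom b θ) :
    (∀ l, |x l| < (b : ℝ) ∧ 0 < vl (F.B l) θ x) ∧ 0 < vl F.jd θ x ∧ 0 < vl F.D θ x := by
  have h := F.gd_nd hb he hc heΩ hΩ
  obtain ⟨X, hX⟩ := h.exists_X
  refine ⟨fun l => ⟨((hΩ hθ x hx).1 l).1, ?_⟩, ?_, ?_⟩
  · obtain ⟨u, hu, rfl⟩ := (hX.mem_iff h hθ x).1 hx
    exact hX.pos θ hθ u hu l
  · have h1 := hX.det_pos h θ hθ x hx
    rw [Typ.gd_det] at h1
    exact h1
  · refine hX.pos_of_ne h (f := fun p => vl F.D p.1 p.2)
      (continuous_iff_continuousAt.2 fun p => (analyticAt_vl F.D p).continuousAt) (fun y hy z hz => ?_)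
      (fun z _ => ?_) θ hθ x hx
    · exact (hΩ hy z hz).2.2
    · change 0 < vl F.D (cst e) z
      rw [vl_spz', he.2, map_one]
      exact one_pos

/-- The integral of a monomial over a power of the denominator. -/
noncomputable def vH {s m : ℕ} (F : Typ s m) (b : ℕ) (a : Fin m → ℕ) (κ : ℕ) (θ : Fin s → ℝ) : ℝ :=
  ∫ x in F.dom b θ, (∏ l, x l ^ a l) / vl F.D θ x ^ κ

/-- The integrals are analytic functions of the parameters.

Proof. Let `X` be as in `Nd.exists_X` for `gd_nd`. For `θ ∈ Ω`, by `IsX.integral_eq`, `vH F b a κ θ = ∫ u in Icc 0 1, h (θ, u)` with `h (θ, u) = (∏ l, X l ^ a l) / D ^ κ * ((∏ l, B l ^ 2) / det M)` at the point `(θ, X (θ, u))`, which is analytic at every `(θ, u)` with `θ ∈ Ω` and `u` in the cube: composition with the analytic map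
`(θ, u) ↦ (θ, X (θ, u))`, and `D`, `det M = jd` do not vanish there (`dom_pos`, `mem_iff`). `analyticAt_integral` (HA2.lean) at `θ ∈ Ω`, and the equality holds near `θ`, as `Ω` is open (`AnalyticAt.congr`). -/
theorem analyticOn_vH {s m : ℕ} {F : Typ s m} {b : ℕ} (hb : 2 ≤ b) {e : Fin s → ℚ} (he : F.Base e) {Ω : Set (Fin s → ℝ)}
    (ho : IsOpen Ω) (hc : IsPreconnected Ω) (heΩ : cst e ∈ Ω) (hΩ : Ω ⊆ F.Nond b) (a : Fin m → ℕ) (κ : ℕ) :
    AnalyticOnNhd ℝ (vH F b a κ) Ω := by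
  have h := F.gd_nd hb he hc heΩ hΩ
  obtain ⟨X, hX⟩ := h.exists_X
  intro θ hθ
  let g : (Fin s → ℝ) × (Fin m → ℝ) → ℝ := fun p => (∏ l, X p l ^ a l) / vl F.D p.1 (X p) ^ κ *
    ((∏ l, vl (F.B l) p.1 (X p) ^ 2) / vl F.jd p.1 (X p))
  have hg : ∀ u ∈ Icc (0 : Fin m → ℝ) 1, AnalyticAt ℝ g (θ, u) := by
    intro u hu
    have hXa : AnalyticAt ℝ X (θ, u) := hX.ana θ hθ u hu
    have h1 : AnalyticAt ℝ (fun p : (Fin s → ℝ) × (Fin m → ℝ) => (p.1, X p)) (θ, u) := analyticAt_fst.prod hXa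
    have h2 : ∀ P : Pz s m, AnalyticAt ℝ (fun p : (Fin s → ℝ) × (Fin m → ℝ) => vl P p.1 (X p)) (θ, u) := fun P =>
      AnalyticAt.fun_comp (g := fun p : (Fin s → ℝ) × (Fin m → ℝ) => vl P p.1 p.2)
        (f := fun p : (Fin s → ℝ) × (Fin m → ℝ) => (p.1, X p)) (analyticAt_vl P (θ, X (θ, u))) h1
    have h3 : ∀ l, AnalyticAt ℝ (fun p : (Fin s → ℝ) × (Fin m → ℝ) => X p l) (θ, u) := fun l =>
      AnalyticAt.fun_comp (g := fun x : Fin m → ℝ => x l)
        ((ContinuousLinearMap.proj (R := ℝ) (φ := fun _ : Fin m => ℝ) l).analyticAt _) hXa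
    have hmem : X (θ, u) ∈ F.dom b θ := (hX.mem_iff h hθ _).2 ⟨u, hu, rfl⟩
    have hpos := F.dom_pos hb he hc heΩ hΩ hθ hmem
    have h4 : AnalyticAt ℝ (fun p : (Fin s → ℝ) × (Fin m → ℝ) => ∏ l, X p l ^ a l) (θ, u) :=
      Finset.analyticAt_fun_prod _ fun l _ => (h3 l).pow (a l)
    have h5 : AnalyticAt ℝ (fun p : (Fin s → ℝ) × (Fin m → ℝ) => vl F.D p.1 (X p) ^ κ) (θ, u) := (h2 F.D).pow κ
    have h6 : AnalyticAt ℝ (fun p : (Fin s → ℝ) × (Fin m → ℝ) => (∏ l, X p l ^ a l) / vl F.D p.1 (X p) ^ κ) (θ, u) :=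
      h4.div h5 (pow_ne_zero _ hpos.2.2.ne')
    have h7 : AnalyticAt ℝ (fun p : (Fin s → ℝ) × (Fin m → ℝ) => ∏ l, vl (F.B l) p.1 (X p) ^ 2) (θ, u) :=
      Finset.analyticAt_fun_prod _ fun l _ => (h2 (F.B l)).pow 2
    have h8 : AnalyticAt ℝ (fun p : (Fin s → ℝ) × (Fin m → ℝ) =>
        (∏ l, vl (F.B l) p.1 (X p) ^ 2) / vl F.jd p.1 (X p)) (θ, u) := h7.div (h2 F.jd) hpos.2.1.ne'
    exact h6.mul h8
  refine (analyticAt_integral hg).congr ?_
  filter_upwards [ho.mem_nhds hθ] with y hy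
  have h1 := hX.integral_eq h hy fun x => (∏ l, x l ^ a l) / vl F.D y x ^ κ
  have h2 : vH F b a κ y = ∫ x in F.gd.K b y, (∏ l, x l ^ a l) / vl F.D y x ^ κ := rfl
  rw [h2, h1]
  refine integral_congr_ae (Filter.Eventually.of_forall fun u => ?_)
  change g (y, u) = (∏ l, X (y, u) l ^ a l) / vl F.D y (X (y, u)) ^ κ *
    ((∏ l, vl (F.B l) y (X (y, u)) ^ 2) / (F.gd.M (y, X (y, u))).det)
  rw [Typ.gd_det]

/-- The set of the nondegenerate parameters is open.

Proof. Its complement is the projection along the compact set `{x | ∀ l, |x l| ≤ b}` of a closed set: `{(θ, x) | x ∈ dom b θ and ((∃ l, |x l| = b or B l = 0) or jd = 0 or D = 0)}` (on the domain `|x l| ≤ b`, so `¬ |x l| < b` means `b ≤ |x l|`, a closed condition). All functions are continuous (`analyticAt_vl`). (`IsCompact.isClosed_image`-like lemma: the projection `E × K → E` is closed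
for compact `K`, `isClosedMap_fst_of_compactSpace`; or with sequences.) -/
theorem isOpen_nond {s m : ℕ} (F : Typ s m) (b : ℕ) : IsOpen (F.Nond b) := by
  have hK : IsCompact {x : Fin m → ℝ | ∀ l, |x l| ≤ (b : ℝ)} := by
    have h1 : {x : Fin m → ℝ | ∀ l, |x l| ≤ (b : ℝ)} = Set.pi Set.univ fun _ => Icc (-(b : ℝ)) b := by
      ext x
      simp only [mem_ofPred_eq, mem_pi, mem_univ, true_implies, mem_Icc, abs_le]
    rw [h1]
    exact isCompact_univ_pi fun _ => isCompact_Icc
  have hc : ∀ P : Pz s m, Continuous fun p : (Fin s → ℝ) × (Fin m → ℝ) => vl P p.1 p.2 := fun P =>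
    continuous_iff_continuousAt.2 fun p => (analyticAt_vl P p).continuousAt
  have hx : ∀ l : Fin m, Continuous fun p : (Fin s → ℝ) × (Fin m → ℝ) => |p.2 l| := fun l =>
    ((continuous_apply l).comp continuous_snd).abs
  rw [isOpen_iff_mem_nhds]
  intro θ₀ hθ₀
  have h2 := hK.eventually_forall_of_forall_eventually (x₀ := θ₀) (P := fun θ x => x ∈ F.dom b θ →
    ((∀ l, |x l| < (b : ℝ) ∧ vl (F.B l) θ x ≠ 0) ∧ vl F.jd θ x ≠ 0 ∧ vl F.D θ x ≠ 0)) ?_
  · filter_upwards [h2] with θ hθ x hx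
    exact hθ x (fun l => (hx l).1) hx
  · intro x hxK
    by_cases hmem : x ∈ F.dom b θ₀
    · obtain ⟨h3, h4, h5⟩ := hθ₀ x hmem
      have e1 : ∀ᶠ z : (Fin s → ℝ) × (Fin m → ℝ) in nhds (θ₀, x),
          ∀ l, |z.2 l| < (b : ℝ) ∧ vl (F.B l) z.1 z.2 ≠ 0 := by
        rw [Filter.eventually_all]
        exact fun l => ((hx l).continuousAt.eventually_lt continuousAt_const (h3 l).1).and
          ((hc (F.B l)).continuousAt.eventually_ne (h3 l).2)
      have e2 := (hc F.jd).continuousAt.eventually_ne (x := (θ₀, x)) h4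
      have e3 := (hc F.D).continuousAt.eventually_ne (x := (θ₀, x)) h5
      filter_upwards [e1, e2, e3] with z z1 z2 z3 _
      exact ⟨z1, z2, z3⟩
    · have h3 : ∃ l, vl (F.A l) θ₀ x < 0 ∨ vl (F.B l) θ₀ x < vl (F.A l) θ₀ x := by
        by_contra hcon
        push Not at hcon
        exact hmem fun l => ⟨hxK l, hcon l⟩
      obtain ⟨l, hl⟩ := h3
      rcases hl with hl | hl
      · have e1 : ∀ᶠ z : (Fin s → ℝ) × (Fin m → ℝ) in nhds (θ₀, x), vl (F.A l) z.1 z.2 < 0 :=
          (hc (F.A l)).continuousAt.eventually_lt continuousAt_const hl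
        filter_upwards [e1] with z z1 z2
        exact absurd (z2 l).2.1 (not_le.2 z1)
      · have e1 : ∀ᶠ z : (Fin s → ℝ) × (Fin m → ℝ) in nhds (θ₀, x),
            vl (F.B l) z.1 z.2 < vl (F.A l) z.1 z.2 :=
          (hc (F.B l)).continuousAt.eventually_lt (hc (F.A l)).continuousAt hl
        filter_upwards [e1] with z z1 z2
        exact absurd (z2 l).2.2 (not_le.2 z1)

/-- At the base point. Proof: the domain is the unit cube: `A l = x l`, `B l = 1`; `b ≥ 2`; the matrix is the identity matrix (`vl (pderiv (inr j) A) (cst e) x` is the derivative of `x ↦ vl A (cst e) x = x l`: `fderiv_vl`, or apply `pderiv j` to `spz A e = X l`: `spz (pderiv (inr j) A) e = pderiv j (spz A e)`, an identity proved by induction on `A`), `D = 1`. -/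
theorem base_mem_nond {s m : ℕ} {F : Typ s m} {b : ℕ} (hb : 2 ≤ b) {e : Fin s → ℚ} (he : F.Base e) : cst e ∈ F.Nond b := by
  have h1 : (1 : ℝ) < b := by
    have h2 : ((2 : ℕ) : ℝ) ≤ b := Nat.cast_le.2 hb
    push_cast at h2
    linarith
  intro x hx
  have hA : ∀ l, vl (F.A l) (cst e) x = x l := fun l => by rw [vl_spz', (he.1 l).1, aeval_X]
  have hB : ∀ l, vl (F.B l) (cst e) x = 1 := fun l => by rw [vl_spz', (he.1 l).2, map_one]
  refine ⟨fun l => ⟨?_, ?_⟩, ?_, ?_⟩
  · have h2 := hx l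
    rw [hA, hB] at h2
    rw [abs_of_nonneg h2.2.1]
    linarith [h2.2.2]
  · rw [hB]
    exact one_ne_zero
  · have h2 : spz F.jd e = 1 := by
      unfold Typ.jd spz
      rw [AlgHom.map_det]
      have h3 : (aeval (Sum.elim (fun i => C (e i)) X) : Pz s m →ₐ[ℚ] MvPolynomial (Fin m) ℚ).mapMatrix
          (Matrix.of fun i j : Fin m => F.B i * pderiv (Sum.inr j) (F.A i) - F.A i * pderiv (Sum.inr j) (F.B i)) =
            (1 : Matrix (Fin m) (Fin m) (MvPolynomial (Fin m) ℚ)) := by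
        ext1 i j
        rw [AlgHom.mapMatrix_apply, Matrix.map_apply, Matrix.of_apply, map_sub, map_mul, map_mul]
        change spz (F.B i) e * spz (pderiv (Sum.inr j) (F.A i)) e - spz (F.A i) e * spz (pderiv (Sum.inr j) (F.B i)) e = _
        rw [spz_pderiv, spz_pderiv, (he.1 i).1, (he.1 i).2, pderiv_one, mul_zero, sub_zero, one_mul, pderiv_X]
        by_cases hij : i = j
        · subst hij
          rw [Matrix.one_apply_eq, Pi.single_eq_same]
        · rw [Matrix.one_apply_ne hij, Pi.single_eq_of_ne hij]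
      rw [h3, Matrix.det_one]
    rw [vl_spz', h2, map_one]
    exact one_ne_zero
  · rw [vl_spz', he.2, map_one]
    exact one_ne_zero

/-- Padding with variables. -/
noncomputable def Typ.pad {s m n : ℕ} (h : m ≤ n) (F : Typ s m) : Typ s n where
  A l := if hl : (l : ℕ) < m then rename (Sum.map id (Fin.castLE h)) (F.A ⟨l, hl⟩) else X (Sum.inr l)
  B l := if hl : (l : ℕ) < m then rename (Sum.map id (Fin.castLE h)) (F.B ⟨l, hl⟩) else 1
  D := rename (Sum.map id (Fin.castLE h)) F.D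

/-- Proof: `spz (rename (Sum.map id ι) D) e = rename ι (spz D e)`. -/
theorem Typ.pad_base {s m n : ℕ} (h : m ≤ n) {F : Typ s m} {e : Fin s → ℚ} (he : F.Base e) : (F.pad h).Base e := by
  refine ⟨fun l => ?_, ?_⟩
  · by_cases hl : (l : ℕ) < m
    · have hA : (F.pad h).A l = rename (Sum.map id (Fin.castLE h)) (F.A ⟨l, hl⟩) := dif_pos hl
      have hB : (F.pad h).B l = rename (Sum.map id (Fin.castLE h)) (F.B ⟨l, hl⟩) := dif_pos hl
      rw [hA, hB, spz_rename, spz_rename, (he.1 ⟨l, hl⟩).1, (he.1 ⟨l, hl⟩).2, rename_X, map_one]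
      exact ⟨rfl, rfl⟩
    · have hA : (F.pad h).A l = X (Sum.inr l) := dif_neg hl
      have hB : (F.pad h).B l = 1 := dif_neg hl
      rw [hA, hB]
      constructor
      · unfold spz
        rw [aeval_X]
        rfl
      · unfold spz
        rw [map_one]
  · change spz (rename (Sum.map id (Fin.castLE h)) F.D) e = 1
    rw [spz_rename, he.2, map_one]

/-- Proof. Let `x ∈ (F.pad h).dom b θ`, `y = x ∘ castLE`; `vl (rename (Sum.map id ι) D) θ x = vl D θ (x ∘ ι)`; `y ∈ F.dom b θ`. For `l ≥ m`: `0 ≤ x l ≤ 1 < b` and `B l = 1`. The Jacobian matrix of the padded family at `(θ, x)`: for `i, j < m` that of `F` at `(θ, y)`; for `i < m ≤ j` it is `0`; for `i ≥ m` it is `δ_ij`. If its determinant is `0`, there is `v ≠ 0` with `M' v = 0`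
(`Matrix.exists_mulVec_eq_zero_iff`): the rows `i ≥ m` give `v i = 0`, and then the restriction of `v` to `Fin m` is in the kernel of the matrix of `F`, so it is `0`. (`pderiv` of a renamed polynomial: `pderiv_rename`, `pderiv_eq_zero_of_notMem_vars`, or induction.) -/
theorem Typ.pad_nond {s m n : ℕ} (h : m ≤ n) (F : Typ s m) {b : ℕ} (hb : 2 ≤ b) : F.Nond b ⊆ (F.pad h).Nond b := by
  have h1 : (1 : ℝ) < b := by
    have h2 : ((2 : ℕ) : ℝ) ≤ b := Nat.cast_le.2 hb
    push_cast at h2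
    linarith
  intro θ hθ x hx
  set y : Fin m → ℝ := fun i => x (Fin.castLE h i) with hy
  have hA : ∀ i : Fin m, (F.pad h).A (Fin.castLE h i) = rename (Sum.map id (Fin.castLE h)) (F.A i) := fun i =>
    dif_pos i.2
  have hB : ∀ i : Fin m, (F.pad h).B (Fin.castLE h i) = rename (Sum.map id (Fin.castLE h)) (F.B i) := fun i =>
    dif_pos i.2
  have hA' : ∀ l : Fin n, ¬ (l : ℕ) < m → (F.pad h).A l = X (Sum.inr l) := fun l hl => dif_neg hl
  have hB' : ∀ l : Fin n, ¬ (l : ℕ) < m → (F.pad h).B l = 1 := fun l hl => dif_neg hl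
  have hcs : ∀ l : Fin n, (l : ℕ) < m → ∃ i : Fin m, l = Fin.castLE h i := fun l hl => ⟨⟨l, hl⟩, rfl⟩
  have hyd : y ∈ F.dom b θ := by
    intro i
    have h2 := hx (Fin.castLE h i)
    rw [hA, hB, vl_rename, vl_rename] at h2
    exact h2
  obtain ⟨h3, h4, h5⟩ := hθ y hyd
  refine ⟨fun l => ?_, ?_, ?_⟩
  · by_cases hl : (l : ℕ) < m
    · obtain ⟨i, rfl⟩ := hcs l hl
      rw [hB, vl_rename]
      exact h3 i
    · have h2 := hx l
      rw [hA' l hl, hB' l hl] at h2
      rw [hB' l hl]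
      have h6 : vl (X (Sum.inr l) : Pz s n) θ x = x l := aeval_X _ _
      have h7 : vl (1 : Pz s n) θ x = 1 := map_one _
      rw [h6, h7] at h2
      rw [h7]
      refine ⟨?_, one_ne_zero⟩
      rw [abs_of_nonneg h2.2.1]
      linarith [h2.2.2]
  · rw [vl_jd] at h4 ⊢
    intro h0
    obtain ⟨v, hv, hv0⟩ := Matrix.exists_mulVec_eq_zero_iff.2 h0
    have hrow : ∀ i, ∑ j, (vl ((F.pad h).B i) θ x * vl (pderiv (Sum.inr j) ((F.pad h).A i)) θ x -
        vl ((F.pad h).A i) θ x * vl (pderiv (Sum.inr j) ((F.pad h).B i)) θ x) * v j = 0 := fun i => congrFun hv0 i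
    have hv1 : ∀ l : Fin n, ¬ (l : ℕ) < m → v l = 0 := by
      intro l hl
      have h2 := hrow l
      rw [hA' l hl, hB' l hl] at h2
      have h7 : vl (1 : Pz s n) θ x = 1 := map_one _
      have h8 : ∀ j, vl (pderiv (Sum.inr j) (1 : Pz s n)) θ x = 0 := fun j => by
        rw [pderiv_one]
        exact map_zero _
      have h9 : ∀ j, vl (pderiv (Sum.inr j) (X (Sum.inr l) : Pz s n)) θ x = if j = l then 1 else 0 := by
        intro j
        split_ifs with hj
        · subst hj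
          rw [pderiv_X_self]
          exact map_one _
        · rw [pderiv_X_of_ne (fun hh => hj (Sum.inr_injective hh).symm)]
          exact map_zero _
      simp only [h7, h8, h9, mul_zero, sub_zero, one_mul, ite_mul, zero_mul, Finset.sum_ite_eq',
        Finset.mem_univ, if_true] at h2
      exact h2
    have hinj : Function.Injective (Sum.map id (Fin.castLE h) : Fin s ⊕ Fin m → Fin s ⊕ Fin n) :=
      Function.Injective.sumMap Function.injective_id (Fin.castLE_injective h)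
    have hw : (fun i => v (Fin.castLE h i)) = 0 := by
      by_contra hne
      apply h4
      refine Matrix.exists_mulVec_eq_zero_iff.1 ⟨_, hne, ?_⟩
      funext i
      have h2 := hrow (Fin.castLE h i)
      rw [hA, hB] at h2
      refine Eq.trans ?_ h2
      refine Fintype.sum_of_injective (Fin.castLE h) (Fin.castLE_injective h) _ _ (fun j hj => ?_) (fun j => ?_)
      · have h6 : ¬ (j : ℕ) < m := fun hlt => hj ⟨⟨j, hlt⟩, rfl⟩
        rw [hv1 j h6, mul_zero]
      · have h6 : (Sum.inr (Fin.castLE h j) : Fin s ⊕ Fin n) = Sum.map id (Fin.castLE h) (Sum.inr j) := rfl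
        rw [h6, pderiv_rename hinj, pderiv_rename hinj, vl_rename, vl_rename, vl_rename, vl_rename]
        rfl
    apply hv
    funext l
    by_cases hl : (l : ℕ) < m
    · obtain ⟨i, rfl⟩ := hcs l hl
      exact congrFun hw i
    · exact hv1 l hl
  · change vl (rename (Sum.map id (Fin.castLE h)) F.D) θ x ≠ 0
    rw [vl_rename]
    exact h5

end Pool.Agent.Lib.MP_bbe012_lc.PH
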