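import Pool.Agent.Lib.MP_bbe012_lc.PH.HB0b
import Pool.Agent.Lib.MP_bbe012_lc.PT.PDefs

/-!
# Charts over `[0,1]`: coordinates and integrals
-/

namespace Pool.Agent.Lib.MP_bbe012_lc.PH

open MvPolynomial MeasureTheory Set PP PT

/-- The domain of the chart at the real parameter `t`. -/
def KC {n : ℕ} (c : CD n ℚ) (b : ℕ) (t : ℝ) : Set (Fin n → ℝ) :=
  {x | ∀ l, |x l| ≤ (b : ℝ) ∧ 0 ≤ aeval (Fin.cons t x : Fin (n + 1) → ℝ) (c.A l) ∧
    aeval (Fin.cons t x : Fin (n + 1) → ℝ) (c.A l) ≤ aeval (Fin.cons t x : Fin (n + 1) → ℝ) (c.B l)}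

/-- Nondegeneracy over `[0,1]`. -/
def NdC {n : ℕ} (c : CD n ℚ) (b : ℕ) : Prop :=
  ∀ t ∈ Icc (0 : ℝ) 1, ∀ x ∈ KC c b t, (∀ l, |x l| < (b : ℝ)) ∧ 0 < aeval (Fin.cons t x : Fin (n + 1) → ℝ) c.Q

/-- The family of curved cubes given by a chart. -/
noncomputable def cgd {n : ℕ} (c : CD n ℚ) : GD ℝ n where
  a l p := aeval (Fin.cons p.1 p.2 : Fin (n + 1) → ℝ) (c.A l)
  d l p := aeval (Fin.cons p.1 p.2 : Fin (n + 1) → ℝ) (c.B l)

/-- Proof: induction on `G`; the coordinates of `Fin.cons t x` are continuous linear functions of `(t, x)`. -/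
theorem analyticAt_cons {n : ℕ} (G : TP n ℚ) (p : ℝ × (Fin n → ℝ)) :
    AnalyticAt ℝ (fun p : ℝ × (Fin n → ℝ) => aeval (Fin.cons p.1 p.2 : Fin (n + 1) → ℝ) G) p := by
  refine AnalyticAt.aeval_mvPolynomial (fun i => ?_) G
  refine Fin.cases ?_ (fun l => ?_) i
  · exact analyticAt_fst
  · exact ((ContinuousLinearMap.proj (R := ℝ) (φ := fun _ : Fin n => ℝ) l).comp
      (ContinuousLinearMap.snd ℝ ℝ (Fin n → ℝ))).analyticAt p

private theorem hc0_hasF {n : ℕ} (p : ℝ × (Fin n → ℝ)) (G : TP n ℚ) :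
    ∃ L : (ℝ × (Fin n → ℝ)) →L[ℝ] ℝ, (∀ v : Fin n → ℝ, L ((0 : ℝ), v) =
        ∑ j, aeval (Fin.cons p.1 p.2 : Fin (n + 1) → ℝ) (pderiv j.succ G) * v j) ∧
      HasFDerivAt (fun p : ℝ × (Fin n → ℝ) => aeval (Fin.cons p.1 p.2 : Fin (n + 1) → ℝ) G) L p := by
  induction G using MvPolynomial.induction_on with
  | C a =>
    refine ⟨0, fun v => ?_, ?_⟩
    · simp
    · simp only [algHom_C]
      exact hasFDerivAt_const _ _
  | add q r hq hr =>
    obtain ⟨L₁, h1, h1'⟩ := hq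
    obtain ⟨L₂, h2, h2'⟩ := hr
    refine ⟨L₁ + L₂, fun v => ?_, ?_⟩
    · show L₁ _ + L₂ _ = _
      rw [h1, h2, ← Finset.sum_add_distrib]
      refine Finset.sum_congr rfl fun j _ => ?_
      rw [map_add, map_add]
      ring
    · simp only [map_add]
      exact h1'.add h2'
  | mul_X q i hq =>
    obtain ⟨L₁, h1, h1'⟩ := hq
    obtain ⟨L₂, h2, h2'⟩ : ∃ L : (ℝ × (Fin n → ℝ)) →L[ℝ] ℝ,
        (∀ v : Fin n → ℝ, L ((0 : ℝ), v) =
          ∑ j : Fin n, aeval (Fin.cons p.1 p.2 : Fin (n + 1) → ℝ) (pderiv j.succ (X i : TP n ℚ)) * v j) ∧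
          HasFDerivAt (fun p : ℝ × (Fin n → ℝ) => (Fin.cons p.1 p.2 : Fin (n + 1) → ℝ) i) L p := by
      refine Fin.cases ?_ (fun l => ?_) i
      · refine ⟨ContinuousLinearMap.fst ℝ ℝ (Fin n → ℝ), fun v => ?_, ?_⟩
        · symm
          rw [Finset.sum_eq_zero]
          · rfl
          · intro j _
            rw [pderiv_X_of_ne (Fin.succ_ne_zero j).symm, map_zero, zero_mul]
        · exact hasFDerivAt_fst
      · refine ⟨(ContinuousLinearMap.proj (R := ℝ) (φ := fun _ : Fin n => ℝ) l).comp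
          (ContinuousLinearMap.snd ℝ ℝ (Fin n → ℝ)), fun v => ?_, ?_⟩
        · rw [Finset.sum_eq_single l]
          · rw [pderiv_X_self, map_one, one_mul]
            rfl
          · intro j _ hj
            rw [pderiv_X_of_ne (fun h => hj (Fin.succ_injective _ h).symm), map_zero, zero_mul]
          · intro h
            exact absurd (Finset.mem_univ l) h
        · exact ((ContinuousLinearMap.proj (R := ℝ) (φ := fun _ : Fin n => ℝ) l).comp
            (ContinuousLinearMap.snd ℝ ℝ (Fin n → ℝ))).hasFDerivAt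
    have h3 := h1'.mul h2'
    refine ⟨_, fun v => ?_, h3.congr_of_eventuallyEq (Filter.Eventually.of_forall fun y => ?_)⟩
    · show aeval (Fin.cons p.1 p.2 : Fin (n + 1) → ℝ) q * L₂ ((0 : ℝ), v) +
        (Fin.cons p.1 p.2 : Fin (n + 1) → ℝ) i * L₁ ((0 : ℝ), v) = _
      rw [h1, h2, Finset.mul_sum, Finset.mul_sum, ← Finset.sum_add_distrib]
      refine Finset.sum_congr rfl fun j _ => ?_
      rw [Derivation.leibniz, smul_eq_mul, smul_eq_mul, map_add, map_mul, map_mul, aeval_X]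
      ring
    · show aeval (Fin.cons y.1 y.2 : Fin (n + 1) → ℝ) (q * X i) =
        aeval (Fin.cons y.1 y.2 : Fin (n + 1) → ℝ) q * (Fin.cons y.1 y.2 : Fin (n + 1) → ℝ) i
      rw [map_mul, aeval_X]

/-- Proof: induction on `G`. -/
theorem fderiv_cons {n : ℕ} (G : TP n ℚ) (p : ℝ × (Fin n → ℝ)) (j : Fin n) :
    fderiv ℝ (fun p : ℝ × (Fin n → ℝ) => aeval (Fin.cons p.1 p.2 : Fin (n + 1) → ℝ) G) p (0, Pi.single j 1) =
      aeval (Fin.cons p.1 p.2 : Fin (n + 1) → ℝ) (pderiv j.succ G) := by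
  obtain ⟨L, h1, h2⟩ := hc0_hasF p G
  rw [h2.fderiv, h1, Finset.sum_eq_single j]
  · rw [Pi.single_eq_same, mul_one]
  · intro i _ hi
    rw [Pi.single_eq_of_ne hi, mul_zero]
  · intro h
    exact absurd (Finset.mem_univ j) h

/-- Proof: `fderiv_cons`, `AlgHom.map_det`. -/
theorem cgd_det {n : ℕ} (c : CD n ℚ) (p : ℝ × (Fin n → ℝ)) :
    ((cgd c).M p).det = aeval (Fin.cons p.1 p.2 : Fin (n + 1) → ℝ) (Matrix.det (Matrix.of fun i j : Fin n => c.jac i j.succ)) := by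
  rw [AlgHom.map_det]
  refine congrArg Matrix.det ?_
  ext i j
  show (cgd c).d i p * fderiv ℝ ((cgd c).a i) p (0, Pi.single j 1) -
    (cgd c).a i p * fderiv ℝ ((cgd c).d i) p (0, Pi.single j 1) =
    aeval (Fin.cons p.1 p.2 : Fin (n + 1) → ℝ) (c.jac i j.succ)
  have h1 : fderiv ℝ ((cgd c).a i) p (0, Pi.single j 1) =
      aeval (Fin.cons p.1 p.2 : Fin (n + 1) → ℝ) (pderiv j.succ (c.A i)) := fderiv_cons (c.A i) p j
  have h2 : fderiv ℝ ((cgd c).d i) p (0, Pi.single j 1) =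
      aeval (Fin.cons p.1 p.2 : Fin (n + 1) → ℝ) (pderiv j.succ (c.B i)) := fderiv_cons (c.B i) p j
  rw [h1, h2]
  unfold CD.jac
  rw [map_sub, map_mul, map_mul]
  rfl

/-- Proof: `Ok.v` says `V * jacᵀ = diagonal (Q B_l ^ 2)`; take determinants (see `rb_okdet` in PT/RealB.lean). -/
theorem ok_det {n : ℕ} {c : CD n ℚ} (hc : c.Ok) :
    Matrix.det (Matrix.of c.V) * Matrix.det (Matrix.of fun i j : Fin n => c.jac i j.succ) = c.Q ^ n * ∏ l, c.B l ^ 2 := by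
  have h1 : Matrix.of c.V * (Matrix.of fun i j : Fin n => c.jac i j.succ).transpose =
      Matrix.diagonal fun i => c.Q * c.B i ^ 2 := by
    ext1 l i
    rw [Matrix.mul_apply, Matrix.diagonal_apply]
    have h2 := hc.v l i
    refine (Eq.trans ?_ h2).trans ?_
    · rfl
    · by_cases h : l = i
      · rw [if_pos h, if_pos h, h]
      · rw [if_neg h, if_neg h]
  have h3 := congrArg Matrix.det h1
  rw [Matrix.det_mul, Matrix.det_transpose, Matrix.det_diagonal, Finset.prod_mul_distrib,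
    Finset.prod_const, Finset.card_univ, Fintype.card_fin] at h3
  exact h3

/-- Proof. `base`: `A_l = x_l + t p_l`, `B_l = 1 + t q_l` at `t = 0`. `nond`: `B_l C_l = Q > 0`, so `B_l ≠ 0`, and `det V * det jac = Q ^ n ∏ B_l ^ 2 ≠ 0` (`ok_det`, `cgd_det`). -/
theorem cgd_nd {n : ℕ} {c : CD n ℚ} (hc : c.Ok) {b : ℕ} (hb : 2 ≤ b) (hN : NdC c b) : (cgd c).Nd b (Icc (0 : ℝ) 1) 0 := by
  refine ⟨fun l p => ⟨analyticAt_cons _ _, analyticAt_cons _ _⟩, isPreconnected_Icc,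
    left_mem_Icc.2 zero_le_one, by exact_mod_cast (lt_of_lt_of_le one_lt_two hb), fun l x => ⟨?_, ?_⟩, ?_⟩
  · show aeval (Fin.cons (0 : ℝ) x : Fin (n + 1) → ℝ) (c.A l) = x l
    unfold CD.A
    rw [map_add, map_mul, aeval_X, aeval_X, Fin.cons_zero, Fin.cons_succ, zero_mul, add_zero]
  · show aeval (Fin.cons (0 : ℝ) x : Fin (n + 1) → ℝ) (c.B l) = 1
    unfold CD.B
    rw [map_add, map_mul, map_one, aeval_X, Fin.cons_zero, zero_mul, add_zero]
  · intro y hy x hx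
    obtain ⟨h1, h2⟩ := hN y hy x hx
    have h3 : ∀ l, aeval (Fin.cons y x : Fin (n + 1) → ℝ) (c.B l) ≠ 0 := by
      intro l h0
      have h4 := congrArg (aeval (Fin.cons y x : Fin (n + 1) → ℝ)) (hc.bc l)
      rw [map_mul, h0, zero_mul] at h4
      exact (ne_of_gt h2) h4.symm
    refine ⟨fun l => ⟨h1 l, h3 l⟩, ?_⟩
    rw [cgd_det]
    intro h0
    have h4 := congrArg (aeval (Fin.cons y x : Fin (n + 1) → ℝ)) (ok_det hc)
    rw [map_mul, h0, mul_zero, map_mul, map_pow, map_prod] at h4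
    have h5 : aeval (Fin.cons y x : Fin (n + 1) → ℝ) c.Q ^ n *
        ∏ l, aeval (Fin.cons y x : Fin (n + 1) → ℝ) (c.B l ^ 2) ≠ 0 := by
      refine mul_ne_zero (pow_ne_zero _ (ne_of_gt h2)) (Finset.prod_ne_zero_iff.2 fun l _ => ?_)
      rw [map_pow]
      exact pow_ne_zero _ (h3 l)
    exact h5 h4.symm

/-- The inverse of the coordinates of the chart. -/
noncomputable def XC {n : ℕ} (c : CD n ℚ) (b : ℕ) : ℝ × (Fin n → ℝ) → (Fin n → ℝ) :=
  open Classical in if h : ∃ X, (cgd c).IsX b (Icc (0 : ℝ) 1) X then Classical.choose h else fun _ => 0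

theorem XC_spec {n : ℕ} {c : CD n ℚ} (hc : c.Ok) {b : ℕ} (hb : 2 ≤ b) (hN : NdC c b) :
    (cgd c).IsX b (Icc (0 : ℝ) 1) (XC c b) := by
  have h := (cgd_nd hc hb hN).exists_X
  rw [XC, dif_pos h]
  exact Classical.choose_spec h

/-- The real point `(t, X(t, u))`. -/
noncomputable def ptX {n : ℕ} (c : CD n ℚ) (b : ℕ) (t : ℝ) (u : Fin n → ℝ) : Fin (n + 1) → ℝ := Fin.cons t (XC c b (t, u))

/-- The integral of `G / Q ^ K` over the cube, in the coordinates of the chart. -/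
noncomputable def JX {n : ℕ} (c : CD n ℚ) (b : ℕ) (G : TP n ℚ) (K : ℕ) (t : ℝ) : ℝ :=
  ∫ u in Icc (0 : Fin n → ℝ) 1, aeval (ptX c b t u) G / aeval (ptX c b t u) c.Q ^ K

/-- Proof: `IsX.box`, `eq`, `pos`. -/
theorem XC_mem {n : ℕ} {c : CD n ℚ} (hc : c.Ok) {b : ℕ} (hb : 2 ≤ b) (hN : NdC c b) {t : ℝ} (ht : t ∈ Icc (0 : ℝ) 1)
    {u : Fin n → ℝ} (hu : u ∈ Icc (0 : Fin n → ℝ) 1) : XC c b (t, u) ∈ KC c b t := by
  have hX := XC_spec hc hb hN
  intro l
  have h1 := hX.box t ht u hu l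
  have h2 := hX.eq t ht u hu l
  have h3 := hX.pos t ht u hu l
  have h4 : (0 : ℝ) ≤ u l := hu.1 l
  have h5 : u l ≤ 1 := hu.2 l
  refine ⟨h1, ?_, ?_⟩
  · show 0 ≤ (cgd c).a l (t, XC c b (t, u))
    rw [h2]
    exact mul_nonneg h4 h3.le
  · show (cgd c).a l (t, XC c b (t, u)) ≤ (cgd c).d l (t, XC c b (t, u))
    rw [h2]
    calc u l * (cgd c).d l (t, XC c b (t, u)) ≤ 1 * (cgd c).d l (t, XC c b (t, u)) :=
          mul_le_mul_of_nonneg_right h5 h3.le
      _ = (cgd c).d l (t, XC c b (t, u)) := one_mul _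

theorem ptX_Q_pos {n : ℕ} {c : CD n ℚ} (hc : c.Ok) {b : ℕ} (hb : 2 ≤ b) (hN : NdC c b) {t : ℝ} (ht : t ∈ Icc (0 : ℝ) 1)
    {u : Fin n → ℝ} (hu : u ∈ Icc (0 : Fin n → ℝ) 1) : 0 < aeval (ptX c b t u) c.Q :=
  (hN t ht _ (XC_mem hc hb hN ht hu)).2

/-- Proof: `IsX.ana`, continuity of compositions. -/
theorem continuousOn_ptX {n : ℕ} {c : CD n ℚ} (hc : c.Ok) {b : ℕ} (hb : 2 ≤ b) (hN : NdC c b) {t : ℝ}
    (ht : t ∈ Icc (0 : ℝ) 1) (G : TP n ℚ) : ContinuousOn (fun u => aeval (ptX c b t u) G) (Icc (0 : Fin n → ℝ) 1) := by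
  have hX := XC_spec hc hb hN
  intro u hu
  have h1 : ContinuousAt (XC c b) (t, u) := (hX.ana t ht u hu).continuousAt
  have h2 : ContinuousAt (fun u : Fin n → ℝ => ((t, u) : ℝ × (Fin n → ℝ))) u :=
    (Continuous.prodMk_right t).continuousAt
  have h3 : ContinuousAt (fun u : Fin n → ℝ => XC c b (t, u)) u :=
    ContinuousAt.comp (f := fun u : Fin n → ℝ => ((t, u) : ℝ × (Fin n → ℝ))) h1 h2
  have h4 : ContinuousAt (fun u : Fin n → ℝ => ((t, XC c b (t, u)) : ℝ × (Fin n → ℝ))) u :=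
    continuousAt_const.prodMk h3
  have h5 := (analyticAt_cons G (t, XC c b (t, u))).continuousAt
  have h6 : ContinuousAt (fun u : Fin n → ℝ => aeval (ptX c b t u) G) u :=
    ContinuousAt.comp (f := fun u : Fin n → ℝ => ((t, XC c b (t, u)) : ℝ × (Fin n → ℝ))) h5 h4
  exact h6.continuousWithinAt

/-- Change of variables. Proof: `IsX.integral_eq` for `cgd_nd`, with `cgd_det`; at the point `ptX c b t u`: `(∏ B_l ^ 2) / det jac = det V / Q ^ n` by `ok_det` (`Q ≠ 0`, `B_l ≠ 0`, `det jac ≠ 0`). -/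
theorem integral_KC {n : ℕ} {c : CD n ℚ} (hc : c.Ok) {b : ℕ} (hb : 2 ≤ b) (hN : NdC c b) {t : ℝ} (ht : t ∈ Icc (0 : ℝ) 1)
    (f : (Fin n → ℝ) → ℝ) : ∫ x in KC c b t, f x = ∫ u in Icc (0 : Fin n → ℝ) 1, f (XC c b (t, u)) *
      (aeval (ptX c b t u) (Matrix.det (Matrix.of c.V)) / aeval (ptX c b t u) c.Q ^ n) := by
  have hX := XC_spec hc hb hN
  have h1 := hX.integral_eq (cgd_nd hc hb hN) ht f
  have h2 : (cgd c).K (b : ℝ) t = KC c b t := rfl
  rw [h2] at h1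
  rw [h1]
  refine setIntegral_congr_fun measurableSet_Icc fun u hu => ?_
  beta_reduce
  have hQ := ptX_Q_pos hc hb hN ht hu
  have hB : ∀ l, 0 < aeval (ptX c b t u) (c.B l) := fun l => hX.pos t ht u hu l
  have h3 : ((cgd c).M (t, XC c b (t, u))).det =
      aeval (ptX c b t u) (Matrix.det (Matrix.of fun i j : Fin n => c.jac i j.succ)) :=
    cgd_det c (t, XC c b (t, u))
  have h4 : ∏ l, (cgd c).d l (t, XC c b (t, u)) ^ 2 = ∏ l, aeval (ptX c b t u) (c.B l) ^ 2 := rfl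
  rw [h3, h4]
  have h5 := congrArg (aeval (ptX c b t u)) (ok_det hc)
  rw [map_mul, map_mul, map_pow, map_prod] at h5
  have h6 : ∏ l, aeval (ptX c b t u) (c.B l ^ 2) = ∏ l, aeval (ptX c b t u) (c.B l) ^ 2 :=
    Finset.prod_congr rfl fun l _ => map_pow _ _ _
  rw [h6] at h5
  have h7 : 0 < aeval (ptX c b t u) c.Q ^ n * ∏ l, aeval (ptX c b t u) (c.B l) ^ 2 :=
    mul_pos (pow_pos hQ n) (Finset.prod_pos fun l _ => pow_pos (hB l) 2)
  have h8 : aeval (ptX c b t u) (Matrix.det (Matrix.of fun i j : Fin n => c.jac i j.succ)) ≠ 0 := by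
    intro h0
    rw [h0, mul_zero] at h5
    rw [← h5] at h7
    exact lt_irrefl _ h7
  congr 1
  rw [div_eq_div_iff h8 (pow_pos hQ n).ne', h5]
  ring

/-- Proof: `analyticAt_integral_one` (HA2.lean): the integrand is a quotient of polynomials in `t` and `X (t, u)`, with `Q ≠ 0` (`ptX_Q_pos`), composed with the analytic map `X` (`IsX.ana`, `analyticAt_cons`). -/
theorem analyticOn_JX {n : ℕ} {c : CD n ℚ} (hc : c.Ok) {b : ℕ} (hb : 2 ≤ b) (hN : NdC c b) (G : TP n ℚ) (K : ℕ) :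
    AnalyticOnNhd ℝ (JX c b G K) (Icc (0 : ℝ) 1) := by
  intro t ht
  have hX := XC_spec hc hb hN
  refine analyticAt_integral_one (h := fun p : ℝ × (Fin n → ℝ) =>
    aeval (ptX c b p.1 p.2) G / aeval (ptX c b p.1 p.2) c.Q ^ K) fun u hu => ?_
  have h1 : AnalyticAt ℝ (fun p : ℝ × (Fin n → ℝ) => (p.1, XC c b p)) (t, u) :=
    AnalyticAt.prod analyticAt_fst (hX.ana t ht u hu)
  have h2 : ∀ H : TP n ℚ, AnalyticAt ℝ (fun p : ℝ × (Fin n → ℝ) => aeval (ptX c b p.1 p.2) H) (t, u) := by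
    intro H
    exact AnalyticAt.comp (f := fun p : ℝ × (Fin n → ℝ) => (p.1, XC c b p))
      (analyticAt_cons H (t, XC c b (t, u))) h1
  refine (h2 G).fun_div ((h2 c.Q).fun_pow K) ?_
  exact pow_ne_zero _ (ptX_Q_pos hc hb hN ht hu).ne'

/-- Proof: the integrands are continuous on the cube (`continuousOn_ptX`, `ptX_Q_pos`), so integrable; `integral_finset_sum`. -/
theorem JX_sum {n : ℕ} {ι : Type} {c : CD n ℚ} (hc : c.Ok) {b : ℕ} (hb : 2 ≤ b) (hN : NdC c b) {t : ℝ}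
    (ht : t ∈ Icc (0 : ℝ) 1) (s : Finset ι) (G : ι → TP n ℚ) (K : ℕ) :
    JX c b (∑ i ∈ s, G i) K t = ∑ i ∈ s, JX c b (G i) K t := by
  unfold JX
  rw [← integral_finsetSum]
  · refine setIntegral_congr_fun measurableSet_Icc fun u _ => ?_
    beta_reduce
    rw [map_sum, Finset.sum_div]
  · intro i _
    refine ContinuousOn.integrableOn_compact isCompact_Icc ?_
    refine (continuousOn_ptX hc hb hN ht (G i)).div ((continuousOn_ptX hc hb hN ht c.Q).pow K) ?_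
    intro u hu
    exact pow_ne_zero _ (ptX_Q_pos hc hb hN ht hu).ne'

/-- A factor which depends only on `t`. Proof: `aeval (Fin.cons t x) (inT n a) = aeval t a` (`inT n` is the substitution `X ↦ X 0`), `integral_const_mul`. -/
theorem JX_inT_mul {n : ℕ} (c : CD n ℚ) (b : ℕ) (a : Polynomial ℚ) (G : TP n ℚ) (K : ℕ) (t : ℝ) :
    JX c b (inT n a * G) K t = Polynomial.aeval t a * JX c b G K t := by
  unfold JX
  rw [← integral_const_mul]
  refine setIntegral_congr_fun measurableSet_Icc fun u _ => ?_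
  beta_reduce
  have h1 : aeval (ptX c b t u) (inT n a) = Polynomial.aeval t a := by
    show aeval (ptX c b t u) (Polynomial.aeval (X 0 : MvPolynomial (Fin (n + 1)) ℚ) a) = _
    rw [← Polynomial.aeval_algHom_apply, aeval_X]
    rfl
  rw [map_mul, h1, mul_div_assoc]

/-- Proof: the integrand is `1` on the cube. -/
theorem JX_pow_Q {n : ℕ} {c : CD n ℚ} (hc : c.Ok) {b : ℕ} (hb : 2 ≤ b) (hN : NdC c b) {t : ℝ} (ht : t ∈ Icc (0 : ℝ) 1)
    (K : ℕ) : JX c b (c.Q ^ K) K t = 1 := by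
  unfold JX
  have h1 : EqOn (fun u => aeval (ptX c b t u) (c.Q ^ K) / aeval (ptX c b t u) c.Q ^ K) (fun _ => (1 : ℝ))
      (Icc (0 : Fin n → ℝ) 1) := by
    intro u hu
    beta_reduce
    rw [map_pow, div_self (pow_ne_zero _ (ptX_Q_pos hc hb hN ht hu).ne')]
  rw [setIntegral_congr_fun measurableSet_Icc h1]
  simp [measureReal_def, Real.volume_Icc_pi]

/-- Proof: `G Q ^ j / Q ^ (K + j) = G / Q ^ K` as `Q ≠ 0` at the points `ptX`. -/
theorem JX_shift {n : ℕ} {c : CD n ℚ} (hc : c.Ok) {b : ℕ} (hb : 2 ≤ b) (hN : NdC c b) {t : ℝ} (ht : t ∈ Icc (0 : ℝ) 1)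
    (G : TP n ℚ) (K j : ℕ) : JX c b (G * c.Q ^ j) (K + j) t = JX c b G K t := by
  unfold JX
  refine setIntegral_congr_fun measurableSet_Icc fun u hu => ?_
  beta_reduce
  rw [map_mul, map_pow, pow_add, mul_div_mul_right _ _ (pow_ne_zero _ (ptX_Q_pos hc hb hN ht hu).ne')]

end Pool.Agent.Lib.MP_bbe012_lc.PH
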