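import Pool.Agent.Lib.MP_bbe012_lc.PH.HC0
import Pool.Agent.Lib.MP_bbe012_lc.PT.RealB
import Pool.Agent.Lib.MP_bbe012_lc.PT.PhiT
import Pool.Agent.Lib.MP_bbe012_lc.PG.BSeg

/-!
# The integrals over a chart and their formal expansions
-/

namespace Pool.Agent.Lib.MP_bbe012_lc.PH

open MvPolynomial MeasureTheory Set PP PT

/-- Small parameters are allowed. Proof: the norms `nW` are non negative rational numbers; take `ρ = 1 / N` for a large natural number `N`; `Small` for `ρ` implies `Small` for `0 ≤ τ ≤ ρ`. -/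
theorem exists_small {n : ℕ} (c : CD n ℚ) : ∃ ρ : ℚ, 0 < ρ ∧ ρ ≤ 1 ∧ ∀ τ : ℚ, |τ| ≤ ρ → Small c |τ| := by
  obtain ⟨S, hS⟩ : ∃ S : ℚ, S = ∑ l, (nW (c.p l) + nW (c.q l)) + nW c.s := ⟨_, rfl⟩
  have h0 : ∀ l ∈ (Finset.univ : Finset (Fin n)), 0 ≤ nW (c.p l) + nW (c.q l) := fun l _ =>
    add_nonneg (nW_nonneg _) (nW_nonneg _)
  have hS1 : 0 ≤ ∑ l, (nW (c.p l) + nW (c.q l)) := Finset.sum_nonneg h0
  have hs0 : 0 ≤ nW c.s := nW_nonneg _
  have hS0 : 0 ≤ S := by
    rw [hS]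
    exact add_nonneg hS1 hs0
  have hle : ∀ l, nW (c.p l) + nW (c.q l) ≤ S := by
    intro l
    have h1 := Finset.single_le_sum h0 (Finset.mem_univ l)
    rw [hS]
    linarith
  have hles : nW c.s ≤ S := by
    rw [hS]
    linarith
  have hpos : (0 : ℚ) < 8 * (1 + S) := by linarith
  refine ⟨1 / (8 * (1 + S)), by positivity, ?_, fun τ hτ => ?_⟩
  · rw [div_le_one hpos]
    linarith
  · have h1 : |τ| * (8 * (1 + S)) ≤ 1 := by
      rw [le_div_iff₀ hpos] at hτ
      exact hτ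
    have ha := abs_nonneg τ
    have h2 : 0 ≤ |τ| * S := mul_nonneg ha hS0
    refine ⟨ha, ?_, fun l => ?_, ?_⟩
    · linarith
    · have h3 := mul_le_mul_of_nonneg_left (hle l) ha
      linarith
    · have h3 := mul_le_mul_of_nonneg_left hles ha
      linarith

/-- For small `τ` the points are the same. Proof: `uniq` of `XC_spec` for the point `fun l => pts c τ u l.succ`: `|x l| ≤ 2 ≤ b` (`pts_box`), `pts_eq`, and `B_l ≥ 1 / 2 > 0` at this point (`half_le_B`); `pts c τ u 0 = τ`. -/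
theorem ptX_eq_pts {n : ℕ} {c : CD n ℚ} (hc : c.Ok) {b : ℕ} (hb : 2 ≤ b) (hN : NdC c b) {τ : ℚ} (h0 : 0 ≤ τ)
    (hs : Small c |τ|) {u : Fin n → ℝ} (hu : u ∈ Icc (0 : Fin n → ℝ) 1) : ptX c b τ u = pts c τ u := by
  have hτ : (τ : ℝ) ∈ Icc (0 : ℝ) 1 := by
    have h1 := hs.le_one
    rw [abs_of_nonneg h0] at h1
    exact ⟨by exact_mod_cast h0, by exact_mod_cast h1⟩
  have hp : (Fin.cons (τ : ℝ) fun l => pts c τ u l.succ : Fin (n + 1) → ℝ) = pts c τ u := by
    funext i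
    refine Fin.cases ?_ (fun l => ?_) i
    · rfl
    · rfl
  have hX := XC_spec hc hb hN
  have h2 : (fun l => pts c τ u l.succ) = XC c b ((τ : ℝ), u) := by
    refine hX.uniq τ hτ u hu _ fun l => ⟨?_, ?_, ?_⟩
    · have h3 := pts_box hs hu l
      have h4 : (2 : ℝ) ≤ (b : ℝ) := by exact_mod_cast hb
      rw [abs_le]
      constructor
      · linarith [h3.1]
      · linarith [h3.2]
    · show aeval (Fin.cons (τ : ℝ) fun l => pts c τ u l.succ : Fin (n + 1) → ℝ) (c.A l) =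
        u l * aeval (Fin.cons (τ : ℝ) fun l => pts c τ u l.succ : Fin (n + 1) → ℝ) (c.B l)
      rw [hp]
      exact pts_eq hs hu l
    · have h3 : 1 / 2 ≤ aeval (Fin.cons (τ : ℝ) fun l => pts c τ u l.succ : Fin (n + 1) → ℝ) (c.B l) :=
        half_le_B hs (fun l => pts_box hs hu l) l
      show 0 ≤ aeval (Fin.cons (τ : ℝ) fun l => pts c τ u l.succ : Fin (n + 1) → ℝ) (c.B l)
      linarith
  unfold ptX
  rw [← h2]
  exact hp

/-- Proof: `ptX_eq_pts` and `JT_eq_ev`. -/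
theorem JX_eq_ev {n : ℕ} {c : CD n ℚ} (hc : c.Ok) {b : ℕ} (hb : 2 ≤ b) (hN : NdC c b) {τ : ℚ} (h0 : 0 ≤ τ)
    (hs : Small c |τ|) (G : TP n ℚ) (K : ℕ) : JX c b G K τ = ev τ (PhiT c G K) := by
  rw [← JT_eq_ev hs]
  unfold JX JT
  refine setIntegral_congr_fun measurableSet_Icc fun u hu => ?_
  beta_reduce
  rw [ptX_eq_pts hc hb hN h0 hs hu]

/-- A power series which vanishes at all small positive rational numbers is zero. Proof: if `coeff m f` is the first non zero coefficient, `|f(τ) / τ ^ m - coeff m f| ≤ C τ` for `0 < τ ≤ ρ / 2`, `C = ∑ |coeff (m + 1 + k) f| ρ ^ k`. -/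
theorem eq_zero_of_ev {f : PowerSeries ℚ} {ρ : ℚ} (hρ : 0 < ρ)
    (hs : Summable fun k => |((PowerSeries.coeff k f : ℚ) : ℝ)| * (ρ : ℝ) ^ k) (h : ∀ τ : ℚ, 0 < τ → τ ≤ ρ → ev τ f = 0) :
    f = 0 := by
  have hρ' : (0 : ℝ) < (ρ : ℝ) := by exact_mod_cast hρ
  obtain ⟨a, ha⟩ : ∃ a : ℕ → ℝ, ∀ k, a k = ((PowerSeries.coeff k f : ℚ) : ℝ) := ⟨_, fun _ => rfl⟩
  have hs' : Summable fun k => |a k| * (ρ : ℝ) ^ k := by
    refine hs.congr fun k => ?_
    rw [ha]
  have hz : ∀ m, a m = 0 := by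
    intro m
    induction m using Nat.strong_induction_on with
    | _ m ih =>
      have hsh : Summable fun k => |a (k + (m + 1))| * (ρ : ℝ) ^ (k + (m + 1)) :=
        (summable_nat_add_iff (m + 1)).2 hs'
      have hsh2 : Summable fun k => |a (k + (m + 1))| * (ρ : ℝ) ^ k := by
        have h1 := hsh.mul_right (((ρ : ℝ) ^ (m + 1))⁻¹)
        refine h1.congr fun k => ?_
        rw [pow_add, mul_assoc, mul_assoc, mul_inv_cancel₀ (pow_pos hρ' (m + 1)).ne', mul_one]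
      obtain ⟨C, hC⟩ : ∃ C : ℝ, C = ∑' k, |a (k + (m + 1))| * (ρ : ℝ) ^ k := ⟨_, rfl⟩
      have hC0 : 0 ≤ C := by
        rw [hC]
        exact tsum_nonneg fun k => mul_nonneg (abs_nonneg _) (pow_nonneg hρ'.le _)
      have hb : ∀ τ : ℚ, 0 < τ → τ ≤ ρ → |a m| ≤ C * (τ : ℝ) := by
        intro τ h0 h1
        have h0' : (0 : ℝ) < (τ : ℝ) := by exact_mod_cast h0
        have h1' : (τ : ℝ) ≤ (ρ : ℝ) := by exact_mod_cast h1
        have hsum : Summable fun k => a k * (τ : ℝ) ^ k := by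
          refine Summable.of_norm_bounded hs' fun k => ?_
          rw [Real.norm_eq_abs, abs_mul, abs_of_pos (pow_pos h0' k)]
          exact mul_le_mul_of_nonneg_left (pow_le_pow_left₀ h0'.le h1' k) (abs_nonneg _)
        have h2 : ∑' k, a k * (τ : ℝ) ^ k = 0 := by
          have h3 := h τ h0 h1
          unfold ev at h3
          rw [← h3]
          exact tsum_congr fun k => by rw [ha]
        have h3 := hsum.sum_add_tsum_nat_add (m + 1)
        rw [h2, Finset.sum_range_succ, Finset.sum_eq_zero, zero_add] at h3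
        · have hsum2 : Summable fun k => a (k + (m + 1)) * (τ : ℝ) ^ (k + (m + 1)) :=
            (summable_nat_add_iff (m + 1)).2 hsum
          have h5 : ∀ k, ‖a (k + (m + 1)) * (τ : ℝ) ^ (k + (m + 1))‖ ≤
              (τ : ℝ) ^ (m + 1) * (|a (k + (m + 1))| * (ρ : ℝ) ^ k) := by
            intro k
            rw [Real.norm_eq_abs, abs_mul, abs_of_pos (pow_pos h0' _), pow_add]
            have h6 := mul_le_mul_of_nonneg_left (pow_le_pow_left₀ h0'.le h1' k)
              (abs_nonneg (a (k + (m + 1))))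
            have h7 := mul_le_mul_of_nonneg_right h6 (pow_nonneg h0'.le (m + 1))
            calc |a (k + (m + 1))| * ((τ : ℝ) ^ k * (τ : ℝ) ^ (m + 1)) =
                |a (k + (m + 1))| * (τ : ℝ) ^ k * (τ : ℝ) ^ (m + 1) := by ring
              _ ≤ |a (k + (m + 1))| * (ρ : ℝ) ^ k * (τ : ℝ) ^ (m + 1) := h7
              _ = (τ : ℝ) ^ (m + 1) * (|a (k + (m + 1))| * (ρ : ℝ) ^ k) := by ring
          have h6 : ‖∑' k, a (k + (m + 1)) * (τ : ℝ) ^ (k + (m + 1))‖ ≤ (τ : ℝ) ^ (m + 1) * C := by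
            refine tsum_of_norm_bounded ?_ h5
            rw [hC]
            exact hsh2.hasSum.mul_left _
          rw [Real.norm_eq_abs] at h6
          have h7 : ∑' k, a (k + (m + 1)) * (τ : ℝ) ^ (k + (m + 1)) = -(a m * (τ : ℝ) ^ m) := by
            linarith
          rw [h7, abs_neg, abs_mul, abs_of_pos (pow_pos h0' m)] at h6
          have h8 : (τ : ℝ) ^ m * |a m| ≤ (τ : ℝ) ^ m * (C * τ) := by
            calc (τ : ℝ) ^ m * |a m| = |a m| * (τ : ℝ) ^ m := mul_comm _ _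
              _ ≤ (τ : ℝ) ^ (m + 1) * C := h6
              _ = (τ : ℝ) ^ m * (C * τ) := by ring
          exact le_of_mul_le_mul_left h8 (pow_pos h0' m)
        · intro k hk
          rw [ih k (Finset.mem_range.1 hk), zero_mul]
      have hN : ∀ N : ℕ, |a m| * ((N : ℝ) + 1) ≤ C * (ρ : ℝ) := by
        intro N
        have hN1 : (0 : ℚ) < (N : ℚ) + 1 := by positivity
        have h1 : (0 : ℚ) < ρ / ((N : ℚ) + 1) := div_pos hρ hN1
        have h2 : ρ / ((N : ℚ) + 1) ≤ ρ := by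
          rw [div_le_iff₀ hN1]
          have h3 : 0 ≤ ρ * (N : ℚ) := mul_nonneg hρ.le (Nat.cast_nonneg N)
          linarith
        have h3 := hb _ h1 h2
        push_cast at h3
        have h4 : (0 : ℝ) < (N : ℝ) + 1 := by positivity
        have h5 := mul_le_mul_of_nonneg_right h3 h4.le
        have h6 : C * ((ρ : ℝ) / ((N : ℝ) + 1)) * ((N : ℝ) + 1) = C * (ρ : ℝ) := by
          field_simp
        rw [h6] at h5
        exact h5
      by_contra hne
      have hpos : 0 < |a m| := abs_pos.2 hne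
      obtain ⟨N, hN'⟩ := exists_nat_gt (C * (ρ : ℝ) / |a m|)
      have h1 := hN N
      rw [div_lt_iff₀ hpos] at hN'
      have h2 : |a m| * ((N : ℝ) + 1) = (N : ℝ) * |a m| + |a m| := by ring
      rw [h2] at h1
      linarith
  ext m
  have h1 := hz m
  rw [ha] at h1
  rw [map_zero]
  exact_mod_cast h1

/-- Vanishing of the expansion and of the integrals.

Proof. (→) `JX c b G K τ = ev τ 0 = 0` for the rational `0 < τ ≤ ρ` (`exists_small`, `JX_eq_ev`), so there are zeros accumulating at `0` from the right, and `JX c b G K` is analytic on `[0,1]` (`analyticOn_JX`), so it is zero on `[0,1]` (`segAn_zero`, PG/BSeg.lean). (←) `eq_zero_of_ev` with `summable_PhiT`. -/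
theorem PhiT_zero_iff {n : ℕ} {c : CD n ℚ} (hc : c.Ok) {b : ℕ} (hb : 2 ≤ b) (hN : NdC c b) (G : TP n ℚ) (K : ℕ) :
    PhiT c G K = 0 ↔ ∀ t ∈ Icc (0 : ℝ) 1, JX c b G K t = 0 := by
  obtain ⟨ρ, hρ, hρ1, hsm⟩ := exists_small c
  have hρ' : (0 : ℝ) < (ρ : ℝ) := by exact_mod_cast hρ
  constructor
  · intro h0
    refine PG.segAn_zero (analyticOn_JX hc hb hN G K) ?_
    have hz : ∀ τ : ℚ, 0 < τ → τ ≤ ρ → JX c b G K (τ : ℝ) = 0 := by
      intro τ h1 h2
      have h3 : Small c |τ| := hsm τ (by rwa [abs_of_pos h1])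
      rw [JX_eq_ev hc hb hN h1.le h3, h0]
      unfold ev
      simp
    rw [Filter.frequently_iff]
    intro U hU
    obtain ⟨ε, hε, hεU⟩ := Metric.mem_nhdsWithin_iff.1 hU
    obtain ⟨τ, hτ0, hτ1⟩ : ∃ τ : ℚ, (0 : ℝ) < (τ : ℝ) ∧ (τ : ℝ) < min ε (ρ : ℝ) :=
      exists_rat_btwn (lt_min hε hρ')
    refine ⟨(τ : ℝ), hεU ⟨?_, hτ0⟩, hz τ (by exact_mod_cast hτ0) ?_⟩
    · rw [Metric.mem_ball, Real.dist_eq, sub_zero, abs_of_pos hτ0]
      exact lt_of_lt_of_le hτ1 (min_le_left _ _)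
    · have h1 : (τ : ℝ) ≤ (ρ : ℝ) := (lt_of_lt_of_le hτ1 (min_le_right _ _)).le
      exact_mod_cast h1
  · intro h0
    have hsρ : Small c |ρ| := hsm ρ (by rw [abs_of_pos hρ])
    refine eq_zero_of_ev hρ ?_ fun τ h1 h2 => ?_
    · have h3 := summable_PhiT hsρ G K
      rw [abs_of_pos hρ'] at h3
      exact h3
    · have h3 : Small c |τ| := hsm τ (by rwa [abs_of_pos h1])
      rw [← JX_eq_ev hc hb hN h1.le h3]
      refine h0 _ ⟨by exact_mod_cast h1.le, ?_⟩
      exact_mod_cast h2.trans hρ1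

/-- Vanishing at `t = 1`. Proof: `PhiT_zero_iff` at `t = 1`; `JX_sum`, `JX_shift`; the term `(X 0 - 1) U` vanishes at `t = 1`. -/
theorem JX_one_eq_zero {n : ℕ} {c : CD n ℚ} (hc : c.Ok) {b : ℕ} (hb : 2 ≤ b) (hN : NdC c b) {G U : TP n ℚ} {K j : ℕ}
    (h : PhiT c (G * c.Q ^ j + (X 0 - C 1) * U) (K + j) = 0) : JX c b G K 1 = 0 := by
  have h1 := (PhiT_zero_iff hc hb hN _ _).1 h 1 (right_mem_Icc.2 zero_le_one)
  have h2 : JX c b (G * c.Q ^ j + (X 0 - C 1) * U) (K + j) 1 = JX c b (G * c.Q ^ j) (K + j) 1 := by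
    unfold JX
    refine setIntegral_congr_fun measurableSet_Icc fun u _ => ?_
    beta_reduce
    have h3 : aeval (ptX c b 1 u) ((X 0 - C 1) * U) = 0 := by
      rw [map_mul, map_sub, aeval_X, aeval_C, map_one]
      have h4 : ptX c b 1 u 0 = 1 := rfl
      rw [h4, sub_self, zero_mul]
    rw [map_add, h3, add_zero]
  rw [h2, JX_shift hc hb hN (right_mem_Icc.2 zero_le_one)] at h1
  exact h1

end Pool.Agent.Lib.MP_bbe012_lc.PH
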