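import Pool.Agent.Lib.MP_bbe012_lc.PH.HC0
import Pool.Agent.Lib.MP_bbe012_lc.PT.CDex
import Pool.Agent.Lib.MP_bbe012_lc.PP.RedA

/-!
# Products of charts
-/

namespace Pool.Agent.Lib.MP_bbe012_lc.PH

open MvPolynomial MeasureTheory Set PP PT

/-- The chart `T` is the product of the charts `c b`. -/
structure IsProd {n ν : ℕ} (c : Fin ν → CD n ℚ) (T : CD (ν * n) ℚ) : Prop where
  p : ∀ b l, T.p (finProdFinEquiv (b, l)) = rename (bidx n ν b) ((c b).p l)
  q : ∀ b l, T.q (finProdFinEquiv (b, l)) = rename (bidx n ν b) ((c b).q l)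
  Q : T.Q = ∏ b, rename (bidx n ν b) (c b).Q

private theorem hc3_prod {N : ℕ} {ι : Type} [DecidableEq ι] (s : Finset ι)
    (f : ι → TP N ℚ) : ∃ g : TP N ℚ, ∏ b ∈ s, (1 + X 0 * f b) = 1 + X 0 * g := by
  induction s using Finset.induction_on with
  | empty => exact ⟨0, by rw [Finset.prod_empty, mul_zero, add_zero]⟩
  | insert a s ha ih =>
    obtain ⟨g, hg⟩ := ih
    refine ⟨f a + g + X 0 * (f a * g), ?_⟩
    rw [Finset.prod_insert ha, hg]
    ring

private theorem hc3_bidx_zero {n ν : ℕ} (b : Fin ν) : bidx n ν b 0 = 0 := rfl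

private theorem hc3_bidx_succ {n ν : ℕ} (b : Fin ν) (l : Fin n) :
    bidx n ν b l.succ = (finProdFinEquiv (b, l)).succ := rfl

private theorem hc3_inj {n ν : ℕ} (b : Fin ν) : Function.Injective (bidx n ν b) := by
  intro i j h
  revert h
  refine Fin.cases ?_ (fun i => ?_) i
  · refine Fin.cases ?_ (fun j => ?_) j
    · exact fun _ => rfl
    · intro h
      exact absurd h (Fin.succ_ne_zero _).symm
  · refine Fin.cases ?_ (fun j => ?_) j
    · intro h
      exact absurd h (Fin.succ_ne_zero _)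
    · intro h
      have h1 := finProdFinEquiv.injective (Fin.succ_injective _ h)
      exact congrArg Fin.succ (Prod.ext_iff.1 h1).2

private theorem hc3_pd_zero {σ τ : Type} (f : σ → τ) (i : τ) (hi : ∀ x, f x ≠ i)
    (G : MvPolynomial σ ℚ) : pderiv i (rename f G) = 0 := by
  induction G using MvPolynomial.induction_on with
  | C a => rw [rename_C, pderiv_C]
  | add p q hp hq => rw [map_add, map_add, hp, hq, add_zero]
  | mul_X p x hp =>
    rw [map_mul, rename_X, Derivation.leibniz, hp, pderiv_X_of_ne (hi x), smul_zero, smul_zero,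
      add_zero]

private theorem hc3_Q {n ν : ℕ} (b : Fin ν) (c : CD n ℚ) :
    rename (bidx n ν b) c.Q = 1 + X 0 * rename (bidx n ν b) c.s := by
  rw [CD.Q, map_add, map_one, map_mul, rename_X]
  rfl

private theorem hc3_A {n ν : ℕ} {c : Fin ν → CD n ℚ} {T : CD (ν * n) ℚ}
    (hp : ∀ b l, T.p (finProdFinEquiv (b, l)) = rename (bidx n ν b) ((c b).p l)) (b : Fin ν)
    (l : Fin n) : T.A (finProdFinEquiv (b, l)) = rename (bidx n ν b) ((c b).A l) := by
  unfold CD.A
  rw [map_add, map_mul, rename_X, rename_X, hp b l]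
  rfl

private theorem hc3_B {n ν : ℕ} {c : Fin ν → CD n ℚ} {T : CD (ν * n) ℚ}
    (hq : ∀ b l, T.q (finProdFinEquiv (b, l)) = rename (bidx n ν b) ((c b).q l)) (b : Fin ν)
    (l : Fin n) : T.B (finProdFinEquiv (b, l)) = rename (bidx n ν b) ((c b).B l) := by
  unfold CD.B
  rw [map_add, map_mul, rename_X, hq b l, map_one]
  rfl

private theorem hc3_jac0 {n ν : ℕ} {c : Fin ν → CD n ℚ} {T : CD (ν * n) ℚ}
    (hp : ∀ b l, T.p (finProdFinEquiv (b, l)) = rename (bidx n ν b) ((c b).p l))
    (hq : ∀ b l, T.q (finProdFinEquiv (b, l)) = rename (bidx n ν b) ((c b).q l)) (b : Fin ν)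
    (l : Fin n) : T.jac (finProdFinEquiv (b, l)) 0 = rename (bidx n ν b) ((c b).jac l 0) := by
  have h : ∀ G : TP n ℚ, pderiv (0 : Fin (ν * n + 1)) (rename (bidx n ν b) G) =
      rename (bidx n ν b) (pderiv 0 G) := fun G => by
    rw [← hc3_bidx_zero (n := n) b]
    exact pderiv_rename (hc3_inj b) 0 G
  unfold CD.jac
  rw [hc3_A hp, hc3_B hq, h, h, map_sub, map_mul, map_mul]

private theorem hc3_jac {n ν : ℕ} {c : Fin ν → CD n ℚ} {T : CD (ν * n) ℚ}
    (hp : ∀ b l, T.p (finProdFinEquiv (b, l)) = rename (bidx n ν b) ((c b).p l))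
    (hq : ∀ b l, T.q (finProdFinEquiv (b, l)) = rename (bidx n ν b) ((c b).q l)) (b b' : Fin ν)
    (l j : Fin n) : T.jac (finProdFinEquiv (b, l)) (finProdFinEquiv (b', j)).succ =
      if b = b' then rename (bidx n ν b) ((c b).jac l j.succ) else 0 := by
  by_cases hb : b = b'
  · subst hb
    have h : ∀ G : TP n ℚ, pderiv (finProdFinEquiv (b, j)).succ (rename (bidx n ν b) G) =
        rename (bidx n ν b) (pderiv j.succ G) := fun G => by
      rw [← hc3_bidx_succ (n := n) b]
      exact pderiv_rename (hc3_inj b) j.succ G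
    rw [if_pos rfl]
    unfold CD.jac
    rw [hc3_A hp, hc3_B hq, h, h, map_sub, map_mul, map_mul]
  · rw [if_neg hb]
    have h : ∀ G : TP n ℚ, pderiv (finProdFinEquiv (b', j)).succ (rename (bidx n ν b) G) = 0 :=
      fun G => by
      refine hc3_pd_zero _ _ (fun i => ?_) G
      refine Fin.cases ?_ (fun i => ?_) i
      · exact (Fin.succ_ne_zero _).symm
      · intro h1
        have h2 := finProdFinEquiv.injective (Fin.succ_injective _ h1)
        exact hb (Prod.ext_iff.1 h2).1
    unfold CD.jac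
    rw [hc3_A hp, hc3_B hq, h, h, mul_zero, mul_zero, sub_zero]

/-- Existence of the product chart.

Proof. `∏ b, rename (bidx n ν b) (1 + X 0 * (c b).s) = 1 + X 0 * s` (see `TUniv_prod` in PT/TUniv.lean). `T.C (b, l) = rename ((c b).C l) * cof b`, `cof b = ∏ b' ∈ univ.erase b, rename (c b').Q`; `T.V (b, l) (b', j) = if b = b' then rename ((c b).V l j) * cof b else 0`; `T.W (b, j) = rename ((c b).W j) * cof b` (indices through `finProdFinEquiv.symm`).
`T.A (b, l) = rename ((c b).A l)`, the same for `B` (`bidx` sends `0` to `0` and `l.succ` to `(b, l).succ`), `T.jac (b, l) (b', j).succ = if b = b' then rename ((c b).jac l j.succ) else 0` and `T.jac (b, l) 0 = rename ((c b).jac l 0)` (`pderiv` of a renamed polynomial: injective renaming, `pderiv_rename`; `0` if the variable does not occur). The conditions `Ok` follow from those for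
`c b`, sums over `Fin (ν * n)` are sums over pairs (`Fintype.sum_equiv finProdFinEquiv`, `Fintype.sum_prod_type`, `Finset.sum_eq_single`). -/
theorem exists_prodChart {n ν : ℕ} (c : Fin ν → CD n ℚ) (hc : ∀ b, (c b).Ok) : ∃ T : CD (ν * n) ℚ, T.Ok ∧ IsProd c T := by
  classical
  obtain ⟨g, hg⟩ := hc3_prod (N := ν * n) (Finset.univ : Finset (Fin ν))
    (fun b => rename (bidx n ν b) (c b).s)
  let cof : Fin ν → TP (ν * n) ℚ := fun b => ∏ b' ∈ Finset.univ.erase b, rename (bidx n ν b') (c b').Q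
  have hprod : ∏ b, rename (bidx n ν b) (c b).Q = 1 + X 0 * g := by
    rw [← hg]
    exact Finset.prod_congr rfl fun b _ => hc3_Q b (c b)
  have hcof : ∀ b, rename (bidx n ν b) (c b).Q * cof b = 1 + X 0 * g := by
    intro b
    rw [← hprod]
    exact Finset.mul_prod_erase Finset.univ (fun b => rename (bidx n ν b) (c b).Q) (Finset.mem_univ b)
  let T : CD (ν * n) ℚ := {
    p := fun j => rename (bidx n ν (finProdFinEquiv.symm j).1)
      ((c (finProdFinEquiv.symm j).1).p (finProdFinEquiv.symm j).2)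
    q := fun j => rename (bidx n ν (finProdFinEquiv.symm j).1)
      ((c (finProdFinEquiv.symm j).1).q (finProdFinEquiv.symm j).2)
    s := g
    C := fun j => rename (bidx n ν (finProdFinEquiv.symm j).1)
      ((c (finProdFinEquiv.symm j).1).C (finProdFinEquiv.symm j).2) * cof (finProdFinEquiv.symm j).1
    V := fun i j => if (finProdFinEquiv.symm i).1 = (finProdFinEquiv.symm j).1 then
      rename (bidx n ν (finProdFinEquiv.symm i).1)
        ((c (finProdFinEquiv.symm i).1).V (finProdFinEquiv.symm i).2 (finProdFinEquiv.symm j).2) *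
          cof (finProdFinEquiv.symm i).1 else 0
    W := fun j => rename (bidx n ν (finProdFinEquiv.symm j).1)
      ((c (finProdFinEquiv.symm j).1).W (finProdFinEquiv.symm j).2) * cof (finProdFinEquiv.symm j).1 }
  have hTp : ∀ b l, T.p (finProdFinEquiv (b, l)) = rename (bidx n ν b) ((c b).p l) := by
    intro b l
    change rename (bidx n ν (finProdFinEquiv.symm (finProdFinEquiv (b, l))).1)
      ((c (finProdFinEquiv.symm (finProdFinEquiv (b, l))).1).p
        (finProdFinEquiv.symm (finProdFinEquiv (b, l))).2) = _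
    rw [Equiv.symm_apply_apply]
  have hTq : ∀ b l, T.q (finProdFinEquiv (b, l)) = rename (bidx n ν b) ((c b).q l) := by
    intro b l
    change rename (bidx n ν (finProdFinEquiv.symm (finProdFinEquiv (b, l))).1)
      ((c (finProdFinEquiv.symm (finProdFinEquiv (b, l))).1).q
        (finProdFinEquiv.symm (finProdFinEquiv (b, l))).2) = _
    rw [Equiv.symm_apply_apply]
  have hTC : ∀ b l, T.C (finProdFinEquiv (b, l)) = rename (bidx n ν b) ((c b).C l) * cof b := by
    intro b l
    change rename (bidx n ν (finProdFinEquiv.symm (finProdFinEquiv (b, l))).1)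
      ((c (finProdFinEquiv.symm (finProdFinEquiv (b, l))).1).C
        (finProdFinEquiv.symm (finProdFinEquiv (b, l))).2) *
          cof (finProdFinEquiv.symm (finProdFinEquiv (b, l))).1 = _
    rw [Equiv.symm_apply_apply]
  have hTW : ∀ b l, T.W (finProdFinEquiv (b, l)) = rename (bidx n ν b) ((c b).W l) * cof b := by
    intro b l
    change rename (bidx n ν (finProdFinEquiv.symm (finProdFinEquiv (b, l))).1)
      ((c (finProdFinEquiv.symm (finProdFinEquiv (b, l))).1).W
        (finProdFinEquiv.symm (finProdFinEquiv (b, l))).2) *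
          cof (finProdFinEquiv.symm (finProdFinEquiv (b, l))).1 = _
    rw [Equiv.symm_apply_apply]
  have hTV : ∀ b l b' j, T.V (finProdFinEquiv (b, l)) (finProdFinEquiv (b', j)) =
      if b = b' then rename (bidx n ν b) ((c b).V l j) * cof b else 0 := by
    intro b l b' j
    change (if (finProdFinEquiv.symm (finProdFinEquiv (b, l))).1 =
        (finProdFinEquiv.symm (finProdFinEquiv (b', j))).1 then
      rename (bidx n ν (finProdFinEquiv.symm (finProdFinEquiv (b, l))).1)
        ((c (finProdFinEquiv.symm (finProdFinEquiv (b, l))).1).V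
          (finProdFinEquiv.symm (finProdFinEquiv (b, l))).2
          (finProdFinEquiv.symm (finProdFinEquiv (b', j))).2) *
          cof (finProdFinEquiv.symm (finProdFinEquiv (b, l))).1 else 0) = _
    rw [Equiv.symm_apply_apply, Equiv.symm_apply_apply]
  have hTQ : T.Q = 1 + X 0 * g := rfl
  have hsum : ∀ f : Fin (ν * n) → TP (ν * n) ℚ, ∑ j, f j =
      ∑ b : Fin ν, ∑ j : Fin n, f (finProdFinEquiv (b, j)) := by
    intro f
    rw [← Equiv.sum_comp finProdFinEquiv f, Fintype.sum_prod_type]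
  have hcase : ∀ P : Fin (ν * n) → Prop, (∀ b l, P (finProdFinEquiv (b, l))) → ∀ j, P j := by
    intro P h j
    have h1 := h (finProdFinEquiv.symm j).1 (finProdFinEquiv.symm j).2
    rwa [Prod.mk.eta, Equiv.apply_symm_apply] at h1
  refine ⟨T, ⟨?_, ?_, ?_⟩, ⟨hTp, hTq, ?_⟩⟩
  · refine hcase _ fun b l => ?_
    rw [hc3_B hTq, hTC, hTQ, ← mul_assoc, ← map_mul, (hc b).bc l, hcof]
  · refine hcase _ fun b l => hcase _ fun b₁ i => ?_
    rw [hsum]
    have h1 : ∀ b' : Fin ν, ∑ j : Fin n, T.V (finProdFinEquiv (b, l)) (finProdFinEquiv (b', j)) *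
        T.jac (finProdFinEquiv (b₁, i)) (finProdFinEquiv (b', j)).succ =
        if b = b' then (if b₁ = b' then
          cof b * rename (bidx n ν b) (∑ j : Fin n, (c b).V l j * (c b₁).jac i j.succ) else 0)
          else 0 := by
      intro b'
      by_cases h2 : b = b'
      · rw [if_pos h2]
        by_cases h3 : b₁ = b'
        · rw [if_pos h3, map_sum, Finset.mul_sum]
          refine Finset.sum_congr rfl fun j _ => ?_
          rw [hTV, if_pos h2, hc3_jac hTp hTq, if_pos h3, h3, ← h2, map_mul]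
          ring
        · rw [if_neg h3]
          refine Finset.sum_eq_zero fun j _ => ?_
          rw [hc3_jac hTp hTq, if_neg h3, mul_zero]
      · rw [if_neg h2]
        refine Finset.sum_eq_zero fun j _ => ?_
        rw [hTV, if_neg h2, zero_mul]
    rw [Finset.sum_congr rfl fun b' _ => h1 b', Finset.sum_ite_eq, if_pos (Finset.mem_univ b)]
    by_cases h2 : b₁ = b
    · subst h2
      rw [if_pos rfl, (hc b₁).v l i]
      by_cases h3 : l = i
      · subst h3
        rw [if_pos rfl, if_pos rfl, map_mul, map_pow, ← hc3_B hTq, hTQ, ← hcof b₁]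
        ring
      · rw [if_neg h3, if_neg, map_zero, mul_zero]
        intro h4
        exact h3 (Prod.ext_iff.1 (finProdFinEquiv.injective h4)).2
    · rw [if_neg h2, if_neg]
      intro h4
      exact h2 (Prod.ext_iff.1 (finProdFinEquiv.injective h4)).1.symm
  · refine hcase _ fun b₁ i => ?_
    rw [hsum]
    have h1 : ∀ b' : Fin ν, ∑ j : Fin n, T.W (finProdFinEquiv (b', j)) *
        T.jac (finProdFinEquiv (b₁, i)) (finProdFinEquiv (b', j)).succ =
        if b₁ = b' then
          cof b₁ * rename (bidx n ν b₁) (∑ j : Fin n, (c b₁).W j * (c b₁).jac i j.succ) else 0 := by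
      intro b'
      by_cases h3 : b₁ = b'
      · rw [if_pos h3, map_sum, Finset.mul_sum]
        refine Finset.sum_congr rfl fun j _ => ?_
        rw [hTW, hc3_jac hTp hTq, if_pos h3, ← h3, map_mul]
        ring
      · rw [if_neg h3]
        refine Finset.sum_eq_zero fun j _ => ?_
        rw [hc3_jac hTp hTq, if_neg h3, mul_zero]
    rw [Finset.sum_congr rfl fun b' _ => h1 b', Finset.sum_ite_eq, if_pos (Finset.mem_univ b₁),
      (hc b₁).w i, map_mul, hc3_jac0 hTp hTq, hTQ, ← hcof b₁]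
    ring
  · rw [hTQ, hprod]

/-- The value of a polynomial of a block. -/
theorem aeval_bidx_cons {n ν : ℕ} (b : Fin ν) (t : ℝ) (x : Fin (ν * n) → ℝ) (G : TP n ℚ) :
    aeval (Fin.cons t x : Fin (ν * n + 1) → ℝ) (rename (bidx n ν b) G) =
      aeval (Fin.cons t (bco n ν b x) : Fin (n + 1) → ℝ) G := by
  rw [aeval_rename]
  congr 2
  funext i
  refine Fin.cases ?_ (fun l => ?_) i
  · simp [bidx]
  · simp [bidx, bco]

/-- Proof: `x ∈ KC T b t` iff all blocks `bco n ν β x` are in `KC (c β) b t` (`aeval_bidx_cons`); the value of `T.Q` is the product of the positive values of the `(c β).Q`. (`b` is the size of the box, `β` the block.) -/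
theorem mem_KC_prod {n ν : ℕ} {c : Fin ν → CD n ℚ} {T : CD (ν * n) ℚ} (hT : IsProd c T) (b : ℕ) (t : ℝ)
    (x : Fin (ν * n) → ℝ) : x ∈ KC T b t ↔ ∀ β, bco n ν β x ∈ KC (c β) b t := by
  have hA : ∀ β l, aeval (Fin.cons t x : Fin (ν * n + 1) → ℝ) (T.A (finProdFinEquiv (β, l))) =
      aeval (Fin.cons t (bco n ν β x) : Fin (n + 1) → ℝ) ((c β).A l) := by
    intro β l
    rw [hc3_A hT.p, aeval_bidx_cons]
  have hB : ∀ β l, aeval (Fin.cons t x : Fin (ν * n + 1) → ℝ) (T.B (finProdFinEquiv (β, l))) =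
      aeval (Fin.cons t (bco n ν β x) : Fin (n + 1) → ℝ) ((c β).B l) := by
    intro β l
    rw [hc3_B hT.q, aeval_bidx_cons]
  constructor
  · intro hx β l
    have h1 := hx (finProdFinEquiv (β, l))
    rw [hA, hB] at h1
    exact h1
  · intro hx j
    obtain ⟨⟨β, l⟩, rfl⟩ := finProdFinEquiv.surjective j
    rw [hA, hB]
    exact hx β l

theorem NdC_prod {n ν : ℕ} {c : Fin ν → CD n ℚ} {T : CD (ν * n) ℚ} (hT : IsProd c T) {b : ℕ}
    (hN : ∀ β, NdC (c β) b) : NdC T b := by
  intro t ht x hx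
  have hx' := (mem_KC_prod hT b t x).1 hx
  refine ⟨fun j => ?_, ?_⟩
  · obtain ⟨⟨β, l⟩, rfl⟩ := finProdFinEquiv.surjective j
    exact (hN β t ht _ (hx' β)).1 l
  · rw [hT.Q, map_prod]
    refine Finset.prod_pos fun β _ => ?_
    rw [aeval_bidx_cons]
    exact (hN β t ht _ (hx' β)).2

/-- The blocks of the points. Proof: uniqueness (`XC_spec`, `IsX.uniq`) for `c β` at the point `bco n ν β u` of the cube. -/
theorem XC_block {n ν : ℕ} {c : Fin ν → CD n ℚ} {T : CD (ν * n) ℚ} (hc : ∀ β, (c β).Ok) (hTo : T.Ok) (hT : IsProd c T)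
    {b : ℕ} (hb : 2 ≤ b) (hN : ∀ β, NdC (c β) b) {t : ℝ} (ht : t ∈ Icc (0 : ℝ) 1) {u : Fin (ν * n) → ℝ}
    (hu : u ∈ Icc (0 : Fin (ν * n) → ℝ) 1) (β : Fin ν) :
    bco n ν β (XC T b (t, u)) = XC (c β) b (t, bco n ν β u) := by
  have hS := XC_spec hTo hb (NdC_prod hT hN)
  have hA : ∀ l, (cgd (c β)).a l (t, bco n ν β (XC T b (t, u))) =
      (cgd T).a (finProdFinEquiv (β, l)) (t, XC T b (t, u)) := by
    intro l
    change aeval (Fin.cons t (bco n ν β (XC T b (t, u))) : Fin (n + 1) → ℝ) ((c β).A l) =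
      aeval (Fin.cons t (XC T b (t, u)) : Fin (ν * n + 1) → ℝ) (T.A (finProdFinEquiv (β, l)))
    rw [hc3_A hT.p, aeval_bidx_cons]
  have hB : ∀ l, (cgd (c β)).d l (t, bco n ν β (XC T b (t, u))) =
      (cgd T).d (finProdFinEquiv (β, l)) (t, XC T b (t, u)) := by
    intro l
    change aeval (Fin.cons t (bco n ν β (XC T b (t, u))) : Fin (n + 1) → ℝ) ((c β).B l) =
      aeval (Fin.cons t (XC T b (t, u)) : Fin (ν * n + 1) → ℝ) (T.B (finProdFinEquiv (β, l)))
    rw [hc3_B hT.q, aeval_bidx_cons]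
  refine (XC_spec (hc β) hb (hN β)).uniq t ht _ (bco_mem β hu) _ fun l => ⟨?_, ?_, ?_⟩
  · exact hS.box t ht u hu (finProdFinEquiv (β, l))
  · rw [hA, hB]
    exact hS.eq t ht u hu (finProdFinEquiv (β, l))
  · rw [hB]
    exact (hS.pos t ht u hu (finProdFinEquiv (β, l))).le

private theorem hc3_val {n ν : ℕ} {c : Fin ν → CD n ℚ} {T : CD (ν * n) ℚ} (hc : ∀ β, (c β).Ok) (hTo : T.Ok)
    (hT : IsProd c T) {b : ℕ} (hb : 2 ≤ b) (hN : ∀ β, NdC (c β) b) {t : ℝ} (ht : t ∈ Icc (0 : ℝ) 1)
    {u : Fin (ν * n) → ℝ} (hu : u ∈ Icc (0 : Fin (ν * n) → ℝ) 1) (β : Fin ν) (G : TP n ℚ) :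
    aeval (ptX T b t u) (rename (bidx n ν β) G) = aeval (ptX (c β) b t (bco n ν β u)) G := by
  unfold ptX
  rw [aeval_bidx_cons, XC_block hc hTo hT hb hN ht hu β]

/-- The value of a product.

Proof. As `JT_blocks` (PT/TRedA.lean). At the point `ptX T b t u` the renamed polynomials have the values of the polynomials at `ptX (c β) b t (bco n ν β u)` (`aeval_bidx_cons`, `XC_block`); with `Q_β` the value of `(c β).Q`, `T.Q` has the value `∏ Q_β`, all `> 0` (`ptX_Q_pos`): `(∏ β, A_β * (∏ β' ≠ β, Q_β') ^ k) / (∏ Q_β) ^ (ν * k) = ∏ β, A_β / Q_β ^ k`. `integral_blocks` (PP/RedA.lean). -/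
theorem JX_blocks {n ν : ℕ} {c : Fin ν → CD n ℚ} {T : CD (ν * n) ℚ} (hc : ∀ β, (c β).Ok) (hTo : T.Ok) (hT : IsProd c T)
    {b : ℕ} (hb : 2 ≤ b) (hN : ∀ β, NdC (c β) b) {t : ℝ} (ht : t ∈ Icc (0 : ℝ) 1) (A : Fin ν → TP n ℚ) (k : ℕ)
    (cof : Fin ν → TP (ν * n) ℚ) (hcof : ∀ β, rename (bidx n ν β) (c β).Q * cof β = T.Q) :
    JX T b (∏ β : Fin ν, rename (bidx n ν β) (A β) * cof β ^ k) (ν * k) t = ∏ β : Fin ν, JX (c β) b (A β) k t := by
  have h0 := integral_blocks n ν fun β v =>
    aeval (ptX (c β) b t v) (A β) / aeval (ptX (c β) b t v) (c β).Q ^ k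
  have h1 : JX T b (∏ β : Fin ν, rename (bidx n ν β) (A β) * cof β ^ k) (ν * k) t =
      ∫ u in Icc (0 : Fin (ν * n) → ℝ) 1, ∏ β : Fin ν,
        aeval (ptX (c β) b t (bco n ν β u)) (A β) /
          aeval (ptX (c β) b t (bco n ν β u)) (c β).Q ^ k := by
    unfold JX
    refine setIntegral_congr_fun measurableSet_Icc fun u hu => ?_
    change aeval (ptX T b t u) (∏ β : Fin ν, rename (bidx n ν β) (A β) * cof β ^ k) /
      aeval (ptX T b t u) T.Q ^ (ν * k) = _
    have hv := fun (β : Fin ν) (G : TP n ℚ) => hc3_val hc hTo hT hb hN ht hu β G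
    have hpos := ptX_Q_pos hTo hb (NdC_prod hT hN) ht hu
    have hcard : aeval (ptX T b t u) T.Q ^ (ν * k) =
        ∏ _b : Fin ν, aeval (ptX T b t u) T.Q ^ k := by
      rw [Finset.prod_const, Finset.card_univ, Fintype.card_fin, ← pow_mul, mul_comm k ν]
    rw [hcard, map_prod, ← Finset.prod_div_distrib]
    refine Finset.prod_congr rfl fun β _ => ?_
    have h2 : aeval (ptX (c β) b t (bco n ν β u)) (c β).Q * aeval (ptX T b t u) (cof β) =
        aeval (ptX T b t u) T.Q := by
      rw [← hv β, ← map_mul, hcof β]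
    have h3 : aeval (ptX T b t u) (cof β) ≠ 0 := by
      intro h
      rw [h, mul_zero] at h2
      exact hpos.ne h2
    rw [map_mul, map_pow, hv β, ← h2, mul_pow, mul_div_mul_right _ _ (pow_ne_zero k h3)]
  rw [h1, h0]
  rfl

/-- The simplest form. Proof: the integrand is the product of the `A_β / Q_β ^ k` (`Finset.prod_div_distrib`); `integral_blocks`. -/
theorem JX_prod {n ν : ℕ} {c : Fin ν → CD n ℚ} {T : CD (ν * n) ℚ} (hc : ∀ β, (c β).Ok) (hTo : T.Ok) (hT : IsProd c T)
    {b : ℕ} (hb : 2 ≤ b) (hN : ∀ β, NdC (c β) b) {t : ℝ} (ht : t ∈ Icc (0 : ℝ) 1) (A : Fin ν → TP n ℚ) (k : ℕ) :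
    JX T b (∏ β : Fin ν, rename (bidx n ν β) (A β)) k t = ∏ β : Fin ν, JX (c β) b (A β) k t := by
  have h0 := integral_blocks n ν fun β v =>
    aeval (ptX (c β) b t v) (A β) / aeval (ptX (c β) b t v) (c β).Q ^ k
  have h1 : JX T b (∏ β : Fin ν, rename (bidx n ν β) (A β)) k t =
      ∫ u in Icc (0 : Fin (ν * n) → ℝ) 1, ∏ β : Fin ν,
        aeval (ptX (c β) b t (bco n ν β u)) (A β) /
          aeval (ptX (c β) b t (bco n ν β u)) (c β).Q ^ k := by
    unfold JX
    refine setIntegral_congr_fun measurableSet_Icc fun u hu => ?_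
    change aeval (ptX T b t u) (∏ β : Fin ν, rename (bidx n ν β) (A β)) /
      aeval (ptX T b t u) T.Q ^ k = _
    have hv := fun (β : Fin ν) (G : TP n ℚ) => hc3_val hc hTo hT hb hN ht hu β G
    rw [hT.Q, map_prod, map_prod, ← Finset.prod_pow, ← Finset.prod_div_distrib]
    refine Finset.prod_congr rfl fun β _ => ?_
    rw [hv β, hv β]
  rw [h1, h0]
  rfl

end Pool.Agent.Lib.MP_bbe012_lc.PH
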