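import Pool.Agent.Lib.MP_bbe012_lc.PH.HDefs
import Pool.Agent.Lib.MP_bbe012_lc.PG.CDefs
import Pool.Agent.Lib.MP_bbe012_lc.PT.TRed

/-!
# The certificates of the algorithm for semialgebraic domains

The reduction to one integral over a product of charts is that of stage 3 of `PerturbativePeriods` (PT/TRed.lean), at `τ = 1`. New are the certificates of
nondegeneracy of the charts on `[0,1]` and the certificates for non zero values, both based on certificates of positivity on `{x ∈ [-b, b]^N : g_j(x) ≥ 0}`.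
-/

namespace Pool.Agent.Lib.MP_bbe012_lc.PH

open PP PG PT

/-- The code of `∏ i < N, (b + x_i) ^ u_i (b - x_i) ^ v_i`. -/
def bernBC (b N : ℕ) (u v : List ℕ) : PCode :=
  pcProdRange N fun i =>
    pcMul (pcPow (pcNat b ++ pcVar i) (u.getD i 0)) (pcPow (pcNat b ++ pcNeg (pcVar i)) (v.getD i 0))

/-- The code of the sum of the `c ∏ (b + x_i) ^ u_i (b - x_i) ^ v_i`. -/
def posSumB (b N : ℕ) (L : List (QCode × (List ℕ × List ℕ))) : PCode :=
  pcSumRange L.length fun j => pcMul (constC (L.getD j (qnat 0, ([], []))).1)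
    (bernBC b N (L.getD j (qnat 0, ([], []))).2.1 (L.getD j (qnat 0, ([], []))).2.2)

/-- Verification of a certificate of positivity on the box `[-b, b]^N`. -/
def posB (b N : ℕ) (p : PCode) (c : PCert) : Prop :=
  qltP (qnat 0) c.1 ∧ (∀ t ∈ c.2, qleP (qnat 0) t.1) ∧ pcIsZero N (p ++ pcNeg (constC c.1 ++ posSumB b N c.2))

instance (b N : ℕ) (p : PCode) (c : PCert) : Decidable (posB b N p c) := by unfold posB; infer_instance

/-- Certificates of positivity on a box with constraints: multipliers and a certificate for the box. -/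
abbrev PSC := List PCode × PCert

/-- The trivial certificate. -/
def psc0 : PSC := ([], (qnat 0, []))

/-- The code of `p - ∑ S_j ^ 2 g_j`. -/
def multC (g : List PCode) (p : PCode) (S : List PCode) : PCode :=
  p ++ pcNeg (pcSumRange g.length fun j => pcMul (pcMul (S.getD j []) (S.getD j [])) (g.getD j []))

/-- Verification of a certificate of positivity of `p` on `{x ∈ [-b, b]^N : g_j(x) ≥ 0}`. -/
def psC (b N : ℕ) (g : List PCode) (p : PCode) (c : PSC) : Prop := posB b N (multC g p c.1) c.2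

instance (b N : ℕ) (g : List PCode) (p : PCode) (c : PSC) : Decidable (psC b N g p c) := by unfold psC; infer_instance

/-- The constraints `t, 1 - t, A_l, B_l - A_l`. -/
def ndG (n : ℕ) (c : CDC) : List PCode :=
  [tC, pcNat 1 ++ pcNeg tC] ++ ((List.range n).map (aC c) ++ (List.range n).map fun l => bC c l ++ pcNeg (aC c l))

/-- Certificate of nondegeneracy. -/
abbrev NDC := PSC × List PSC

/-- Verification of the nondegeneracy of a chart over `[0,1]`: `Q > 0` and `x_l ^ 2 < b ^ 2` on the domain. -/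
def ndC (b n : ℕ) (c : CDC) (x : NDC) : Prop :=
  psC b (n + 1) (ndG n c) (qC c) x.1 ∧
    ∀ l ∈ List.range n, psC b (n + 1) (ndG n c) (pcNat (b * b) ++ pcNeg (pcMul (pcVar (l + 1)) (pcVar (l + 1))))
      (x.2.getD l psc0)

instance (b n : ℕ) (c : CDC) (x : NDC) : Decidable (ndC b n c x) := by unfold ndC; infer_instance

/-- Certificate for a non zero value: the sign, the constant and the primitives; the certificate of positivity. -/
abbrev NH := (Bool × (QCode × List PCode)) × PSC

/-- The constraints `u_l, 1 - u_l, ± (A_l - u_l B_l), A_l, B_l - A_l` at `t = 1`, in the variables `u, x`. -/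
def nhG (n : ℕ) (c : CDC) : List PCode :=
  ((List.range n).map fun l => pcVar l) ++ ((List.range n).map fun l => pcNat 1 ++ pcNeg (pcVar l)) ++
    ((List.range n).map fun l => xC n (qnat 1) (aC c l) ++ pcNeg (pcMul (pcVar l) (xC n (qnat 1) (bC c l)))) ++
    ((List.range n).map fun l => pcMul (pcVar l) (xC n (qnat 1) (bC c l)) ++ pcNeg (xC n (qnat 1) (aC c l))) ++
    ((List.range n).map fun l => xC n (qnat 1) (aC c l)) ++
    ((List.range n).map fun l => xC n (qnat 1) (bC c l) ++ pcNeg (xC n (qnat 1) (aC c l)))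

/-- The code of `± G - (a + ∑ ∂_l ((u_l - u_l ^ 2) E_l)) Q ^ K` at `t = 1`. -/
def nhC (n : ℕ) (c : CDC) (G : PCode) (K : ℕ) (x : NH) : PCode :=
  (if x.1.1 = true then xC n (qnat 1) G else pcNeg (xC n (qnat 1) G)) ++
    pcNeg (pcMul (pcTrunc n (constC x.1.2.1 ++ exC n x.1.2.2)) (pcPow (xC n (qnat 1) (qC c)) K))

/-- Verification of a certificate for a non zero value at `t = 1`. -/
def checkNH (b n : ℕ) (c : CDC) (G : PCode) (K : ℕ) (x : NH) : Prop :=
  qleP (qnat 0) x.1.2.1 ∧ psC b (n + n) (nhG n c) (nhC n c G K x) x.2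

instance (b n : ℕ) (c : CDC) (G : PCode) (K : ℕ) (x : NH) : Decidable (checkNH b n c G K x) := by
  unfold checkNH; infer_instance

/-- Forget the box. -/
def dropI (I : CIH) : CIT := (I.1, I.2.2)

/-- Forget the boxes. -/
def dropE (E : ExH) : ExT := E.map fun L => L.map dropI

/-- Verification of a block. -/
def blkH (b : ℕ) (r : RT) (β : ℕ) (x : NDC) : Prop :=
  okC (rtN r) (rtB r β).1 ∧ jokC (rtN r) (rtB r β).1 (rtB r β).2.1 ∧ ndC b (rtN r) (rtB r β).1 x ∧
    (∀ l ∈ List.range (rtN r),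
      pcIsZero (rtM r * rtN r + 1) (blkC (rtN r) β (cdP (rtB r β).1 l) ++ pcNeg (cdP (rtC r) (β * rtN r + l))) ∧
      pcIsZero (rtM r * rtN r + 1) (blkC (rtN r) β (cdQ (rtB r β).1 l) ++ pcNeg (cdQ (rtC r) (β * rtN r + l)))) ∧
    pcIsZero (rtM r * rtN r + 1) (pcMul (blkC (rtN r) β (qC (rtB r β).1)) (rtB r β).2.2 ++ pcNeg (qC (rtC r)))

instance (b : ℕ) (r : RT) (β : ℕ) (x : NDC) : Decidable (blkH b r β x) := by unfold blkH; infer_instance

/-- `T.Q` is the product of the `Q` of the blocks. -/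
def prodH (r : RT) : Prop :=
  pcIsZero (rtM r * rtN r + 1)
    (qC (rtC r) ++ pcNeg (pcProdRange (rtM r) fun β => blkC (rtN r) β (qC (rtB r β).1)))

instance (r : RT) : Decidable (prodH r) := by unfold prodH; infer_instance

/-- Verification of the data of a reduction. -/
def rtH (E : ExH) (r : RT) (b : ℕ) (x : List NDC) : Prop :=
  2 ≤ b ∧ okC (rtM r * rtN r) (rtC r) ∧ prodH r ∧ rtT r = qnat 1 ∧
    (∀ β ∈ List.range (rtM r), blkH b r β (x.getD β (psc0, []))) ∧
    (∀ j ∈ List.range (dropE E).length, slotOK (dropE E) r j) ∧ ∀ L ∈ E, ∀ I ∈ L, I.2.1 = b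

instance (E : ExH) (r : RT) (b : ℕ) (x : List NDC) : Decidable (rtH E r b x) := by unfold rtH; infer_instance

/-- Certificates: `((r, (b, x)), (answer, (certificate for zero, certificate for non zero)))`. -/
abbrev HCt := (RT × (ℕ × List NDC)) × (Bool × (ZCT × NH))

/-- Verification of a certificate. -/
def checkH (E : ExH) (c : HCt) : Prop :=
  rtH E c.1.1 c.1.2.1 c.1.2.2 ∧
    ((c.2.1 = true ∧ checkZT (rtM c.1.1 * rtN c.1.1) (rtC c.1.1) (numG (dropE E) c.1.1)
        (rtM c.1.1 * (rtK c.1.1 + rtN c.1.1)) (qnat 1) c.2.2.1) ∨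
      (c.2.1 = false ∧ checkNH c.1.2.1 (rtM c.1.1 * rtN c.1.1) (rtC c.1.1) (numG (dropE E) c.1.1)
        (rtM c.1.1 * (rtK c.1.1 + rtN c.1.1)) c.2.2.2))

instance (E : ExH) (c : HCt) : Decidable (checkH E c) := by unfold checkH; infer_instance

end Pool.Agent.Lib.MP_bbe012_lc.PH
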