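import Pool.Agent.Lib.MP_bbe012_lc.PG.CPos

/-!
# Positive polynomials on a box with polynomial constraints
-/

namespace Pool.Agent.Lib.MP_bbe012_lc.PH

open MvPolynomial Set PG

/-- `∏ i, (b + x_i) ^ u_i (b - x_i) ^ v_i`. -/
noncomputable def bernB {N : ℕ} (b : ℕ) (u v : Fin N → ℕ) : MvPolynomial (Fin N) ℚ :=
  ∏ i, ((C (b : ℚ) + X i) ^ u i * (C (b : ℚ) - X i) ^ v i)

theorem bernB_nonneg {N : ℕ} (b : ℕ) (u v : Fin N → ℕ) {x : Fin N → ℝ} (hx : ∀ i, |x i| ≤ (b : ℝ)) :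
    0 ≤ aeval x (bernB b u v) := by
  rw [bernB, map_prod]
  refine Finset.prod_nonneg fun i _ => ?_
  have h := abs_le.1 (hx i)
  rw [map_mul, map_pow, map_pow, map_sub, map_add, aeval_X, aeval_C]
  have hb : (algebraMap ℚ ℝ (b : ℚ)) = (b : ℝ) := by simp
  rw [hb]
  exact mul_nonneg (pow_nonneg (by linarith [h.1]) _) (pow_nonneg (by linarith [h.2]) _)

/-- Positive polynomials on the box `[-b, b]^N`.

Proof. `exists_bern` (PG/CPos.lean) for `p' = aeval (fun i => C (-b) + C (2 b) * X i) p`, which is positive on `[0,1]^N`; substitute `X i ↦ C (1 / (2 b)) * (C b + X i)` (the two substitutions are inverse to each other; `1 - X i ↦ C (1 / (2 b)) * (C b - X i)`): `bern u v ↦ C ((1 / (2 b)) ^ (∑ u + ∑ v)) * bernB b u v`. -/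
theorem exists_bernB {N b : ℕ} (hb : 1 ≤ b) (p : MvPolynomial (Fin N) ℚ)
    (hp : ∀ x : Fin N → ℝ, (∀ i, |x i| ≤ (b : ℝ)) → 0 < aeval x p) :
    ∃ (c₀ : ℚ) (M : ℕ) (c : (Fin N → Fin (M + 1)) → ℚ), 0 < c₀ ∧ (∀ j, 0 ≤ c j) ∧
      p = C c₀ + ∑ j, C (c j) * bernB b (fun i => (j i : ℕ)) (fun i => M - (j i : ℕ)) := by
  have hb0 : (2 * (b : ℚ)) ≠ 0 := by
    have : (b : ℚ) ≠ 0 := by
      have : b ≠ 0 := by omega
      exact_mod_cast this
    exact mul_ne_zero two_ne_zero this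
  have hbR : (0 : ℝ) ≤ (b : ℝ) := Nat.cast_nonneg b
  have hpos : ∀ x ∈ Icc (0 : Fin N → ℝ) 1,
      0 < aeval x (aeval (fun i => C (-(b : ℚ)) + C (2 * (b : ℚ)) * X i : Fin N → MvPolynomial (Fin N) ℚ) p) := by
    intro x hx
    rw [comp_aeval_apply]
    have e : (fun i => (aeval x : MvPolynomial (Fin N) ℚ →ₐ[ℚ] ℝ) (C (-(b : ℚ)) + C (2 * (b : ℚ)) * X i)) =
        fun i => -(b : ℝ) + 2 * (b : ℝ) * x i := by
      funext i
      rw [map_add, map_mul, aeval_C, aeval_C, aeval_X]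
      simp
    rw [e]
    refine hp _ fun i => ?_
    have h0 : 0 ≤ x i := hx.1 i
    have h1 : x i ≤ 1 := hx.2 i
    rw [abs_le]
    constructor
    · nlinarith
    · nlinarith
  obtain ⟨c₀, M, c, h1, h2, h3⟩ := exists_bern _ hpos
  have hC : (C (2 * (b : ℚ)) : MvPolynomial (Fin N) ℚ) * C (1 / (2 * (b : ℚ))) = 1 := by
    rw [← C_mul, mul_one_div_cancel hb0, C_1]
  have h4 := congrArg (aeval (fun i => C (1 / (2 * (b : ℚ))) * (C (b : ℚ) + X i) :
    Fin N → MvPolynomial (Fin N) ℚ)) h3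
  rw [comp_aeval_apply] at h4
  have e1 : (fun i => (aeval (fun i => C (1 / (2 * (b : ℚ))) * (C (b : ℚ) + X i) :
      Fin N → MvPolynomial (Fin N) ℚ)) (C (-(b : ℚ)) + C (2 * (b : ℚ)) * X i)) =
      fun i => (X i : MvPolynomial (Fin N) ℚ) := by
    funext i
    rw [map_add, map_mul, aeval_X, aeval_C, aeval_C, algebraMap_eq, ← mul_assoc, hC, one_mul, C_neg]
    ring
  rw [e1, aeval_X_left_apply, map_add, map_sum, aeval_C, algebraMap_eq] at h4
  have e2 : ∀ j : Fin N → Fin (M + 1), (aeval (fun i => C (1 / (2 * (b : ℚ))) * (C (b : ℚ) + X i) :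
      Fin N → MvPolynomial (Fin N) ℚ)) (C (c j) * bern (fun i => (j i : ℕ)) (fun i => M - (j i : ℕ))) =
      C (c j * ∏ i, (1 / (2 * (b : ℚ))) ^ ((j i : ℕ) + (M - (j i : ℕ)))) *
        bernB b (fun i => (j i : ℕ)) (fun i => M - (j i : ℕ)) := by
    intro j
    rw [map_mul, aeval_C, algebraMap_eq, bern, map_prod, C_mul, mul_assoc, map_prod, bernB,
      ← Finset.prod_mul_distrib]
    congr 1
    refine Finset.prod_congr rfl fun i _ => ?_
    rw [map_mul, map_pow, map_pow, map_sub, map_one, aeval_X]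
    have e3 : (1 : MvPolynomial (Fin N) ℚ) - C (1 / (2 * (b : ℚ))) * (C (b : ℚ) + X i) =
        C (1 / (2 * (b : ℚ))) * (C (b : ℚ) - X i) := by
      have e4 : (C (2 * (b : ℚ)) : MvPolynomial (Fin N) ℚ) = 2 * C (b : ℚ) := by
        rw [C_mul]
        congr 1
      have e5 : (1 : MvPolynomial (Fin N) ℚ) = C (1 / (2 * (b : ℚ))) * (2 * C (b : ℚ)) := by
        rw [← e4, mul_comm, hC]
      calc (1 : MvPolynomial (Fin N) ℚ) - C (1 / (2 * (b : ℚ))) * (C (b : ℚ) + X i) =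
          C (1 / (2 * (b : ℚ))) * (2 * C (b : ℚ)) - C (1 / (2 * (b : ℚ))) * (C (b : ℚ) + X i) := by rw [← e5]
        _ = C (1 / (2 * (b : ℚ))) * (C (b : ℚ) - X i) := by ring
    rw [e3, mul_pow, mul_pow, C_pow, pow_add]
    ring
  rw [Finset.sum_congr rfl fun j _ => e2 j] at h4
  exact ⟨c₀, M, fun j => c j * ∏ i, (1 / (2 * (b : ℚ))) ^ ((j i : ℕ) + (M - (j i : ℕ))), h1,
    fun j => mul_nonneg (h2 j) (Finset.prod_nonneg fun i _ => by positivity), h4⟩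

private theorem HD1_cont {N : ℕ} (p : MvPolynomial (Fin N) ℚ) :
    Continuous fun x : Fin N → ℝ => aeval x p := by
  have e : (fun x : Fin N → ℝ => aeval x p) = fun x => eval x (map (algebraMap ℚ ℝ) p) := by
    funext x
    rw [aeval_def, eval_map]
  rw [e]
  exact continuous_eval _

private theorem HD1_one {z : ℝ} (h0 : 0 ≤ z) (h1 : z ≤ 1) (k : ℕ) :
    (1 - z) ^ (2 * k) * ((2 * k : ℕ) * z) ≤ 1 := by
  have h2 : 1 + ((2 * k : ℕ) : ℝ) * z ≤ (1 + z) ^ (2 * k) := one_add_mul_le_pow (by linarith) _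
  have h3 : (0 : ℝ) ≤ (1 - z) ^ (2 * k) := pow_nonneg (by linarith) _
  have h4 : (1 - z) ^ (2 * k) * (1 + z) ^ (2 * k) ≤ 1 := by
    rw [← mul_pow]
    exact pow_le_one₀ (by nlinarith) (by nlinarith)
  nlinarith

private theorem HD1_up {γ y : ℝ} {k : ℕ} (hγ : 0 < γ) (hk : 1 ≤ k) (hy : |y| ≤ γ) :
    (1 - y / γ) ^ (2 * k) * y ≤ γ / (2 * k) := by
  have hk0 : (0 : ℝ) < (k : ℝ) := by exact_mod_cast hk
  rcases le_or_gt 0 y with h | h
  · have h0 : 0 ≤ y / γ := div_nonneg h hγ.le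
    have h1 : y / γ ≤ 1 := by
      rw [div_le_one hγ]
      exact (abs_le.1 hy).2
    have h2 := HD1_one h0 h1 k
    push_cast at h2
    rw [le_div_iff₀ (by positivity)]
    have h3 : (1 - y / γ) ^ (2 * k) * y * (2 * k) =
        γ * ((1 - y / γ) ^ (2 * k) * (2 * k * (y / γ))) := by
      field_simp
    rw [h3]
    nlinarith
  · have h1 : 0 ≤ (1 - y / γ) ^ (2 * k) := by
      rw [pow_mul]
      exact pow_nonneg (sq_nonneg _) _
    have h2 : (1 - y / γ) ^ (2 * k) * y ≤ 0 := mul_nonpos_of_nonneg_of_nonpos h1 h.le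
    have h3 : 0 ≤ γ / (2 * k) := by positivity
    linarith

private theorem HD1_neg {γ y δ : ℝ} {k : ℕ} (hγ : 0 < γ) (hδ : 0 < δ) (hy : y ≤ -δ) :
    (1 - y / γ) ^ (2 * k) * y ≤ -δ := by
  have h1 : y / γ ≤ 0 := div_nonpos_of_nonpos_of_nonneg (by linarith) hγ.le
  have h2 : (1 : ℝ) ≤ (1 - y / γ) ^ (2 * k) := one_le_pow₀ (by linarith)
  nlinarith

/-- Removing the constraints.

Proof. Let `K₀ = {x : |x_i| ≤ b}` (compact), `K₁ = {x ∈ K₀ : g_j(x) ≥ 0 for all j}` (compact). Choose a natural number `γ ≥ 1` with `|g_j| ≤ γ` on `K₀` for all `j`. If `K₁` is empty put `ε = 1`, otherwise let `2 ε > 0` be the minimum of `p` on `K₁`. The set `F = {x ∈ K₀ : p(x) ≤ ε}` is compact and disjoint from `K₁`, so there is `δ > 0` such that for every `x ∈ F` some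
`g_j(x) ≤ - δ` (the continuous function `min_j g_j(x)` is negative on `F`; if there are no constraints, i.e. `r = 0`, then `F` is empty). Let `-P` be a lower bound for `p` on `K₀`. Choose a natural number `λ` with `λ ^ 2 δ ≥ P + 1 + ε`, then `k` with `λ ^ 2 r γ / (2 k + 1) ≤ ε / 2`, and `S_j = C λ * (1 - C (1 / γ) * g_j) ^ k`. For `y = g_j(x) ∈ [0, γ]`:
`(1 - y / γ) ^ (2 k) y ≤ γ / (2 k + 1)` (because `(1 - z) ^ (2 k) z ≤ 1 / (2 k + 1)` for `z ∈ [0,1]`: `(1 + z) ^ (2 k + 1) ≥ 1 + (2 k + 1) z` and `(1 - z) ^ (2 k) ≤ (1 + z) ^ (- 2 k)`, or `(1 - z) ^ (2 k) * (1 + 2 k z) ≤ 1`, which is enough: Bernoulli `1 + 2 k z ≤ (1 + z) ^ (2 k)` and `(1 - z)(1 + z) ≤ 1`; then `z (1 - z) ^ (2 k) ≤ 1 / (2 k)`: use `2 k` in place of `2 k + 1`).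
For `y < 0`: `(1 - y / γ) ^ (2 k) y ≤ y`. So at a point with `p > ε`: `p - ∑ S_j ^ 2 g_j ≥ ε - λ ^ 2 r γ / (2 k) > 0`; at a point of `F`: `≥ - P + λ ^ 2 δ - λ ^ 2 r γ / (2 k) > 0`. -/
theorem exists_mult {N r b : ℕ} (p : MvPolynomial (Fin N) ℚ) (g : Fin r → MvPolynomial (Fin N) ℚ)
    (h : ∀ x : Fin N → ℝ, (∀ i, |x i| ≤ (b : ℝ)) → (∀ j, 0 ≤ aeval x (g j)) → 0 < aeval x p) :
    ∃ S : Fin r → MvPolynomial (Fin N) ℚ, ∀ x : Fin N → ℝ, (∀ i, |x i| ≤ (b : ℝ)) →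
      0 < aeval x (p - ∑ j, S j ^ 2 * g j) := by
  classical
  have hK : IsCompact {x : Fin N → ℝ | ∀ i, |x i| ≤ (b : ℝ)} := by
    have e : {x : Fin N → ℝ | ∀ i, |x i| ≤ (b : ℝ)} = Set.pi univ fun _ => Icc (-(b : ℝ)) b := by
      ext x
      simp only [mem_ofPred_eq, mem_pi, mem_univ, true_implies, mem_Icc, abs_le]
    rw [e]
    exact isCompact_univ_pi fun _ => isCompact_Icc
  have hne : {x : Fin N → ℝ | ∀ i, |x i| ≤ (b : ℝ)}.Nonempty := by
    refine ⟨0, fun i => ?_⟩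
    simp
  have hpc := HD1_cont p
  have hgc : ∀ j, Continuous fun x : Fin N → ℝ => aeval x (g j) := fun j => HD1_cont (g j)
  have hhc : Continuous fun x : Fin N → ℝ => max (aeval x p) 0 + ∑ j, max (-aeval x (g j)) 0 := by
    refine (hpc.max continuous_const).add (continuous_finsetSum _ fun j _ => ?_)
    exact (hgc j).neg.max continuous_const
  obtain ⟨x₀, hx₀, hmin⟩ := hK.exists_isMinOn hne hhc.continuousOn
  set m : ℝ := max (aeval x₀ p) 0 + ∑ j, max (-aeval x₀ (g j)) 0 with hm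
  have hm0 : 0 < m := by
    by_cases hall : ∀ j, 0 ≤ aeval x₀ (g j)
    · have h1 := h x₀ hx₀ hall
      have h2 : (0 : ℝ) ≤ ∑ j, max (-aeval x₀ (g j)) 0 := Finset.sum_nonneg fun j _ => le_max_right _ _
      have h3 : aeval x₀ p ≤ max (aeval x₀ p) 0 := le_max_left _ _
      linarith
    · obtain ⟨j, hj⟩ := not_forall.1 hall
      have hj := not_le.1 hj
      have h1 : (0 : ℝ) ≤ max (aeval x₀ p) 0 := le_max_right _ _
      have h2 : max (-aeval x₀ (g j)) 0 ≤ ∑ j, max (-aeval x₀ (g j)) 0 :=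
        Finset.single_le_sum (f := fun j => max (-aeval x₀ (g j)) 0) (fun j _ => le_max_right _ _)
          (Finset.mem_univ j)
      have h3 : -aeval x₀ (g j) ≤ max (-aeval x₀ (g j)) 0 := le_max_left _ _
      linarith
  have hr0 : (0 : ℝ) < (r : ℝ) + 1 := by positivity
  set δ : ℝ := m / (r + 1) with hδ
  have hδ0 : 0 < δ := div_pos hm0 hr0
  have hdich : ∀ x : Fin N → ℝ, (∀ i, |x i| ≤ (b : ℝ)) → δ ≤ aeval x p ∨ ∃ j, aeval x (g j) ≤ -δ := by
    intro x hx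
    by_contra hcon
    obtain ⟨h1, h2⟩ := not_or.1 hcon
    have h1 := not_le.1 h1
    have h2 : ∀ j, -aeval x (g j) < δ := fun j => by
      by_contra h3
      exact h2 ⟨j, by linarith [not_lt.1 h3]⟩
    have h3 : m ≤ max (aeval x p) 0 + ∑ j, max (-aeval x (g j)) 0 := hmin hx
    have h4 : max (aeval x p) 0 < δ := max_lt h1 hδ0
    have h5 : ∑ j, max (-aeval x (g j)) 0 ≤ ∑ _j : Fin r, δ :=
      Finset.sum_le_sum fun j _ => (max_lt (h2 j) hδ0).le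
    rw [Finset.sum_const, Finset.card_univ, Fintype.card_fin, nsmul_eq_mul] at h5
    have h6 : (r : ℝ) * δ + δ = m := by
      rw [hδ]
      field_simp
    linarith
  obtain ⟨P, hP⟩ := hK.exists_bound_of_continuousOn hpc.continuousOn
  obtain ⟨G, hG⟩ := hK.exists_bound_of_continuousOn
    (continuous_finsetSum Finset.univ fun j _ => (hgc j).abs).continuousOn
  obtain ⟨γ, hγ⟩ := exists_nat_gt (max G 1)
  have hγ1 : (1 : ℝ) < γ := (le_max_right _ _).trans_lt hγ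
  have hγG : G < γ := (le_max_left _ _).trans_lt hγ
  have hγ0 : (0 : ℝ) < γ := by linarith
  have hgb : ∀ x : Fin N → ℝ, (∀ i, |x i| ≤ (b : ℝ)) → ∀ j, |aeval x (g j)| ≤ γ := by
    intro x hx j
    have h1 := hG x hx
    have h2 : |aeval x (g j)| ≤ ∑ j, |aeval x (g j)| :=
      Finset.single_le_sum (f := fun j => |aeval x (g j)|) (fun j _ => abs_nonneg _) (Finset.mem_univ j)
    rw [Real.norm_eq_abs] at h1
    have h3 := le_abs_self (∑ j, |aeval x (g j)|)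
    linarith
  obtain ⟨l, hl⟩ := exists_nat_gt (max ((P + 1) / δ) 1)
  have hl1 : (1 : ℝ) < l := (le_max_right _ _).trans_lt hl
  have hlP : (P + 1) / δ < l := (le_max_left _ _).trans_lt hl
  have hlδ : P + 1 ≤ (l : ℝ) ^ 2 * δ := by
    rw [div_lt_iff₀ hδ0] at hlP
    have : (l : ℝ) * δ ≤ (l : ℝ) ^ 2 * δ := by
      refine mul_le_mul_of_nonneg_right ?_ hδ0.le
      nlinarith
    linarith
  obtain ⟨k, hk⟩ := exists_nat_gt ((l : ℝ) ^ 2 * r * γ / min δ 1)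
  have hmin0 : 0 < min δ 1 := lt_min hδ0 one_pos
  have hk0 : (0 : ℝ) < k := lt_of_le_of_lt (by positivity) hk
  have hsmall : (l : ℝ) ^ 2 * r * γ / (2 * k) < min δ 1 := by
    rw [div_lt_iff₀ hmin0] at hk
    rw [div_lt_iff₀ (by positivity)]
    nlinarith
  have hk1 : 1 ≤ k := by
    have : 0 < k := by exact_mod_cast hk0
    omega
  refine ⟨fun j => C (l : ℚ) * (1 - C (1 / (γ : ℚ)) * g j) ^ k, fun x hx => ?_⟩
  have hev : ∀ j, aeval x ((C (l : ℚ) * (1 - C (1 / (γ : ℚ)) * g j) ^ k) ^ 2 * g j) =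
      (l : ℝ) ^ 2 * ((1 - aeval x (g j) / γ) ^ (2 * k) * aeval x (g j)) := by
    intro j
    rw [map_mul, map_pow, map_mul, map_pow, map_sub, map_one, map_mul, aeval_C, aeval_C]
    have e1 : algebraMap ℚ ℝ (l : ℚ) = (l : ℝ) := by simp
    have e2 : algebraMap ℚ ℝ (1 / (γ : ℚ)) = 1 / (γ : ℝ) := by simp
    rw [e1, e2, mul_pow, ← pow_mul, mul_comm k 2, one_div_mul_eq_div]
    ring
  have hup : ∀ j, aeval x ((C (l : ℚ) * (1 - C (1 / (γ : ℚ)) * g j) ^ k) ^ 2 * g j) ≤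
      (l : ℝ) ^ 2 * γ / (2 * k) := by
    intro j
    rw [hev]
    have h1 := HD1_up hγ0 hk1 (hgb x hx j)
    calc (l : ℝ) ^ 2 * ((1 - aeval x (g j) / γ) ^ (2 * k) * aeval x (g j)) ≤ (l : ℝ) ^ 2 * (γ / (2 * k)) := by
          gcongr
      _ = (l : ℝ) ^ 2 * γ / (2 * k) := by ring
  rw [map_sub, map_sum]
  rcases hdich x hx with h1 | ⟨j₀, hj₀⟩
  · have h2 : ∑ j, aeval x ((C (l : ℚ) * (1 - C (1 / (γ : ℚ)) * g j) ^ k) ^ 2 * g j) ≤
        ∑ _j : Fin r, (l : ℝ) ^ 2 * γ / (2 * k) := Finset.sum_le_sum fun j _ => hup j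
    rw [Finset.sum_const, Finset.card_univ, Fintype.card_fin, nsmul_eq_mul] at h2
    have h3 : (r : ℝ) * ((l : ℝ) ^ 2 * γ / (2 * k)) = (l : ℝ) ^ 2 * r * γ / (2 * k) := by ring
    have h4 : min δ 1 ≤ δ := min_le_left _ _
    linarith
  · have h2 : aeval x ((C (l : ℚ) * (1 - C (1 / (γ : ℚ)) * g j₀) ^ k) ^ 2 * g j₀) ≤ -((l : ℝ) ^ 2 * δ) := by
      rw [hev]
      have h3 := HD1_neg (k := k) hγ0 hδ0 hj₀
      calc (l : ℝ) ^ 2 * ((1 - aeval x (g j₀) / γ) ^ (2 * k) * aeval x (g j₀)) ≤ (l : ℝ) ^ 2 * (-δ) := by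
            gcongr
        _ = -((l : ℝ) ^ 2 * δ) := by ring
    have h3 : ∑ j, aeval x ((C (l : ℚ) * (1 - C (1 / (γ : ℚ)) * g j) ^ k) ^ 2 * g j) ≤
        ∑ j : Fin r, ((l : ℝ) ^ 2 * γ / (2 * k) + if j = j₀ then -((l : ℝ) ^ 2 * δ) else 0) := by
      refine Finset.sum_le_sum fun j _ => ?_
      by_cases hj : j = j₀
      · rw [if_pos hj, hj]
        have : 0 ≤ (l : ℝ) ^ 2 * γ / (2 * k) := by positivity
        linarith
      · rw [if_neg hj, add_zero]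
        exact hup j
    rw [Finset.sum_add_distrib, Finset.sum_const, Finset.card_univ, Fintype.card_fin, nsmul_eq_mul,
      Finset.sum_ite_eq' Finset.univ j₀, if_pos (Finset.mem_univ j₀)] at h3
    have h4 : (r : ℝ) * ((l : ℝ) ^ 2 * γ / (2 * k)) = (l : ℝ) ^ 2 * r * γ / (2 * k) := by ring
    have h5 : min δ 1 ≤ 1 := min_le_right _ _
    have h6 := hP x hx
    rw [Real.norm_eq_abs] at h6
    have h7 := (abs_le.1 h6).1
    linarith

end Pool.Agent.Lib.MP_bbe012_lc.PH
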