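import Pool.Agent.Lib.MP_bbe012_lc.PH.HD1
import Pool.Agent.Lib.MP_bbe012_lc.PH.HCodes
import Pool.Agent.Lib.MP_bbe012_lc.PH.HC0
import Pool.Agent.Lib.MP_bbe012_lc.PG.CCode
import Pool.Agent.Lib.MP_bbe012_lc.PT.TCodeA
import Pool.Agent.Lib.MP_bbe012_lc.PT.TCodeB

/-!
# Soundness and completeness of the certificates of positivity and of nondegeneracy
-/

namespace Pool.Agent.Lib.MP_bbe012_lc.PH

open MvPolynomial MeasureTheory Set PP PG PT

/-- As `pcPoly_bernC` (PG/CCode.lean). -/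
theorem pcPoly_bernBC (b N : ℕ) (u v : List ℕ) :
    pcPoly N (bernBC b N u v) = bernB b (fun i : Fin N => u.getD i 0) (fun i : Fin N => v.getD i 0) := by
  unfold bernBC bernB
  rw [pcPoly_prodRange]
  refine Finset.prod_congr rfl fun i _ => ?_
  rw [pcPoly_mul, pcPoly_pow, pcPoly_pow, pcPoly_append, pcPoly_append, pcPoly_neg, pcPoly_nat, pcPoly_var i.2,
    ← sub_eq_add_neg]

private theorem hd2_posSum (b N : ℕ) (L : List (QCode × (List ℕ × List ℕ))) :
    pcPoly N (posSumB b N L) = (L.map fun t => C (qval t.1) *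
      bernB b (fun i : Fin N => t.2.1.getD i 0) (fun i : Fin N => t.2.2.getD i 0)).sum := by
  unfold posSumB
  rw [pcPoly_sumRange]
  have h1 : ∀ i : Fin L.length, L.getD (i : ℕ) (qnat 0, ([], [])) = L.get i := by
    intro i
    rw [List.getD_eq_getElem _ _ i.2]
    rfl
  have h2 : (L.map fun t => C (qval t.1) *
      bernB b (fun i : Fin N => t.2.1.getD i 0) (fun i : Fin N => t.2.2.getD i 0)).sum =
      ∑ i : Fin L.length, C (qval (L.get i).1) *
        bernB b (fun l : Fin N => (L.get i).2.1.getD l 0) (fun l : Fin N => (L.get i).2.2.getD l 0) := by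
    conv_lhs => rw [← List.ofFn_get L]
    rw [List.map_ofFn, List.sum_ofFn]
    rfl
  rw [h2]
  refine Finset.sum_congr rfl fun i _ => ?_
  rw [h1, pcPoly_mul, pcPoly_constC, pcPoly_bernBC]

/-- As `posC_sound`. -/
theorem posB_sound {b N : ℕ} {p : PCode} {c : PCert} (h : posB b N p c) {x : Fin N → ℝ} (hx : ∀ i, |x i| ≤ (b : ℝ)) :
    0 < aeval x (pcPoly N p) := by
  obtain ⟨h1, h2, h3⟩ := h
  rw [qltP_iff, qval_qnat] at h1
  rw [pcIsZero_iff, pcPoly_append, pcPoly_neg, pcPoly_append, pcPoly_constC, hd2_posSum,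
    ← sub_eq_add_neg, sub_eq_zero] at h3
  rw [h3, map_add, aeval_C]
  have h4 : (0 : ℝ) < algebraMap ℚ ℝ (qval c.1) := by
    change (0 : ℝ) < ((qval c.1 : ℚ) : ℝ)
    have h5 : (0 : ℚ) < qval c.1 := by
      have h6 := h1
      rwa [Nat.cast_zero] at h6
    exact_mod_cast h5
  have h5 : ∀ L : List (QCode × (List ℕ × List ℕ)), (∀ t ∈ L, qleP (qnat 0) t.1) →
      0 ≤ (aeval x (L.map fun t => C (qval t.1) *
        bernB b (fun i : Fin N => t.2.1.getD i 0) (fun i : Fin N => t.2.2.getD i 0)).sum : ℝ) := by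
    intro L
    induction L with
    | nil =>
      intro _
      rw [List.map_nil, List.sum_nil, map_zero]
    | cons t L ih =>
      intro hL
      rw [List.map_cons, List.sum_cons, map_add, map_mul, aeval_C]
      have h6 : (0 : ℝ) ≤ algebraMap ℚ ℝ (qval t.1) := by
        have h7 := hL t List.mem_cons_self
        rw [qleP_iff, qval_qnat, Nat.cast_zero] at h7
        change (0 : ℝ) ≤ ((qval t.1 : ℚ) : ℝ)
        exact_mod_cast h7
      exact add_nonneg (mul_nonneg h6 (bernB_nonneg b _ _ hx))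
        (ih fun t ht => hL t (List.mem_cons_of_mem _ ht))
  exact add_pos_of_pos_of_nonneg h4 (h5 c.2 h2)

/-- As `posC_complete`, with `exists_bernB`. -/
theorem posB_complete {b N : ℕ} (hb : 1 ≤ b) {p : PCode}
    (h : ∀ x : Fin N → ℝ, (∀ i, |x i| ≤ (b : ℝ)) → 0 < aeval x (pcPoly N p)) : ∃ c : PCert, posB b N p c := by
  obtain ⟨c₀, M, c, hc₀, hc, hp⟩ := exists_bernB hb (pcPoly N p) h
  obtain ⟨q₀, hq₀⟩ := exists_qval c₀
  choose q hq using fun j => exists_qval (c j)
  refine ⟨(q₀, (Finset.univ : Finset (Fin N → Fin (M + 1))).toList.map fun j =>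
    (q j, (List.ofFn (fun i => (j i : ℕ)), List.ofFn (fun i => M - (j i : ℕ))))), ?_, ?_, ?_⟩
  · rw [qltP_iff, qval_qnat, Nat.cast_zero, hq₀]
    exact hc₀
  · intro t ht
    obtain ⟨j, _, rfl⟩ := List.mem_map.1 ht
    rw [qleP_iff, qval_qnat, Nat.cast_zero]
    change 0 ≤ qval (q j)
    rw [hq]
    exact hc j
  · rw [pcIsZero_iff, pcPoly_append, pcPoly_neg, pcPoly_append, pcPoly_constC, hd2_posSum,
      ← sub_eq_add_neg, sub_eq_zero]
    change pcPoly N p = C (qval q₀) + _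
    rw [hq₀]
    refine hp.trans ?_
    congr 1
    rw [List.map_map]
    have h1 : ((fun t : QCode × (List ℕ × List ℕ) => C (qval t.1) *
        bernB b (fun i : Fin N => t.2.1.getD i 0) (fun i : Fin N => t.2.2.getD i 0)) ∘
        fun j : Fin N → Fin (M + 1) =>
          (q j, (List.ofFn (fun i => (j i : ℕ)), List.ofFn (fun i => M - (j i : ℕ))))) =
        fun j => C (c j) * bernB b (fun i => (j i : ℕ)) (fun i => M - (j i : ℕ)) := by
      funext j
      change C (qval (q j)) * bernB b (fun i : Fin N => (List.ofFn (fun i => (j i : ℕ))).getD i 0)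
        (fun i : Fin N => (List.ofFn (fun i => M - (j i : ℕ))).getD i 0) = _
      rw [hq]
      congr 2
      · funext i
        rw [List.getD_eq_getElem _ _ (by rw [List.length_ofFn]; exact i.2), List.getElem_ofFn]
      · funext i
        rw [List.getD_eq_getElem _ _ (by rw [List.length_ofFn]; exact i.2), List.getElem_ofFn]
    rw [h1, Finset.sum_map_toList]

theorem pcPoly_multC (N : ℕ) (g : List PCode) (p : PCode) (S : List PCode) :
    pcPoly N (multC g p S) = pcPoly N p - ∑ j : Fin g.length, pcPoly N (S.getD j []) ^ 2 * pcPoly N (g.get j) := by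
  rw [multC, pcPoly_append, pcPoly_neg, pcPoly_sumRange, ← sub_eq_add_neg]
  congr 1
  refine Finset.sum_congr rfl fun j _ => ?_
  rw [pcPoly_mul, pcPoly_mul, sq, List.getD_eq_getElem g _ j.2]
  rfl

/-- Proof: `posB_sound`, `pcPoly_multC`. -/
theorem psC_sound {b N : ℕ} {g : List PCode} {p : PCode} {c : PSC} (h : psC b N g p c) {x : Fin N → ℝ}
    (hx : ∀ i, |x i| ≤ (b : ℝ)) (hg : ∀ a ∈ g, 0 ≤ aeval x (pcPoly N a)) : 0 < aeval x (pcPoly N p) := by
  have h1 := posB_sound h hx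
  rw [pcPoly_multC, map_sub, map_sum] at h1
  have h2 : 0 ≤ ∑ j : Fin g.length, aeval x (pcPoly N (c.1.getD j []) ^ 2 * pcPoly N (g.get j)) := by
    refine Finset.sum_nonneg fun j _ => ?_
    rw [map_mul, map_pow]
    exact mul_nonneg (sq_nonneg _) (hg _ (List.get_mem g j))
  linarith

/-- Proof: `exists_mult`, `posB_complete`; codes of the multipliers: `exists_pcPoly`. -/
theorem psC_complete {b N : ℕ} (hb : 1 ≤ b) {g : List PCode} {p : PCode}
    (h : ∀ x : Fin N → ℝ, (∀ i, |x i| ≤ (b : ℝ)) → (∀ a ∈ g, 0 ≤ aeval x (pcPoly N a)) → 0 < aeval x (pcPoly N p)) :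
    ∃ c : PSC, psC b N g p c := by
  obtain ⟨S, hS⟩ := exists_mult (b := b) (pcPoly N p) (fun j : Fin g.length => pcPoly N (g.get j)) (by
    intro x hx hj
    refine h x hx fun a ha => ?_
    obtain ⟨j, rfl⟩ := List.mem_iff_get.1 ha
    exact hj j)
  choose Sc hSc using fun j => exists_pcPoly (S j)
  have h1 : pcPoly N (multC g p (List.ofFn Sc)) = pcPoly N p - ∑ j, S j ^ 2 * pcPoly N (g.get j) := by
    rw [pcPoly_multC]
    congr 1
    refine Finset.sum_congr rfl fun j _ => ?_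
    rw [List.getD_eq_getElem _ _ (by rw [List.length_ofFn]; exact j.2), List.getElem_ofFn]
    rw [hSc]
  obtain ⟨c, hc⟩ := posB_complete (b := b) (N := N) hb (p := multC g p (List.ofFn Sc)) (by
    intro x hx
    rw [h1]
    exact hS x hx)
  exact ⟨(List.ofFn Sc, c), hc⟩

/-- The constraints `ndG` at the point `(t, x)` say that `t ∈ [0,1]` and (with the box) `x ∈ KC`. Proof: `pcPoly_tC`, `pcPoly_aC`, `pcPoly_bC`. -/
theorem ndG_iff {n : ℕ} (c : CDC) (t : ℝ) (x : Fin n → ℝ) :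
    (∀ a ∈ ndG n c, 0 ≤ aeval (Fin.cons t x : Fin (n + 1) → ℝ) (pcPoly (n + 1) a)) ↔
      (0 ≤ t ∧ t ≤ 1) ∧ ∀ l, 0 ≤ aeval (Fin.cons t x : Fin (n + 1) → ℝ) ((toCD n c).A l) ∧
        aeval (Fin.cons t x : Fin (n + 1) → ℝ) ((toCD n c).A l) ≤ aeval (Fin.cons t x : Fin (n + 1) → ℝ) ((toCD n c).B l) := by
  have e0 : aeval (Fin.cons t x : Fin (n + 1) → ℝ) (pcPoly (n + 1) tC) = t := by
    rw [pcPoly_tC, aeval_X, Fin.cons_zero]
  have e1 : aeval (Fin.cons t x : Fin (n + 1) → ℝ) (pcPoly (n + 1) (pcNat 1 ++ pcNeg tC)) = 1 - t := by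
    rw [pcPoly_append, pcPoly_neg, map_add, map_neg, e0, pcPoly_nat, Nat.cast_one, C_1, map_one, ← sub_eq_add_neg]
  have e2 : ∀ l : Fin n, aeval (Fin.cons t x : Fin (n + 1) → ℝ) (pcPoly (n + 1) (bC c l ++ pcNeg (aC c l))) =
      aeval (Fin.cons t x : Fin (n + 1) → ℝ) ((toCD n c).B l) -
        aeval (Fin.cons t x : Fin (n + 1) → ℝ) ((toCD n c).A l) := by
    intro l
    rw [pcPoly_append, pcPoly_neg, pcPoly_aC, pcPoly_bC, ← sub_eq_add_neg, map_sub]
  constructor
  · intro h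
    refine ⟨⟨?_, ?_⟩, fun l => ⟨?_, ?_⟩⟩
    · have h1 := h tC (by
        unfold ndG
        exact List.mem_append_left _ List.mem_cons_self)
      rwa [e0] at h1
    · have h1 := h (pcNat 1 ++ pcNeg tC) (by
        unfold ndG
        exact List.mem_append_left _ (List.mem_cons_of_mem _ List.mem_cons_self))
      rw [e1] at h1
      linarith
    · have h1 := h (aC c l) (by
        unfold ndG
        refine List.mem_append_right _ (List.mem_append_left _ ?_)
        exact List.mem_map.2 ⟨l, List.mem_range.2 l.2, rfl⟩)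
      rwa [pcPoly_aC] at h1
    · have h1 := h (bC c l ++ pcNeg (aC c l)) (by
        unfold ndG
        refine List.mem_append_right _ (List.mem_append_right _ ?_)
        exact List.mem_map.2 ⟨l, List.mem_range.2 l.2, rfl⟩)
      rw [e2] at h1
      linarith
  · rintro ⟨⟨h1, h2⟩, h3⟩ a ha
    unfold ndG at ha
    rcases List.mem_append.1 ha with ha | ha
    · rcases List.mem_cons.1 ha with rfl | ha
      · rw [e0]
        exact h1
      · rcases List.mem_cons.1 ha with rfl | ha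
        · rw [e1]
          linarith
        · exact absurd ha List.not_mem_nil
    · rcases List.mem_append.1 ha with ha | ha
      · obtain ⟨l, hl, rfl⟩ := List.mem_map.1 ha
        have h4 := (h3 ⟨l, List.mem_range.1 hl⟩).1
        rw [← pcPoly_aC] at h4
        exact h4
      · obtain ⟨l, hl, rfl⟩ := List.mem_map.1 ha
        have h4 := (h3 ⟨l, List.mem_range.1 hl⟩).2
        have h5 := e2 ⟨l, List.mem_range.1 hl⟩
        change aeval (Fin.cons t x : Fin (n + 1) → ℝ) (pcPoly (n + 1) (bC c l ++ pcNeg (aC c l))) = _ at h5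
        rw [h5]
        linarith

private theorem hd2_sq (b n : ℕ) (l : Fin n) (y : Fin (n + 1) → ℝ) :
    aeval y (pcPoly (n + 1) (pcNat (b * b) ++ pcNeg (pcMul (pcVar ((l : ℕ) + 1)) (pcVar ((l : ℕ) + 1))))) =
      (b : ℝ) * b - y l.succ * y l.succ := by
  have hl : (l : ℕ) + 1 < n + 1 := by omega
  rw [pcPoly_append, pcPoly_neg, pcPoly_mul, pcPoly_var hl, pcPoly_nat, map_add, map_neg, map_mul, aeval_X, aeval_C,
    ← sub_eq_add_neg]
  congr 1
  rw [Nat.cast_mul, map_mul, map_natCast]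

/-- Proof: `psC_sound` at the point `(t, x)` (`|t| ≤ 1 ≤ b`); `x_l ^ 2 < b ^ 2` means `|x_l| < b`. -/
theorem ndC_sound {b n : ℕ} (hb : 1 ≤ b) {c : CDC} {x : NDC} (h : ndC b n c x) : NdC (toCD n c) b := by
  intro t ht y hy
  have hb' : (1 : ℝ) ≤ b := by exact_mod_cast hb
  have hbox : ∀ i, |(Fin.cons t y : Fin (n + 1) → ℝ) i| ≤ (b : ℝ) := by
    intro i
    refine Fin.cases ?_ (fun j => ?_) i
    · rw [Fin.cons_zero, abs_of_nonneg ht.1]
      exact ht.2.trans hb'
    · rw [Fin.cons_succ]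
      exact (hy j).1
  have hg := (ndG_iff c t y).2 ⟨ht, fun l => (hy l).2⟩
  constructor
  · intro l
    have h1 := psC_sound (h.2 l (List.mem_range.2 l.2)) hbox hg
    rw [hd2_sq, Fin.cons_succ] at h1
    apply abs_lt_of_sq_lt_sq _ (by linarith)
    rw [sq, sq]
    linarith
  · have h1 := psC_sound h.1 hbox hg
    rwa [pcPoly_qC] at h1

/-- Proof: `psC_complete`: every point of the box `[-b, b]^(n + 1)` is `Fin.cons t x`. -/
theorem ndC_complete {b n : ℕ} (hb : 1 ≤ b) {c : CDC} (h : NdC (toCD n c) b) : ∃ x : NDC, ndC b n c x := by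
  have key : ∀ y : Fin (n + 1) → ℝ, (∀ i, |y i| ≤ (b : ℝ)) →
      (∀ a ∈ ndG n c, 0 ≤ aeval y (pcPoly (n + 1) a)) →
      (∀ l : Fin n, |y l.succ| < (b : ℝ)) ∧ 0 < aeval y (toCD n c).Q := by
    intro y hy hg
    have e : (Fin.cons (y 0) (Fin.tail y) : Fin (n + 1) → ℝ) = y := Fin.cons_self_tail y
    rw [← e] at hg
    obtain ⟨h1, h2⟩ := (ndG_iff c (y 0) (Fin.tail y)).1 hg
    have h3 := h (y 0) ⟨h1.1, h1.2⟩ (Fin.tail y) (fun l => ⟨hy l.succ, (h2 l).1, (h2 l).2⟩)
    rw [e] at h3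
    exact h3
  obtain ⟨x1, hx1⟩ := psC_complete (b := b) (N := n + 1) hb (g := ndG n c) (p := qC c) (by
    intro y hy hg
    rw [pcPoly_qC]
    exact (key y hy hg).2)
  have hl : ∀ l : Fin n, ∃ z : PSC, psC b (n + 1) (ndG n c)
      (pcNat (b * b) ++ pcNeg (pcMul (pcVar ((l : ℕ) + 1)) (pcVar ((l : ℕ) + 1)))) z := by
    intro l
    apply psC_complete hb
    intro y hy hg
    rw [hd2_sq]
    have h1 := (key y hy hg).1 l
    have h2 := abs_lt.1 h1
    nlinarith
  choose z hz using hl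
  refine ⟨(x1, List.ofFn z), hx1, fun l hl => ?_⟩
  have hl' := List.mem_range.1 hl
  have e : (List.ofFn z).getD l psc0 = z ⟨l, hl'⟩ := by
    rw [List.getD_eq_getElem _ _ (by rw [List.length_ofFn]; exact hl'), List.getElem_ofFn]
  change psC b (n + 1) (ndG n c) _ ((List.ofFn z).getD l psc0)
  rw [e]
  exact hz ⟨l, hl'⟩

end Pool.Agent.Lib.MP_bbe012_lc.PH
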