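import Pool.Agent.Lib.MP_bbe012_lc.PG.BDefs
import Pool.Agent.Lib.MP_bbe012_lc.PT.IDefs

/-!
# Stage 2: integrals over semialgebraic domains, families of domains, the class

`CIH` is the type of the codes of integrals of `P / D` over sets `{x ∈ [-b, b]^m : 0 ≤ A(x) ≤ B(x) for all (A, B) in a list}`. A family of
domains and denominators is given by polynomials `A_l`, `B_l`, `D` in `θ_1, ..., θ_s` and `x_1, ..., x_m`.
-/

namespace Pool.Agent.Lib.MP_bbe012_lc.PH

open MvPolynomial MeasureTheory Set PP PG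

/-- Code of an integral: `(m, (b, ((P, D), L)))` stands for the integral of `P / D` over the domain given by `b` and `L`. -/
abbrev CIH := ℕ × (ℕ × ((PCode × PCode) × List (PCode × PCode)))

/-- Code of a sum of products of integrals. -/
abbrev ExH := List (List CIH)

/-- The domain of integration: the points `x` of `[-b, b]^m` with `0 ≤ A(x) ≤ B(x)` for all `(A, B)` in the list. -/
def domH (I : CIH) : Set (Fin I.1 → ℝ) :=
  {x | (∀ l, |x l| ≤ (I.2.1 : ℝ)) ∧ ∀ a ∈ I.2.2.2, 0 ≤ pcEval I.1 a.1 x ∧ pcEval I.1 a.1 x ≤ pcEval I.1 a.2 x}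

/-- The value of the integral. -/
noncomputable def cihVal (I : CIH) : ℝ :=
  ∫ x in domH I, pcEval I.1 I.2.2.1.1 x / pcEval I.1 I.2.2.1.2 x

/-- The value of the sum of products. -/
noncomputable def exhVal (E : ExH) : ℝ := (E.map fun L => (L.map cihVal).prod).sum

/-- A family of domains `{x : 0 ≤ A_l(θ, x) ≤ B_l(θ, x)}` and of denominators `D(θ, x)`. -/
structure Typ (s m : ℕ) where
  A : Fin m → Pz s m
  B : Fin m → Pz s m
  D : Pz s m

namespace Typ

variable {s m : ℕ}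

/-- The domain: the points of `[-b, b]^m` with `0 ≤ A_l(θ, x) ≤ B_l(θ, x)` for all `l`. -/
def dom (F : Typ s m) (b : ℕ) (θ : Fin s → ℝ) : Set (Fin m → ℝ) :=
  {x | ∀ l, |x l| ≤ (b : ℝ) ∧ 0 ≤ vl (F.A l) θ x ∧ vl (F.A l) θ x ≤ vl (F.B l) θ x}

/-- The determinant of the matrix of the `B_i ∂_j A_i - A_i ∂_j B_i`. -/
noncomputable def jd (F : Typ s m) : Pz s m :=
  (Matrix.of fun i j : Fin m => F.B i * pderiv (Sum.inr j) (F.A i) - F.A i * pderiv (Sum.inr j) (F.B i)).det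

/-- The nondegenerate parameters: on the domain `|x_l| < b`, and `B_l`, the determinant and `D` do not vanish. -/
def Nond (F : Typ s m) (b : ℕ) : Set (Fin s → ℝ) :=
  {θ | ∀ x ∈ F.dom b θ, (∀ l, |x l| < (b : ℝ) ∧ vl (F.B l) θ x ≠ 0) ∧ vl F.jd θ x ≠ 0 ∧ vl F.D θ x ≠ 0}

/-- At the parameter `e` the domain is the unit cube, in its standard presentation, and the denominator is `1`. -/
def Base (F : Typ s m) (e : Fin s → ℚ) : Prop :=
  (∀ l, spz (F.A l) e = X l ∧ spz (F.B l) e = 1) ∧ spz F.D e = 1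

end Typ

/-- The integral coded by `I` is one of those of the family `F` at `θ`: the domain is that of `F`, the denominator is a power `D(θ, x) ^ κ`,
`κ ≤ A`, and the numerator has degree at most `A` and coefficients in `(1 / q) ℤ`, of absolute value at most `T ^ A`. -/
def ItemH {s m : ℕ} (F : Typ s m) (b A T q : ℕ) (θ : Fin s → ℚ) (I : CIH) : Prop :=
  I.1 = m ∧ I.2.1 = b ∧ I.2.2.2.length = m ∧
    (∀ l : Fin m, pcPoly m (I.2.2.2.getD l ([], [])).1 = spz (F.A l) θ ∧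
      pcPoly m (I.2.2.2.getD l ([], [])).2 = spz (F.B l) θ) ∧
    (∃ κ : ℕ, κ ≤ A ∧ pcPoly m I.2.2.1.2 = spz F.D θ ^ κ) ∧
    (pcPoly m I.2.2.1.1).totalDegree ≤ A ∧
    ∀ u, |coeff u (pcPoly m I.2.2.1.1)| ≤ (T : ℚ) ^ A ∧ ∃ z : ℤ, (q : ℚ) * coeff u (pcPoly m I.2.2.1.1) = z

/-- `E` is a sum of at most `T ^ A` products of at most `A` integrals as in `ItemH`, with a common `q ≤ T ^ A`. -/
def InClassH {s μ : ℕ} {m : Fin μ → ℕ} (F : (k : Fin μ) → Typ s (m k)) (b A T : ℕ) (θ : Fin s → ℚ) (E : ExH) : Prop :=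
  E.length ≤ T ^ A ∧ (∀ L ∈ E, L.length ≤ A) ∧
    ∃ q : ℕ, 1 ≤ q ∧ q ≤ T ^ A ∧ ∀ L ∈ E, ∀ I ∈ L, ∃ k, ItemH (F k) b A T q θ I

/-- The connected component of `e` in the set of the parameters which are nondegenerate for all the families. -/
def Reg {s μ : ℕ} {m : Fin μ → ℕ} (F : (k : Fin μ) → Typ s (m k)) (b : ℕ) (e : Fin s → ℚ) : Set (Fin s → ℝ) :=
  connectedComponentIn {θ | ∀ k, θ ∈ (F k).Nond b} (cst e)

end Pool.Agent.Lib.MP_bbe012_lc.PH
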