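import Pool.Agent.Lib.MP_bbe012_lc.PH.HD2
import Pool.Agent.Lib.MP_bbe012_lc.PG.CNz
import Pool.Agent.Lib.MP_bbe012_lc.PT.TCheck

/-!
# Soundness and completeness of the certificates for non zero values
-/

namespace Pool.Agent.Lib.MP_bbe012_lc.PH

open MvPolynomial MeasureTheory Set PP PG PT

/-- As `aeval_xP` (PT/NeS.lean). -/
theorem aeval_append_xP {n : ℕ} (τ : ℚ) (u x : Fin n → ℝ) (G : TP n ℚ) :
    aeval (Fin.append u x) (xP n τ G) = aeval (Fin.cons (τ : ℝ) x : Fin (n + 1) → ℝ) G := by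
  unfold xP
  rw [← AlgHom.comp_apply, comp_aeval]
  congr 2
  funext i
  refine Fin.cases ?_ (fun l => ?_) i
  · change aeval (Fin.append u x) (C τ) = (τ : ℝ)
    rw [aeval_C]
    rfl
  · change aeval (Fin.append u x) (X (Fin.natAdd n l)) = x l
    rw [aeval_X, Fin.append_right]

/-- As `aeval_uP`. -/
theorem aeval_append_uP {n : ℕ} (u x : Fin n → ℝ) (p : MvPolynomial (Fin n) ℚ) :
    aeval (Fin.append u x) (uP n p) = aeval u p := by
  unfold uP
  rw [aeval_rename]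
  congr 2
  funext l
  change Fin.append u x (Fin.castAdd n l) = u l
  rw [Fin.append_left]

private theorem he_xC {n : ℕ} (G : PCode) (u x : Fin n → ℝ) :
    aeval (Fin.append u x) (pcPoly (n + n) (xC n (qnat 1) G)) =
      aeval (Fin.cons (1 : ℝ) x : Fin (n + 1) → ℝ) (pcPoly (n + 1) G) := by
  have h1 : ((qval (qnat 1) : ℚ) : ℝ) = 1 := by
    rw [qval_qnat]
    simp
  rw [pcPoly_xC, aeval_append_xP, h1]

/-- The meaning of the constraints. Proof: `xC` codes `xP` (see `tcheck_neC` in PT/TCheck.lean for the codes), `aeval_append_xP`; `pcPoly_var`. -/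
theorem nhG_iff {n : ℕ} (c : CDC) (u x : Fin n → ℝ) :
    (∀ a ∈ nhG n c, 0 ≤ aeval (Fin.append u x) (pcPoly (n + n) a)) ↔
      ∀ l, (0 ≤ u l ∧ u l ≤ 1) ∧
        aeval (Fin.cons (1 : ℝ) x : Fin (n + 1) → ℝ) ((toCD n c).A l) =
          u l * aeval (Fin.cons (1 : ℝ) x : Fin (n + 1) → ℝ) ((toCD n c).B l) ∧
        0 ≤ aeval (Fin.cons (1 : ℝ) x : Fin (n + 1) → ℝ) ((toCD n c).A l) ∧
        aeval (Fin.cons (1 : ℝ) x : Fin (n + 1) → ℝ) ((toCD n c).A l) ≤
          aeval (Fin.cons (1 : ℝ) x : Fin (n + 1) → ℝ) ((toCD n c).B l) := by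
  have hA : ∀ l : Fin n, aeval (Fin.append u x) (pcPoly (n + n) (xC n (qnat 1) (aC c l))) =
      aeval (Fin.cons (1 : ℝ) x : Fin (n + 1) → ℝ) ((toCD n c).A l) := fun l => by
    rw [he_xC, pcPoly_aC]
  have hB : ∀ l : Fin n, aeval (Fin.append u x) (pcPoly (n + n) (xC n (qnat 1) (bC c l))) =
      aeval (Fin.cons (1 : ℝ) x : Fin (n + 1) → ℝ) ((toCD n c).B l) := fun l => by
    rw [he_xC, pcPoly_bC]
  have hU : ∀ l : Fin n, aeval (Fin.append u x) (pcPoly (n + n) (pcVar (l : ℕ))) = u l := fun l => by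
    have hl : (l : ℕ) < n + n := by omega
    rw [pcPoly_var hl, aeval_X]
    change Fin.append u x (Fin.castAdd n l) = u l
    rw [Fin.append_left]
  have h1 : aeval (Fin.append u x) (pcPoly (n + n) (pcNat 1)) = (1 : ℝ) := by
    rw [pcPoly_nat, aeval_C]
    simp
  constructor
  · intro h l
    have hm : (l : ℕ) ∈ List.range n := List.mem_range.2 l.isLt
    have e1 := h (pcVar (l : ℕ)) (by
      unfold nhG
      simp only [List.mem_append]
      exact Or.inl (Or.inl (Or.inl (Or.inl (Or.inl (List.mem_map.2 ⟨l, hm, rfl⟩))))))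
    have e2 := h (pcNat 1 ++ pcNeg (pcVar (l : ℕ))) (by
      unfold nhG
      simp only [List.mem_append]
      exact Or.inl (Or.inl (Or.inl (Or.inl (Or.inr (List.mem_map.2 ⟨l, hm, rfl⟩))))))
    have e3 := h (xC n (qnat 1) (aC c l) ++ pcNeg (pcMul (pcVar l) (xC n (qnat 1) (bC c l)))) (by
      unfold nhG
      simp only [List.mem_append]
      exact Or.inl (Or.inl (Or.inl (Or.inr (List.mem_map.2 ⟨l, hm, rfl⟩)))))
    have e4 := h (pcMul (pcVar l) (xC n (qnat 1) (bC c l)) ++ pcNeg (xC n (qnat 1) (aC c l))) (by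
      unfold nhG
      simp only [List.mem_append]
      exact Or.inl (Or.inl (Or.inr (List.mem_map.2 ⟨l, hm, rfl⟩))))
    have e5 := h (xC n (qnat 1) (aC c l)) (by
      unfold nhG
      simp only [List.mem_append]
      exact Or.inl (Or.inr (List.mem_map.2 ⟨l, hm, rfl⟩)))
    have e6 := h (xC n (qnat 1) (bC c l) ++ pcNeg (xC n (qnat 1) (aC c l))) (by
      unfold nhG
      simp only [List.mem_append]
      exact Or.inr (List.mem_map.2 ⟨l, hm, rfl⟩))
    rw [hU] at e1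
    rw [pcPoly_append, pcPoly_neg, map_add, map_neg, h1, hU] at e2
    rw [pcPoly_append, pcPoly_neg, pcPoly_mul, map_add, map_neg, map_mul, hU, hA, hB] at e3
    rw [pcPoly_append, pcPoly_neg, pcPoly_mul, map_add, map_neg, map_mul, hU, hA, hB] at e4
    rw [hA] at e5
    rw [pcPoly_append, pcPoly_neg, map_add, map_neg, hA, hB] at e6
    refine ⟨⟨e1, by linarith⟩, le_antisymm (by linarith) (by linarith), e5, by linarith⟩
  · intro h a ha
    unfold nhG at ha
    simp only [List.mem_append] at ha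
    rcases ha with ((((ha | ha) | ha) | ha) | ha) | ha
    · obtain ⟨k, hk, rfl⟩ := List.mem_map.1 ha
      obtain ⟨⟨q1, q2⟩, q3, q4, q5⟩ := h ⟨k, List.mem_range.1 hk⟩
      have e := hU ⟨k, List.mem_range.1 hk⟩
      change aeval (Fin.append u x) (pcPoly (n + n) (pcVar k)) = _ at e
      rw [e]
      exact q1
    · obtain ⟨k, hk, rfl⟩ := List.mem_map.1 ha
      obtain ⟨⟨q1, q2⟩, q3, q4, q5⟩ := h ⟨k, List.mem_range.1 hk⟩
      have e := hU ⟨k, List.mem_range.1 hk⟩
      change aeval (Fin.append u x) (pcPoly (n + n) (pcVar k)) = _ at e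
      rw [pcPoly_append, pcPoly_neg, map_add, map_neg, h1, e]
      linarith
    · obtain ⟨k, hk, rfl⟩ := List.mem_map.1 ha
      obtain ⟨⟨q1, q2⟩, q3, q4, q5⟩ := h ⟨k, List.mem_range.1 hk⟩
      have e := hU ⟨k, List.mem_range.1 hk⟩
      have eA := hA ⟨k, List.mem_range.1 hk⟩
      have eB := hB ⟨k, List.mem_range.1 hk⟩
      change aeval (Fin.append u x) (pcPoly (n + n) (pcVar k)) = _ at e
      change aeval (Fin.append u x) (pcPoly (n + n) (xC n (qnat 1) (aC c k))) = _ at eA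
      change aeval (Fin.append u x) (pcPoly (n + n) (xC n (qnat 1) (bC c k))) = _ at eB
      rw [pcPoly_append, pcPoly_neg, pcPoly_mul, map_add, map_neg, map_mul, e, eA, eB, q3]
      linarith
    · obtain ⟨k, hk, rfl⟩ := List.mem_map.1 ha
      obtain ⟨⟨q1, q2⟩, q3, q4, q5⟩ := h ⟨k, List.mem_range.1 hk⟩
      have e := hU ⟨k, List.mem_range.1 hk⟩
      have eA := hA ⟨k, List.mem_range.1 hk⟩
      have eB := hB ⟨k, List.mem_range.1 hk⟩
      change aeval (Fin.append u x) (pcPoly (n + n) (pcVar k)) = _ at e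
      change aeval (Fin.append u x) (pcPoly (n + n) (xC n (qnat 1) (aC c k))) = _ at eA
      change aeval (Fin.append u x) (pcPoly (n + n) (xC n (qnat 1) (bC c k))) = _ at eB
      rw [pcPoly_append, pcPoly_neg, pcPoly_mul, map_add, map_neg, map_mul, e, eA, eB, q3]
      linarith
    · obtain ⟨k, hk, rfl⟩ := List.mem_map.1 ha
      obtain ⟨⟨q1, q2⟩, q3, q4, q5⟩ := h ⟨k, List.mem_range.1 hk⟩
      have eA := hA ⟨k, List.mem_range.1 hk⟩
      change aeval (Fin.append u x) (pcPoly (n + n) (xC n (qnat 1) (aC c k))) = _ at eA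
      rw [eA]
      exact q4
    · obtain ⟨k, hk, rfl⟩ := List.mem_map.1 ha
      obtain ⟨⟨q1, q2⟩, q3, q4, q5⟩ := h ⟨k, List.mem_range.1 hk⟩
      have eA := hA ⟨k, List.mem_range.1 hk⟩
      have eB := hB ⟨k, List.mem_range.1 hk⟩
      change aeval (Fin.append u x) (pcPoly (n + n) (xC n (qnat 1) (aC c k))) = _ at eA
      change aeval (Fin.append u x) (pcPoly (n + n) (xC n (qnat 1) (bC c k))) = _ at eB
      rw [pcPoly_append, pcPoly_neg, map_add, map_neg, eA, eB]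
      linarith

/-- The value of the polynomial coded by `nhC`. Proof: as `tcheck_neC`. -/
theorem aeval_nhC {n : ℕ} (c : CDC) (G : PCode) (K : ℕ) (x : NH) (u y : Fin n → ℝ) :
    aeval (Fin.append u y) (pcPoly (n + n) (nhC n c G K x)) =
      (if x.1.1 = true then (1 : ℝ) else -1) * aeval (Fin.cons (1 : ℝ) y : Fin (n + 1) → ℝ) (pcPoly (n + 1) G) -
        aeval u (C (qval x.1.2.1) + ∑ l : Fin n, pderiv l ((X l - X l ^ 2) * pcPoly n (x.1.2.2.getD l []))) *
          aeval (Fin.cons (1 : ℝ) y : Fin (n + 1) → ℝ) (toCD n c).Q ^ K := by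
  have h0 : aeval (Fin.append u y) (pcPoly (n + n)
      (if x.1.1 = true then xC n (qnat 1) G else pcNeg (xC n (qnat 1) G))) =
      (if x.1.1 = true then (1 : ℝ) else -1) *
        aeval (Fin.cons (1 : ℝ) y : Fin (n + 1) → ℝ) (pcPoly (n + 1) G) := by
    by_cases hb : x.1.1 = true
    · rw [if_pos hb, if_pos hb, he_xC, one_mul]
    · rw [if_neg hb, if_neg hb, pcPoly_neg, map_neg, he_xC, neg_one_mul]
  unfold nhC
  rw [pcPoly_append, map_add, h0, pcPoly_neg, pcPoly_mul, pcPoly_trunc_add, pcPoly_append,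
    pcPoly_constC, pcPoly_exC, pcPoly_pow, map_neg, map_mul, map_pow, aeval_append_uP, he_xC,
    pcPoly_qC, ← sub_eq_add_neg]

private theorem he_cont {m : ℕ} (p : MvPolynomial (Fin m) ℚ) :
    Continuous fun x : Fin m → ℝ => aeval x p := by
  have h : (fun x : Fin m → ℝ => aeval x p) =
      fun x => ∑ d ∈ p.support, algebraMap ℚ ℝ (coeff d p) * ∏ i, x i ^ d i := by
    funext x
    rw [aeval_def, eval₂_eq']
  rw [h]
  fun_prop

private theorem he_vol {n : ℕ} : volume.real (Icc (0 : Fin n → ℝ) 1) = 1 := by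
  rw [Measure.real, SoundN_volume, ENNReal.toReal_one]

private theorem he_pos {n : ℕ} {h : (Fin n → ℝ) → ℝ} (hc : ContinuousOn h (Icc 0 1))
    (hp : ∀ x ∈ Icc (0 : Fin n → ℝ) 1, 0 < h x) :
    0 < ∫ x in Icc (0 : Fin n → ℝ) 1, h x := by
  obtain ⟨x₀, hx₀, hmin⟩ := isCompact_Icc.exists_isMinOn
    ⟨(0 : Fin n → ℝ), left_mem_Icc.2 zero_le_one⟩ hc
  have h1 : ∫ _x in Icc (0 : Fin n → ℝ) 1, h x₀ ≤ ∫ x in Icc (0 : Fin n → ℝ) 1, h x :=
    setIntegral_mono_on (continuousOn_const.integrableOn_compact isCompact_Icc)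
      (hc.integrableOn_compact isCompact_Icc) measurableSet_Icc fun x hx => hmin hx
  rw [setIntegral_const, he_vol, one_smul] at h1
  exact lt_of_lt_of_le (hp x₀ hx₀) h1

private theorem he_box {b n : ℕ} (hb : 2 ≤ b) {u x : Fin n → ℝ} (hu : u ∈ Icc (0 : Fin n → ℝ) 1)
    (hx : ∀ l, |x l| ≤ (b : ℝ)) (i : Fin (n + n)) : |Fin.append u x i| ≤ (b : ℝ) := by
  have hb2 : (2 : ℝ) ≤ (b : ℝ) := by exact_mod_cast hb
  refine Fin.addCases (fun l => ?_) (fun l => ?_) i
  · rw [Fin.append_left, abs_of_nonneg (hu.1 l)]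
    have h1 : u l ≤ 1 := hu.2 l
    linarith
  · rw [Fin.append_right]
    exact hx l

private theorem he_cons {b n : ℕ} {c : CDC} (hc : (toCD n c).Ok) (hb : 2 ≤ b) (hN : NdC (toCD n c) b)
    {u : Fin n → ℝ} (hu : u ∈ Icc (0 : Fin n → ℝ) 1) (l : Fin n) : (0 ≤ u l ∧ u l ≤ 1) ∧
        aeval (Fin.cons (1 : ℝ) (XC (toCD n c) b (1, u)) : Fin (n + 1) → ℝ) ((toCD n c).A l) =
          u l * aeval (Fin.cons (1 : ℝ) (XC (toCD n c) b (1, u)) : Fin (n + 1) → ℝ) ((toCD n c).B l) ∧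
        0 ≤ aeval (Fin.cons (1 : ℝ) (XC (toCD n c) b (1, u)) : Fin (n + 1) → ℝ) ((toCD n c).A l) ∧
        aeval (Fin.cons (1 : ℝ) (XC (toCD n c) b (1, u)) : Fin (n + 1) → ℝ) ((toCD n c).A l) ≤
          aeval (Fin.cons (1 : ℝ) (XC (toCD n c) b (1, u)) : Fin (n + 1) → ℝ) ((toCD n c).B l) := by
  have ht : (1 : ℝ) ∈ Icc (0 : ℝ) 1 := ⟨zero_le_one, le_rfl⟩
  have h1 := XC_mem hc hb hN ht hu l
  have h2 : aeval (Fin.cons (1 : ℝ) (XC (toCD n c) b (1, u)) : Fin (n + 1) → ℝ) ((toCD n c).A l) =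
      u l * aeval (Fin.cons (1 : ℝ) (XC (toCD n c) b (1, u)) : Fin (n + 1) → ℝ) ((toCD n c).B l) :=
    (XC_spec hc hb hN).eq 1 ht u hu l
  exact ⟨⟨hu.1 l, hu.2 l⟩, h2, h1.2.1, h1.2.2⟩

private theorem he_contOn {b n : ℕ} {c : CD n ℚ} (hc : c.Ok) (hb : 2 ≤ b) (hN : NdC c b)
    (G : TP n ℚ) (K : ℕ) :
    ContinuousOn (fun u => aeval (ptX c b 1 u) G / aeval (ptX c b 1 u) c.Q ^ K)
      (Icc (0 : Fin n → ℝ) 1) :=
  (continuousOn_ptX hc hb hN ⟨zero_le_one, le_rfl⟩ G).div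
    ((continuousOn_ptX hc hb hN ⟨zero_le_one, le_rfl⟩ c.Q).pow K)
    fun _ hx => (pow_pos (ptX_Q_pos hc hb hN ⟨zero_le_one, le_rfl⟩ hx) K).ne'

/-- Soundness.

Proof. Let `σ = ± 1`, `F = C a + ∑ ∂_l ((X l - X l ^ 2) E_l)`. For `u` in the cube let `x = XC (toCD n c) b (1, u)`: the point `(u, x)` is in the box `[-b, b]^(n + n)` and satisfies the constraints (`nhG_iff`, `XC_spec`), so `σ G(1, x) - F(u) Q(1, x) ^ K > 0` (`psC_sound`), i.e. `σ G / Q ^ K > F(u)` at `ptX c b 1 u` (`ptX_Q_pos`). Both sides are continuous in `u` on the cube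
(`continuousOn_ptX`); so `σ JX > ∫ F = a ≥ 0` (`integral_poly`, `Lam_pderiv`, see `abs_JT_sub_le` in PT/NeS.lean; strict inequality: see `cnz_pos` in PG/CNz.lean). -/
theorem checkNH_sound {b n : ℕ} (hb : 2 ≤ b) {c : CDC} (hc : (toCD n c).Ok) (hN : NdC (toCD n c) b) {G : PCode} {K : ℕ}
    {x : NH} (h : checkNH b n c G K x) : JX (toCD n c) b (pcPoly (n + 1) G) K 1 ≠ 0 := by
  have ht : (1 : ℝ) ∈ Icc (0 : ℝ) 1 := ⟨zero_le_one, le_rfl⟩
  obtain ⟨ha, hpos⟩ := h
  have ha0 : (0 : ℝ) ≤ (qval x.1.2.1 : ℝ) := by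
    have h1 := (qleP_iff (qnat 0) x.1.2.1).1 ha
    rw [qval_qnat, Nat.cast_zero] at h1
    exact_mod_cast h1
  obtain ⟨s, hs⟩ : ∃ s : ℝ, s = if x.1.1 = true then (1 : ℝ) else -1 := ⟨_, rfl⟩
  obtain ⟨F, hF⟩ : ∃ F : MvPolynomial (Fin n) ℚ, F = C (qval x.1.2.1) +
      ∑ l : Fin n, pderiv l ((X l - X l ^ 2) * pcPoly n (x.1.2.2.getD l [])) := ⟨_, rfl⟩
  have hlt : ∀ u ∈ Icc (0 : Fin n → ℝ) 1,
      0 < s * (aeval (ptX (toCD n c) b 1 u) (pcPoly (n + 1) G) /
        aeval (ptX (toCD n c) b 1 u) (toCD n c).Q ^ K) - aeval u F := by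
    intro u hu
    have h1 := psC_sound hpos (x := Fin.append u (XC (toCD n c) b (1, u)))
      (he_box hb hu fun l => (XC_spec hc hb hN).box 1 ht u hu l)
      ((nhG_iff c u (XC (toCD n c) b (1, u))).2 (he_cons hc hb hN hu))
    rw [aeval_nhC, ← hF, ← hs] at h1
    change 0 < s * aeval (ptX (toCD n c) b 1 u) (pcPoly (n + 1) G) -
      aeval u F * aeval (ptX (toCD n c) b 1 u) (toCD n c).Q ^ K at h1
    have h2 := pow_pos (ptX_Q_pos hc hb hN ht hu) K
    have h3 : s * (aeval (ptX (toCD n c) b 1 u) (pcPoly (n + 1) G) /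
        aeval (ptX (toCD n c) b 1 u) (toCD n c).Q ^ K) - aeval u F =
        (s * aeval (ptX (toCD n c) b 1 u) (pcPoly (n + 1) G) -
      aeval u F * aeval (ptX (toCD n c) b 1 u) (toCD n c).Q ^ K) /
          aeval (ptX (toCD n c) b 1 u) (toCD n c).Q ^ K := by
      field_simp
    rw [h3]
    exact div_pos h1 h2
  have hcG := he_contOn hc hb hN (pcPoly (n + 1) G) K
  have hcF : ContinuousOn (fun u : Fin n → ℝ => aeval u F) (Icc (0 : Fin n → ℝ) 1) :=
    (he_cont F).continuousOn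
  have hI : 0 < ∫ u in Icc (0 : Fin n → ℝ) 1, (s * (aeval (ptX (toCD n c) b 1 u) (pcPoly (n + 1) G) /
        aeval (ptX (toCD n c) b 1 u) (toCD n c).Q ^ K) - aeval u F) :=
    he_pos ((continuousOn_const.mul hcG).sub hcF) hlt
  have hLam : Lam n F = qval x.1.2.1 := by
    rw [hF, map_add, Lam_C, map_sum, Finset.sum_eq_zero fun l _ => Lam_pderiv n l _, add_zero]
  have hI2 : ∫ u in Icc (0 : Fin n → ℝ) 1, (s * (aeval (ptX (toCD n c) b 1 u) (pcPoly (n + 1) G) /
        aeval (ptX (toCD n c) b 1 u) (toCD n c).Q ^ K) - aeval u F) =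
      s * JX (toCD n c) b (pcPoly (n + 1) G) K 1 - (qval x.1.2.1 : ℝ) := by
    rw [integral_sub ((hcG.integrableOn_compact isCompact_Icc).const_mul _)
      (hcF.integrableOn_compact isCompact_Icc), integral_const_mul, integral_poly, hLam]
    rfl
  rw [hI2] at hI
  intro h0
  rw [h0, mul_zero] at hI
  linarith

private theorem he_list (n m : ℕ) (g : Fin n → MvPolynomial (Fin m) ℚ) :
    ∃ gs : List PCode, ∀ l : Fin n, pcPoly m (gs.getD l []) = g l := by
  choose gc hgc using fun l : Fin n => exists_pcPoly (g l)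
  refine ⟨List.ofFn gc, fun l => ?_⟩
  rw [← hgc l, List.getD_eq_getElem _ _ (by rw [List.length_ofFn]; exact l.isLt),
    List.getElem_ofFn]

private theorem he_split {n : ℕ} (y : Fin (n + n) → ℝ) :
    ∃ u v : Fin n → ℝ, y = Fin.append u v := by
  refine ⟨fun l => y (Fin.castAdd n l), fun l => y (Fin.natAdd n l), ?_⟩
  funext i
  refine Fin.addCases (fun l => ?_) (fun l => ?_) i
  · rw [Fin.append_left]
  · rw [Fin.append_right]

/-- Completeness.

Proof. Let `J = σ JX > 0`, and `f(u) = σ G / Q ^ K - J / 2` at `ptX c b 1 u`, continuous on the cube, with integral `J / 2`. By `exists_approx` (PG/CNz.lean) there is `P ∈ ℚ[u]` with `|f - P| ≤ J / 4` on the cube, so `P < σ G / Q ^ K` on the cube and `∫ P ≥ J / 4 > 0`; `P = C a + ∑ ∂_l ((X l - X l ^ 2) E_l)` with `a = Lam n P ≥ 0` (`integral_poly`, `exists_prim`, see the proof of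
`checkNG_complete` and `exists_neT`). Every point of the box which satisfies the constraints is `(u, x)` with `u` in the cube and `x = XC c b (1, u)` (`uniq`), and there the polynomial is `Q ^ K (σ G / Q ^ K - P(u)) > 0`. `psC_complete`; `aeval_nhC`, codes by `exists_pcPoly`, `exists_qval`. -/
theorem checkNH_complete {b n : ℕ} (hb : 2 ≤ b) {c : CDC} (hc : (toCD n c).Ok) (hN : NdC (toCD n c) b) {G : PCode} {K : ℕ}
    (h : JX (toCD n c) b (pcPoly (n + 1) G) K 1 ≠ 0) : ∃ x : NH, checkNH b n c G K x := by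
  have ht : (1 : ℝ) ∈ Icc (0 : ℝ) 1 := ⟨zero_le_one, le_rfl⟩
  obtain ⟨β, s, hs, hJ⟩ : ∃ (β : Bool) (s : ℝ), (s = if β = true then (1 : ℝ) else -1) ∧
      0 < s * JX (toCD n c) b (pcPoly (n + 1) G) K 1 := by
    rcases lt_or_gt_of_ne h with h1 | h1
    · refine ⟨false, -1, ?_, ?_⟩
      · rw [if_neg Bool.false_ne_true]
      · linarith
    · refine ⟨true, 1, ?_, ?_⟩
      · rw [if_pos rfl]
      · linarith
  obtain ⟨J, hJd⟩ : ∃ J : ℝ, J = s * JX (toCD n c) b (pcPoly (n + 1) G) K 1 := ⟨_, rfl⟩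
  rw [← hJd] at hJ
  have hcG := he_contOn hc hb hN (pcPoly (n + 1) G) K
  have hcf : ContinuousOn (fun u => s * (aeval (ptX (toCD n c) b 1 u) (pcPoly (n + 1) G) /
      aeval (ptX (toCD n c) b 1 u) (toCD n c).Q ^ K) - J / 2) (Icc (0 : Fin n → ℝ) 1) :=
    (continuousOn_const.mul hcG).sub continuousOn_const
  obtain ⟨W, hW⟩ := exists_approx hcf (by linarith : 0 < J / 4)
  have hcW : ContinuousOn (fun x : Fin n → ℝ => aeval x W) (Icc (0 : Fin n → ℝ) 1) :=
    (he_cont W).continuousOn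
  have hIf : ∫ u in Icc (0 : Fin n → ℝ) 1, (s * (aeval (ptX (toCD n c) b 1 u) (pcPoly (n + 1) G) /
      aeval (ptX (toCD n c) b 1 u) (toCD n c).Q ^ K) - J / 2) = J / 2 := by
    rw [integral_sub ((hcG.integrableOn_compact isCompact_Icc).const_mul _)
      (continuousOn_const.integrableOn_compact isCompact_Icc), integral_const_mul,
      setIntegral_const, he_vol, one_smul]
    have h1 : s * ∫ u in Icc (0 : Fin n → ℝ) 1, aeval (ptX (toCD n c) b 1 u) (pcPoly (n + 1) G) /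
      aeval (ptX (toCD n c) b 1 u) (toCD n c).Q ^ K = J := hJd.symm
    rw [h1]
    ring
  have hLam : J / 4 ≤ ((Lam n W : ℚ) : ℝ) := by
    have h1 := norm_setIntegral_le_of_norm_le_const (μ := volume)
      (isCompact_Icc (a := (0 : Fin n → ℝ)) (b := 1)).measure_lt_top
      (f := fun u => (s * (aeval (ptX (toCD n c) b 1 u) (pcPoly (n + 1) G) /
      aeval (ptX (toCD n c) b 1 u) (toCD n c).Q ^ K) - J / 2) - aeval u W) (C := J / 4)
      (fun x hx => hW x hx)
    rw [integral_sub (hcf.integrableOn_compact isCompact_Icc)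
      (hcW.integrableOn_compact isCompact_Icc), hIf, integral_poly, he_vol, mul_one,
      Real.norm_eq_abs] at h1
    have h2 := (abs_le.1 h1).2
    linarith
  obtain ⟨E0, hE0⟩ := exists_prim n W
  obtain ⟨ac, hac⟩ := exists_qval (Lam n W)
  obtain ⟨El, hEl⟩ := he_list n n E0
  have hpoly : (C (qval ac) + ∑ l : Fin n, pderiv l ((X l - X l ^ 2) * pcPoly n (El.getD l [])) :
      MvPolynomial (Fin n) ℚ) = W := by
    rw [hac]
    conv_rhs => rw [hE0]
    congr 1
    exact Finset.sum_congr rfl fun l _ => by rw [hEl l]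
  obtain ⟨z, hz⟩ := psC_complete (b := b) (N := n + n) (g := nhG n c)
    (p := nhC n c G K ((β, (ac, El)), psc0)) (by omega) (by
      intro y hy hg
      obtain ⟨u, v, rfl⟩ := he_split y
      have hm := (nhG_iff c u v).1 hg
      have hu : u ∈ Icc (0 : Fin n → ℝ) 1 := ⟨fun l => (hm l).1.1, fun l => (hm l).1.2⟩
      have hv : v = XC (toCD n c) b (1, u) := by
        refine (XC_spec hc hb hN).uniq 1 ht u hu v fun l => ⟨?_, (hm l).2.1, ?_⟩
        · have h1 := hy (Fin.natAdd n l)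
          rw [Fin.append_right] at h1
          exact h1
        · exact (hm l).2.2.1.trans (hm l).2.2.2
      subst hv
      rw [aeval_nhC]
      change 0 < (if β = true then (1 : ℝ) else -1) *
          aeval (ptX (toCD n c) b 1 u) (pcPoly (n + 1) G) -
        aeval u (C (qval ac) + ∑ l : Fin n, pderiv l ((X l - X l ^ 2) * pcPoly n (El.getD l []))) *
          aeval (ptX (toCD n c) b 1 u) (toCD n c).Q ^ K
      rw [hpoly, ← hs]
      have h3 := (abs_le.1 (hW u hu)).1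
      have h4 := pow_pos (ptX_Q_pos hc hb hN ht hu) K
      have h5 : aeval u W < s * (aeval (ptX (toCD n c) b 1 u) (pcPoly (n + 1) G) /
          aeval (ptX (toCD n c) b 1 u) (toCD n c).Q ^ K) := by linarith
      have h6 := mul_lt_mul_of_pos_right h5 h4
      have h7 : s * (aeval (ptX (toCD n c) b 1 u) (pcPoly (n + 1) G) /
          aeval (ptX (toCD n c) b 1 u) (toCD n c).Q ^ K) *
          aeval (ptX (toCD n c) b 1 u) (toCD n c).Q ^ K =
          s * aeval (ptX (toCD n c) b 1 u) (pcPoly (n + 1) G) := by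
        field_simp
      rw [h7] at h6
      linarith)
  refine ⟨((β, (ac, El)), z), ?_, hz⟩
  change qleP (qnat 0) ac
  rw [qleP_iff, qval_qnat, Nat.cast_zero, hac]
  have h1 : (0 : ℝ) ≤ ((Lam n W : ℚ) : ℝ) := by linarith
  exact_mod_cast h1

end Pool.Agent.Lib.MP_bbe012_lc.PH
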