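import Pool.Agent.Lib.MP_bbe012_lc.PH.HCodes
import Pool.Agent.Lib.MP_bbe012_lc.PH.HC1
import Pool.Agent.Lib.MP_bbe012_lc.PH.HC3
import Pool.Agent.Lib.MP_bbe012_lc.PH.HE
import Pool.Agent.Lib.MP_bbe012_lc.PT.TRedC

/-!
# Soundness of the verification
-/

namespace Pool.Agent.Lib.MP_bbe012_lc.PH

open MvPolynomial MeasureTheory Set PP PG PT

private theorem hf1_one : qval (qnat 1) = 1 := by
  rw [qval_qnat, Nat.cast_one]

private theorem hf1_pt (n : ℕ) (x : Fin n → ℝ) : pt n (qval (qnat 1)) x = (Fin.cons (1 : ℝ) x : Fin (n + 1) → ℝ) := by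
  rw [hf1_one, pt, Rat.cast_one]

private theorem hf1_sp {n : ℕ} (τ : ℚ) (x : Fin n → ℝ) (F : TP n ℚ) :
    aeval x (spQ n τ F) = aeval (pt n τ x) F := by
  have h : (aeval x).comp (spQ n τ) = (aeval (pt n τ x) : TP n ℚ →ₐ[ℚ] ℝ) := by
    refine MvPolynomial.algHom_ext fun i => ?_
    refine Fin.cases ?_ (fun l => ?_) i
    · simp [spQ, pt]
    · simp [spQ, pt]
  exact DFunLike.congr_fun h F

private theorem hf1_zero {n : ℕ} {p q : PCode} (h : pcIsZero n (p ++ pcNeg q)) :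
    pcPoly n p = pcPoly n q := by
  have h1 := (pcIsZero_iff n _).1 h
  rw [pcPoly_append, pcPoly_neg] at h1
  exact add_neg_eq_zero.1 h1

private theorem hf1_trunc {m n : ℕ} (h : m ≤ n) (x : Fin n → ℝ) (p : PCode) :
    aeval x (pcPoly n (pcTrunc m p)) = pcEval m p (fun i => x (Fin.castLE h i)) := by
  rw [pcPoly_trunc_castLE h, aeval_rename]
  rfl

private theorem hf1_A {n k : ℕ} {τ : QCode} {c : CDC} {I : CIT} {W : PCode} (h : itemOK n τ k c I W)
    (x : Fin n → ℝ) (l : Fin n) :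
    aeval (pt n (qval τ) x) ((toCD n c).A l) = aeval x (pcPoly n (domA I l)) ∧
      aeval (pt n (qval τ) x) ((toCD n c).B l) = aeval x (pcPoly n (domB I l)) := by
  obtain ⟨h1, h2⟩ := h.2.2.1 l (List.mem_range.2 l.isLt)
  rw [hf1_zero h1, hf1_zero h2, pcPoly_evC, pcPoly_evC, pcPoly_aC, pcPoly_bC, hf1_sp, hf1_sp]
  exact ⟨rfl, rfl⟩

private theorem hf1_lt {n k : ℕ} {τ : QCode} {c : CDC} {I : CIT} {W : PCode} (h : itemOK n τ k c I W)
    (x : Fin n → ℝ) (l : Fin n) (hl : (l : ℕ) < I.1) :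
    aeval (pt n (qval τ) x) ((toCD n c).A l) =
        pcEval I.1 (I.2.2.getD l ([], [])).1 (fun i => x (Fin.castLE h.1 i)) ∧
      aeval (pt n (qval τ) x) ((toCD n c).B l) =
        pcEval I.1 (I.2.2.getD l ([], [])).2 (fun i => x (Fin.castLE h.1 i)) := by
  obtain ⟨h1, h2⟩ := hf1_A h x l
  rw [h1, h2, domA, domB, if_pos hl, if_pos hl, hf1_trunc h.1, hf1_trunc h.1]
  exact ⟨rfl, rfl⟩

private theorem hf1_ge {n k : ℕ} {τ : QCode} {c : CDC} {I : CIT} {W : PCode} (h : itemOK n τ k c I W)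
    (x : Fin n → ℝ) (l : Fin n) (hl : I.1 ≤ (l : ℕ)) :
    aeval (pt n (qval τ) x) ((toCD n c).A l) = x l ∧
      aeval (pt n (qval τ) x) ((toCD n c).B l) = 1 := by
  obtain ⟨h1, h2⟩ := hf1_A h x l
  rw [h1, h2, domA, domB, if_neg (not_lt.2 hl), if_neg (not_lt.2 hl), pcPoly_var l.isLt, pcPoly_nat]
  simp

private theorem hf1_foldr (R : ℕ) (F : ℕ → ℕ × ℕ) :
    (List.range R).foldr (fun i acc => (F i).1 + (F i).2 + acc) 0 =
      ∑ i ∈ Finset.range R, ((F i).1 + (F i).2) := by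
  have h : ∀ L : List ℕ, L.foldr (fun i acc => (F i).1 + (F i).2 + acc) 0 =
      (L.map fun i => (F i).1 + (F i).2).sum := by
    intro L
    induction L with
    | nil => rfl
    | cons a L ih => rw [List.foldr_cons, ih, List.map_cons, List.sum_cons]
  rw [h, ← List.sum_toFinset _ (List.nodup_range), List.toFinset_range]

private theorem hf1_sC (n : ℕ) (c : CDC) (G : PCode) (τ : QCode) (j : ℕ) (U : PCode) :
    pcPoly (n + 1) (sC (qC c) G τ j U) = pcPoly (n + 1) G * (toCD n c).Q ^ j +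
      (X 0 - C (qval τ)) * pcPoly (n + 1) U := by
  rw [sC, pcPoly_append, pcPoly_mul, pcPoly_pow, pcPoly_mul, pcPoly_append, pcPoly_neg, pcPoly_tC,
    pcPoly_constC, pcPoly_qC]
  ring

/-- Proof: an intersection of closed sets, polynomials are continuous. -/
theorem isClosed_domH (I : CIH) : IsClosed (domH I) := by
  have h : domH I = (⋂ l : Fin I.1, {x : Fin I.1 → ℝ | |x l| ≤ (I.2.1 : ℝ)}) ∩
      ⋂ a ∈ I.2.2.2, {x | 0 ≤ pcEval I.1 a.1 x} ∩ {x | pcEval I.1 a.1 x ≤ pcEval I.1 a.2 x} := by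
    ext x
    simp only [domH, Set.mem_ofPred_eq, Set.mem_inter_iff, Set.mem_iInter]
  rw [h]
  refine IsClosed.inter ?_ ?_
  · refine isClosed_iInter fun l => ?_
    exact isClosed_le (continuous_apply l).abs continuous_const
  · refine isClosed_iInter fun a => isClosed_iInter fun _ => IsClosed.inter ?_ ?_
    · exact isClosed_le continuous_const (continuous_pcEval I.1 a.1)
    · exact isClosed_le (continuous_pcEval I.1 a.1) (continuous_pcEval I.1 a.2)

/-- The domain of the chart at `t = 1` is the padded domain of the integral.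

Proof. As `sig_eq_pad` (PT/TRedB.lean), with `KC _ b 1` in place of `sig`: `itemOK n (qnat 1) k c (dropI I) W` and `I.2.1 = b`. For `I.1 ≤ l`, `0 ≤ x l ≤ 1` implies `|x l| ≤ b`. -/
theorem KC_eq_pad {n k b : ℕ} (hb : 1 ≤ b) {c : CDC} {I : CIH} {W : PCode} (h : itemOK n (qnat 1) k c (dropI I) W)
    (hI : I.2.1 = b) : KC (toCD n c) b 1 = {x : Fin n → ℝ | (fun i => x (Fin.castLE h.1 i)) ∈ domH I ∧
      ∀ l : Fin n, I.1 ≤ (l : ℕ) → 0 ≤ x l ∧ x l ≤ 1} := by
  have hbr : (1 : ℝ) ≤ (b : ℝ) := by exact_mod_cast hb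
  have hIb : ((I.2.1 : ℕ) : ℝ) = (b : ℝ) := by rw [hI]
  ext x
  have hp := hf1_pt n x
  constructor
  · intro hx
    refine ⟨⟨fun l => ?_, fun a ha => ?_⟩, fun l hl => ?_⟩
    · rw [hIb]
      exact (hx (Fin.castLE h.1 l)).1
    · obtain ⟨i, hi, rfl⟩ := List.mem_iff_getElem.1 ha
      have him : i < I.1 := lt_of_lt_of_eq hi h.2.1
      have hin : i < n := lt_of_lt_of_le him h.1
      obtain ⟨h1, h2⟩ := hf1_lt h x ⟨i, hin⟩ him
      have h3 := (hx ⟨i, hin⟩).2
      rw [hp] at h1 h2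
      rw [h1, h2] at h3
      have h4 : I.2.2.2.getD i ([], []) = I.2.2.2[i] := by
        rw [List.getD_eq_getElem?_getD, List.getElem?_eq_getElem hi]
        rfl
      simp only [dropI, h4] at h3
      exact h3
    · obtain ⟨h1, h2⟩ := hf1_ge h x l hl
      have h3 := (hx l).2
      rw [hp] at h1 h2
      rw [h1, h2] at h3
      exact h3
  · rintro ⟨⟨hbx, hd⟩, hr⟩ l
    by_cases hl : (l : ℕ) < I.1
    · refine ⟨?_, ?_⟩
      · rw [← hIb]
        exact hbx ⟨l, hl⟩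
      · obtain ⟨h1, h2⟩ := hf1_lt h x l hl
        rw [hp] at h1 h2
        rw [h1, h2]
        have hi : (l : ℕ) < I.2.2.2.length := lt_of_lt_of_eq hl h.2.1.symm
        have h4 : I.2.2.2.getD (l : ℕ) ([], []) = I.2.2.2[(l : ℕ)] := by
          rw [List.getD_eq_getElem?_getD, List.getElem?_eq_getElem hi]
          rfl
        simp only [dropI, h4]
        exact hd _ (List.getElem_mem hi)
    · obtain ⟨h1, h2⟩ := hf1_ge h x l (not_lt.1 hl)
      rw [hp] at h1 h2
      rw [h1, h2]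
      have h3 := hr l (not_lt.1 hl)
      refine ⟨?_, h3⟩
      rw [abs_of_nonneg h3.1]
      exact h3.2.trans hbr

/-- The value of one factor. Proof: as `citVal_eqT` (PT/TRedB.lean), with `integral_padT`, `KC_eq_pad` and `integral_KC`. -/
theorem cihVal_eq {n k b : ℕ} (hb : 2 ≤ b) {c : CDC} {I : CIH} {W J : PCode} (h : itemOK n (qnat 1) k c (dropI I) W)
    (hI : I.2.1 = b) (hc : okC n c) (hJ : jokC n c J) (hN : NdC (toCD n c) b) :
    cihVal I = JX (toCD n c) b (pcPoly (n + 1) (pcMul (pcShift 1 n (pcMul (pcTrunc I.1 I.2.2.1.1) W)) (jC J)))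
      (k + n) 1 := by
  have ht : (1 : ℝ) ∈ Icc (0 : ℝ) 1 := ⟨zero_le_one, le_refl 1⟩
  have hco := (okC_iff n c).1 hc
  have hdet := jokC_det hc hJ
  have hW := hf1_zero h.2.2.2
  rw [pcPoly_mul, pcPoly_pow, pcPoly_evC, pcPoly_qC] at hW
  have h1' : I.1 ≤ n := h.1
  have key : ∀ x ∈ KC (toCD n c) b 1,
      pcEval I.1 I.2.2.1.1 (fun i => x (Fin.castLE h1' i)) / pcEval I.1 I.2.2.1.2 (fun i => x (Fin.castLE h1' i)) *
        (aeval (Fin.cons (1 : ℝ) x : Fin (n + 1) → ℝ) (Matrix.det (Matrix.of (toCD n c).V)) /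
          aeval (Fin.cons (1 : ℝ) x : Fin (n + 1) → ℝ) (toCD n c).Q ^ n) =
      aeval (Fin.cons (1 : ℝ) x : Fin (n + 1) → ℝ)
        (pcPoly (n + 1) (pcMul (pcShift 1 n (pcMul (pcTrunc I.1 I.2.2.1.1) W)) (jC J))) /
          aeval (Fin.cons (1 : ℝ) x : Fin (n + 1) → ℝ) (toCD n c).Q ^ (k + n) := by
    intro x hx
    have hQ := (hN 1 ht x hx).2
    have h2 : aeval x (pcPoly n (pcTrunc I.1 I.2.2.1.2) * pcPoly n W) =
        aeval x (spQ n (qval (qnat 1)) (toCD n c).Q ^ k) := congrArg (aeval x) hW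
    rw [map_mul, map_pow, hf1_sp, hf1_trunc h1'] at h2
    rw [← hf1_pt n x] at hQ ⊢
    have hQ0 : aeval (pt n (qval (qnat 1)) x) (toCD n c).Q ^ k ≠ 0 := pow_ne_zero _ hQ.ne'
    have hW0 : aeval x (pcPoly n W) ≠ 0 := by
      rw [← h2] at hQ0
      exact right_ne_zero_of_mul hQ0
    rw [pcPoly_mul, hdet, pcPoly_shift_succ, pcPoly_mul, map_mul, aeval_succ, map_mul, hf1_trunc h1',
      ← mul_div_mul_right _ _ hW0, h2, div_mul_div_comm, pow_add]
  have h1 : cihVal I = ∫ y in domH I, (fun y => pcEval I.1 I.2.2.1.1 y / pcEval I.1 I.2.2.1.2 y) y := rfl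
  have hK : {x : Fin n → ℝ | (fun i => x (Fin.castLE h1' i)) ∈ domH I ∧
      ∀ l : Fin n, I.1 ≤ (l : ℕ) → 0 ≤ x l ∧ x l ≤ 1} = KC (toCD n c) b 1 :=
    (KC_eq_pad (by omega) h hI).symm
  rw [h1, ← integral_padT h1' (isClosed_domH I).measurableSet, hK,
    integral_KC hco hb hN ht, JX]
  refine setIntegral_congr_fun measurableSet_Icc fun u hu => ?_
  exact key (XC (toCD n c) b (1, u)) (XC_mem hco hb hN ht hu)

/-- Consequences of the verification. Proof: `okC_iff`, `ndC_sound`, `pcPoly_blkC`, `pcPoly_prodRange`; `β * n + l` is `finProdFinEquiv (β, l)`; `NdC_prod`. -/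
theorem rtH_spec {E : ExH} {r : RT} {b : ℕ} {x : List NDC} (h : rtH E r b x) :
    2 ≤ b ∧ (toCD (rtM r * rtN r) (rtC r)).Ok ∧ (∀ β : Fin (rtM r), (toCD (rtN r) (rtB r β).1).Ok) ∧
      (∀ β : Fin (rtM r), NdC (toCD (rtN r) (rtB r β).1) b) ∧
      IsProd (fun β : Fin (rtM r) => toCD (rtN r) (rtB r β).1) (toCD (rtM r * rtN r) (rtC r)) ∧
      NdC (toCD (rtM r * rtN r) (rtC r)) b ∧
      ∀ β : Fin (rtM r), rename (bidx (rtN r) (rtM r) β) (toCD (rtN r) (rtB r β).1).Q *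
        pcPoly (rtM r * rtN r + 1) (rtB r β).2.2 = (toCD (rtM r * rtN r) (rtC r)).Q := by
  obtain ⟨hb, hT, hprod, hτ, hblk, hslot, hbox⟩ := h
  have hidx : ∀ (β : Fin (rtM r)) (l : Fin (rtN r)),
      ((finProdFinEquiv (β, l) : Fin (rtM r * rtN r)) : ℕ) = β * rtN r + l := by
    intro β l
    rw [finProdFinEquiv_apply_val, mul_comm]
    exact Nat.add_comm _ _
  have hN : ∀ β : Fin (rtM r), NdC (toCD (rtN r) (rtB r β).1) b := fun β =>
    ndC_sound (by omega) (hblk β (List.mem_range.2 β.2)).2.2.1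
  have hP : IsProd (fun β : Fin (rtM r) => toCD (rtN r) (rtB r β).1) (toCD (rtM r * rtN r) (rtC r)) := by
    refine ⟨fun β l => ?_, fun β l => ?_, ?_⟩
    · have h1 := ((hblk β (List.mem_range.2 β.2)).2.2.2.1 l (List.mem_range.2 l.2)).1
      rw [pcIsZero_iff, pcPoly_append, pcPoly_neg, pcPoly_blkC, ← sub_eq_add_neg, sub_eq_zero,
        ← hidx] at h1
      exact h1.symm
    · have h1 := ((hblk β (List.mem_range.2 β.2)).2.2.2.1 l (List.mem_range.2 l.2)).2
      rw [pcIsZero_iff, pcPoly_append, pcPoly_neg, pcPoly_blkC, ← sub_eq_add_neg, sub_eq_zero,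
        ← hidx] at h1
      exact h1.symm
    · have h1 := hf1_zero hprod
      rw [pcPoly_qC, pcPoly_prodRange] at h1
      rw [h1]
      refine Finset.prod_congr rfl fun β _ => ?_
      rw [pcPoly_blkC, pcPoly_qC]
  refine ⟨hb, (okC_iff _ _).1 hT, fun β => (okC_iff _ _).1 (hblk β (List.mem_range.2 β.2)).1, hN, hP,
    NdC_prod hP hN, fun β => ?_⟩
  have h1 := (hblk β (List.mem_range.2 β.2)).2.2.2.2
  rw [pcIsZero_iff, pcPoly_append, pcPoly_neg, pcPoly_mul, pcPoly_blkC, pcPoly_qC, pcPoly_qC,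
    ← sub_eq_add_neg, sub_eq_zero] at h1
  exact h1

/-- one product -/
private theorem hf1_prod {E : ExH} {r : RT} {b : ℕ} {x : List NDC} (h : rtH E r b x) (j : Fin E.length) :
    ((E.getD j []).map cihVal).prod =
      ∏ β : Fin (rtM r), JX (toCD (rtN r) (rtB r β).1) b (pcPoly (rtN r + 1) (numB (dropE E) r j β))
        (rtK r + rtN r) 1 := by
  obtain ⟨hb, hT, hprod, hτ, hblk, hslot, hbox⟩ := h
  have hlen : (dropE E).length = E.length := List.length_map _
  have hget : (dropE E).getD (j : ℕ) [] = (E.getD (j : ℕ) []).map dropI := by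
    rw [List.getD_eq_getElem _ _ (by rw [hlen]; exact j.2), List.getD_eq_getElem _ _ j.2]
    exact List.getElem_map _
  have hlj : ((dropE E).getD (j : ℕ) []).length = (E.getD (j : ℕ) []).length := by
    rw [hget, List.length_map]
  have hEj : E.getD (j : ℕ) [] ∈ E := by
    rw [List.getD_eq_getElem _ _ j.2]
    exact List.getElem_mem _
  obtain ⟨s1, s2, s3⟩ := hslot j (List.mem_range.2 (by rw [hlen]; exact j.2))
  rw [hlj] at s3
  rw [prod_slots (E.getD j []) ((0, (0, ((pcNat 1, pcNat 1), []))) : CIH) cihVal (ν := rtM r)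
    (fun β => (rtS r j β).1)
    (fun β β' hβ hββ => Fin.ext (s2 β (List.mem_range.2 β.2) β' (List.mem_range.2 β'.2)
      (by rw [hlj]; exact hβ) hββ))
    (fun i hi => by
      obtain ⟨β, hβ, hβi⟩ := s3 i (List.mem_range.2 hi)
      exact ⟨⟨β, List.mem_range.1 hβ⟩, hβi⟩)]
  refine Finset.prod_congr rfl fun β _ => ?_
  obtain ⟨o1, o2, o3, -, -⟩ := hblk β (List.mem_range.2 β.2)
  have hN : NdC (toCD (rtN r) (rtB r β).1) b := ndC_sound (by omega) o3
  unfold numB
  by_cases hβ : (rtS r j β).1 < (E.getD (j : ℕ) []).length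
  · have hit : itemT (dropE E) j (rtS r j β).1 =
        dropI ((E.getD (j : ℕ) []).getD (rtS r j β).1 ((0, (0, ((pcNat 1, pcNat 1), []))) : CIH)) := by
      unfold itemT
      rw [hget, List.getD_eq_getElem _ _ (by rw [List.length_map]; exact hβ), List.getElem_map,
        List.getD_eq_getElem _ _ hβ]
    have h1 := s1 β (List.mem_range.2 β.2) (by rw [hlj]; exact hβ)
    rw [hτ, hit] at h1
    have hI := hbox _ hEj ((E.getD (j : ℕ) []).getD (rtS r j β).1 ((0, (0, ((pcNat 1, pcNat 1), []))) : CIH))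
      (by rw [List.getD_eq_getElem _ _ hβ]; exact List.getElem_mem _)
    rw [if_pos hβ, if_pos (by rw [hlj]; exact hβ), hit]
    exact cihVal_eq hb h1 hI o1 o2 hN
  · rw [if_neg hβ, if_neg (by rw [hlj]; exact hβ), pcPoly_pow, pcPoly_qC,
      JX_pow_Q ((okC_iff _ _).1 o1) hb hN ⟨zero_le_one, le_refl 1⟩]

/-- Soundness of the reduction. Proof: as `extVal_eq` (PT/TRedC.lean) and `TRedC_prod`: `exhVal E = ∑ j, ∏ over the factors`, `prod_slots`, `cihVal_eq` for the used slots and `JX_pow_Q` for the others; `JX_sum`, `JX_blocks`. (The factors of `dropE E` are the `dropI I`; all boxes are `b`.) -/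
theorem exhVal_eq {E : ExH} {r : RT} {b : ℕ} {x : List NDC} (h : rtH E r b x) :
    exhVal E = JX (toCD (rtM r * rtN r) (rtC r)) b (pcPoly (rtM r * rtN r + 1) (numG (dropE E) r))
      (rtM r * (rtK r + rtN r)) 1 := by
  obtain ⟨hb, hT, hB, hN, hP, hNT, hcof⟩ := rtH_spec h
  have ht : (1 : ℝ) ∈ Icc (0 : ℝ) 1 := ⟨zero_le_one, le_refl 1⟩
  have e1 : exhVal E = ∑ j : Fin E.length, ((E.getD j []).map cihVal).prod := by
    unfold exhVal
    rw [← Fin.sum_univ_fun_getElem]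
    refine Finset.sum_congr rfl fun j _ => ?_
    rw [List.getD_eq_getElem E [] j.2]
  rw [e1, Finset.sum_congr rfl fun j _ => hf1_prod h j]
  have hlen : (dropE E).length = E.length := List.length_map _
  have e2 : pcPoly (rtM r * rtN r + 1) (numG (dropE E) r) =
      ∑ j : Fin E.length, ∏ β : Fin (rtM r), rename (bidx (rtN r) (rtM r) β)
        (pcPoly (rtN r + 1) (numB (dropE E) r j β)) *
          pcPoly (rtM r * rtN r + 1) (rtB r β).2.2 ^ (rtK r + rtN r) := by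
    unfold numG
    rw [hlen, pcPoly_sumRange]
    refine Finset.sum_congr rfl fun j _ => ?_
    rw [pcPoly_prodRange]
    refine Finset.prod_congr rfl fun β _ => ?_
    rw [pcPoly_mul, pcPoly_blkC, pcPoly_pow]
  rw [e2, JX_sum hT hb hNT ht]
  refine Finset.sum_congr rfl fun j _ => ?_
  exact (JX_blocks (c := fun β : Fin (rtM r) => toCD (rtN r) (rtB r β).1) hB hT hP hb hN ht
    (fun β => pcPoly (rtN r + 1) (numB (dropE E) r j β)) (rtK r + rtN r)
    (fun β => pcPoly (rtM r * rtN r + 1) (rtB r β).2.2) hcof).symm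

/-- Soundness of the certificates for zero. Proof: as `checkZT_sound` (PT/TCheck.lean): `PhiT_eq_zero`, then `JX_one_eq_zero` (`qval (qnat 1) = 1`). -/
theorem checkZT_soundH {n b : ℕ} (hb : 2 ≤ b) {c : CDC} {G : PCode} {K : ℕ} {x : ZCT} (hc : (toCD n c).Ok)
    (hN : NdC (toCD n c) b) (h : checkZT n c G K (qnat 1) x) : JX (toCD n c) b (pcPoly (n + 1) G) K 1 = 0 := by
  obtain ⟨⟨⟨⟨κ, K'⟩, ρ, L⟩, j, K''⟩, ⟨⟨z, a⟩, g, E⟩, H, U⟩ := x
  obtain ⟨hle, hle', hz, hex, hin⟩ := h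
  simp only at hle hle' hz hex hin
  have hS := hf1_sC n c G (qnat 1) j U
  obtain ⟨S, hSd⟩ : ∃ S, S = sC (qC c) G (qnat 1) j U := ⟨_, rfl⟩
  rw [← hSd] at hS hex hin
  have hcert : IsZeroT (toCD n c) (pcPoly (n + 1) S) (K + j) κ K' ρ L
      (fun i => ((z.getD i (0, 0)).1 : ℤ) - ((z.getD i (0, 0)).2 : ℤ))
      (fun i => polyOf (a.getD i []))
      (fun l => pcPoly (n + 1) (g.getD l [])) K'' (fun l => pcPoly (n + 1) (E.getD l []))
      (pcPoly (n + 1) H) := by
    refine ⟨hle, ?_, ?_, ?_, hle', ?_⟩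
    · obtain ⟨i, hi, hne⟩ := hz.1
      refine ⟨i, hi, fun h => hne ?_⟩
      exact_mod_cast sub_eq_zero.1 h
    · refine le_trans ?_ hz.2
      rw [hf1_foldr (ρ + 1) fun i => z.getD i (0, 0)]
      refine Finset.sum_le_sum fun i _ => ?_
      omega
    · rw [pcIsZero_iff, exactTC, pcPoly_append, pcPoly_neg, pcPoly_divTC, pcPoly_mul, pcPoly_pow,
        pcPoly_tC, pcPoly_sumRange, ← sub_eq_add_neg, sub_eq_zero] at hex
      rw [← hex, Finset.sum_range]
      congr 1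
      refine Finset.sum_congr rfl fun i _ => ?_
      rw [pcPoly_mul, pcPoly_mul, pcPoly_append, pcPoly_constC, pcPoly_mul, pcPoly_tC,
        pcPoly_trunc_inT, pcPoly_thNC, pcPoly_pow, pcPoly_qC]
      have h1 : qval (z.getD i (0, 0), 0) =
          ((((z.getD i (0, 0)).1 : ℤ) - ((z.getD i (0, 0)).2 : ℤ) : ℤ) : ℚ) := by
        unfold qval
        push_cast
        rw [zero_add, div_one]
      rw [h1]
    · rw [pcIsZero_iff, initTC, pcPoly_append, pcPoly_neg, pcPoly_append, pcPoly_mul, pcPoly_pow,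
        pcPoly_divTC, pcPoly_mul, pcPoly_pow, pcPoly_tC, pcPoly_qC, ← sub_eq_add_neg,
        sub_eq_zero] at hin
      exact hin
  have hPhi := PhiT_eq_zero hc hcert
  rw [hS, hf1_one] at hPhi
  exact JX_one_eq_zero hc hb hN hPhi

/-- Soundness of the verification. -/
theorem checkH_sound {E : ExH} {c : HCt} (h : checkH E c) : c.2.1 = true ↔ exhVal E = 0 := by
  obtain ⟨hr, hz | hn⟩ := h
  · obtain ⟨hb, hT, -, -, -, hN, -⟩ := rtH_spec hr
    rw [exhVal_eq hr]
    exact ⟨fun _ => checkZT_soundH hb hT hN hz.2, fun _ => hz.1⟩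
  · obtain ⟨hb, hT, -, -, -, hN, -⟩ := rtH_spec hr
    rw [exhVal_eq hr]
    refine ⟨fun h' => absurd h' (by rw [hn.1]; exact Bool.false_ne_true), fun h' => absurd h' (checkNH_sound hb hT hN hn.2)⟩

end Pool.Agent.Lib.MP_bbe012_lc.PH
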