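import Pool.Agent.Lib.MP_bbe012_lc.PH.HB1
import Pool.Agent.Lib.MP_bbe012_lc.PH.HC0
import Pool.Agent.Lib.MP_bbe012_lc.PH.HC3
import Pool.Agent.Lib.MP_bbe012_lc.PT.CDex

/-!
# Charts along a polynomial path of parameters
-/

namespace Pool.Agent.Lib.MP_bbe012_lc.PH

open MvPolynomial MeasureTheory Set PP PG PT

/-- Substitution of a polynomial path. -/
noncomputable def sbP {s n : ℕ} (γ : Fin s → Polynomial ℚ) : Pz s n →ₐ[ℚ] TP n ℚ :=
  aeval (Sum.elim (fun i => inT n (γ i)) fun l => X l.succ)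

/-- The point of the path at `t`. -/
noncomputable def gt {s : ℕ} (γ : Fin s → Polynomial ℚ) (t : ℝ) : Fin s → ℝ := fun i => Polynomial.aeval t (γ i)

private theorem hg0_inT_C {n : ℕ} (a : ℚ) : inT n (Polynomial.C a) = C a := by
  change Polynomial.aeval (X 0 : P1 n) (Polynomial.C a) = C a
  rw [Polynomial.aeval_C]
  rfl

private theorem hg0_inT_X {n : ℕ} : inT n Polynomial.X = X 0 := by
  change Polynomial.aeval (X 0 : P1 n) Polynomial.X = X 0
  rw [Polynomial.aeval_X]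

private theorem hg0_pderiv_inT {n : ℕ} (j : Fin n) (p : Polynomial ℚ) :
    pderiv j.succ (inT n p) = 0 := by
  induction p using Polynomial.induction_on' with
  | add p q hp hq => rw [map_add, map_add, hp, hq, add_zero]
  | monomial k a =>
    rw [← Polynomial.C_mul_X_pow_eq_monomial, map_mul, map_pow, hg0_inT_C, hg0_inT_X,
      pderiv_C_mul, pderiv_pow, pderiv_X_of_ne (Fin.succ_ne_zero j).symm, mul_zero, mul_zero]

private theorem hg0_sbP_inl {s n : ℕ} (γ : Fin s → Polynomial ℚ) (i : Fin s) :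
    sbP (n := n) γ (X (Sum.inl i)) = inT n (γ i) := by
  unfold sbP
  rw [aeval_X]
  rfl

private theorem hg0_sbP_inr {s n : ℕ} (γ : Fin s → Polynomial ℚ) (l : Fin n) :
    sbP (n := n) γ (X (Sum.inr l)) = X l.succ := by
  unfold sbP
  rw [aeval_X]
  rfl

private theorem hg0_sbP_C {s n : ℕ} (γ : Fin s → Polynomial ℚ) (a : ℚ) :
    sbP (n := n) γ (C a) = C a := by
  unfold sbP
  rw [aeval_C]
  rfl

private theorem hg0_aeval_inT {n : ℕ} (p : Polynomial ℚ) (t : ℝ) (x : Fin n → ℝ) :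
    aeval (Fin.cons t x : Fin (n + 1) → ℝ) (inT n p) = Polynomial.aeval t p := by
  change aeval (Fin.cons t x : Fin (n + 1) → ℝ) (Polynomial.aeval (X 0 : P1 n) p) = _
  rw [← Polynomial.aeval_algHom_apply, aeval_X]
  rfl

/-- Proof: both sides are algebra homomorphisms in `D` (`MvPolynomial.algHom_ext` / induction on `D`). -/
theorem aeval_sbP {s n : ℕ} (γ : Fin s → Polynomial ℚ) (D : Pz s n) (t : ℝ) (x : Fin n → ℝ) :
    aeval (Fin.cons t x : Fin (n + 1) → ℝ) (sbP γ D) = vl D (gt γ t) x := by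
  induction D using MvPolynomial.induction_on with
  | C a =>
    unfold vl
    rw [hg0_sbP_C, aeval_C, aeval_C]
  | add p q hp hq =>
    unfold vl at hp hq ⊢
    rw [map_add, map_add, map_add, hp, hq]
  | mul_X p i hp =>
    unfold vl at hp ⊢
    rw [map_mul, map_mul, map_mul, hp]
    rcases i with i | l
    · rw [hg0_sbP_inl, hg0_aeval_inT, aeval_X]
      rfl
    · rw [hg0_sbP_inr, aeval_X, aeval_X]
      rfl

/-- The hypotheses on the region. -/
structure RegOK {s n μ : ℕ} (F : Fin μ → Typ s n) (b : ℕ) (e : Fin s → ℚ) (Ω : Set (Fin s → ℝ)) : Prop where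
  b2 : 2 ≤ b
  base : ∀ k, (F k).Base e
  op : IsOpen Ω
  pre : IsPreconnected Ω
  mem : cst e ∈ Ω
  nond : ∀ k, Ω ⊆ (F k).Nond b

/-- A polynomial path in the region. -/
structure PathOK {s : ℕ} (γ : Fin s → Polynomial ℚ) (e : Fin s → ℚ) (Ω : Set (Fin s → ℝ)) : Prop where
  zero : ∀ i, (γ i).eval 0 = e i
  mem : ∀ t ∈ Icc (0 : ℝ) 1, gt γ t ∈ Ω

/-- The chart given by a family along a path. -/
structure IsPathC {s n : ℕ} (F : Typ s n) (γ : Fin s → Polynomial ℚ) (c : CD n ℚ) : Prop where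
  ok : c.Ok
  A : ∀ l, c.A l = sbP γ (F.A l)
  B : ∀ l, c.B l = sbP γ (F.B l)
  Q : c.Q = sbP γ F.D * ((Matrix.of fun i j : Fin n => c.jac i j.succ).det * ∏ l, c.B l)

private theorem hg0_atZD_C {n : ℕ} (a : ℚ) : atZD n ℚ (C a) = C a := by
  unfold atZD
  rw [aeval_C]
  rfl

private theorem hg0_atZD_X0 {n : ℕ} : atZD n ℚ (X 0) = 0 := by
  unfold atZD
  rw [aeval_X]
  rfl

private theorem hg0_atZD_Xs {n : ℕ} (l : Fin n) : atZD n ℚ (X l.succ) = X l := by
  unfold atZD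
  rw [aeval_X]
  rfl

private theorem hg0_atZD_inT {n : ℕ} (p : Polynomial ℚ) : atZD n ℚ (inT n p) = C (p.eval 0) := by
  change atZD n ℚ (Polynomial.aeval (X 0 : P1 n) p) = _
  rw [← Polynomial.aeval_algHom_apply, hg0_atZD_X0, Polynomial.aeval_def, Polynomial.eval₂_at_zero,
    Polynomial.coeff_zero_eq_eval_zero]
  rfl

private theorem hg0_atZD_sbP {s n : ℕ} {e : Fin s → ℚ} {γ : Fin s → Polynomial ℚ}
    (h0 : ∀ i, (γ i).eval 0 = e i) (D : Pz s n) : atZD n ℚ (sbP γ D) = spz D e := by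
  induction D using MvPolynomial.induction_on with
  | C a =>
    unfold spz
    rw [hg0_sbP_C, hg0_atZD_C, aeval_C]
    rfl
  | add p q hp hq =>
    unfold spz at hp hq ⊢
    rw [map_add, map_add, map_add, hp, hq]
  | mul_X p i hp =>
    unfold spz at hp ⊢
    rw [map_mul, map_mul, map_mul, hp]
    rcases i with i | l
    · rw [hg0_sbP_inl, hg0_atZD_inT, h0, aeval_X]
      rfl
    · rw [hg0_sbP_inr, hg0_atZD_Xs, aeval_X]
      rfl

private theorem hg0_jac {n : ℕ} (p q : TP n ℚ) (i j : Fin n) :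
    (X 0 : TP n ℚ) ∣ ((1 + X 0 * q) * pderiv j.succ (X i.succ + X 0 * p) -
      (X i.succ + X 0 * p) * pderiv j.succ (1 + X 0 * q)) - (if i = j then 1 else 0) := by
  have h0 : pderiv j.succ (X 0 : TP n ℚ) = 0 :=
    pderiv_X_of_ne (Fin.succ_ne_zero j).symm
  have h1 : pderiv j.succ (X i.succ : TP n ℚ) = if i = j then 1 else 0 := by
    by_cases h : i = j
    · rw [if_pos h, h, pderiv_X_self]
    · rw [if_neg h, pderiv_X_of_ne (fun h2 => h (Fin.succ_injective n h2))]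
  have h2 : ∀ F : TP n ℚ, pderiv j.succ (X 0 * F) = X 0 * pderiv j.succ F := by
    intro F
    rw [Derivation.leibniz, h0, smul_zero, add_zero, smul_eq_mul]
  have h3 : pderiv j.succ (1 : TP n ℚ) = 0 := Derivation.map_one_eq_zero _
  rw [map_add, map_add, h2, h2, h1, h3]
  refine ⟨q * (if i = j then 1 else 0) + (1 + X 0 * q) * pderiv j.succ p -
    (X i.succ + X 0 * p) * pderiv j.succ q, ?_⟩
  ring

private theorem hg0_exists_cd {n : ℕ} (p q : Fin n → TP n ℚ) (s₀ : TP n ℚ) :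
    ∃ c : CD n ℚ, c.Ok ∧ c.p = p ∧ c.q = q ∧
      c.Q = (1 + X 0 * s₀) * ((Matrix.of fun i j : Fin n => c.jac i j.succ).det * ∏ l, c.B l) := by
  classical
  let A : Fin n → TP n ℚ := fun i => X i.succ + X 0 * p i
  let B : Fin n → TP n ℚ := fun i => 1 + X 0 * q i
  let M : Matrix (Fin n) (Fin n) (TP n ℚ) := fun i j =>
    B i * pderiv j.succ (A i) - A i * pderiv j.succ (B i)
  let J : Fin n → TP n ℚ := fun i => B i * pderiv 0 (A i) - A i * pderiv 0 (B i)
  let E : TP n ℚ := 1 + X 0 * s₀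
  let π : TP n ℚ →+* TP n ℚ ⧸ Ideal.span {(X 0 : TP n ℚ)} := Ideal.Quotient.mk _
  have hπ0 : π (X 0) = 0 := by
    rw [Ideal.Quotient.eq_zero_iff_mem]
    exact Ideal.mem_span_singleton_self _
  have hπ1 : ∀ F : TP n ℚ, π (1 + X 0 * F) = 1 := by
    intro F
    rw [map_add, map_mul, hπ0, zero_mul, add_zero, map_one]
  have hM : π.mapMatrix M = 1 := by
    ext i j
    have h1 : (X 0 : TP n ℚ) ∣ M i j - (if i = j then 1 else 0) := hg0_jac (p i) (q i) i j
    have h2 : π (M i j) = π (if i = j then 1 else 0) := by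
      rw [Ideal.Quotient.eq, Ideal.mem_span_singleton]
      exact h1
    rw [RingHom.mapMatrix_apply, Matrix.map_apply, h2, Matrix.one_apply]
    by_cases h : i = j
    · rw [if_pos h, if_pos h, map_one]
    · rw [if_neg h, if_neg h, map_zero]
  have hdet : π M.det = 1 := by
    rw [RingHom.map_det, hM, Matrix.det_one]
  have hQ : π (E * M.det * ∏ l, B l) = 1 := by
    have h1 : π (∏ l, B l) = 1 := by
      rw [map_prod]
      exact Finset.prod_eq_one fun l _ => hπ1 (q l)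
    rw [map_mul, map_mul, hdet, h1, hπ1 s₀, one_mul, one_mul]
  obtain ⟨s, hs⟩ : (X 0 : TP n ℚ) ∣ E * M.det * (∏ l, B l) - 1 := by
    rw [← Ideal.mem_span_singleton, ← Ideal.Quotient.eq_zero_iff_mem]
    change π _ = 0
    rw [map_sub, hQ, map_one, sub_self]
  have hs' : 1 + X 0 * s = E * M.det * ∏ l, B l := by
    rw [← hs]
    ring
  have hadj : ∀ i l : Fin n, ∑ j, M i j * M.adjugate j l = if i = l then M.det else 0 := by
    intro i l
    have h1 := congrFun (congrFun (Matrix.mul_adjugate M) i) l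
    rw [Matrix.mul_apply, Matrix.smul_apply, Matrix.one_apply, smul_eq_mul] at h1
    rw [h1]
    by_cases h : i = l
    · rw [if_pos h, if_pos h, mul_one]
    · rw [if_neg h, if_neg h, mul_zero]
  refine ⟨⟨p, q, s, fun l => E * M.det * ∏ i ∈ Finset.univ.erase l, B i,
    fun l j => B l ^ 2 * (E * ∏ i, B i) * M.adjugate j l,
    fun j => (E * ∏ i, B i) * ∑ l, M.adjugate j l * J l⟩, ⟨?_, ?_, ?_⟩, rfl, rfl, ?_⟩
  · intro l
    change B l * (E * M.det * ∏ i ∈ Finset.univ.erase l, B i) = 1 + X 0 * s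
    rw [hs', ← Finset.mul_prod_erase Finset.univ B (Finset.mem_univ l)]
    ring
  · intro l i
    change ∑ j : Fin n, B l ^ 2 * (E * ∏ i, B i) * M.adjugate j l * M i j =
      if l = i then (1 + X 0 * s) * B i ^ 2 else 0
    have h1 : ∑ j : Fin n, B l ^ 2 * (E * ∏ i, B i) * M.adjugate j l * M i j =
        B l ^ 2 * (E * ∏ i, B i) * ∑ j, M i j * M.adjugate j l := by
      rw [Finset.mul_sum]
      exact Finset.sum_congr rfl fun j _ => by ring
    rw [h1, hadj i l, hs']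
    by_cases h : l = i
    · rw [if_pos h, if_pos h.symm, h]
      ring
    · rw [if_neg h, if_neg (fun h2 => h h2.symm), mul_zero]
  · intro i
    change ∑ j : Fin n, (E * ∏ i, B i) * (∑ l, M.adjugate j l * J l) * M i j =
      (1 + X 0 * s) * J i
    have h1 : ∑ j : Fin n, (E * ∏ i, B i) * (∑ l, M.adjugate j l * J l) * M i j =
        (E * ∏ i, B i) * ∑ l, (∑ j, M i j * M.adjugate j l) * J l := by
      simp only [Finset.mul_sum, Finset.sum_mul]
      rw [Finset.sum_comm]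
      exact Finset.sum_congr rfl fun l _ => Finset.sum_congr rfl fun j _ => by ring
    have h2 : ∑ l, (∑ j, M i j * M.adjugate j l) * J l = M.det * J i := by
      rw [Finset.sum_eq_single i]
      · rw [hadj, if_pos rfl]
      · intro l _ hl
        rw [hadj, if_neg (fun h => hl h.symm), zero_mul]
      · intro h
        exact absurd (Finset.mem_univ i) h
    rw [h1, h2, hs']
    ring
  · change 1 + X 0 * s = E * (M.det * ∏ l, B l)
    rw [hs', mul_assoc]

/-- Existence.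

Proof. `atZD n ℚ (sbP γ (F.A l)) = spz (F.A l) e = X l` (algebra homomorphisms; `atZD (inT (γ i)) = C ((γ i).eval 0)`), so `sbP γ (F.A l) = X l.succ + X 0 * p l` (`exists_div_X0`, PT/Th.lean), `sbP γ (F.B l) = 1 + X 0 * q l`, `sbP γ F.D = 1 + X 0 * s₀`. The proof of `exists_cd` (PT/CDex.lean) for `p`, `q`, `s₀` gives a chart with
`Q = (1 + X 0 * s₀) * Δ * ∏ l, B_l`, `Δ = det (jac i j.succ)` (repeat this proof; the statement of `exists_cd` does not give the formula for `Q`). -/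
theorem exists_pathC {s n : ℕ} {F : Typ s n} {e : Fin s → ℚ} (he : F.Base e) {γ : Fin s → Polynomial ℚ}
    (h0 : ∀ i, (γ i).eval 0 = e i) : ∃ c : CD n ℚ, IsPathC F γ c := by
  obtain ⟨⟨hAB, hD⟩⟩ := And.intro he trivial
  have hA : ∀ l, ∃ V : TP n ℚ, sbP γ (F.A l) = X l.succ + X 0 * V := by
    intro l
    obtain ⟨V, hV⟩ := exists_div_X0 (sbP γ (F.A l))
    refine ⟨V, ?_⟩
    rw [hg0_atZD_sbP h0, (hAB l).1, rename_X] at hV
    exact hV
  have hB : ∀ l, ∃ V : TP n ℚ, sbP γ (F.B l) = 1 + X 0 * V := by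
    intro l
    obtain ⟨V, hV⟩ := exists_div_X0 (sbP γ (F.B l))
    refine ⟨V, ?_⟩
    rw [hg0_atZD_sbP h0, (hAB l).2, map_one] at hV
    exact hV
  have hDD : ∃ V : TP n ℚ, sbP γ F.D = 1 + X 0 * V := by
    obtain ⟨V, hV⟩ := exists_div_X0 (sbP γ F.D)
    refine ⟨V, ?_⟩
    rw [hg0_atZD_sbP h0, hD, map_one] at hV
    exact hV
  choose p hp using hA
  choose q hq using hB
  obtain ⟨s₀, hs₀⟩ := hDD
  obtain ⟨c, hc, hcp, hcq, hcQ⟩ := hg0_exists_cd p q s₀
  refine ⟨c, hc, fun l => ?_, fun l => ?_, ?_⟩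
  · rw [hp l, ← hcp]
    rfl
  · rw [hq l, ← hcq]
    rfl
  · rw [hcQ, hs₀]

/-- Proof: `aeval_sbP`. -/
theorem KC_path {s n : ℕ} {F : Typ s n} {γ : Fin s → Polynomial ℚ} {c : CD n ℚ} (hc : IsPathC F γ c) (b : ℕ) (t : ℝ) :
    KC c b t = F.dom b (gt γ t) := by
  ext x
  refine forall_congr' fun l => ?_
  rw [hc.A l, hc.B l, aeval_sbP, aeval_sbP]

private theorem hg0_pderiv {s n : ℕ} (γ : Fin s → Polynomial ℚ) (D : Pz s n) (j : Fin n) :
    pderiv j.succ (sbP γ D) = sbP γ (pderiv (Sum.inr j) D) := by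
  induction D using MvPolynomial.induction_on with
  | C a => rw [hg0_sbP_C, pderiv_C, pderiv_C, map_zero]
  | add p q hp hq => rw [map_add, map_add, map_add, map_add, hp, hq]
  | mul_X p i hp =>
    have hX : pderiv j.succ (sbP (n := n) γ (X i)) = sbP γ (pderiv (Sum.inr j) (X i)) := by
      rcases i with i | l
      · rw [hg0_sbP_inl, hg0_pderiv_inT, pderiv_X_of_ne Sum.inl_ne_inr, map_zero]
      · rw [hg0_sbP_inr]
        by_cases h : l = j
        · rw [h, pderiv_X_self, pderiv_X_self, map_one]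
        · rw [pderiv_X_of_ne (fun h2 => h (Fin.succ_injective n h2)),
            pderiv_X_of_ne (fun h2 => h (Sum.inr_injective h2)), map_zero]
    rw [map_mul, pderiv_mul, pderiv_mul, map_add, map_mul, map_mul, hp, hX]

private theorem hg0_jacdet {s n : ℕ} {F : Typ s n} {γ : Fin s → Polynomial ℚ} {c : CD n ℚ} (hc : IsPathC F γ c) :
    (Matrix.of fun i j : Fin n => c.jac i j.succ).det = sbP γ F.jd := by
  unfold Typ.jd
  rw [AlgHom.map_det]
  congr 1
  ext1 i j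
  change c.B i * pderiv j.succ (c.A i) - c.A i * pderiv j.succ (c.B i) =
    sbP γ (F.B i * pderiv (Sum.inr j) (F.A i) - F.A i * pderiv (Sum.inr j) (F.B i))
  rw [hc.A i, hc.B i, hg0_pderiv, hg0_pderiv, map_sub, map_mul, map_mul]

private theorem hg0_qq {s n : ℕ} {F : Typ s n} {γ : Fin s → Polynomial ℚ} {c : CD n ℚ} (hc : IsPathC F γ c)
    (t : ℝ) (x : Fin n → ℝ) : aeval (Fin.cons t x : Fin (n + 1) → ℝ) ((Matrix.of fun i j : Fin n => c.jac i j.succ).det * ∏ l, c.B l) =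
      vl F.jd (gt γ t) x * ∏ l, vl (F.B l) (gt γ t) x := by
  rw [map_mul, hg0_jacdet hc, aeval_sbP, map_prod]
  congr 1
  exact Finset.prod_congr rfl fun l _ => by rw [hc.B l, aeval_sbP]

/-- Proof: `KC_path`; `dom_pos` for `gt γ t ∈ Ω`; `Q = D * jd * ∏ B` at `(t, x)`: the value of `det (jac i j.succ)` at `(t, x)` is `vl F.jd (gt γ t) x` (`pderiv j.succ (sbP γ D) = sbP γ (pderiv (Sum.inr j) D)`, by induction on `D`; `AlgHom.map_det`). -/
theorem NdC_path {s n μ : ℕ} {F : Fin μ → Typ s n} {b : ℕ} {e : Fin s → ℚ} {Ω : Set (Fin s → ℝ)} (hR : RegOK F b e Ω)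
    {γ : Fin s → Polynomial ℚ} (hγ : PathOK γ e Ω) {k : Fin μ} {c : CD n ℚ} (hc : IsPathC (F k) γ c) : NdC c b := by
  intro t ht x hx
  rw [KC_path hc] at hx
  obtain ⟨h1, h2, h3⟩ := Typ.dom_pos hR.b2 (hR.base k) hR.pre hR.mem (hR.nond k) (hγ.mem t ht) hx
  refine ⟨fun l => (h1 l).1, ?_⟩
  rw [hc.Q, map_mul, aeval_sbP, hg0_qq hc]
  exact mul_pos h3 (mul_pos h2 (Finset.prod_pos fun l _ => (h1 l).2))

/-- `Q = D Q'`, along the path. -/
noncomputable def qq {n : ℕ} (c : CD n ℚ) : TP n ℚ := (Matrix.of fun i j : Fin n => c.jac i j.succ).det * ∏ l, c.B l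

/-- The numerator of `x ^ a / D ^ κ` times the Jacobian, over the denominator `Q ^ (A + n)`. -/
noncomputable def mnum {n : ℕ} (c : CD n ℚ) (A : ℕ) (a : Fin n → Fin (A + 1)) (κ : Fin (A + 1)) : TP n ℚ :=
  (∏ l, X l.succ ^ (a l : ℕ)) * (Matrix.of c.V).det * (qq c ^ (κ : ℕ) * c.Q ^ (A - (κ : ℕ)))

/-- The integrals along the path.

Proof. `vH` is the integral of `x ^ a / D ^ κ` over `F.dom b (gt γ t) = KC c b t` (`KC_path`); `integral_KC`. Pointwise at `ptX c b t u` (with `Q > 0`, `Q = D Q'`, so `D ≠ 0`): `x ^ a * det V * (Q' ^ κ * Q ^ (A - κ)) / Q ^ (A + n) = x ^ a / D ^ κ * (det V / Q ^ n)`. -/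
theorem JX_mnum {s n μ : ℕ} {F : Fin μ → Typ s n} {b : ℕ} {e : Fin s → ℚ} {Ω : Set (Fin s → ℝ)} (hR : RegOK F b e Ω)
    {γ : Fin s → Polynomial ℚ} (hγ : PathOK γ e Ω) {k : Fin μ} {c : CD n ℚ} (hc : IsPathC (F k) γ c) (A : ℕ)
    (a : Fin n → Fin (A + 1)) (κ : Fin (A + 1)) {t : ℝ} (ht : t ∈ Icc (0 : ℝ) 1) :
    JX c b (mnum c A a κ) (A + n) t = vH (F k) b (fun l => (a l : ℕ)) κ (gt γ t) := by
  have hN := NdC_path hR hγ hc
  unfold vH
  rw [← KC_path hc b t, integral_KC hc.ok hR.b2 hN ht]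
  unfold JX
  refine setIntegral_congr_fun measurableSet_Icc fun u hu => ?_
  have hq := ptX_Q_pos hc.ok hR.b2 hN ht hu
  have hpt : ptX c b t u = (Fin.cons t (XC c b (t, u)) : Fin (n + 1) → ℝ) := rfl
  have hQ : aeval (ptX c b t u) c.Q = vl (F k).D (gt γ t) (XC c b (t, u)) * aeval (ptX c b t u) (qq c) := by
    rw [hc.Q, map_mul, hpt, aeval_sbP]
    rfl
  have hm : aeval (ptX c b t u) (mnum c A a κ) = (∏ l, XC c b (t, u) l ^ (a l : ℕ)) *
      aeval (ptX c b t u) (Matrix.of c.V).det * (aeval (ptX c b t u) (qq c) ^ (κ : ℕ) * aeval (ptX c b t u) c.Q ^ (A - (κ : ℕ))) := by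
    unfold mnum
    rw [map_mul, map_mul, map_mul, map_pow, map_pow, map_prod]
    congr 2
    refine Finset.prod_congr rfl fun l _ => ?_
    rw [map_pow, aeval_X]
    rfl
  have hD0 : vl (F k).D (gt γ t) (XC c b (t, u)) ≠ 0 := by
    intro h0
    rw [hQ, h0, zero_mul] at hq
    exact lt_irrefl _ hq
  have hq0 : aeval (ptX c b t u) (qq c) ≠ 0 := by
    intro h0
    rw [hQ, h0, mul_zero] at hq
    exact lt_irrefl _ hq
  have hκ : (κ : ℕ) ≤ A := Nat.lt_succ_iff.1 κ.2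
  have hpow : aeval (ptX c b t u) c.Q ^ (A + n) = aeval (ptX c b t u) c.Q ^ (A - (κ : ℕ)) *
      (vl (F k).D (gt γ t) (XC c b (t, u)) ^ (κ : ℕ) * aeval (ptX c b t u) (qq c) ^ (κ : ℕ)) *
        aeval (ptX c b t u) c.Q ^ n := by
    rw [← mul_pow, ← hQ, ← pow_add, Nat.sub_add_cancel hκ, ← pow_add]
  change aeval (ptX c b t u) (mnum c A a κ) / aeval (ptX c b t u) c.Q ^ (A + n) =
    (∏ l, XC c b (t, u) l ^ (a l : ℕ)) / vl (F k).D (gt γ t) (XC c b (t, u)) ^ (κ : ℕ) *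
      (aeval (ptX c b t u) (Matrix.of c.V).det / aeval (ptX c b t u) c.Q ^ n)
  rw [hm, hpow, div_mul_div_comm, div_eq_div_iff]
  · ring
  · exact mul_ne_zero (mul_ne_zero (pow_ne_zero _ hq.ne') (mul_ne_zero (pow_ne_zero _ hD0) (pow_ne_zero _ hq0))) (pow_ne_zero _ hq.ne')
  · exact mul_ne_zero (pow_ne_zero _ hD0) (pow_ne_zero _ hq.ne')

end Pool.Agent.Lib.MP_bbe012_lc.PH
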