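import Pool.Agent.Lib.MP_bbe012_lc.PH.HG0
import Pool.Agent.Lib.MP_bbe012_lc.PH.HC1
import Pool.Agent.Lib.MP_bbe012_lc.PH.HA4
import Pool.Agent.Lib.MP_bbe012_lc.PH.HA5

/-!
# Products of integrals, their numerators on the product chart, and the generic relations
-/

namespace Pool.Agent.Lib.MP_bbe012_lc.PH

open MvPolynomial MeasureTheory Set PP PG PT

/-- A factor: nothing, or a family, the exponents of a monomial and the exponent of the denominator. -/
abbrev IH (μ n A : ℕ) := Option (Fin μ × ((Fin n → Fin (A + 1)) × Fin (A + 1)))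

/-- Patterns: `A` factors. -/
abbrev PatH (μ n A : ℕ) := Fin A → IH μ n A

/-- The function of a factor. -/
noncomputable def fH {s n μ : ℕ} (F : Fin μ → Typ s n) (b A : ℕ) (y : IH μ n A) (θ : Fin s → ℝ) : ℝ :=
  match y with
  | none => 1
  | some z => vH (F z.1) b (fun l => (z.2.1 l : ℕ)) z.2.2 θ

/-- The function of a pattern. -/
noncomputable def VPH {s n μ : ℕ} (F : Fin μ → Typ s n) (b A : ℕ) (p : PatH μ n A) (θ : Fin s → ℝ) : ℝ :=
  ∏ i, fH F b A (p i) θ

/-- The numerator of a factor on the block of type `k`. -/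
noncomputable def bnk {n μ : ℕ} (c : Fin μ → CD n ℚ) (A : ℕ) (y : IH μ n A) (k : Fin μ) : TP n ℚ :=
  match y with
  | none => (c k).Q ^ (A + n)
  | some z => if z.1 = k then mnum (c k) A z.2.1 z.2.2 else (c k).Q ^ (A + n)

/-- The numerator of the `i`-th factor on the blocks `(k, i)`. -/
noncomputable def RHk {n μ : ℕ} (c : Fin μ → CD n ℚ) (A : ℕ) (cof : Fin (μ * A) → TP (μ * A * n) ℚ) (i : Fin A)
    (y : IH μ n A) : TP (μ * A * n) ℚ :=
  ∏ k : Fin μ, rename (bidx n (μ * A) (finProdFinEquiv (k, i))) (bnk c A y k) * cof (finProdFinEquiv (k, i)) ^ (A + n)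

/-- The numerator of a pattern on the product chart. -/
noncomputable def GH {n μ : ℕ} (c : Fin μ → CD n ℚ) (A : ℕ) (cof : Fin (μ * A) → TP (μ * A * n) ℚ) (p : PatH μ n A) :
    TP (μ * A * n) ℚ := ∏ i, RHk c A cof i (p i)

/-- The product chart of `A` copies of each of the charts, and the cofactors. -/
structure TotC {n μ : ℕ} (c : Fin μ → CD n ℚ) (A : ℕ) (T : CD (μ * A * n) ℚ) (cof : Fin (μ * A) → TP (μ * A * n) ℚ) :
    Prop where
  ok : T.Ok
  prod : IsProd (fun β : Fin (μ * A) => c (finProdFinEquiv.symm β).1) T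
  cof : ∀ β : Fin (μ * A), rename (bidx n (μ * A) β) (c (finProdFinEquiv.symm β).1).Q * cof β = T.Q

/-- Proof: `exists_prodChart`; `cof β = ∏ β' ∈ univ.erase β, rename (c β').Q`. -/
theorem exists_totC {n μ : ℕ} (c : Fin μ → CD n ℚ) (hc : ∀ k, (c k).Ok) (A : ℕ) :
    ∃ (T : CD (μ * A * n) ℚ) (cof : Fin (μ * A) → TP (μ * A * n) ℚ), TotC c A T cof := by
  classical
  obtain ⟨T, hok, hT⟩ := exists_prodChart (fun β : Fin (μ * A) => c (finProdFinEquiv.symm β).1)
    fun β => hc _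
  refine ⟨T, fun β => ∏ β' ∈ Finset.univ.erase β,
    rename (bidx n (μ * A) β') (c (finProdFinEquiv.symm β').1).Q, hok, hT, fun β => ?_⟩
  rw [hT.Q]
  exact Finset.mul_prod_erase Finset.univ
    (fun β' => rename (bidx n (μ * A) β') (c (finProdFinEquiv.symm β').1).Q) (Finset.mem_univ β)

private theorem hg1_prod {μ A : ℕ} {M : Type} [CommMonoid M] (f : Fin (μ * A) → M) :
    ∏ β, f β = ∏ k : Fin μ, ∏ i : Fin A, f (finProdFinEquiv (k, i)) := by
  rw [← (finProdFinEquiv (m := μ) (n := A)).prod_comp, Fintype.prod_prod_type]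

/-- The integrals of the numerators `GH`.

Proof. `GH` is the product over `β = finProdFinEquiv (k, i)` of `rename (bnk (p i) k) * cof β ^ (A + n)` (`Finset.prod_comm`, `Fintype.prod_equiv finProdFinEquiv`, `Fintype.prod_prod_type`), so `JX_blocks` gives `∏ (k, i), JX (c k) b (bnk (p i) k) (A + n) t`; a factor is `1` if `bnk` is a power of `Q` (`JX_pow_Q`), and
`vH (F k) ...` (`JX_mnum`) if `p i = some z`, `z.1 = k`: for fixed `i` the product over `k` is `fH (p i)` (`Finset.prod_eq_single`). -/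
theorem JX_GH {s n μ A : ℕ} {F : Fin μ → Typ s n} {b : ℕ} {e : Fin s → ℚ} {Ω : Set (Fin s → ℝ)} (hR : RegOK F b e Ω)
    {γ : Fin s → Polynomial ℚ} (hγ : PathOK γ e Ω) {c : Fin μ → CD n ℚ} (hc : ∀ k, IsPathC (F k) γ (c k))
    {T : CD (μ * A * n) ℚ} {cof : Fin (μ * A) → TP (μ * A * n) ℚ} (hT : TotC c A T cof) (p : PatH μ n A) {t : ℝ}
    (ht : t ∈ Icc (0 : ℝ) 1) : JX T b (GH c A cof p) (μ * A * (A + n)) t = VPH F b A p (gt γ t) := by
  have hGH : GH c A cof p = ∏ β : Fin (μ * A), rename (bidx n (μ * A) β)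
      (bnk c A (p (finProdFinEquiv.symm β).2) (finProdFinEquiv.symm β).1) * cof β ^ (A + n) := by
    rw [hg1_prod, Finset.prod_comm]
    unfold GH RHk
    refine Finset.prod_congr rfl fun i _ => Finset.prod_congr rfl fun k _ => ?_
    rw [Equiv.symm_apply_apply]
  have hc' : ∀ β : Fin (μ * A), (c (finProdFinEquiv.symm β).1).Ok := fun β => (hc _).ok
  have hN : ∀ k, NdC (c k) b := fun k => NdC_path hR hγ (hc k)
  rw [hGH, JX_blocks hc' hT.ok hT.prod hR.b2 (fun β => hN _) ht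
    (fun β => bnk c A (p (finProdFinEquiv.symm β).2) (finProdFinEquiv.symm β).1) (A + n) cof hT.cof,
    hg1_prod, Finset.prod_comm]
  unfold VPH
  refine Finset.prod_congr rfl fun i _ => ?_
  have h1 : ∀ k : Fin μ, JX (c (finProdFinEquiv.symm (finProdFinEquiv (k, i))).1) b
      (bnk c A (p (finProdFinEquiv.symm (finProdFinEquiv (k, i))).2)
        (finProdFinEquiv.symm (finProdFinEquiv (k, i))).1) (A + n) t =
      JX (c k) b (bnk c A (p i) k) (A + n) t := fun k => by rw [Equiv.symm_apply_apply]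
  rw [Finset.prod_congr rfl fun k _ => h1 k]
  obtain ⟨y, hy⟩ : ∃ y, y = p i := ⟨_, rfl⟩
  rw [← hy]
  rcases y with _ | z
  · change ∏ k : Fin μ, JX (c k) b ((c k).Q ^ (A + n)) (A + n) t = 1
    exact Finset.prod_eq_one fun k _ => JX_pow_Q (hc k).ok hR.b2 (hN k) ht (A + n)
  · rw [Finset.prod_eq_single z.1]
    · change JX (c z.1) b (if z.1 = z.1 then mnum (c z.1) A z.2.1 z.2.2 else (c z.1).Q ^ (A + n))
        (A + n) t = vH (F z.1) b (fun l => (z.2.1 l : ℕ)) z.2.2 (gt γ t)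
      rw [if_pos rfl]
      exact JX_mnum hR hγ (hc z.1) A z.2.1 z.2.2 ht
    · intro k _ hk
      change JX (c k) b (if z.1 = k then mnum (c k) A z.2.1 z.2.2 else (c k).Q ^ (A + n))
        (A + n) t = 1
      rw [if_neg (fun h => hk h.symm)]
      exact JX_pow_Q (hc k).ok hR.b2 (hN k) ht (A + n)
    · intro h
      exact absurd (Finset.mem_univ _) h

/-- Proof: `analyticOn_vH`, finite products of analytic functions. -/
theorem analyticOn_VPH {s n μ A : ℕ} {F : Fin μ → Typ s n} {b : ℕ} {e : Fin s → ℚ} {Ω : Set (Fin s → ℝ)}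
    (hR : RegOK F b e Ω) (p : PatH μ n A) : AnalyticOnNhd ℝ (VPH F b A p) Ω := by
  have h1 : ∀ y : IH μ n A, AnalyticOnNhd ℝ (fH F b A y) Ω := by
    intro y
    rcases y with _ | z
    · exact analyticOnNhd_const (v := (1 : ℝ)) (s := Ω)
    · exact analyticOn_vH hR.b2 (hR.base z.1) hR.op hR.pre hR.mem (hR.nond z.1)
        (fun l => (z.2.1 l : ℕ)) z.2.2
  exact Finset.analyticOnNhd_fun_prod _ fun i _ => h1 (p i)

/-- The Taylor coefficients at the base point are rational.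

Proof. `rational_exp` (HA5.lean). Let `δ > 0` be such that the points `θ` with `|θ i - e i| ≤ δ` are in `Ω`. For `w` with `|w i| ≤ δ` the path `γ i = Polynomial.C (e i) + Polynomial.X * Polynomial.C (w i)` is in `Ω` for `t ∈ [0,1]`; charts `c k` by `exists_pathC`, `T, cof` by `exists_totC`. By `JX_GH` and `JX_eq_ev` (HC1.lean, `NdC_prod`), for rational `0 < t ≤ ρ₀` (`ρ₀` from `exists_small` for `T`)
`VPH F b A p (cst (e + t w)) = ev t (PhiT T (GH p) K)` (`gt γ t = cst (e + t w)`). The bound: `summable_PhiT` at `ρ₀` (a summable sequence is bounded); `ρ = ρ₀`. -/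
theorem VPH_base {s n μ A : ℕ} {F : Fin μ → Typ s n} {b : ℕ} {e : Fin s → ℚ} {Ω : Set (Fin s → ℝ)}
    (hR : RegOK F b e Ω) (p : PatH μ n A) :
    ∃ (r B : ℝ) (ν : (Fin s → ℕ) → ℚ), 0 < r ∧ 0 ≤ B ∧ Exp r B (cst e) (VPH F b A p) (fun u => (ν u : ℝ)) := by
  obtain ⟨ε, hε, hball⟩ := Metric.isOpen_iff.1 hR.op (cst e) hR.mem
  refine rational_exp (analyticOn_VPH hR p (cst e) hR.mem) (half_pos hε) fun w hw => ?_
  obtain ⟨γ, hγd⟩ : ∃ γ : Fin s → Polynomial ℚ, γ = fun i =>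
      Polynomial.C (e i) + Polynomial.X * Polynomial.C (w i) := ⟨_, rfl⟩
  have hgt : ∀ (t : ℝ) (i : Fin s), gt γ t i = (e i : ℝ) + t * (w i : ℝ) := by
    intro t i
    rw [hγd]
    change Polynomial.aeval t (Polynomial.C (e i) + Polynomial.X * Polynomial.C (w i)) = _
    rw [map_add, map_mul, Polynomial.aeval_C, Polynomial.aeval_X, Polynomial.aeval_C]
    rfl
  have hγ : PathOK γ e Ω := by
    refine ⟨fun i => ?_, fun t ht => hball ?_⟩
    · rw [hγd]
      simp
    · rw [Metric.mem_ball, dist_pi_lt_iff hε]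
      intro i
      rw [hgt, Real.dist_eq]
      change |(e i : ℝ) + t * (w i : ℝ) - (e i : ℝ)| < ε
      rw [add_sub_cancel_left, abs_mul, abs_of_nonneg ht.1]
      have h1 : t * |(w i : ℝ)| ≤ 1 * |(w i : ℝ)| := mul_le_mul_of_nonneg_right ht.2 (abs_nonneg _)
      have h2 := hw i
      linarith
  choose c hc using fun k : Fin μ => exists_pathC (hR.base k) hγ.zero
  obtain ⟨T, cof, hT⟩ := exists_totC c (fun k => (hc k).ok) A
  obtain ⟨ρ, hρ, hρ1, hsm⟩ := exists_small T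
  have hρ' : (0 : ℝ) < (ρ : ℝ) := by exact_mod_cast hρ
  have hρ1' : (ρ : ℝ) ≤ 1 := by exact_mod_cast hρ1
  have hsum := summable_PhiT (hsm ρ (le_of_eq (abs_of_pos hρ))) (GH c A cof p) (μ * A * (A + n))
  have hNT : NdC T b := NdC_prod hT.prod fun β => NdC_path hR hγ (hc _)
  refine ⟨PhiT T (GH c A cof p) (μ * A * (A + n)), ∑' k, |((PowerSeries.coeff k
    (PhiT T (GH c A cof p) (μ * A * (A + n))) : ℚ) : ℝ)| * |(ρ : ℝ)| ^ k, ρ, hρ', fun k => ?_,
    fun t ht0 ht1 => ?_⟩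
  · have h1 := hsum.le_tsum k fun j _ => mul_nonneg (abs_nonneg _) (pow_nonneg (abs_nonneg _) _)
    rw [abs_of_pos hρ'] at h1 ⊢
    exact h1
  · have ht1' : t ≤ ρ := by exact_mod_cast ht1.le
    have ht0' : (0 : ℝ) < (t : ℝ) := by exact_mod_cast ht0
    have ht : (t : ℝ) ∈ Icc (0 : ℝ) 1 := ⟨ht0'.le, ht1.le.trans hρ1'⟩
    have h1 := JX_GH hR hγ hc hT p ht
    have h2 : gt γ (t : ℝ) = cst fun i => e i + t * w i := by
      funext i
      rw [hgt]
      change (e i : ℝ) + (t : ℝ) * (w i : ℝ) = ((e i + t * w i : ℚ) : ℝ)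
      push_cast
      ring
    rw [h2] at h1
    rw [← h1]
    exact JX_eq_ev hT.ok hR.b2 hNT ht0.le (hsm t (by rw [abs_of_pos ht0]; exact ht1')) _ _

/-- The generic relations. -/
theorem exists_relH {s n μ : ℕ} {F : Fin μ → Typ s n} {b : ℕ} {e : Fin s → ℚ} {Ω : Set (Fin s → ℝ)}
    (hR : RegOK F b e Ω) (A : ℕ) :
    ∃ (ρ : ℕ) (π : Fin ρ → PatH μ n A) (q : MvPolynomial (Fin s) ℚ) (r : PatH μ n A → Fin ρ → MvPolynomial (Fin s) ℚ),
      q ≠ 0 ∧ (∀ p, ∀ θ ∈ Ω, aeval θ q * VPH F b A p θ = ∑ i, aeval θ (r p i) * VPH F b A (π i) θ) ∧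
      ∀ S : Set (Fin s → ℝ), IsCompact S → S ⊆ Ω → VHyp S (fun i => VPH F b A (π i)) :=
  abs_rel hR.op hR.pre (VPH F b A) (analyticOn_VPH hR) hR.mem (VPH_base hR)

end Pool.Agent.Lib.MP_bbe012_lc.PH
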