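import Pool.Agent.Lib.MP_bbe012_lc.PH.HG1

/-!
# A relation which follows from the generic relations has an algebraic reason
-/

namespace Pool.Agent.Lib.MP_bbe012_lc.PH

open MvPolynomial MeasureTheory Set PP PG PT

/-- the reduction modulo `X 0 - 1` -/
private noncomputable def hG2φ (m : ℕ) : P1 m →ₐ[ℚ] P1 m ⧸ Ideal.span {(X 0 - C 1 : P1 m)} :=
  Ideal.Quotient.mkₐ ℚ _

private theorem hG2_dvd {m : ℕ} {a b : P1 m} :
    hG2φ m a = hG2φ m b ↔ (X 0 - C 1 : P1 m) ∣ a - b := by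
  rw [← Ideal.mem_span_singleton]
  exact Ideal.Quotient.eq

private theorem hG2_X (m : ℕ) : hG2φ m (X 0) = 1 := by
  have h1 : hG2φ m (X 0) = hG2φ m (C 1) := hG2_dvd.2 (dvd_refl _)
  exact h1.trans ((congrArg (hG2φ m) (C_1 : (C 1 : P1 m) = 1)).trans (map_one _))

private theorem hG2_inTφ (m : ℕ) (c : Polynomial ℚ) :
    hG2φ m (inT m c) = hG2φ m (C (c.eval 1)) := by
  unfold inT
  induction c using Polynomial.induction_on' with
  | add p q hp hq =>
    rw [map_add, map_add, hp, hq, Polynomial.eval_add, C_add, map_add]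
  | monomial k a =>
    change hG2φ m (Polynomial.aeval (X 0 : P1 m) (Polynomial.monomial k a)) = _
    rw [Polynomial.aeval_monomial, map_mul, map_pow, hG2_X, Polynomial.eval_monomial, one_pow,
      one_pow, mul_one, mul_one]
    rfl

/-- the substitution of the path -/
private noncomputable def hG2S {s : ℕ} (γ : Fin s → Polynomial ℚ) : MvPolynomial (Fin s) ℚ →ₐ[ℚ] Polynomial ℚ :=
  aeval γ

private theorem hG2S_aeval {s : ℕ} (γ : Fin s → Polynomial ℚ) (q : MvPolynomial (Fin s) ℚ) (t : ℝ) :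
    Polynomial.aeval t (hG2S γ q) = aeval (gt γ t) q := by
  induction q using MvPolynomial.induction_on with
  | C a =>
    unfold hG2S
    rw [aeval_C, aeval_C, Polynomial.algebraMap_eq, Polynomial.aeval_C]
  | add p q hp hq => rw [map_add, map_add, hp, hq, map_add]
  | mul_X p i hp =>
    rw [map_mul, map_mul, hp, map_mul, aeval_X]
    congr 1
    unfold hG2S gt
    rw [aeval_X]

private theorem hG2S_one {s : ℕ} {γ : Fin s → Polynomial ℚ} {θ : Fin s → ℚ} (h1 : ∀ i, (γ i).eval 1 = θ i)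
    (q : MvPolynomial (Fin s) ℚ) : (hG2S γ q).eval 1 = aeval θ q := by
  induction q using MvPolynomial.induction_on with
  | C a =>
    unfold hG2S
    rw [aeval_C, aeval_C, Polynomial.algebraMap_eq, Polynomial.eval_C]
    rfl
  | add p q hp hq => rw [map_add, Polynomial.eval_add, hp, hq, map_add]
  | mul_X p i hp =>
    rw [map_mul, Polynomial.eval_mul, hp, map_mul, aeval_X]
    congr 1
    unfold hG2S
    rw [aeval_X, h1 i]

/-- The algebraic reason.

Proof. As `exists_phi` (PG/BLink.lean). Let `q' = aeval γ q : Polynomial ℚ`, `r' p i = aeval γ (r p i)` (substitution of the path), `q₁ = aeval θ q ≠ 0` (`q'.eval 1 = q₁` because `(γ i).eval 1 = θ i`), and `S = ∑ p, inT (Polynomial.C (nn p / q₁)) * (inT q' * GH p - ∑ i, inT (r' p i) * GH (π i))`. For `t ∈ [0,1]`, by `JX_sum`, `JX_inT_mul` (`NdC T b` by `NdC_prod`, `NdC_path`), `JX_GH` and the relation `hrel` at the point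
`gt γ t ∈ Ω` (`aeval (gt γ t) q = Polynomial.aeval t q'`), `JX T b S K t = 0`. So `PhiT T S K = 0` (`PhiT_zero_iff`). Modulo `X 0 - C 1` (`inT a ≡ C (a.eval 1)`): `S ≡ ∑ p, C (nn p) * GH p - C q₁⁻¹ * ∑ i, C (∑ p, nn p * aeval θ (r p i)) * GH (π i) = ∑ p, C (nn p) * GH p`. -/
theorem exists_phiH {s n μ A ρ : ℕ} {F : Fin μ → Typ s n} {b : ℕ} {e θ : Fin s → ℚ} {Ω : Set (Fin s → ℝ)}
    (hR : RegOK F b e Ω) {γ : Fin s → Polynomial ℚ} (hγ : PathOK γ e Ω) (h1 : ∀ i, (γ i).eval 1 = θ i)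
    {c : Fin μ → CD n ℚ} (hc : ∀ k, IsPathC (F k) γ (c k))
    {T : CD (μ * A * n) ℚ} {cof : Fin (μ * A) → TP (μ * A * n) ℚ} (hT : TotC c A T cof)
    {π : Fin ρ → PatH μ n A} {q : MvPolynomial (Fin s) ℚ} {r : PatH μ n A → Fin ρ → MvPolynomial (Fin s) ℚ}
    (hrel : ∀ p, ∀ θ ∈ Ω, aeval θ q * VPH F b A p θ = ∑ i, aeval θ (r p i) * VPH F b A (π i) θ)
    (hq : aeval θ q ≠ 0) (nn : PatH μ n A → ℚ) (hn : ∀ i, ∑ p, nn p * aeval θ (r p i) = 0) :
    ∃ U : TP (μ * A * n) ℚ,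
      PhiT T (∑ p, C (nn p) * GH c A cof p + (X 0 - C 1) * U) (μ * A * (A + n)) = 0 := by
  classical
  obtain ⟨q₁, hq₁⟩ : ∃ q₁ : ℚ, q₁ = aeval θ q := ⟨_, rfl⟩
  have hq₁0 : q₁ ≠ 0 := by
    rw [hq₁]
    exact hq
  have hN : NdC T b := NdC_prod hT.prod fun β => NdC_path hR hγ (hc _)
  let c' : PatH μ n A ⊕ Fin ρ → Polynomial ℚ := Sum.elim
    (fun p => Polynomial.C (nn p / q₁) * hG2S γ q)
    (fun i => -∑ p, Polynomial.C (nn p / q₁) * hG2S γ (r p i))
  let G' : PatH μ n A ⊕ Fin ρ → TP (μ * A * n) ℚ := Sum.elim (fun p => GH c A cof p)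
    (fun i => GH c A cof (π i))
  obtain ⟨S, hS⟩ : ∃ S : TP (μ * A * n) ℚ, S = ∑ x, inT (μ * A * n) (c' x) * G' x := ⟨_, rfl⟩
  have hJ : ∀ t ∈ Icc (0 : ℝ) 1, JX T b S (μ * A * (A + n)) t = 0 := by
    intro t ht
    have hθt : gt γ t ∈ Ω := hγ.mem t ht
    rw [hS, JX_sum hT.ok hR.b2 hN ht, Fintype.sum_sum_type]
    have h2 : ∀ p : PatH μ n A, JX T b (inT (μ * A * n) (c' (Sum.inl p)) * G' (Sum.inl p)) (μ * A * (A + n)) t =
        ∑ i, ((nn p / q₁ : ℚ) : ℝ) * (aeval (gt γ t) (r p i) * VPH F b A (π i) (gt γ t)) := by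
      intro p
      rw [JX_inT_mul]
      simp only [c', G', Sum.elim_inl]
      rw [JX_GH hR hγ hc hT p ht, map_mul, Polynomial.aeval_C, mul_assoc,
        hG2S_aeval, hrel p _ hθt, Finset.mul_sum]
      rfl
    have h3 : ∀ i : Fin ρ, JX T b (inT (μ * A * n) (c' (Sum.inr i)) * G' (Sum.inr i)) (μ * A * (A + n)) t =
        -∑ p, ((nn p / q₁ : ℚ) : ℝ) * (aeval (gt γ t) (r p i) * VPH F b A (π i) (gt γ t)) := by
      intro i
      rw [JX_inT_mul]
      simp only [c', G', Sum.elim_inr]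
      rw [JX_GH hR hγ hc hT (π i) ht, map_neg, map_sum, neg_mul, Finset.sum_mul]
      congr 1
      refine Finset.sum_congr rfl fun p _ => ?_
      rw [map_mul, Polynomial.aeval_C, mul_assoc, hG2S_aeval]
      rfl
    rw [Finset.sum_congr rfl fun p _ => h2 p, Finset.sum_congr rfl fun i _ => h3 i,
      Finset.sum_neg_distrib, Finset.sum_comm, add_neg_cancel]
  have hPhi := (PhiT_zero_iff hT.ok hR.b2 hN S (μ * A * (A + n))).2 hJ
  have hdvd : (X 0 - C 1 : P1 (μ * A * n)) ∣ S - ∑ p, C (nn p) * GH c A cof p := by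
    rw [← hG2_dvd, hS, map_sum, map_sum, Fintype.sum_sum_type]
    have h2 : ∀ p : PatH μ n A, hG2φ (μ * A * n) (inT (μ * A * n) (c' (Sum.inl p)) * G' (Sum.inl p)) =
        hG2φ (μ * A * n) (C (nn p) * GH c A cof p) := by
      intro p
      simp only [c', G', Sum.elim_inl]
      rw [map_mul, hG2_inTφ, map_mul, Polynomial.eval_mul, Polynomial.eval_C,
        hG2S_one h1, ← hq₁, div_mul_cancel₀ _ hq₁0]
    have h3 : ∀ i : Fin ρ, hG2φ (μ * A * n) (inT (μ * A * n) (c' (Sum.inr i)) * G' (Sum.inr i)) = 0 := by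
      intro i
      simp only [c', G', Sum.elim_inr]
      rw [map_mul, hG2_inTφ, Polynomial.eval_neg, Polynomial.eval_finsetSum]
      have h4 : ∑ p, (Polynomial.C (nn p / q₁) * hG2S γ (r p i)).eval 1 = 0 := by
        have h5 : ∀ p, (Polynomial.C (nn p / q₁) * hG2S γ (r p i)).eval 1 =
            (nn p * aeval θ (r p i)) * q₁⁻¹ := by
          intro p
          rw [Polynomial.eval_mul, Polynomial.eval_C, hG2S_one h1, div_eq_mul_inv]
          ring
        rw [Finset.sum_congr rfl fun p _ => h5 p, ← Finset.sum_mul, hn i, zero_mul]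
      rw [h4, neg_zero, C_0, map_zero, zero_mul]
    rw [Finset.sum_congr rfl fun p _ => h2 p, Finset.sum_congr rfl fun i _ => h3 i,
      Finset.sum_const_zero, add_zero]
  obtain ⟨U, hU⟩ := hdvd
  refine ⟨U, ?_⟩
  rw [← hU, add_sub_cancel]
  exact hPhi

end Pool.Agent.Lib.MP_bbe012_lc.PH
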