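import Pool.Agent.Lib.MP_bbe012_lc.PH.HG3a

/-!
# The data of the reduction, for sums of products of integrals in the class
-/

namespace Pool.Agent.Lib.MP_bbe012_lc.PH

open MvPolynomial MeasureTheory Set PP PG PT

/-- the reduction modulo `X 0 - 1` -/
private noncomputable def hg3φ (m : ℕ) : TP m ℚ →ₐ[ℚ] TP m ℚ ⧸ Ideal.span {(X 0 - C 1 : TP m ℚ)} :=
  Ideal.Quotient.mkₐ ℚ _

private theorem hg3_dvd {m : ℕ} {a b : TP m ℚ} :
    hg3φ m a = hg3φ m b ↔ (X 0 - C 1 : TP m ℚ) ∣ a - b := by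
  rw [← Ideal.mem_span_singleton]
  exact Ideal.Quotient.eq

private theorem hg3_rename {n ν : ℕ} (β : Fin ν) {a b : TP n ℚ} (h : hg3φ n a = hg3φ n b) :
    hg3φ (ν * n) (rename (bidx n ν β) a) = hg3φ (ν * n) (rename (bidx n ν β) b) := by
  obtain ⟨u, hu⟩ := hg3_dvd.1 h
  refine hg3_dvd.2 ⟨rename (bidx n ν β) u, ?_⟩
  rw [← map_sub, hu, map_mul, map_sub, rename_X, rename_C, RedB_bidx_zero]

/-- the coefficients for a missing factor -/
private def hg3N {μ n A : ℕ} (y : IH μ n A) : ℚ :=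
  match y with
  | none => 1
  | some _ => 0

open Classical in
/-- the coefficients for a factor of type `κ₀` -/
private noncomputable def hg3S {μ n A : ℕ} (κ₀ : Fin μ) (κ' : Fin (A + 1)) (cc : (Fin n → Fin (A + 1)) → ℚ)
    (y : IH μ n A) : ℚ :=
  match y with
  | none => 0
  | some z => if z.1 = κ₀ then (if z.2.2 = κ' then cc z.2.1 else 0) else 0

private theorem hg3_none {n μ A : ℕ} (c : Fin μ → CD n ℚ) (cof : Fin (μ * A) → TP (μ * A * n) ℚ) (i : Fin A)
    (N : Fin μ → TP n ℚ) (h : ∀ k, N k = (c k).Q ^ (A + n)) :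
    (∏ k : Fin μ, rename (bidx n (μ * A) (finProdFinEquiv (k, i))) (N k) * cof (finProdFinEquiv (k, i)) ^ (A + n)) =
      ∑ y, C (hg3N y) * RHk c A cof i y := by
  rw [Fintype.sum_option, Finset.sum_eq_zero (fun z _ => by
    change C (0 : ℚ) * _ = 0
    rw [C_0, zero_mul])]
  change _ = C (1 : ℚ) * _ + 0
  rw [C_1, one_mul, add_zero]
  unfold RHk
  refine Finset.prod_congr rfl fun k _ => ?_
  rw [h k]
  rfl

private theorem hg3_some {n μ A : ℕ} (c : Fin μ → CD n ℚ) (cof : Fin (μ * A) → TP (μ * A * n) ℚ) (i : Fin A)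
    (κ₀ : Fin μ) (κ' : Fin (A + 1)) (cc : (Fin n → Fin (A + 1)) → ℚ)
    (N : Fin μ → TP n ℚ) (h0 : hg3φ n (N κ₀) = hg3φ n (∑ a, C (cc a) * mnum (c κ₀) A a κ'))
    (h : ∀ k, k ≠ κ₀ → N k = (c k).Q ^ (A + n)) :
    hg3φ (μ * A * n) (∏ k : Fin μ, rename (bidx n (μ * A) (finProdFinEquiv (k, i))) (N k) *
      cof (finProdFinEquiv (k, i)) ^ (A + n)) =
      hg3φ (μ * A * n) (∑ y, C (hg3S κ₀ κ' cc y) * RHk c A cof i y) := by
  classical
  obtain ⟨R, hR⟩ : ∃ R : TP (μ * A * n) ℚ, R = cof (finProdFinEquiv (κ₀, i)) ^ (A + n) *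
      ∏ k ∈ Finset.univ.erase κ₀, rename (bidx n (μ * A) (finProdFinEquiv (k, i))) ((c k).Q ^ (A + n)) *
        cof (finProdFinEquiv (k, i)) ^ (A + n) := ⟨_, rfl⟩
  have e1 : (∏ k : Fin μ, rename (bidx n (μ * A) (finProdFinEquiv (k, i))) (N k) *
      cof (finProdFinEquiv (k, i)) ^ (A + n)) =
      rename (bidx n (μ * A) (finProdFinEquiv (κ₀, i))) (N κ₀) * R := by
    rw [← Finset.mul_prod_erase Finset.univ _ (Finset.mem_univ κ₀), hR,
      mul_assoc (rename (bidx n (μ * A) (finProdFinEquiv (κ₀, i))) (N κ₀))]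
    refine congrArg _ (congrArg _ ?_)
    refine Finset.prod_congr rfl fun k hk => ?_
    rw [h k (Finset.mem_erase.1 hk).1]
  have e2 : ∀ a, RHk c A cof i (some (κ₀, (a, κ'))) =
      rename (bidx n (μ * A) (finProdFinEquiv (κ₀, i))) (mnum (c κ₀) A a κ') * R := by
    intro a
    unfold RHk
    rw [← Finset.mul_prod_erase Finset.univ _ (Finset.mem_univ κ₀), hR]
    have e3 : bnk c A (some (κ₀, (a, κ'))) κ₀ = mnum (c κ₀) A a κ' := if_pos rfl
    rw [e3, mul_assoc (rename (bidx n (μ * A) (finProdFinEquiv (κ₀, i))) (mnum (c κ₀) A a κ'))]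
    refine congrArg _ (congrArg _ ?_)
    refine Finset.prod_congr rfl fun k hk => ?_
    have e4 : bnk c A (some (κ₀, (a, κ'))) k = (c k).Q ^ (A + n) :=
      if_neg fun h' => (Finset.mem_erase.1 hk).1 h'.symm
    rw [e4]
  have e5 : (∑ y, C (hg3S κ₀ κ' cc y) * RHk c A cof i y) =
      rename (bidx n (μ * A) (finProdFinEquiv (κ₀, i))) (∑ a, C (cc a) * mnum (c κ₀) A a κ') * R := by
    rw [Fintype.sum_option]
    change C (0 : ℚ) * _ + _ = _
    rw [C_0, zero_mul, zero_add, Fintype.sum_prod_type, Finset.sum_eq_single κ₀, Fintype.sum_prod_type,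
      map_sum, Finset.sum_mul]
    · refine Finset.sum_congr rfl fun a _ => ?_
      rw [Finset.sum_eq_single κ']
      · have e6 : hg3S κ₀ κ' cc (some (κ₀, (a, κ'))) = cc a := (if_pos rfl).trans (if_pos rfl)
        rw [e6, e2, map_mul, rename_C, mul_assoc (C (cc a))]
      · intro κ'' _ hne
        have e6 : hg3S κ₀ κ' cc (some (κ₀, (a, κ''))) = 0 := (if_pos rfl).trans (if_neg hne)
        rw [e6, C_0, zero_mul]
      · intro h'
        exact absurd (Finset.mem_univ _) h'
    · intro k _ hne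
      refine Finset.sum_eq_zero fun z _ => ?_
      have e6 : hg3S κ₀ κ' cc (some (k, z)) = 0 := if_neg hne
      rw [e6, C_0, zero_mul]
    · intro h'
      exact absurd (Finset.mem_univ _) h'
  rw [e1, e5, map_mul, map_mul, hg3_rename _ h0]

private theorem hg3_numG (E : ExT) (r : RT) {M n K : ℕ} (hM : rtM r = M) (hn : rtN r = n) (hK : rtK r = K) :
    pcPoly (M * n + 1) (numG E r) = ∑ j : Fin E.length, ∏ β : Fin M,
      rename (bidx n M β) (pcPoly (n + 1) (numB E r j β)) * pcPoly (M * n + 1) (rtB r β).2.2 ^ (K + n) := by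
  subst hM hn hK
  unfold numG
  rw [pcPoly_sumRange]
  refine Finset.sum_congr rfl fun j _ => ?_
  rw [pcPoly_prodRange]
  refine Finset.prod_congr rfl fun β _ => ?_
  rw [pcPoly_mul, pcPoly_blkC, pcPoly_pow]

private theorem hg3_prod {n μ A : ℕ} (c : Fin μ → CD n ℚ) (cof : Fin (μ * A) → TP (μ * A * n) ℚ)
    (N : Fin (μ * A) → TP n ℚ) (cy : Fin A → IH μ n A → ℚ)
    (h : ∀ i, hg3φ (μ * A * n) (∏ k : Fin μ, rename (bidx n (μ * A) (finProdFinEquiv (k, i)))
      (N (finProdFinEquiv (k, i))) * cof (finProdFinEquiv (k, i)) ^ (A + n)) =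
      hg3φ (μ * A * n) (∑ y, C (cy i y) * RHk c A cof i y)) :
    hg3φ (μ * A * n) (∏ β, rename (bidx n (μ * A) β) (N β) * cof β ^ (A + n)) =
      hg3φ (μ * A * n) (∑ p : PatH μ n A, C (∏ i, cy i (p i)) * GH c A cof p) := by
  have e1 : (∏ β, rename (bidx n (μ * A) β) (N β) * cof β ^ (A + n)) =
      ∏ i : Fin A, ∏ k : Fin μ, rename (bidx n (μ * A) (finProdFinEquiv (k, i)))
      (N (finProdFinEquiv (k, i))) * cof (finProdFinEquiv (k, i)) ^ (A + n) := by
    rw [← Fintype.prod_prod_type_right (fun x : Fin μ × Fin A =>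
      rename (bidx n (μ * A) (finProdFinEquiv x)) (N (finProdFinEquiv x)) * cof (finProdFinEquiv x) ^ (A + n))]
    exact (Fintype.prod_equiv finProdFinEquiv _ _ fun x => rfl).symm
  rw [e1, map_prod, Finset.prod_congr rfl fun i _ => h i, ← map_prod, Finset.prod_univ_sum,
    Fintype.piFinset_univ]
  refine congrArg _ (Finset.sum_congr rfl fun p _ => ?_)
  rw [Finset.prod_mul_distrib, map_prod]
  rfl

private def hg3d : CIH := (0, (0, ((pcNat 1, pcNat 1), [])))

private theorem hg3_getD (E : ExH) (j : ℕ) : (dropE E).getD j [] = (E.getD j []).map dropI := by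
  unfold dropE
  exact List.getD_map (f := fun L : List CIH => L.map dropI) (d := []) ..

private theorem hg3_item (E : ExH) (j i : ℕ) : itemT (dropE E) j i = dropI ((E.getD j []).getD i hg3d) := by
  unfold itemT
  rw [hg3_getD]
  exact List.getD_map (f := dropI) (d := hg3d) ..

/-- The data of the reduction.

Proof. As `exists_rt` (PT/TRedD.lean) and `exists_red` (PG/DRed.lean). Codes `x k` of the charts `c k` and `x₀` of `T` (`exists_cdc`), `J k` (`exists_jokC`, so `1 + X 0 * J = det V`), codes of the `cof β`; `ndC` certificates by `ndC_complete` (all `NdC (c k) b`, by hypothesis). Blocks as in `exists_rt`, `rtN = n`, `rtM = μ * A`, `rtK = A`, `rtT = qnat 1`. For the item `i` of the product `j` let `κ j i : Fin μ` be its type, and `W`, `κ'`, `cc` from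
`exists_itemH`. Slot `(j, β)`, `(k, i) = finProdFinEquiv.symm β`: `(i, W)` if `i < length` and the type of the item is `k`, otherwise `(length, [])`. So modulo `X 0 - C 1`, `numB j β ≡ ∑ a, C (cc a) * mnum (c k) A a κ'` on the used blocks and `= (c k).Q ^ (A + n)` on the others, and for fixed `j`: `∏ β, rename (numB j β) * cof β ^ (A + n) ≡ ∏ i : Fin A, ∑ y : IH μ n A, C (cy j i y) * RHk i y`, with `cy j i none = 1` and
`cy j i (some z) = 0` if `i ≥ length`, and `cy j i none = 0`, `cy j i (some (k, (a, κ))) = cc a` if `k` is the type and `κ = κ'`, `0` otherwise, if `i < length` (product over `β = (k, i)`: `Fintype.prod_equiv finProdFinEquiv`, `Fintype.prod_prod_type_right`; for fixed `i` only the factor of the type of the item is not a power of `Q`). `Finset.prod_univ_sum`: the sum over `j` is `∑ p, C (nn p) * GH p` with `nn p = ∑ j, ∏ i, cy j i (p i)`. Congruences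
modulo `X 0 - C 1` are compatible with `rename (bidx n ν β)` (which fixes `X 0`), sums and products (work in the quotient ring, see `bLinkφ` in PG/BLink.lean). Bounds: `E.length ≤ T' ^ A` terms, each of absolute value at most `(T' ^ A) ^ A`; `N = q ^ A`: `q ^ A * ∏ i, cy = ∏ i, (q cy)` is an integer. `(dropE E).length = E.length`, and the lengths of the products are the same. -/
theorem exists_redH {s μ n A T' b : ℕ} {m : Fin μ → ℕ} (hm : ∀ k, m k ≤ n) {F : (k : Fin μ) → Typ s (m k)}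
    {θ : Fin s → ℚ} {E : ExH} (hT' : 1 ≤ T') (hE : InClassH F b A T' θ E) (hb : 2 ≤ b)
    {γ : Fin s → Polynomial ℚ} (h1 : ∀ i, (γ i).eval 1 = θ i) {c : Fin μ → CD n ℚ}
    (hc : ∀ k, IsPathC ((F k).pad (hm k)) γ (c k)) (hN : ∀ k, NdC (c k) b)
    {T : CD (μ * A * n) ℚ} {cof : Fin (μ * A) → TP (μ * A * n) ℚ} (hT : TotC c A T cof) :
    ∃ (r : RT) (x : List NDC) (nn : PatH μ n A → ℚ) (N : ℕ), rtH E r b x ∧ rtM r = μ * A ∧ rtN r = n ∧ rtK r = A ∧
      toCD (μ * A * n) (rtC r) = T ∧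
      (X 0 - C 1 : TP (μ * A * n) ℚ) ∣ pcPoly (μ * A * n + 1) (numG (dropE E) r) - ∑ p, C (nn p) * GH c A cof p ∧
      1 ≤ N ∧ N ≤ T' ^ (A * A) ∧ ∀ p, |nn p| ≤ (T' : ℚ) ^ (A + A * A) ∧ ∃ z : ℤ, (N : ℚ) * nn p = z := by
  classical
  obtain ⟨hlen, hL, q, hq1, hqT, hitems⟩ := hE
  have hE'len : (dropE E).length = E.length := by
    unfold dropE
    rw [List.length_map]
  have hE'L : ∀ j, ((dropE E).getD j []).length = (E.getD j []).length := by
    intro j
    rw [hg3_getD, List.length_map]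
  choose x hx _hxs using fun k => exists_cdc (c k)
  obtain ⟨x₀, hx₀, _hx₀s⟩ := exists_cdc T
  have hok : ∀ k, okC n (x k) := fun k => (okC_iff n (x k)).2 (by rw [hx]; exact (hc k).ok)
  choose J hJ using fun k => exists_jokC (hok k)
  choose cc₀ hcc₀ using fun β => exists_pcPoly (cof β)
  choose nd hnd using fun k => ndC_complete (b := b) (n := n) (c := x k) (by omega) (by rw [hx]; exact hN k)
  have hlenA : ∀ j : ℕ, j < (dropE E).length → ((dropE E).getD j []).length ≤ A := by
    intro j hj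
    rw [hE'len] at hj
    rw [hE'L, List.getD_eq_getElem _ _ hj]
    exact hL _ (List.getElem_mem hj)
  have hit : ∀ j i : ℕ, j < (dropE E).length → i < ((dropE E).getD j []).length →
      ∃ k : Fin μ, ItemH (F k) b A T' q θ ((E.getD j []).getD i hg3d) := by
    intro j i hj hi
    rw [hE'len] at hj
    rw [hE'L] at hi
    have h2 : E.getD j [] ∈ E := by
      rw [List.getD_eq_getElem _ _ hj]
      exact List.getElem_mem hj
    refine hitems _ h2 _ ?_
    rw [List.getD_eq_getElem _ _ hi]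
    exact List.getElem_mem hi
  choose κ hκ using hit
  have hitH : ∀ (j i : ℕ) (hj : j < (dropE E).length) (hi : i < ((dropE E).getD j []).length),
      ∃ (W : PCode) (κ' : Fin (A + 1)) (cc : (Fin n → Fin (A + 1)) → ℚ),
        itemOK n (qnat 1) A (x (κ j i hj hi)) (itemT (dropE E) j i) W ∧
        (∀ a, |cc a| ≤ (T' : ℚ) ^ A ∧ ∃ z : ℤ, (q : ℚ) * cc a = z) ∧
        hg3φ n (pcPoly (n + 1) (pcShift 1 n (pcMul (pcTrunc (itemT (dropE E) j i).1
          (itemT (dropE E) j i).2.1.1) W)) * (Matrix.of (c (κ j i hj hi)).V).det) =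
          hg3φ n (∑ a, C (cc a) * mnum (c (κ j i hj hi)) A a κ') := by
    intro j i hj hi
    obtain ⟨W, κ', cc, h2, h3, h4⟩ := exists_itemH (hm (κ j i hj hi)) (hκ j i hj hi) h1
      (x := x (κ j i hj hi)) (by rw [hx]; exact hc (κ j i hj hi))
    rw [hx] at h4
    refine ⟨W, κ', cc, ?_, h3, hg3_dvd.2 ?_⟩
    · rw [hg3_item]
      exact h2
    · rw [hg3_item]
      exact h4
  choose W κ' cc hW hcc hcong using hitH
  -- the slots
  obtain ⟨slot, hslot⟩ : ∃ slot : Fin (dropE E).length → Fin (μ * A) → ℕ × PCode,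
      ∀ (j : Fin (dropE E).length) (β : Fin (μ * A)),
      ((∃ h : ((finProdFinEquiv.symm β).2 : ℕ) < ((dropE E).getD j []).length,
        κ j (finProdFinEquiv.symm β).2 j.2 h = (finProdFinEquiv.symm β).1 ∧
          slot j β = (((finProdFinEquiv.symm β).2 : ℕ), W j (finProdFinEquiv.symm β).2 j.2 h)) ∨
        ((¬ ∃ h : ((finProdFinEquiv.symm β).2 : ℕ) < ((dropE E).getD j []).length,
          κ j (finProdFinEquiv.symm β).2 j.2 h = (finProdFinEquiv.symm β).1) ∧
          slot j β = (((dropE E).getD j []).length, []))) := by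
    refine ⟨fun (j : Fin (dropE E).length) (β : Fin (μ * A)) =>
      if h : ∃ h : ((finProdFinEquiv.symm β).2 : ℕ) < ((dropE E).getD j []).length,
      κ j (finProdFinEquiv.symm β).2 j.2 h = (finProdFinEquiv.symm β).1 then
        (((finProdFinEquiv.symm β).2 : ℕ), W j (finProdFinEquiv.symm β).2 j.2 h.1)
        else (((dropE E).getD j []).length, []), fun j β => ?_⟩
    by_cases h : ∃ h : ((finProdFinEquiv.symm β).2 : ℕ) < ((dropE E).getD j []).length,
      κ j (finProdFinEquiv.symm β).2 j.2 h = (finProdFinEquiv.symm β).1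
    · left
      exact ⟨h.1, h.2, dif_pos h⟩
    · right
      exact ⟨h, dif_neg h⟩
  obtain ⟨bl, hbl⟩ : ∃ bl : Fin (μ * A) → Blk, ∀ β, bl β =
      (x (finProdFinEquiv.symm β).1, (J (finProdFinEquiv.symm β).1, cc₀ β)) := ⟨_, fun _ => rfl⟩
  obtain ⟨xl, hxl⟩ : ∃ xl : List NDC, xl = List.ofFn fun β : Fin (μ * A) => nd (finProdFinEquiv.symm β).1 :=
    ⟨_, rfl⟩
  obtain ⟨r, hr⟩ : ∃ r : RT, r = ((((n, μ * A), A), qnat 1), ((List.ofFn bl, x₀),
    List.ofFn fun j => List.ofFn fun β => slot j β)) := ⟨_, rfl⟩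
  have rN : rtN r = n := by rw [hr]; rfl
  have rM : rtM r = μ * A := by rw [hr]; rfl
  have rK : rtK r = A := by rw [hr]; rfl
  have rT : rtT r = qnat 1 := by rw [hr]; rfl
  have rC : rtC r = x₀ := by rw [hr]; rfl
  have rB : ∀ (β : ℕ) (hβ : β < μ * A), rtB r β = bl ⟨β, hβ⟩ := by
    intro β hβ
    rw [hr]
    unfold rtB
    dsimp only
    rw [List.getD_eq_getElem _ _ (by rw [List.length_ofFn]; exact hβ), List.getElem_ofFn]
  have rS : ∀ (j β : ℕ) (hj : j < (dropE E).length) (hβ : β < μ * A), rtS r j β = slot ⟨j, hj⟩ ⟨β, hβ⟩ := by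
    intro j β hj hβ
    rw [hr]
    unfold rtS
    dsimp only
    have hA : (List.ofFn fun j => List.ofFn fun β => slot j β).getD j [] =
        List.ofFn fun β => slot ⟨j, hj⟩ β := by
      rw [List.getD_eq_getElem _ _ (by rw [List.length_ofFn]; exact hj), List.getElem_ofFn]
    rw [hA, List.getD_eq_getElem _ _ (by rw [List.length_ofFn]; exact hβ), List.getElem_ofFn]
  have rX : ∀ (β : ℕ) (hβ : β < μ * A), xl.getD β (psc0, []) = nd (finProdFinEquiv.symm ⟨β, hβ⟩).1 := by
    intro β hβ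
    rw [hxl, List.getD_eq_getElem _ _ (by rw [List.length_ofFn]; exact hβ), List.getElem_ofFn]
  -- polynomials of the codes
  have hval : ∀ (β : Fin (μ * A)) (l : Fin n), (β : ℕ) * n + l = (finProdFinEquiv (β, l) : ℕ) := by
    intro β l
    rw [finProdFinEquiv_apply_val]
    show (β : ℕ) * n + l = (l : ℕ) + n * β
    rw [Nat.mul_comm, Nat.add_comm]
  have hP1 : ∀ (k : Fin μ) (l : Fin n), pcPoly (n + 1) (cdP (x k) l) = (c k).p l := by
    intro k l
    rw [← hx k]
    rfl
  have hQ1 : ∀ (k : Fin μ) (l : Fin n), pcPoly (n + 1) (cdQ (x k) l) = (c k).q l := by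
    intro k l
    rw [← hx k]
    rfl
  have hP2 : ∀ l : Fin (μ * A * n), pcPoly (μ * A * n + 1) (cdP x₀ l) = T.p l := by
    intro l
    rw [← hx₀]
    rfl
  have hQ2 : ∀ l : Fin (μ * A * n), pcPoly (μ * A * n + 1) (cdQ x₀ l) = T.q l := by
    intro l
    rw [← hx₀]
    rfl
  -- the coefficients
  have hTA : (1 : ℚ) ≤ (T' : ℚ) ^ A := one_le_pow₀ (by exact_mod_cast hT')
  have hcy : ∀ (j : Fin (dropE E).length) (i : Fin A), ∃ cy : IH μ n A → ℚ,
      (∀ y, |cy y| ≤ (T' : ℚ) ^ A ∧ ∃ z : ℤ, (q : ℚ) * cy y = z) ∧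
      hg3φ (μ * A * n) (∏ k : Fin μ, rename (bidx n (μ * A) (finProdFinEquiv (k, i)))
        (pcPoly (n + 1) (numB (dropE E) r j (finProdFinEquiv (k, i)))) * cof (finProdFinEquiv (k, i)) ^ (A + n)) =
        hg3φ (μ * A * n) (∑ y, C (cy y) * RHk c A cof i y) := by
    intro j i
    have hun : ∀ k : Fin μ, (¬ ∃ h : (i : ℕ) < ((dropE E).getD j []).length, κ j i j.2 h = k) →
        pcPoly (n + 1) (numB (dropE E) r j (finProdFinEquiv (k, i))) = (c k).Q ^ (A + n) := by
      intro k hk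
      have h2 : rtS r j (finProdFinEquiv (k, i)) = (((dropE E).getD j []).length, []) := by
        rw [rS j _ j.2 (finProdFinEquiv (k, i)).2]
        rcases hslot j (finProdFinEquiv (k, i)) with ⟨h3, h4, -⟩ | ⟨-, h5⟩
        · exfalso
          apply hk
          rw [Equiv.symm_apply_apply] at h3
          simp only [Equiv.symm_apply_apply] at h4
          exact ⟨h3, h4⟩
        · exact h5
      unfold numB
      rw [h2, if_neg (lt_irrefl _), pcPoly_pow, pcPoly_qC, rB _ (finProdFinEquiv (k, i)).2, hbl, rK, rN]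
      dsimp only
      rw [Equiv.symm_apply_apply, hx]
    by_cases hi : (i : ℕ) < ((dropE E).getD j []).length
    · refine ⟨hg3S (κ j i j.2 hi) (κ' j i j.2 hi) (cc j i j.2 hi), fun y => ?_, ?_⟩
      · rcases y with _ | z
        · change |(0 : ℚ)| ≤ (T' : ℚ) ^ A ∧ ∃ z : ℤ, (q : ℚ) * (0 : ℚ) = z
          rw [abs_zero, mul_zero]
          exact ⟨by linarith, 0, by rw [Int.cast_zero]⟩
        · by_cases hz : z.1 = κ j i j.2 hi
          · by_cases hz' : z.2.2 = κ' j i j.2 hi
            · have e6 : hg3S (κ j i j.2 hi) (κ' j i j.2 hi) (cc j i j.2 hi) (some z) = cc j i j.2 hi z.2.1 :=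
                (if_pos hz).trans (if_pos hz')
              rw [e6]
              exact hcc j i j.2 hi _
            · have e6 : hg3S (κ j i j.2 hi) (κ' j i j.2 hi) (cc j i j.2 hi) (some z) = 0 :=
                (if_pos hz).trans (if_neg hz')
              rw [e6, abs_zero, mul_zero]
              exact ⟨by linarith, 0, by rw [Int.cast_zero]⟩
          · have e6 : hg3S (κ j i j.2 hi) (κ' j i j.2 hi) (cc j i j.2 hi) (some z) = 0 := if_neg hz
            rw [e6, abs_zero, mul_zero]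
            exact ⟨by linarith, 0, by rw [Int.cast_zero]⟩
      · refine hg3_some c cof i (κ j i j.2 hi) (κ' j i j.2 hi) (cc j i j.2 hi)
          (fun k => pcPoly (n + 1) (numB (dropE E) r j (finProdFinEquiv (k, i)))) ?_ ?_
        · have h2 : rtS r j (finProdFinEquiv (κ j i j.2 hi, i)) = ((i : ℕ), W j i j.2 hi) := by
            rw [rS j _ j.2 (finProdFinEquiv (κ j i j.2 hi, i)).2]
            rcases hslot j (finProdFinEquiv (κ j i j.2 hi, i)) with ⟨h3, h4, h5⟩ | ⟨h3, -⟩
            · simp only [Equiv.symm_apply_apply] at h5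
              exact h5
            · exfalso
              apply h3
              simp only [Equiv.symm_apply_apply]
              exact ⟨hi, trivial⟩
          unfold numB
          rw [h2]
          dsimp only
          rw [if_pos hi, pcPoly_mul, rB _ (finProdFinEquiv (κ j i j.2 hi, i)).2, hbl, rN]
          dsimp only
          rw [Equiv.symm_apply_apply]
          dsimp only
          rw [jokC_det (hok _) (hJ _), hx]
          exact hcong j i j.2 hi
        · intro k hk
          exact hun k fun ⟨h3, h4⟩ => hk h4.symm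
    · refine ⟨hg3N, fun y => ?_, ?_⟩
      · rcases y with _ | z
        · change |(1 : ℚ)| ≤ (T' : ℚ) ^ A ∧ ∃ z : ℤ, (q : ℚ) * (1 : ℚ) = z
          rw [abs_one, mul_one]
          exact ⟨hTA, q, by rw [Int.cast_natCast]⟩
        · change |(0 : ℚ)| ≤ (T' : ℚ) ^ A ∧ ∃ z : ℤ, (q : ℚ) * (0 : ℚ) = z
          rw [abs_zero, mul_zero]
          exact ⟨by linarith, 0, by rw [Int.cast_zero]⟩
      · refine congrArg _ (hg3_none c cof i
          (fun k => pcPoly (n + 1) (numB (dropE E) r j (finProdFinEquiv (k, i)))) fun k => ?_)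
        exact hun k fun ⟨h3, _⟩ => hi h3
  choose cy hcyb hcyφ using hcy
  refine ⟨r, xl, fun p => ∑ j : Fin (dropE E).length, ∏ i : Fin A, cy j i (p i), q ^ A, ?_, rM, rN, rK,
    by rw [rC]; exact hx₀, ?_, Nat.one_le_pow _ _ hq1, ?_, fun p => ⟨?_, ?_⟩⟩
  · -- the verification
    refine ⟨hb, ?_, ?_, rT, ?_, ?_, ?_⟩
    · rw [rM, rN, rC]
      exact (okC_iff _ x₀).2 (by rw [hx₀]; exact hT.ok)
    · unfold prodH
      rw [rM, rN, rC, pcIsZero_iff, pcPoly_append, pcPoly_neg, pcPoly_qC, hx₀, pcPoly_prodRange, hT.prod.Q]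
      have e3 : ∀ β : Fin (μ * A), pcPoly (μ * A * n + 1) (blkC n β (qC (rtB r β).1)) =
          rename (bidx n (μ * A) β) (c (finProdFinEquiv.symm β).1).Q := by
        intro β
        rw [pcPoly_blkC, pcPoly_qC, rB _ β.2, hbl]
        dsimp only
        rw [hx]
      rw [Finset.prod_congr rfl fun β _ => e3 β, add_neg_cancel]
    · intro β hβ
      rw [List.mem_range, rM] at hβ
      obtain ⟨k, hk⟩ : ∃ k, k = (finProdFinEquiv.symm (⟨β, hβ⟩ : Fin (μ * A))).1 := ⟨_, rfl⟩
      unfold blkH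
      rw [rB β hβ, hbl, rN, rM, rC, rX β hβ]
      dsimp only
      rw [← hk]
      refine ⟨hok k, hJ k, hnd k, fun l hl => ?_, ?_⟩
      · rw [List.mem_range] at hl
        constructor
        · have e1 := hP1 k ⟨l, hl⟩
          have e2 := hP2 (finProdFinEquiv ((⟨β, hβ⟩ : Fin (μ * A)), (⟨l, hl⟩ : Fin n)))
          rw [← hval] at e2
          dsimp only at e1 e2
          have e4 := hT.prod.p ⟨β, hβ⟩ ⟨l, hl⟩
          rw [pcIsZero_iff, pcPoly_append, pcPoly_neg, e2, e4, ← hk, ← e1]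
          have e3 := pcPoly_blkC n (μ * A) ⟨β, hβ⟩ (cdP (x k) l)
          dsimp only at e3
          rw [e3, add_neg_cancel]
        · have e1 := hQ1 k ⟨l, hl⟩
          have e2 := hQ2 (finProdFinEquiv ((⟨β, hβ⟩ : Fin (μ * A)), (⟨l, hl⟩ : Fin n)))
          rw [← hval] at e2
          dsimp only at e1 e2
          have e4 := hT.prod.q ⟨β, hβ⟩ ⟨l, hl⟩
          rw [pcIsZero_iff, pcPoly_append, pcPoly_neg, e2, e4, ← hk, ← e1]
          have e3 := pcPoly_blkC n (μ * A) ⟨β, hβ⟩ (cdQ (x k) l)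
          dsimp only at e3
          rw [e3, add_neg_cancel]
      · have e3 := pcPoly_blkC n (μ * A) ⟨β, hβ⟩ (qC (x k))
        dsimp only at e3
        rw [pcIsZero_iff, pcPoly_append, pcPoly_neg, pcPoly_mul, e3, pcPoly_qC, pcPoly_qC, hx, hx₀, hcc₀,
          hk, hT.cof, add_neg_cancel]
    · intro j hj
      rw [List.mem_range] at hj
      have hused : ∀ (β : ℕ) (hβ : β < μ * A), (rtS r j β).1 < ((dropE E).getD j []).length →
          ∃ h : ((finProdFinEquiv.symm (⟨β, hβ⟩ : Fin (μ * A))).2 : ℕ) < ((dropE E).getD j []).length,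
            κ j (finProdFinEquiv.symm (⟨β, hβ⟩ : Fin (μ * A))).2 hj h =
              (finProdFinEquiv.symm (⟨β, hβ⟩ : Fin (μ * A))).1 ∧
            rtS r j β = (((finProdFinEquiv.symm (⟨β, hβ⟩ : Fin (μ * A))).2 : ℕ),
              W j (finProdFinEquiv.symm (⟨β, hβ⟩ : Fin (μ * A))).2 hj h) := by
        intro β hβ hlt
        rcases hslot ⟨j, hj⟩ ⟨β, hβ⟩ with ⟨h1, h2, h3⟩ | ⟨_, h3⟩
        · exact ⟨h1, h2, (rS j β hj hβ).trans h3⟩
        · rw [rS j β hj hβ, h3] at hlt
          exact absurd hlt (lt_irrefl _)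
      refine ⟨?_, ?_, ?_⟩
      · intro β hβ hlt
        rw [List.mem_range, rM] at hβ
        obtain ⟨h1, h2, h3⟩ := hused β hβ hlt
        rw [h3, rB β hβ, hbl, rN, rT, rK]
        dsimp only
        rw [← h2]
        exact hW j _ hj h1
      · intro β hβ β' hβ' hlt heq
        rw [List.mem_range, rM] at hβ hβ'
        obtain ⟨h1, h2, h3⟩ := hused β hβ hlt
        obtain ⟨h1', h2', h3'⟩ := hused β' hβ' (by rw [← heq]; exact hlt)
        rw [h3, h3'] at heq
        dsimp only at heq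
        have h4 : (finProdFinEquiv.symm (⟨β, hβ⟩ : Fin (μ * A))).2 =
            (finProdFinEquiv.symm (⟨β', hβ'⟩ : Fin (μ * A))).2 := Fin.ext heq
        have h5 : (finProdFinEquiv.symm (⟨β, hβ⟩ : Fin (μ * A))).1 =
            (finProdFinEquiv.symm (⟨β', hβ'⟩ : Fin (μ * A))).1 := by
          rw [← h2, ← h2']
          simp only [h4]
        exact congrArg Fin.val (finProdFinEquiv.symm.injective (Prod.ext h5 h4))
      · intro i hi
        rw [List.mem_range] at hi
        have hiδ : i < A := lt_of_lt_of_le hi (hlenA j hj)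
        obtain ⟨β, hβ⟩ : ∃ β : Fin (μ * A), β = finProdFinEquiv (κ j i hj hi, (⟨i, hiδ⟩ : Fin A)) :=
          ⟨_, rfl⟩
        refine ⟨β, by rw [List.mem_range, rM]; exact β.2, ?_⟩
        have e1 : finProdFinEquiv.symm β = (κ j i hj hi, (⟨i, hiδ⟩ : Fin A)) := by
          rw [hβ, Equiv.symm_apply_apply]
        rw [rS j β hj β.2]
        rcases hslot ⟨j, hj⟩ β with ⟨h1, h2, h3⟩ | ⟨h1, h3⟩
        · have h4 : slot ⟨j, hj⟩ ⟨(β : ℕ), β.2⟩ = slot ⟨j, hj⟩ β := rfl
          rw [h4, h3]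
          dsimp only
          rw [e1]
        · exfalso
          apply h1
          rw [e1]
          exact ⟨hi, rfl⟩
    · intro L hL' I hI
      obtain ⟨k, hk⟩ := hitems L hL' I hI
      exact hk.2.1
  · -- the numerator
    rw [hg3_numG (dropE E) r rM rN rK, ← hg3_dvd]
    have e0 : ∀ j : Fin (dropE E).length, (∏ β : Fin (μ * A), rename (bidx n (μ * A) β)
        (pcPoly (n + 1) (numB (dropE E) r j β)) * pcPoly (μ * A * n + 1) (rtB r β).2.2 ^ (A + n)) =
        ∏ β : Fin (μ * A), rename (bidx n (μ * A) β)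
        (pcPoly (n + 1) (numB (dropE E) r j β)) * cof β ^ (A + n) := by
      intro j
      refine Finset.prod_congr rfl fun β _ => ?_
      rw [rB _ β.2, hbl]
      dsimp only
      rw [hcc₀]
    have e5 : ∀ j : Fin (dropE E).length, hg3φ (μ * A * n) (∏ β : Fin (μ * A), rename (bidx n (μ * A) β)
        (pcPoly (n + 1) (numB (dropE E) r j β)) * cof β ^ (A + n)) =
        hg3φ (μ * A * n) (∑ p : PatH μ n A, C (∏ i, cy j i (p i)) * GH c A cof p) := fun j =>
      hg3_prod c cof (fun β => pcPoly (n + 1) (numB (dropE E) r j β)) (cy j) (hcyφ j)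
    rw [Finset.sum_congr rfl fun j _ => e0 j, map_sum, Finset.sum_congr rfl fun j _ => e5 j, ← map_sum,
      Finset.sum_comm]
    refine congrArg _ (Finset.sum_congr rfl fun p _ => ?_)
    rw [map_sum, Finset.sum_mul]
  · calc q ^ A ≤ (T' ^ A) ^ A := Nat.pow_le_pow_left hqT A
      _ = T' ^ (A * A) := (pow_mul T' A A).symm
  · refine (Finset.abs_sum_le_sum_abs _ _).trans ?_
    have h1 : ∀ j : Fin (dropE E).length, |∏ i : Fin A, cy j i (p i)| ≤ ((T' : ℚ) ^ A) ^ A := by
      intro j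
      rw [Finset.abs_prod]
      have h2 : ∏ i : Fin A, |cy j i (p i)| ≤ ∏ _i : Fin A, (T' : ℚ) ^ A :=
        Finset.prod_le_prod (fun i _ => abs_nonneg _) fun i _ => (hcyb j i (p i)).1
      refine h2.trans (le_of_eq ?_)
      rw [Finset.prod_const, Finset.card_univ, Fintype.card_fin]
    refine (Finset.sum_le_sum fun j _ => h1 j).trans ?_
    rw [Finset.sum_const, Finset.card_univ, Fintype.card_fin, nsmul_eq_mul, pow_add, pow_mul]
    refine mul_le_mul_of_nonneg_right ?_ (by positivity)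
    rw [hE'len]
    exact_mod_cast hlen
  · choose z hz using fun (j : Fin (dropE E).length) (i : Fin A) => (hcyb j i (p i)).2
    refine ⟨∑ j : Fin (dropE E).length, ∏ i : Fin A, z j i, ?_⟩
    rw [Nat.cast_pow, Finset.mul_sum, Int.cast_sum]
    refine Finset.sum_congr rfl fun j _ => ?_
    rw [Int.cast_prod, ← Finset.prod_congr rfl fun i _ => hz j i, Finset.prod_mul_distrib,
      Finset.prod_const, Finset.card_univ, Fintype.card_fin]

end Pool.Agent.Lib.MP_bbe012_lc.PH
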