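import Pool.Agent.Lib.MP_bbe012_lc.PH.HG1
import Pool.Agent.Lib.MP_bbe012_lc.PH.HF1
import Pool.Agent.Lib.MP_bbe012_lc.PT.TRedD

/-!
# The integrals of the class on the charts
-/

namespace Pool.Agent.Lib.MP_bbe012_lc.PH

open MvPolynomial MeasureTheory Set PP PG PT

/-- the exponent given by a bounded function -/
private noncomputable def hg3aE {n A : ℕ} (a : Fin n → Fin (A + 1)) : Fin n →₀ ℕ :=
  Finsupp.equivFunOnFinite.symm fun l => (a l : ℕ)

private theorem hg3aE_apply {n A : ℕ} (a : Fin n → Fin (A + 1)) (l : Fin n) :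
    hg3aE a l = (a l : ℕ) := rfl

private theorem hg3aE_mon {n A : ℕ} (a : Fin n → Fin (A + 1)) (c : ℚ) :
    C c * ∏ l, (X l : MvPolynomial (Fin n) ℚ) ^ (a l : ℕ) = monomial (hg3aE a) c := by
  rw [monomial_eq, Finsupp.prod_fintype _ _ fun l => pow_zero _]
  rfl

private theorem hg3a_expand {n A : ℕ} {P : MvPolynomial (Fin n) ℚ} (hP : P.totalDegree ≤ A) :
    P = ∑ a : Fin n → Fin (A + 1), C (coeff (hg3aE a) P) * ∏ l, X l ^ (a l : ℕ) := by
  classical
  ext m
  rw [coeff_sum]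
  have h1 : ∀ a : Fin n → Fin (A + 1),
      coeff m (C (coeff (hg3aE a) P) * ∏ l, (X l : MvPolynomial (Fin n) ℚ) ^ (a l : ℕ)) =
        if hg3aE a = m then coeff (hg3aE a) P else 0 := fun a => by
    rw [hg3aE_mon, coeff_monomial]
  rw [Finset.sum_congr rfl fun a _ => h1 a]
  by_cases hm : ∀ l, m l < A + 1
  · have h2 : hg3aE (fun l => (⟨m l, hm l⟩ : Fin (A + 1))) = m := by
      ext l
      rfl
    rw [Finset.sum_eq_single (fun l => (⟨m l, hm l⟩ : Fin (A + 1)))]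
    · rw [if_pos h2, h2]
    · intro a _ ha
      refine if_neg fun h3 => ha ?_
      funext l
      refine Fin.ext ?_
      exact DFunLike.congr_fun h3 l
    · intro h3
      exact absurd (Finset.mem_univ _) h3
  · rw [Finset.sum_eq_zero]
    · by_contra h3
      obtain ⟨l, hl⟩ := not_forall.1 hm
      apply hl
      have h4 : (m.sum fun _ e => e) ≤ P.totalDegree := le_totalDegree (mem_support_iff.2 h3)
      have h5 : m l ≤ m.sum fun _ e => e := by
        by_cases hi : l ∈ m.support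
        · exact Finset.single_le_sum (f := fun a => m a) (fun _ _ => Nat.zero_le _) hi
        · rw [Finsupp.notMem_support_iff.1 hi]
          exact Nat.zero_le _
      exact Nat.lt_succ_of_le (h5.trans (h4.trans hP))
    · intro a _
      refine if_neg fun h3 => hm fun l => ?_
      rw [← h3, hg3aE_apply]
      exact (a l).2

/-- Polynomials of degree at most `A`, as sums over bounded exponents.

Proof. See `dred_expand` (the private lemmas at the beginning of PG/DRed.lean): `P` is the sum of its monomials; all exponents of the support are at most `A`; `rename (Fin.castLE h) P` has degree at most `A`, and its coefficients are coefficients of `P` or `0`. -/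
theorem expandH {m n : ℕ} (h : m ≤ n) {P : MvPolynomial (Fin m) ℚ} {A T q : ℕ} (hd : P.totalDegree ≤ A)
    (hP : ∀ u, |coeff u P| ≤ (T : ℚ) ^ A ∧ ∃ z : ℤ, (q : ℚ) * coeff u P = z) :
    ∃ cc : (Fin n → Fin (A + 1)) → ℚ, rename (Fin.castLE h) P = ∑ a, C (cc a) * ∏ l, X l ^ (a l : ℕ) ∧
      ∀ a, |cc a| ≤ (T : ℚ) ^ A ∧ ∃ z : ℤ, (q : ℚ) * cc a = z := by
  classical
  obtain ⟨P', hP'⟩ : ∃ P' : MvPolynomial (Fin n) ℚ, P' = rename (Fin.castLE h) P := ⟨_, rfl⟩
  have hdeg : P'.totalDegree ≤ A := by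
    rw [hP']
    exact (totalDegree_rename_le _ _).trans hd
  have hco : ∀ b, |coeff b P'| ≤ (T : ℚ) ^ A ∧ ∃ z : ℤ, (q : ℚ) * coeff b P' = z := by
    intro b
    by_cases hb : coeff b P' = 0
    · rw [hb, abs_zero]
      exact ⟨by positivity, 0, by simp⟩
    · rw [hP'] at hb ⊢
      obtain ⟨u, hu, _⟩ := coeff_rename_ne_zero _ _ _ hb
      rw [← hu, coeff_rename_mapDomain _ (Fin.castLE_injective h)]
      exact hP u
  refine ⟨fun a => coeff (hg3aE a) P', ?_, fun a => hco _⟩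
  rw [← hP']
  exact hg3a_expand hdeg

private theorem hg3a_cong {n : ℕ} (G : TP n ℚ) :
    (X 0 - C 1 : TP n ℚ) ∣ rename Fin.succ (spQ n 1 G) - G := by
  rw [← Ideal.mem_span_singleton, ← Ideal.Quotient.eq]
  have h : ((Ideal.Quotient.mkₐ ℚ (Ideal.span {(X 0 - C 1 : TP n ℚ)})).comp
      ((rename (Fin.succ : Fin n → Fin (n + 1)) : MvPolynomial (Fin n) ℚ →ₐ[ℚ] TP n ℚ).comp
        (spQ n 1))) =
      Ideal.Quotient.mkₐ ℚ (Ideal.span {(X 0 - C 1 : TP n ℚ)}) := by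
    refine MvPolynomial.algHom_ext fun i => ?_
    refine Fin.cases ?_ (fun l => ?_) i
    · simp only [AlgHom.comp_apply, spQ, aeval_X, Fin.cons_zero, rename_C,
        Ideal.Quotient.mkₐ_eq_mk]
      rw [Ideal.Quotient.eq, Ideal.mem_span_singleton]
      exact ⟨-1, by ring⟩
    · simp only [AlgHom.comp_apply, spQ, aeval_X, Fin.cons_succ, rename_X]
  exact congrArg (fun f => f G) h

private theorem hg3a_spz_rename {s m n : ℕ} (ι : Fin m → Fin n) (D : Pz s m) (θ : Fin s → ℚ) :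
    spz (rename (Sum.map id ι) D) θ = rename ι (spz D θ) := by
  have h : (aeval (Sum.elim (fun i => C (θ i)) X) :
        Pz s n →ₐ[ℚ] MvPolynomial (Fin n) ℚ).comp (rename (Sum.map id ι)) =
      (rename ι).comp (aeval (Sum.elim (fun i => C (θ i)) X) :
        Pz s m →ₐ[ℚ] MvPolynomial (Fin m) ℚ) := by
    refine MvPolynomial.algHom_ext fun i => ?_
    rcases i with i | l
    · simp only [AlgHom.comp_apply, rename_X, aeval_X, Sum.map_inl, Sum.elim_inl, id, rename_C]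
    · simp only [AlgHom.comp_apply, rename_X, aeval_X, Sum.map_inr, Sum.elim_inr]
  exact congrArg (fun f => f D) h

private theorem hg3a_spQ_sbP {s n : ℕ} {γ : Fin s → Polynomial ℚ} {θ : Fin s → ℚ}
    (h1 : ∀ i, (γ i).eval 1 = θ i) (D : Pz s n) : spQ n 1 (sbP γ D) = spz D θ := by
  have h : (spQ n 1).comp (sbP γ : Pz s n →ₐ[ℚ] TP n ℚ) =
      (aeval (Sum.elim (fun i => C (θ i)) X) : Pz s n →ₐ[ℚ] MvPolynomial (Fin n) ℚ) := by
    refine MvPolynomial.algHom_ext fun i => ?_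
    rcases i with i | l
    · rw [AlgHom.comp_apply, sbP, aeval_X, aeval_X, Sum.elim_inl, Sum.elim_inl]
      have h2 : inT n (γ i) = Polynomial.aeval (X 0 : TP n ℚ) (γ i) := rfl
      have h3 : spQ n 1 (X 0) = algebraMap ℚ (MvPolynomial (Fin n) ℚ) 1 := by
        rw [spQ, aeval_X, Fin.cons_zero]
        rfl
      rw [h2, ← Polynomial.aeval_algHom_apply, h3, Polynomial.aeval_algebraMap_apply,
        Polynomial.coe_aeval_eq_eval, h1]
      rfl
    · rw [AlgHom.comp_apply, sbP, aeval_X, aeval_X, Sum.elim_inr, Sum.elim_inr, spQ, aeval_X,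
        Fin.cons_succ]
  exact congrArg (fun f => f D) h

private theorem hg3a_zero {n : ℕ} {p r : PCode} (h : pcPoly n p = pcPoly n r) :
    pcIsZero n (p ++ pcNeg r) := by
  rw [pcIsZero_iff, pcPoly_append, pcPoly_neg, h, add_neg_cancel]

/-- The item of the family on the chart.

Here `c` is the chart of the padded family along a path with end point `θ`. Proof. `spQ n 1 (sbP γ D) = spz D θ` if `(γ i).eval 1 = θ i` (algebra homomorphisms). Coordinates: for `l < m`, `pcPoly n (domA I l) = rename (Fin.castLE h) (pcPoly m (..)) = rename (Fin.castLE h) (spz (F.A l) θ) = spz ((F.pad h).A l) θ = spQ n 1 (c.A l)` (`pcPoly_trunc_castLE`, `spz (rename (Sum.map id ι) D) θ = rename ι (spz D θ)`); for `m ≤ l`: `X l`; the same for `B`; see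
`itemSem_of_supp` (PT/TUniv.lean). The denominator `D' = spz F.D θ ^ κ` (renamed), `Q(1, x) = spz D θ * Q'(1, x)`, so with `W` a code of `spQ n 1 (qq c ^ κ * c.Q ^ (A - κ))`: `D' W = Q(1, x) ^ A`. `itemOK` by `pcIsZero_iff`, `pcPoly_evC`, `pcPoly_aC`, `pcPoly_bC`, `pcPoly_qC`. -/
theorem exists_itemH {s m n A T q b : ℕ} (h : m ≤ n) {F : Typ s m} {θ : Fin s → ℚ} {I : CIH}
    (hI : ItemH F b A T q θ I) {γ : Fin s → Polynomial ℚ} (h1 : ∀ i, (γ i).eval 1 = θ i) {x : CDC}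
    (hc : IsPathC (F.pad h) γ (toCD n x)) :
    ∃ (W : PCode) (κ : Fin (A + 1)) (cc : (Fin n → Fin (A + 1)) → ℚ), itemOK n (qnat 1) A x (dropI I) W ∧
      (∀ a, |cc a| ≤ (T : ℚ) ^ A ∧ ∃ z : ℤ, (q : ℚ) * cc a = z) ∧
      (X 0 - C 1 : TP n ℚ) ∣ pcPoly (n + 1) (pcShift 1 n (pcMul (pcTrunc I.1 I.2.2.1.1) W)) *
        (Matrix.of (toCD n x).V).det - ∑ a, C (cc a) * mnum (toCD n x) A a κ := by
  classical
  obtain ⟨m', b', ⟨⟨P, D⟩, L⟩⟩ := I
  obtain ⟨e1, -, e3, e4, ⟨κ, hκ, e5⟩, e6, e7⟩ := hI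
  dsimp only at e1 e3 e4 e5 e6 e7
  subst e1
  obtain ⟨cc, hcc, hccb⟩ := expandH h e6 e7
  obtain ⟨c, hcdef⟩ : ∃ c : CD n ℚ, c = toCD n x := ⟨_, rfl⟩
  rw [← hcdef] at hc ⊢
  obtain ⟨W, hW⟩ := exists_pcPoly (spQ n 1 (qq c ^ κ * c.Q ^ (A - κ)))
  refine ⟨W, ⟨κ, Nat.lt_succ_of_le hκ⟩, cc, ⟨h, e3, fun l hl => ?_, ?_⟩, hccb, ?_⟩
  · rw [List.mem_range] at hl
    have ha' := pcPoly_aC n x ⟨l, hl⟩
    have hb' := pcPoly_bC n x ⟨l, hl⟩
    have hA' : spQ n 1 (c.A ⟨l, hl⟩) = spz ((F.pad h).A ⟨l, hl⟩) θ := by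
      rw [hc.A, hg3a_spQ_sbP h1]
    have hB' : spQ n 1 (c.B ⟨l, hl⟩) = spz ((F.pad h).B ⟨l, hl⟩) θ := by
      rw [hc.B, hg3a_spQ_sbP h1]
    rw [hcdef] at hA' hB'
    dsimp only at ha' hb'
    have hq1 : qval (qnat 1) = 1 := by
      simp
    by_cases hlm : l < m'
    · have hdA : domA (dropI (m', (b', ((P, D), L)))) l = pcTrunc m' (L.getD l ([], [])).1 := if_pos hlm
      have hdB : domB (dropI (m', (b', ((P, D), L)))) l = pcTrunc m' (L.getD l ([], [])).2 := if_pos hlm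
      have e8 := e4 ⟨l, hlm⟩
      dsimp only at e8
      have hpA : (F.pad h).A ⟨l, hl⟩ = rename (Sum.map id (Fin.castLE h)) (F.A ⟨l, hlm⟩) := dif_pos hlm
      have hpB : (F.pad h).B ⟨l, hl⟩ = rename (Sum.map id (Fin.castLE h)) (F.B ⟨l, hlm⟩) := dif_pos hlm
      constructor
      · apply hg3a_zero
        rw [hdA, pcPoly_trunc_castLE h, e8.1, pcPoly_evC, ha', hq1, hA', hpA, hg3a_spz_rename]
      · apply hg3a_zero
        rw [hdB, pcPoly_trunc_castLE h, e8.2, pcPoly_evC, hb', hq1, hB', hpB, hg3a_spz_rename]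
    · have hdA : domA (dropI (m', (b', ((P, D), L)))) l = pcVar l := if_neg hlm
      have hdB : domB (dropI (m', (b', ((P, D), L)))) l = pcNat 1 := if_neg hlm
      have hpA : (F.pad h).A ⟨l, hl⟩ = X (Sum.inr ⟨l, hl⟩) := dif_neg hlm
      have hpB : (F.pad h).B ⟨l, hl⟩ = 1 := dif_neg hlm
      constructor
      · apply hg3a_zero
        rw [hdA, pcPoly_var hl, pcPoly_evC, ha', hq1, hA', hpA, spz, aeval_X, Sum.elim_inr]
      · apply hg3a_zero
        rw [hdB, pcPoly_nat, Nat.cast_one, C_1, pcPoly_evC, hb', hq1, hB', hpB, spz, map_one]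
  · have hq1 : qval (qnat 1) = 1 := by
      simp
    have hQ : c.Q = sbP γ (F.pad h).D * qq c := hc.Q
    have hpD : (F.pad h).D = rename (Sum.map id (Fin.castLE h)) F.D := rfl
    apply hg3a_zero
    show pcPoly n (pcMul (pcTrunc m' D) W) = _
    have h5 : sbP γ (F.pad h).D ^ κ * (qq c ^ κ * c.Q ^ (A - κ)) = c.Q ^ A := by
      rw [← mul_assoc, ← mul_pow, ← hQ, ← pow_add, Nat.add_sub_cancel' hκ]
    rw [pcPoly_mul, pcPoly_trunc_castLE h, e5, hW, pcPoly_pow, pcPoly_evC, hq1, pcPoly_qC, ← hcdef,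
      map_pow, ← hg3a_spz_rename, ← hpD, ← hg3a_spQ_sbP h1, ← map_pow (spQ n 1), ← map_mul (spQ n 1),
      ← map_pow (spQ n 1), h5]
  · show _ ∣ pcPoly (n + 1) (pcShift 1 n (pcMul (pcTrunc m' P) W)) * _ - _
    have hS : rename Fin.succ (rename (Fin.castLE h) (pcPoly m' P)) =
        ∑ a, C (cc a) * ∏ l, (X l.succ : TP n ℚ) ^ (a l : ℕ) := by
      rw [hcc, map_sum]
      refine Finset.sum_congr rfl fun a _ => ?_
      rw [map_mul, rename_C, map_prod]
      congr 1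
      refine Finset.prod_congr rfl fun l _ => ?_
      rw [map_pow, rename_X]
    have hR : ∑ a, C (cc a) * mnum c A a ⟨κ, Nat.lt_succ_of_le hκ⟩ =
        (∑ a, C (cc a) * ∏ l, (X l.succ : TP n ℚ) ^ (a l : ℕ)) * (Matrix.of c.V).det *
          (qq c ^ κ * c.Q ^ (A - κ)) := by
      rw [Finset.sum_mul, Finset.sum_mul]
      refine Finset.sum_congr rfl fun a _ => ?_
      rw [mnum]
      ring
    obtain ⟨V, hV⟩ := hg3a_cong (qq c ^ κ * c.Q ^ (A - κ))
    rw [pcPoly_shift_succ, pcPoly_mul, pcPoly_trunc_castLE h, hW, map_mul, hS, hR]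
    refine ⟨(∑ a, C (cc a) * ∏ l, (X l.succ : TP n ℚ) ^ (a l : ℕ)) * (Matrix.of c.V).det * V, ?_⟩
    linear_combination (∑ a, C (cc a) * ∏ l, (X l.succ : TP n ℚ) ^ (a l : ℕ)) * (Matrix.of c.V).det * hV

end Pool.Agent.Lib.MP_bbe012_lc.PH
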