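import Pool.Agent.Lib.MP_bbe012_lc.PH.HP1

/-!
# The verifications are primitive recursive, part 2; the decision procedure
-/

namespace Pool.Agent.Lib.MP_bbe012_lc.PH

open Primrec PP PG PT

instance instPrimcodableCIHA : Primcodable (ℕ × ((PCode × PCode) × List (PCode × PCode))) :=
  @Primcodable.prod _ _ inferInstance instPrimcodableCITA
instance instPrimcodableCIH : Primcodable CIH := @Primcodable.prod _ _ inferInstance instPrimcodableCIHA
instance instPrimcodableListCIH : Primcodable (List CIH) := @Primcodable.list CIH instPrimcodableCIH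
instance instPrimcodableExH : Primcodable ExH := @Primcodable.list (List CIH) instPrimcodableListCIH
instance instPrimcodableHCtA : Primcodable (ℕ × List NDC) := @Primcodable.prod _ _ inferInstance instPrimcodableListNDC
instance instPrimcodableHCtB : Primcodable (RT × (ℕ × List NDC)) :=
  @Primcodable.prod _ _ instPrimcodableRT instPrimcodableHCtA
instance instPrimcodableHCtC : Primcodable (ZCT × NH) := @Primcodable.prod _ _ instPrimcodableZCT instPrimcodableNH
instance instPrimcodableHCtD : Primcodable (Bool × (ZCT × NH)) := @Primcodable.prod _ _ inferInstance instPrimcodableHCtC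
instance instPrimcodableHCt : Primcodable HCt := @Primcodable.prod _ _ instPrimcodableHCtB instPrimcodableHCtD
instance instPrimcodableExHCt : Primcodable (ExH × HCt) := @Primcodable.prod _ _ instPrimcodableExH instPrimcodableHCt

variable {α : Type} [Primcodable α]

private theorem hprimb_rtN {c : α → RT} (hc : Primrec c) : Primrec fun a => rtN (c a) :=
  fst.comp (fst.comp (fst.comp (fst.comp hc)))

private theorem hprimb_rtM {c : α → RT} (hc : Primrec c) : Primrec fun a => rtM (c a) :=
  snd.comp (fst.comp (fst.comp (fst.comp hc)))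

private theorem hprimb_rtK {c : α → RT} (hc : Primrec c) : Primrec fun a => rtK (c a) :=
  snd.comp (fst.comp (fst.comp hc))

private theorem hprimb_rtT {c : α → RT} (hc : Primrec c) : Primrec fun a => rtT (c a) :=
  snd.comp (fst.comp hc)

private theorem hprimb_rtC {c : α → RT} (hc : Primrec c) : Primrec fun a => rtC (c a) :=
  snd.comp (fst.comp (snd.comp hc))

private theorem hprimb_blkC {n i : α → ℕ} {p : α → PCode} (hn : Primrec n) (hi : Primrec i)
    (hp : Primrec p) : Primrec fun a => blkC (n a) (i a) (p a) :=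
  primrec_blkC.comp (pair (pair hn hi) hp)

private theorem hprimb_numG {E : α → ExT} {r : α → RT} (hE : Primrec E) (hr : Primrec r) :
    Primrec fun a => numG (E a) (r a) := by
  have h : Primrec fun a => toCoreT (E a) (r a) := primrec_toCoreT.comp (pair hE hr)
  exact snd.comp (fst.comp (snd.comp h))

/-- `Primrec.list_map`. -/
theorem pr_dropE {E : α → ExH} (hE : Primrec E) : Primrec fun a => dropE (E a) := by
  have h0 : Primrec₂ fun (_ : α × List CIH) (I : CIH) => dropI I :=
    (pair (fst.comp snd) (snd.comp (snd.comp snd))).to₂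
  have h1 : Primrec₂ fun (_ : α) (L : List CIH) => L.map dropI :=
    (list_map (f := fun q : α × List CIH => q.2) (g := fun _ I => dropI I) snd h0).to₂
  exact list_map (f := E) (g := fun _ (L : List CIH) => L.map dropI) hE h1

/-- As `pr_blkOK` (PT/TPrimC.lean), with `pr_ndC` in place of `pr_smallC`. -/
theorem pr_blkH {b β : α → ℕ} {r : α → RT} {x : α → NDC} (hb : Primrec b) (hr : Primrec r) (hβ : Primrec β)
    (hx : Primrec x) : PrimrecPred fun a => blkH (b a) (r a) (β a) (x a) := by
  have hN := hprimb_rtN hr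
  have hM := hprimb_rtM hr
  have hC := hprimb_rtC hr
  have hB := pr_rtB hr hβ
  have hB1 : Primrec fun a => (rtB (r a) (β a)).1 := fst.comp hB
  have hB2 : Primrec fun a => (rtB (r a) (β a)).2.1 := fst.comp (snd.comp hB)
  have hB3 : Primrec fun a => (rtB (r a) (β a)).2.2 := snd.comp (snd.comp hB)
  have hMN : Primrec fun a => rtM (r a) * rtN (r a) + 1 := succ.comp (nat_mul.comp hM hN)
  have h1 : PrimrecPred fun a => okC (rtN (r a)) (rtB (r a) (β a)).1 := pr_okC hN hB1
  have h2 : PrimrecPred fun a => jokC (rtN (r a)) (rtB (r a) (β a)).1 (rtB (r a) (β a)).2.1 :=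
    pr_jokC hN hB1 hB2
  have h3 : PrimrecPred fun a => ndC (b a) (rtN (r a)) (rtB (r a) (β a)).1 (x a) :=
    pr_ndC hb hN hB1 hx
  have h4 : PrimrecRel fun (l : ℕ) (a : α) =>
      pcIsZero (rtM (r a) * rtN (r a) + 1) (blkC (rtN (r a)) (β a) (cdP (rtB (r a) (β a)).1 l) ++
        pcNeg (cdP (rtC (r a)) (β a * rtN (r a) + l))) ∧
      pcIsZero (rtM (r a) * rtN (r a) + 1) (blkC (rtN (r a)) (β a) (cdQ (rtB (r a) (β a)).1 l) ++
        pcNeg (cdQ (rtC (r a)) (β a * rtN (r a) + l))) := by
    have hx : Primrec fun q : ℕ × α => β q.2 * rtN (r q.2) + q.1 :=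
      nat_add.comp (nat_mul.comp (hβ.comp snd) (hN.comp snd)) fst
    have ha : PrimrecPred fun q : ℕ × α =>
        pcIsZero (rtM (r q.2) * rtN (r q.2) + 1)
          (blkC (rtN (r q.2)) (β q.2) (cdP (rtB (r q.2) (β q.2)).1 q.1) ++
            pcNeg (cdP (rtC (r q.2)) (β q.2 * rtN (r q.2) + q.1))) :=
      pr_isZero (hMN.comp snd) (pr_append
        (hprimb_blkC (hN.comp snd) (hβ.comp snd) (pr_cdP (hB1.comp snd) fst))
        (pr_neg (pr_cdP (hC.comp snd) hx)))
    have hb' : PrimrecPred fun q : ℕ × α =>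
        pcIsZero (rtM (r q.2) * rtN (r q.2) + 1)
          (blkC (rtN (r q.2)) (β q.2) (cdQ (rtB (r q.2) (β q.2)).1 q.1) ++
            pcNeg (cdQ (rtC (r q.2)) (β q.2 * rtN (r q.2) + q.1))) :=
      pr_isZero (hMN.comp snd) (pr_append
        (hprimb_blkC (hN.comp snd) (hβ.comp snd) (pr_cdQ (hB1.comp snd) fst))
        (pr_neg (pr_cdQ (hC.comp snd) hx)))
    exact ha.and hb'
  have h5 : PrimrecPred fun a => ∀ l ∈ List.range (rtN (r a)),
      pcIsZero (rtM (r a) * rtN (r a) + 1) (blkC (rtN (r a)) (β a) (cdP (rtB (r a) (β a)).1 l) ++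
        pcNeg (cdP (rtC (r a)) (β a * rtN (r a) + l))) ∧
      pcIsZero (rtM (r a) * rtN (r a) + 1) (blkC (rtN (r a)) (β a) (cdQ (rtB (r a) (β a)).1 l) ++
        pcNeg (cdQ (rtC (r a)) (β a * rtN (r a) + l))) :=
    h4.forall_mem_list.comp (list_range.comp hN) Primrec.id
  have h6 : PrimrecPred fun a => pcIsZero (rtM (r a) * rtN (r a) + 1)
      (pcMul (blkC (rtN (r a)) (β a) (qC (rtB (r a) (β a)).1)) (rtB (r a) (β a)).2.2 ++
        pcNeg (qC (rtC (r a)))) :=
    pr_isZero hMN (pr_append (pr_mul (hprimb_blkC hN hβ (pr_qC hB1)) hB3) (pr_neg (pr_qC hC)))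
  exact h1.and (h2.and (h3.and (h5.and h6)))

theorem pr_prodH {r : α → RT} (hr : Primrec r) : PrimrecPred fun a => prodH (r a) := by
  have hN := hprimb_rtN hr
  have hM := hprimb_rtM hr
  have hC := hprimb_rtC hr
  have hMN : Primrec fun a => rtM (r a) * rtN (r a) + 1 := succ.comp (nat_mul.comp hM hN)
  have hT : Primrec fun q : α × ℕ => blkC (rtN (r q.1)) q.2 (qC (rtB (r q.1) q.2).1) :=
    hprimb_blkC (hN.comp fst) snd (pr_qC (fst.comp (pr_rtB (hr.comp fst) snd)))
  exact pr_isZero hMN (pr_append (pr_qC hC) (pr_neg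
    (pr_prodRange (g := fun a β => blkC (rtN (r a)) β (qC (rtB (r a) β).1)) hM hT.to₂)))

/-- Bounded quantifiers over `List.range` and over the elements of lists. -/
theorem pr_rtH {E : α → ExH} {r : α → RT} {b : α → ℕ} {x : α → List NDC} (hE : Primrec E) (hr : Primrec r)
    (hb : Primrec b) (hx : Primrec x) : PrimrecPred fun a => rtH (E a) (r a) (b a) (x a) := by
  have hN := hprimb_rtN hr
  have hM := hprimb_rtM hr
  have hC := hprimb_rtC hr
  have hD := pr_dropE hE
  have h1 : PrimrecPred fun a => 2 ≤ b a := nat_le.comp (const 2) hb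
  have h2 : PrimrecPred fun a => okC (rtM (r a) * rtN (r a)) (rtC (r a)) := pr_okC (nat_mul.comp hM hN) hC
  have h3 : PrimrecPred fun a => rtT (r a) = qnat 1 := Primrec.eq.comp (hprimb_rtT hr) (const (qnat 1))
  have h4 : PrimrecRel fun (β : ℕ) (a : α) => blkH (b a) (r a) β ((x a).getD β (psc0, [])) :=
    pr_blkH (hb.comp snd) (hr.comp snd) fst ((list_getD ((psc0, []) : NDC)).comp (hx.comp snd) fst)
  have h5 : PrimrecPred fun a => ∀ β ∈ List.range (rtM (r a)), blkH (b a) (r a) β ((x a).getD β (psc0, [])) :=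
    h4.forall_mem_list.comp (list_range.comp hM) Primrec.id
  have h6 : PrimrecRel fun (j : ℕ) (a : α) => slotOK (dropE (E a)) (r a) j :=
    pr_slotOK (hD.comp snd) (hr.comp snd) fst
  have h7 : PrimrecPred fun a => ∀ j ∈ List.range (dropE (E a)).length, slotOK (dropE (E a)) (r a) j :=
    h6.forall_mem_list.comp (list_range.comp (list_length.comp hD)) Primrec.id
  have h8 : PrimrecRel fun (I : CIH) (n : ℕ) => I.2.1 = n :=
    Primrec.eq.comp (fst.comp (snd.comp fst)) snd
  have h9 : PrimrecRel fun (L : List CIH) (n : ℕ) => ∀ I ∈ L, I.2.1 = n := h8.forall_mem_list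
  have h10 : PrimrecPred fun a => ∀ L ∈ E a, ∀ I ∈ L, I.2.1 = b a :=
    h9.forall_mem_list.comp hE hb
  exact h1.and (h2.and ((pr_prodH hr).and (h3.and (h5.and (h7.and h10)))))

/-- `tprimc_numG` in PT/TPrimC.lean (private: repeat the proof, or use `primrec_toCoreT`, whose second component contains `numG`). -/
theorem primrecPred_checkH : PrimrecPred fun y : ExH × HCt => checkH y.1 y.2 := by
  have hE : Primrec fun y : ExH × HCt => y.1 := fst
  have hr : Primrec fun y : ExH × HCt => y.2.1.1 := fst.comp (fst.comp snd)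
  have hb : Primrec fun y : ExH × HCt => y.2.1.2.1 := fst.comp (snd.comp (fst.comp snd))
  have hx : Primrec fun y : ExH × HCt => y.2.1.2.2 := snd.comp (snd.comp (fst.comp snd))
  have hB : Primrec fun y : ExH × HCt => y.2.2.1 := fst.comp (snd.comp snd)
  have hZ : Primrec fun y : ExH × HCt => y.2.2.2.1 := fst.comp (snd.comp (snd.comp snd))
  have hNH : Primrec fun y : ExH × HCt => y.2.2.2.2 := snd.comp (snd.comp (snd.comp snd))
  have hN := hprimb_rtN hr
  have hM := hprimb_rtM hr
  have hK := hprimb_rtK hr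
  have hC := hprimb_rtC hr
  have hMN := nat_mul.comp hM hN
  have hMK := nat_mul.comp hM (nat_add.comp hK hN)
  have hG := hprimb_numG (pr_dropE hE) hr
  have h1 : PrimrecPred fun y : ExH × HCt => y.2.2.1 = true := Primrec.eq.comp hB (const true)
  have h2 : PrimrecPred fun y : ExH × HCt => y.2.2.1 = false := Primrec.eq.comp hB (const false)
  exact (pr_rtH hE hr hb hx).and
    ((h1.and (pr_checkZT hMN hC hG hMK (const (qnat 1)) hZ)).or
      (h2.and (pr_checkNH hb hMN hC hG hMK hNH)))

/-- The decision procedure: search for a certificate. -/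
def decideH (E : ExH) : Part Bool :=
  Nat.rfindOpt fun m => (Encodable.decode (α := HCt) m).bind fun c =>
    if checkH E c then some c.2.1 else none

/-- As `partrec_decideT` in PT/TPrimC.lean. -/
theorem partrec_decideH : Partrec decideH := by
  have h : Primrec₂ fun (E : ExH) (m : ℕ) =>
      (Encodable.decode (α := HCt) m).bind fun c => if checkH E c then some c.2.1 else none := by
    have h1 : Primrec fun y : ExH × ℕ => (Encodable.decode (α := HCt) y.2) :=
      Primrec.decode.comp snd
    have h2 : PrimrecPred fun z : (ExH × ℕ) × HCt => checkH z.1.1 z.2 :=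
      primrecPred_checkH.comp (pair (fst.comp fst) snd)
    have h3 : Primrec fun z : (ExH × ℕ) × HCt => z.2.2.1 :=
      fst.comp (snd.comp snd)
    exact option_bind h1 ((Primrec.ite h2 (option_some.comp h3) (const none)).to₂)
  exact Partrec.rfindOpt h.to_comp

theorem mem_decideH {E : ExH} {b : Bool} (h : b ∈ decideH E) : ∃ c : HCt, checkH E c ∧ b = c.2.1 := by
  obtain ⟨m, hm⟩ := Nat.rfindOpt_spec h
  obtain ⟨c, _, h2⟩ := Option.bind_eq_some_iff.mp hm
  split_ifs at h2 with hc
  exact ⟨c, hc, (Option.some_injective _ h2).symm⟩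

theorem dom_decideH {E : ExH} {c : HCt} (hc : checkH E c) : (decideH E).Dom := by
  refine Nat.rfindOpt_dom.mpr ⟨Encodable.encode (c : HCt), c.2.1, ?_⟩
  rw [Encodable.encodek]
  change (if checkH E c then some c.2.1 else none) = _
  rw [if_pos hc]

end Pool.Agent.Lib.MP_bbe012_lc.PH
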