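import Pool.Agent.Lib.MP_bbe012_lc.PH.HG2
import Pool.Agent.Lib.MP_bbe012_lc.PH.HG3
import Pool.Agent.Lib.MP_bbe012_lc.PH.HP2
import Pool.Agent.Lib.MP_bbe012_lc.PG.DHt

/-!
# The algorithm halts if there is no exceptional relation
-/

namespace Pool.Agent.Lib.MP_bbe012_lc.PH

open MvPolynomial MeasureTheory Set PP PG PT

private theorem HG4_inT_C (m : ℕ) (a : ℚ) : inT m (Polynomial.C a) = C a := by
  change Polynomial.aeval (X 0 : P1 m) (Polynomial.C a) = C a
  rw [Polynomial.aeval_C]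
  rfl

private theorem HG4_inT_X (m : ℕ) : inT m (Polynomial.X - Polynomial.C 1) = X 0 - C 1 := by
  rw [map_sub, HG4_inT_C]
  change Polynomial.aeval (X 0 : P1 m) Polynomial.X - C 1 = X 0 - C 1
  rw [Polynomial.aeval_X]

private theorem HG4_aeval {s : ℕ} (θ : Fin s → ℚ) (p : MvPolynomial (Fin s) ℚ) :
    aeval (cst θ) p = ((aeval θ p : ℚ) : ℝ) := by
  have h := MvPolynomial.aeval_algebraMap_apply (R := ℚ) (A := ℚ) ℝ θ p
  exact h

private theorem HG4_bound {T a : ℕ} {N : ℕ} {x : ℚ} {z : ℤ} {b : ℕ} (hN : N ≤ T ^ a)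
    (hx : |x| ≤ (T : ℚ) ^ b) (hz : (N : ℚ) * x = z) : |(z : ℚ)| ≤ (T : ℚ) ^ a * (T : ℚ) ^ b := by
  rw [← hz, abs_mul, Nat.abs_cast]
  have h1 : (N : ℚ) ≤ (T : ℚ) ^ a := by exact_mod_cast hN
  exact mul_le_mul h1 hx (abs_nonneg _) (pow_nonneg (Nat.cast_nonneg _) _)

private theorem HG4_gt {s : ℕ} {γ : Fin s → Polynomial ℚ} {θ : Fin s → ℚ} (h1 : ∀ i, (γ i).eval 1 = θ i) :
    gt γ 1 = cst θ := by
  funext i
  change Polynomial.aeval (1 : ℝ) (γ i) = ((θ i : ℚ) : ℝ)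
  rw [← h1 i]
  have h := Polynomial.aeval_algebraMap_apply ℝ (1 : ℚ) (γ i)
  rw [map_one] at h
  rw [h]
  rw [Polynomial.coe_aeval_eq_eval]
  rfl

private theorem HG4_JX {n : ℕ} {ι : Type} [Fintype ι] {c : CD n ℚ} (hc : c.Ok) {b : ℕ} (hb : 2 ≤ b) (hN : NdC c b)
    (a : ι → ℚ) (G : ι → TP n ℚ) (W P : TP n ℚ) (K : ℕ) (h : P - ∑ i, C (a i) * G i = (X 0 - C 1) * W) :
    JX c b P K 1 = ∑ i, (a i : ℝ) * JX c b (G i) K 1 := by
  have h1 : (1 : ℝ) ∈ Icc (0 : ℝ) 1 := ⟨zero_le_one, le_rfl⟩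
  have hP : P = ∑ i : Option ι, inT n (i.elim (Polynomial.X - Polynomial.C 1) fun i => Polynomial.C (a i)) *
      i.elim W G := by
    rw [Fintype.sum_option]
    change P = inT n (Polynomial.X - Polynomial.C 1) * W + ∑ i, inT n (Polynomial.C (a i)) * G i
    have h0 : ∑ i, inT n (Polynomial.C (a i)) * G i = ∑ i, C (a i) * G i :=
      Finset.sum_congr rfl fun i _ => by rw [HG4_inT_C]
    rw [HG4_inT_X, ← h, h0]
    ring
  rw [hP, JX_sum hc hb hN h1, Fintype.sum_option, JX_inT_mul]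
  change Polynomial.aeval (1 : ℝ) (Polynomial.X - Polynomial.C 1 : Polynomial ℚ) * JX c b W K 1 +
    ∑ i, JX c b (inT n (Polynomial.C (a i)) * G i) K 1 = _
  have h2 : Polynomial.aeval (1 : ℝ) (Polynomial.X - Polynomial.C 1 : Polynomial ℚ) = 0 := by
    rw [map_sub, Polynomial.aeval_X, Polynomial.aeval_C, map_one, sub_self]
  rw [h2, zero_mul, zero_add]
  refine Finset.sum_congr rfl fun i _ => ?_
  rw [JX_inT_mul, Polynomial.aeval_C]
  rfl

/-- The algorithm is sound. Proof: `mem_decideH`, `checkH_sound`. -/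
theorem decideH_sound {E : ExH} {b : Bool} (h : b ∈ decideH E) : b = true ↔ exhVal E = 0 := by
  obtain ⟨c, hc, rfl⟩ := mem_decideH h
  exact checkH_sound hc

/-- The algorithm halts, given the data of a reduction.

Proof. If `exhVal E ≠ 0`: `exhVal_eq`, `rtH_spec`, `checkNH_complete`. If `exhVal E = 0`: `hz` and `checkZT_complete` (PT/TCheck.lean) with `j = 0` (`qval (qnat 1) = 1`). `dom_decideH`. -/
theorem decideH_dom {E : ExH} {r : RT} {b : ℕ} {x : List NDC} (h : rtH E r b x)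
    (hz : exhVal E = 0 → ∃ U : TP (rtM r * rtN r) ℚ, PhiT (toCD (rtM r * rtN r) (rtC r))
      (pcPoly (rtM r * rtN r + 1) (numG (dropE E) r) + (X 0 - C 1) * U) (rtM r * (rtK r + rtN r)) = 0) :
    (decideH E).Dom := by
  obtain ⟨hb, hT, -, -, -, hN, -⟩ := rtH_spec h
  by_cases h0 : exhVal E = 0
  · obtain ⟨U, hU⟩ := hz h0
    have hU' : PhiT (toCD (rtM r * rtN r) (rtC r)) (pcPoly (rtM r * rtN r + 1) (numG (dropE E) r) *
        (toCD (rtM r * rtN r) (rtC r)).Q ^ 0 + (X 0 - C (qval (qnat 1))) * U)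
        (rtM r * (rtK r + rtN r) + 0) = 0 := by
      rw [pow_zero, mul_one, qval_qnat, Nat.cast_one]
      exact hU
    obtain ⟨x', hx'⟩ := checkZT_complete hT hU'
    exact dom_decideH (c := ((r, (b, x)), (true, (x', (((true, (qnat 0, [])), psc0) : NH)))))
      ⟨h, Or.inl ⟨rfl, hx'⟩⟩
  · rw [exhVal_eq h] at h0
    obtain ⟨x', hx'⟩ := checkNH_complete hb hT hN h0
    exact dom_decideH (c := ((r, (b, x)), (false,
      (((((((0, 0), (0, 0)), (0, 0)), (([], []), ([], [])), ([], [])) : ZCT), x')))))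
      ⟨h, Or.inr ⟨rfl, hx'⟩⟩

/-- The value is a combination of the functions of the patterns. Proof: `exhVal_eq`, `hG` (the multiple of `X 0 - 1` vanishes at `t = 1`), `JX_sum`, `JX_inT_mul` for constants, `JX_GH` at `t = 1`, and `gt γ 1 = cst θ`. -/
theorem exhVal_eq_sum {s n μ A : ℕ} {F : Fin μ → Typ s n} {b : ℕ} {e θ : Fin s → ℚ} {Ω : Set (Fin s → ℝ)}
    (hR : RegOK F b e Ω) {γ : Fin s → Polynomial ℚ} (hγ : PathOK γ e Ω) (h1 : ∀ i, (γ i).eval 1 = θ i)
    {c : Fin μ → CD n ℚ} (hc : ∀ k, IsPathC (F k) γ (c k))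
    {T : CD (μ * A * n) ℚ} {cof : Fin (μ * A) → TP (μ * A * n) ℚ} (hT : TotC c A T cof)
    {E : ExH} {r : RT} {x : List NDC} (hr : rtH E r b x) (hM : rtM r = μ * A) (hn : rtN r = n) (hK : rtK r = A)
    (hTr : toCD (μ * A * n) (rtC r) = T) (nn : PatH μ n A → ℚ)
    (hG : (X 0 - C 1 : TP (μ * A * n) ℚ) ∣ pcPoly (μ * A * n + 1) (numG (dropE E) r) -
      ∑ p, C (nn p) * GH c A cof p) : exhVal E = ∑ p, (nn p : ℝ) * VPH F b A p (cst θ) := by
  have h2 := exhVal_eq hr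
  rw [hM, hn, hK, hTr] at h2
  obtain ⟨W, hW⟩ := hG
  have hNT : NdC T b := NdC_prod hT.prod fun β => NdC_path hR hγ (hc _)
  rw [h2, HG4_JX hT.ok hR.b2 hNT nn _ W _ _ hW]
  refine Finset.sum_congr rfl fun p _ => ?_
  rw [JX_GH hR hγ hc hT p ⟨zero_le_one, le_rfl⟩, HG4_gt h1]

/-- The algorithm halts if there is no exceptional relation between the `VPH F b A (π i)` at `θ`.

Here `F' k = (F k).pad (hm k)`. Proof. As `exists_halt` (PG/DHalt.lean). Let `B` be from `poly_heights` for the family `r p i` and `A' = B + A * A + card (PatH μ n A) + (A + A * A) + B`. Let `T ≥ 2`, `θ`, `E` be as in the statement; a path `γ` from `e` to `θ` in `Ω` (`exists_path`, HA4.lean), charts `c k` (`exists_pathC`, `NdC_path`), `Tc, cof` (`exists_totC`); `exists_redH` gives `rr, x, nn, N`. Apply `decideH_dom`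
(rewrite with `hM`, `hn`, `hK`: `subst`, or generalize). Suppose `exhVal E = 0`. By `exhVal_eq_sum` and `hrel` at `cst θ`: `0 = ∑ i, (∑ p, nn p * r p i (θ)) * VPH (π i)`; the numbers `N N' ∑ p, nn p r p i (θ)` are integers of absolute value at most `T ^ A'`; by `hex` they are `0`. `exists_phiH` gives `U₁` with `PhiT T (∑ p, C (nn p) * GH p + (X 0 - C 1) * U₁) K = 0`, and
`numG = ∑ p, C (nn p) * GH p + (X 0 - C 1) * U₂`, so `U = U₁ - U₂`. -/
theorem exists_haltH {s n μ A ρ b : ℕ} {m : Fin μ → ℕ} (hm : ∀ k, m k ≤ n) {F : (k : Fin μ) → Typ s (m k)}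
    {e : Fin s → ℚ} {Ω : Set (Fin s → ℝ)} (hR : RegOK (fun k => (F k).pad (hm k)) b e Ω)
    {π : Fin ρ → PatH μ n A} {q : MvPolynomial (Fin s) ℚ} {r : PatH μ n A → Fin ρ → MvPolynomial (Fin s) ℚ}
    (hrel : ∀ p, ∀ θ ∈ Ω, aeval θ q * VPH (fun k => (F k).pad (hm k)) b A p θ =
      ∑ i, aeval θ (r p i) * VPH (fun k => (F k).pad (hm k)) b A (π i) θ) :
    ∃ A' : ℕ, ∀ T : ℕ, 2 ≤ T → ∀ θ : Fin s → ℚ, (∀ i, HLE T (θ i)) → cst θ ∈ Ω → aeval θ q ≠ 0 →
      (∀ c : Fin ρ → ℤ, (∀ i, |c i| ≤ (T : ℤ) ^ A') →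
        ∑ i, (c i : ℝ) * VPH (fun k => (F k).pad (hm k)) b A (π i) (cst θ) = 0 → c = 0) →
      ∀ E : ExH, InClassH F b A T θ E → (decideH E).Dom := by
  classical
  obtain ⟨B, hB⟩ := poly_heights (fun x : PatH μ n A × Fin ρ => r x.1 x.2)
  refine ⟨B + A * A + Fintype.card (PatH μ n A) + (A + A * A) + B,
    fun T hT θ hH hθ hq hex E hE => ?_⟩
  obtain ⟨γ, hγ01, hγΩ⟩ := exists_path hR.op hR.pre hR.mem hθ
  have hγ : PathOK γ e Ω := ⟨fun i => (hγ01 i).1, hγΩ⟩
  have h1γ : ∀ i, (γ i).eval 1 = θ i := fun i => (hγ01 i).2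
  choose c hc using fun k => exists_pathC (hR.base k) hγ.zero
  have hNk : ∀ k, NdC (c k) b := fun k => NdC_path hR hγ (hc k)
  obtain ⟨Tc, cof, hTc⟩ := exists_totC c (fun k => (hc k).ok) A
  obtain ⟨rr, x, nn, N, hrr, hM, hn, hK, hTr, hG, hN1, hN2, hnn⟩ :=
    exists_redH hm (by omega) hE hR.b2 h1γ hc hNk hTc
  obtain ⟨N', hN'1, hN'2, hr⟩ := hB T hT θ hH
  refine decideH_dom hrr ?_
  rw [hM, hn, hK, hTr]
  intro h0
  have hval := exhVal_eq_sum hR hγ h1γ hc hTc hrr hM hn hK hTr nn hG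
  rw [h0] at hval
  have hn0 : ∀ i, ∑ p, nn p * aeval θ (r p i) = 0 := by
    choose hnb z hz using hnn
    choose hrb y hy using hr
    have hrelθ : ∀ p, ((aeval θ q : ℚ) : ℝ) * VPH (fun k => (F k).pad (hm k)) b A p (cst θ) =
        ∑ i, ((aeval θ (r p i) : ℚ) : ℝ) * VPH (fun k => (F k).pad (hm k)) b A (π i) (cst θ) := by
      intro p
      have h := hrel p (cst θ) hθ
      rw [HG4_aeval] at h
      rw [h]
      exact Finset.sum_congr rfl fun i _ => by rw [HG4_aeval]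
    have hsum : ∑ i, (∑ p, (nn p : ℝ) * ((aeval θ (r p i) : ℚ) : ℝ)) *
        VPH (fun k => (F k).pad (hm k)) b A (π i) (cst θ) = 0 := by
      have h1 : ∑ p, (nn p : ℝ) * (((aeval θ q : ℚ) : ℝ) * VPH (fun k => (F k).pad (hm k)) b A p (cst θ)) = 0 := by
        have h2 : ∑ p, (nn p : ℝ) * (((aeval θ q : ℚ) : ℝ) * VPH (fun k => (F k).pad (hm k)) b A p (cst θ)) =
            ((aeval θ q : ℚ) : ℝ) * ∑ p, (nn p : ℝ) * VPH (fun k => (F k).pad (hm k)) b A p (cst θ) := by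
          rw [Finset.mul_sum]
          exact Finset.sum_congr rfl fun p _ => by ring
        rw [h2, ← hval, mul_zero]
      rw [← h1]
      have h3 : ∀ p, (nn p : ℝ) * (((aeval θ q : ℚ) : ℝ) * VPH (fun k => (F k).pad (hm k)) b A p (cst θ)) =
          ∑ i, (nn p : ℝ) * ((aeval θ (r p i) : ℚ) : ℝ) *
            VPH (fun k => (F k).pad (hm k)) b A (π i) (cst θ) := by
        intro p
        rw [hrelθ p, Finset.mul_sum]
        exact Finset.sum_congr rfl fun i _ => by ring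
      rw [Finset.sum_congr rfl fun p _ => h3 p, Finset.sum_comm]
      exact Finset.sum_congr rfl fun i _ => by rw [Finset.sum_mul]
    have hcz : ∀ i, ((∑ p, z p * y (p, i) : ℤ) : ℚ) =
        ((N : ℚ) * N') * ∑ p, nn p * aeval θ (r p i) := by
      intro i
      rw [Int.cast_sum, Finset.mul_sum]
      refine Finset.sum_congr rfl fun p _ => ?_
      rw [Int.cast_mul, ← hz p, ← hy (p, i)]
      ring
    have hT0 : (0 : ℚ) ≤ (T : ℚ) := Nat.cast_nonneg _
    have hzero : (fun i => ∑ p, z p * y (p, i) : Fin ρ → ℤ) = 0 := by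
      refine hex _ ?_ ?_
      · intro i
        have h1 : |((∑ p, z p * y (p, i) : ℤ) : ℚ)| ≤
            (T : ℚ) ^ (B + A * A + Fintype.card (PatH μ n A) + (A + A * A) + B) := by
          rw [Int.cast_sum]
          refine (Finset.abs_sum_le_sum_abs _ _).trans ?_
          have h2 : ∀ p ∈ (Finset.univ : Finset (PatH μ n A)), |((z p * y (p, i) : ℤ) : ℚ)| ≤
              ((T : ℚ) ^ (A * A) * (T : ℚ) ^ (A + A * A)) * ((T : ℚ) ^ B * (T : ℚ) ^ B) := by
            intro p _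
            rw [Int.cast_mul, abs_mul]
            exact mul_le_mul (HG4_bound hN2 (hnb p) (hz p)) (HG4_bound hN'2 (hrb (p, i)) (hy (p, i)))
              (abs_nonneg _) (mul_nonneg (pow_nonneg hT0 _) (pow_nonneg hT0 _))
          refine (Finset.sum_le_card_nsmul _ _ _ h2).trans ?_
          rw [nsmul_eq_mul, Finset.card_univ]
          have h3 : (Fintype.card (PatH μ n A) : ℚ) ≤ (T : ℚ) ^ Fintype.card (PatH μ n A) := by
            have h4 : Fintype.card (PatH μ n A) ≤ T ^ Fintype.card (PatH μ n A) :=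
              Nat.lt_two_pow_self.le.trans (Nat.pow_le_pow_left hT _)
            exact_mod_cast h4
          have h5 : (T : ℚ) ^ (B + A * A + Fintype.card (PatH μ n A) + (A + A * A) + B) =
              (T : ℚ) ^ Fintype.card (PatH μ n A) *
                (((T : ℚ) ^ (A * A) * (T : ℚ) ^ (A + A * A)) * ((T : ℚ) ^ B * (T : ℚ) ^ B)) := by
            rw [← pow_add, ← pow_add, ← pow_add, ← pow_add]
            exact congrArg (fun k => (T : ℚ) ^ k) (by ring)
          rw [h5]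
          exact mul_le_mul_of_nonneg_right h3 (mul_nonneg (mul_nonneg (pow_nonneg hT0 _)
            (pow_nonneg hT0 _)) (mul_nonneg (pow_nonneg hT0 _) (pow_nonneg hT0 _)))
        exact_mod_cast h1
      · have h1 : ∀ i, (((∑ p, z p * y (p, i) : ℤ) : ℤ) : ℝ) =
            ((N : ℝ) * N') * ∑ p, (nn p : ℝ) * ((aeval θ (r p i) : ℚ) : ℝ) := by
          intro i
          have h2 := congrArg (fun w : ℚ => (w : ℝ)) (hcz i)
          push_cast at h2
          rw [Int.cast_sum]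
          push_cast
          exact h2
        have h2 : ∀ i, (((∑ p, z p * y (p, i) : ℤ) : ℤ) : ℝ) *
            VPH (fun k => (F k).pad (hm k)) b A (π i) (cst θ) =
            ((N : ℝ) * N') * ((∑ p, (nn p : ℝ) * ((aeval θ (r p i) : ℚ) : ℝ)) *
              VPH (fun k => (F k).pad (hm k)) b A (π i) (cst θ)) := by
          intro i
          rw [h1 i]
          ring
        rw [Finset.sum_congr rfl fun i _ => h2 i, ← Finset.mul_sum, hsum, mul_zero]
    intro i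
    have h1 : ((N : ℚ) * N') * ∑ p, nn p * aeval θ (r p i) = 0 := by
      rw [← hcz i]
      have h2 : (∑ p, z p * y (p, i) : ℤ) = 0 := congrFun hzero i
      rw [h2, Int.cast_zero]
    have hN : (N : ℚ) * N' ≠ 0 := by
      have h2 : (N : ℚ) ≠ 0 := by
        have := hN1
        exact_mod_cast (by omega : N ≠ 0)
      have h3 : (N' : ℚ) ≠ 0 := by
        have := hN'1
        exact_mod_cast (by omega : N' ≠ 0)
      exact mul_ne_zero h2 h3
    exact (mul_eq_zero.1 h1).resolve_left hN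
  obtain ⟨U₁, hU₁⟩ := exists_phiH hR hγ h1γ hc hTc hrel hq nn hn0
  obtain ⟨U₂, hU₂⟩ := hG
  refine ⟨U₁ - U₂, ?_⟩
  rw [← hU₁]
  refine congrArg (fun P => PhiT Tc P (μ * A * (A + n))) ?_
  have h3 := sub_eq_iff_eq_add.1 hU₂
  rw [h3]
  ring

end Pool.Agent.Lib.MP_bbe012_lc.PH
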