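import Pool.Agent.Lib.MP_bbe012_lc.PH.HCodes
import Pool.Agent.Lib.MP_bbe012_lc.PG.CPrim
import Pool.Agent.Lib.MP_bbe012_lc.PT.TPrimC

/-!
# The verifications are primitive recursive, part 1

See PP/CodePrim.lean (`pr_mul`, `pr_pow`, `pr_neg`, `pr_sumRange`, `pr_prodRange`, ...), PG/CPrim.lean, PT/TPrimA.lean, PT/TPrimB.lean for the methods.
-/

namespace Pool.Agent.Lib.MP_bbe012_lc.PH

open Primrec PP PG PT

instance instPrimcodablePSC : Primcodable PSC := @Primcodable.prod _ _ instPrimcodableListP PG.instPrimcodablePCert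
instance instPrimcodableListPSC : Primcodable (List PSC) := @Primcodable.list PSC instPrimcodablePSC
instance instPrimcodableNDC : Primcodable NDC := @Primcodable.prod _ _ instPrimcodablePSC instPrimcodableListPSC
instance instPrimcodableListNDC : Primcodable (List NDC) := @Primcodable.list NDC instPrimcodableNDC
instance instPrimcodableNHA : Primcodable (Bool × (QCode × List PCode)) := PG.instPrimcodableNGA
instance instPrimcodableNH : Primcodable NH := @Primcodable.prod _ _ instPrimcodableNHA instPrimcodablePSC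

variable {α : Type} [Primcodable α]

/-- As `pr_bernC` (PG/CPrim.lean); `pcNat b` is a constant code (`pr_nat` or similar). -/
theorem pr_bernBC {b N : α → ℕ} {u v : α → List ℕ} (hb : Primrec b) (hN : Primrec N) (hu : Primrec u) (hv : Primrec v) :
    Primrec fun a => bernBC (b a) (N a) (u a) (v a) := by
  have hi : Primrec fun q : α × ℕ => pcVar q.2 := pr_var snd
  have hb1 : Primrec fun q : α × ℕ => pcNat (b q.1) := pr_natv (hb.comp fst)
  have hu1 : Primrec fun q : α × ℕ => (u q.1).getD q.2 0 := (list_getD 0).comp (hu.comp fst) snd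
  have hv1 : Primrec fun q : α × ℕ => (v q.1).getD q.2 0 := (list_getD 0).comp (hv.comp fst) snd
  exact pr_prodRange (g := fun a i =>
    pcMul (pcPow (pcNat (b a) ++ pcVar i) ((u a).getD i 0)) (pcPow (pcNat (b a) ++ pcNeg (pcVar i)) ((v a).getD i 0)))
    hN (pr_mul (pr_pow (pr_append hb1 hi) hu1) (pr_pow (pr_append hb1 (pr_neg hi)) hv1)).to₂

theorem pr_posSumB {b N : α → ℕ} {L : α → List (QCode × (List ℕ × List ℕ))} (hb : Primrec b) (hN : Primrec N)
    (hL : Primrec L) : Primrec fun a => posSumB (b a) (N a) (L a) := by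
  have h1 : Primrec fun q : α × ℕ => (L q.1).getD q.2 (qnat 0, ([], [])) :=
    (list_getD (qnat 0, (([] : List ℕ), ([] : List ℕ)))).comp (hL.comp fst) snd
  have h2 : Primrec fun q : α × ℕ => ((L q.1).getD q.2 (qnat 0, ([], []))).2 := snd.comp h1
  exact pr_sumRange (g := fun a j => pcMul (constC ((L a).getD j (qnat 0, ([], []))).1)
    (bernBC (b a) (N a) ((L a).getD j (qnat 0, ([], []))).2.1 ((L a).getD j (qnat 0, ([], []))).2.2))
    (list_length.comp hL)
    (pr_mul (pr_constC (fst.comp h1))
      (pr_bernBC (hb.comp fst) (hN.comp fst) (fst.comp h2) (snd.comp h2))).to₂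

theorem pr_posB {b N : α → ℕ} {p : α → PCode} {c : α → PCert} (hb : Primrec b) (hN : Primrec N) (hp : Primrec p)
    (hc : Primrec c) : PrimrecPred fun a => posB (b a) (N a) (p a) (c a) := by
  have h1 : Primrec fun a => (c a).1 := fst.comp hc
  have h2 : Primrec fun a => (c a).2 := snd.comp hc
  have h3 : PrimrecPred fun a => qltP (qnat 0) (c a).1 := pr_qltP (const (qnat 0)) h1
  have h4 : PrimrecRel fun (t : QCode × (List ℕ × List ℕ)) (_ : α) => qleP (qnat 0) t.1 :=
    pr_qleP (const (qnat 0)) (fst.comp fst)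
  have h5 : PrimrecPred fun a => ∀ t ∈ (c a).2, qleP (qnat 0) t.1 :=
    h4.forall_mem_list.comp h2 Primrec.id
  have h6 : PrimrecPred fun a => pcIsZero (N a) (p a ++ pcNeg (constC (c a).1 ++ posSumB (b a) (N a) (c a).2)) :=
    pr_isZero hN (pr_append hp (pr_neg (pr_append (pr_constC h1) (pr_posSumB hb hN h2))))
  exact h3.and (h5.and h6)

theorem pr_multC {g S : α → List PCode} {p : α → PCode} (hg : Primrec g) (hp : Primrec p) (hS : Primrec S) :
    Primrec fun a => multC (g a) (p a) (S a) := by
  have hS1 : Primrec fun q : α × ℕ => (S q.1).getD q.2 [] := (list_getD []).comp (hS.comp fst) snd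
  have hg1 : Primrec fun q : α × ℕ => (g q.1).getD q.2 [] := (list_getD []).comp (hg.comp fst) snd
  have hsum : Primrec fun a => pcSumRange (g a).length fun j =>
      pcMul (pcMul ((S a).getD j []) ((S a).getD j [])) ((g a).getD j []) :=
    pr_sumRange (g := fun a j => pcMul (pcMul ((S a).getD j []) ((S a).getD j [])) ((g a).getD j []))
      (list_length.comp hg) (pr_mul (pr_mul hS1 hS1) hg1).to₂
  exact pr_append hp (pr_neg hsum)

theorem pr_psC {b N : α → ℕ} {g : α → List PCode} {p : α → PCode} {c : α → PSC} (hb : Primrec b) (hN : Primrec N)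
    (hg : Primrec g) (hp : Primrec p) (hc : Primrec c) : PrimrecPred fun a => psC (b a) (N a) (g a) (p a) (c a) := by
  have h1 : Primrec fun a => (c a).1 := fst.comp hc
  have h2 : Primrec fun a => (c a).2 := snd.comp hc
  exact pr_posB hb hN (pr_multC hg hp h1) h2

/-- `Primrec.list_map`, `Primrec.list_range`, `Primrec.list_append`. -/
theorem pr_ndG {n : α → ℕ} {c : α → CDC} (hn : Primrec n) (hc : Primrec c) : Primrec fun a => ndG (n a) (c a) := by
  have hA : Primrec fun q : α × ℕ => aC (c q.1) q.2 := pr_aC (hc.comp fst) snd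
  have hB : Primrec fun q : α × ℕ => bC (c q.1) q.2 := pr_bC (hc.comp fst) snd
  have hr : Primrec fun a => List.range (n a) := list_range.comp hn
  have h1 : Primrec fun a => (List.range (n a)).map (aC (c a)) := list_map hr hA.to₂
  have h2 : Primrec fun a => (List.range (n a)).map fun l => bC (c a) l ++ pcNeg (aC (c a) l) :=
    list_map hr (pr_append hB (pr_neg hA)).to₂
  have h0 : Primrec fun _ : α => [tC, pcNat 1 ++ pcNeg tC] := const _
  exact list_append.comp h0 (list_append.comp h1 h2)

/-- Bounded quantifiers as in `primrecPred_rcOK` (PP/RedPrim.lean). -/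
theorem pr_ndC {b n : α → ℕ} {c : α → CDC} {x : α → NDC} (hb : Primrec b) (hn : Primrec n) (hc : Primrec c)
    (hx : Primrec x) : PrimrecPred fun a => ndC (b a) (n a) (c a) (x a) := by
  have x1 : Primrec fun a => (x a).1 := fst.comp hx
  have x2 : Primrec fun a => (x a).2 := snd.comp hx
  have h1 : PrimrecPred fun a => psC (b a) (n a + 1) (ndG (n a) (c a)) (qC (c a)) (x a).1 :=
    pr_psC hb (succ.comp hn) (pr_ndG hn hc) (pr_qC hc) x1
  have hb1 : Primrec fun q : ℕ × α => b q.2 := hb.comp snd
  have hl : Primrec fun q : ℕ × α => pcVar (q.1 + 1) := pr_var (succ.comp fst)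
  have hy : Primrec fun q : ℕ × α => (x q.2).2.getD q.1 psc0 := (list_getD psc0).comp (x2.comp snd) fst
  have h2 : PrimrecRel fun (l : ℕ) (a : α) => psC (b a) (n a + 1) (ndG (n a) (c a))
      (pcNat (b a * b a) ++ pcNeg (pcMul (pcVar (l + 1)) (pcVar (l + 1)))) ((x a).2.getD l psc0) :=
    pr_psC hb1 (succ.comp (hn.comp snd)) (pr_ndG (hn.comp snd) (hc.comp snd))
      (pr_append (pr_natv (nat_mul.comp hb1 hb1)) (pr_neg (pr_mul hl hl))) hy
  have h2' : PrimrecPred fun a : α => ∀ l ∈ List.range (n a), psC (b a) (n a + 1) (ndG (n a) (c a))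
      (pcNat (b a * b a) ++ pcNeg (pcMul (pcVar (l + 1)) (pcVar (l + 1)))) ((x a).2.getD l psc0) :=
    h2.forall_mem_list.comp (list_range.comp hn) Primrec.id
  exact h1.and h2'

theorem pr_nhG {n : α → ℕ} {c : α → CDC} (hn : Primrec n) (hc : Primrec c) : Primrec fun a => nhG (n a) (c a) := by
  have hr : Primrec fun a => List.range (n a) := list_range.comp hn
  have hn1 : Primrec fun q : α × ℕ => n q.1 := hn.comp fst
  have hv : Primrec fun q : α × ℕ => pcVar q.2 := pr_var snd
  have hA : Primrec fun q : α × ℕ => xC (n q.1) (qnat 1) (aC (c q.1) q.2) :=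
    pr_xC hn1 (const (qnat 1)) (pr_aC (hc.comp fst) snd)
  have hB : Primrec fun q : α × ℕ => xC (n q.1) (qnat 1) (bC (c q.1) q.2) :=
    pr_xC hn1 (const (qnat 1)) (pr_bC (hc.comp fst) snd)
  have h1 : Primrec fun a => (List.range (n a)).map fun l => pcVar l := list_map hr hv.to₂
  have h2 : Primrec fun a => (List.range (n a)).map fun l => pcNat 1 ++ pcNeg (pcVar l) :=
    list_map hr (pr_append (pr_nat 1) (pr_neg hv)).to₂
  have h3 : Primrec fun a => (List.range (n a)).map fun l =>
      xC (n a) (qnat 1) (aC (c a) l) ++ pcNeg (pcMul (pcVar l) (xC (n a) (qnat 1) (bC (c a) l))) :=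
    list_map hr (pr_append hA (pr_neg (pr_mul hv hB))).to₂
  have h4 : Primrec fun a => (List.range (n a)).map fun l =>
      pcMul (pcVar l) (xC (n a) (qnat 1) (bC (c a) l)) ++ pcNeg (xC (n a) (qnat 1) (aC (c a) l)) :=
    list_map hr (pr_append (pr_mul hv hB) (pr_neg hA)).to₂
  have h5 : Primrec fun a => (List.range (n a)).map fun l => xC (n a) (qnat 1) (aC (c a) l) :=
    list_map hr hA.to₂
  have h6 : Primrec fun a => (List.range (n a)).map fun l =>
      xC (n a) (qnat 1) (bC (c a) l) ++ pcNeg (xC (n a) (qnat 1) (aC (c a) l)) :=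
    list_map hr (pr_append hB (pr_neg hA)).to₂
  exact list_append.comp (list_append.comp (list_append.comp (list_append.comp (list_append.comp h1 h2) h3) h4) h5) h6

private theorem hP1_exC {n : α → ℕ} {E : α → List PCode} (hn : Primrec n) (hE : Primrec E) :
    Primrec fun a => exC (n a) (E a) := by
  have hg1 : Primrec fun q : α × ℕ => (E q.1).getD q.2 [] := (list_getD []).comp (hE.comp fst) snd
  have hl : Primrec fun q : α × ℕ => q.2 := snd
  exact pr_sumRange (g := fun a l =>
    pcDer l (pcMul (pcVar l ++ pcNeg (pcMul (pcVar l) (pcVar l))) ((E a).getD l []))) hn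
    (pr_der hl (pr_mul (pr_append (pr_var hl) (pr_neg (pr_mul (pr_var hl) (pr_var hl)))) hg1)).to₂

theorem pr_nhC {n K : α → ℕ} {c : α → CDC} {G : α → PCode} {x : α → NH} (hn : Primrec n) (hc : Primrec c)
    (hG : Primrec G) (hK : Primrec K) (hx : Primrec x) : Primrec fun a => nhC (n a) (c a) (G a) (K a) (x a) := by
  have x1 : Primrec fun a => (x a).1 := fst.comp hx
  have xσ : Primrec fun a => (x a).1.1 := fst.comp x1
  have x12 : Primrec fun a => (x a).1.2 := snd.comp x1
  have xa : Primrec fun a => (x a).1.2.1 := fst.comp x12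
  have xE : Primrec fun a => (x a).1.2.2 := snd.comp x12
  have hσ : PrimrecPred fun a => (x a).1.1 = true := Primrec.eq.comp xσ (const true)
  have hG1 : Primrec fun a => xC (n a) (qnat 1) (G a) := pr_xC hn (const (qnat 1)) hG
  have hQ1 : Primrec fun a => xC (n a) (qnat 1) (qC (c a)) := pr_xC hn (const (qnat 1)) (pr_qC hc)
  have hI : Primrec fun a => if (x a).1.1 = true then xC (n a) (qnat 1) (G a) else pcNeg (xC (n a) (qnat 1) (G a)) :=
    Primrec.ite hσ hG1 (pr_neg hG1)
  exact pr_append hI (pr_neg (pr_mul (pr_trunc hn (pr_append (pr_constC xa) (hP1_exC hn xE))) (pr_pow hQ1 hK)))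

theorem pr_checkNH {b n K : α → ℕ} {c : α → CDC} {G : α → PCode} {x : α → NH} (hb : Primrec b) (hn : Primrec n)
    (hc : Primrec c) (hG : Primrec G) (hK : Primrec K) (hx : Primrec x) :
    PrimrecPred fun a => checkNH (b a) (n a) (c a) (G a) (K a) (x a) := by
  have x1 : Primrec fun a => (x a).1 := fst.comp hx
  have x12 : Primrec fun a => (x a).1.2 := snd.comp x1
  have xa : Primrec fun a => (x a).1.2.1 := fst.comp x12
  have x2 : Primrec fun a => (x a).2 := snd.comp hx
  have h1 : PrimrecPred fun a => qleP (qnat 0) (x a).1.2.1 := pr_qleP (const (qnat 0)) xa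
  have h2 : PrimrecPred fun a => psC (b a) (n a + n a) (nhG (n a) (c a))
      (nhC (n a) (c a) (G a) (K a) (x a)) (x a).2 :=
    pr_psC hb (nat_add.comp hn hn) (pr_nhG hn hc) (pr_nhC hn hc hG hK hx) x2
  exact h1.and h2

end Pool.Agent.Lib.MP_bbe012_lc.PH
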